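import Mathlib

/-!
Elementary symplectic linear algebra on `P m = (Fin m → ℝ) × (Fin m → ℝ)`.
-/

namespace Pool.Agent.H73

open scoped ContDiff
open Finset

/-- configuration space -/
abbrev V (m : ℕ) := Fin m → ℝ
/-- phase space, pairs (position, momentum) -/
abbrev P (m : ℕ) := V m × V m

/-- position basis vector -/
def ex {m : ℕ} (j : Fin m) : P m := (Pi.single j 1, 0)
/-- momentum basis vector -/
def ey {m : ℕ} (j : Fin m) : P m := (0, Pi.single j 1)

/-- Poisson pairing of two covectors. -/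
def bk {m : ℕ} (L L' : P m →L[ℝ] ℝ) : ℝ :=
  ∑ j, (L (ex j) * L' (ey j) - L (ey j) * L' (ex j))

/-- Poisson bracket. -/
noncomputable def pb {m : ℕ} (F G : P m → ℝ) (x : P m) : ℝ := bk (fderiv ℝ F x) (fderiv ℝ G x)

variable {m : ℕ}

lemma bk_antisymm (L L' : P m →L[ℝ] ℝ) : bk L L' = - bk L' L := by
  unfold bk
  rw [← Finset.sum_neg_distrib]
  refine Finset.sum_congr rfl fun j _ => ?_
  ring

lemma bk_self (L : P m →L[ℝ] ℝ) : bk L L = 0 := by
  have := bk_antisymm L L
  linarith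

lemma bk_zero_left (L : P m →L[ℝ] ℝ) : bk 0 L = 0 := by simp [bk]
lemma bk_zero_right (L : P m →L[ℝ] ℝ) : bk L 0 = 0 := by simp [bk]

lemma bk_add_left (L₁ L₂ L : P m →L[ℝ] ℝ) : bk (L₁ + L₂) L = bk L₁ L + bk L₂ L := by
  unfold bk
  rw [← Finset.sum_add_distrib]
  refine Finset.sum_congr rfl fun j _ => ?_
  simp only [add_apply]
  ring

lemma bk_smul_left (c : ℝ) (L₁ L : P m →L[ℝ] ℝ) : bk (c • L₁) L = c * bk L₁ L := by
  unfold bk
  rw [Finset.mul_sum]
  refine Finset.sum_congr rfl fun j _ => ?_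
  simp only [smul_apply, smul_eq_mul]
  ring

lemma bk_sum_left {ι : Type*} (s : Finset ι) (L₁ : ι → P m →L[ℝ] ℝ) (L : P m →L[ℝ] ℝ) :
    bk (∑ i ∈ s, L₁ i) L = ∑ i ∈ s, bk (L₁ i) L := by
  classical
  induction s using Finset.induction_on with
  | empty => simp [bk_zero_left]
  | insert a s ha ih => rw [Finset.sum_insert ha, Finset.sum_insert ha, bk_add_left, ih]

lemma bk_smul_right (c : ℝ) (L L₁ : P m →L[ℝ] ℝ) : bk L (c • L₁) = c * bk L L₁ := by
  rw [bk_antisymm, bk_smul_left, bk_antisymm L₁ L]; ring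

lemma bk_add_right (L L₁ L₂ : P m →L[ℝ] ℝ) : bk L (L₁ + L₂) = bk L L₁ + bk L L₂ := by
  rw [bk_antisymm, bk_add_left, bk_antisymm L₁ L, bk_antisymm L₂ L]; ring

lemma bk_sum_right {ι : Type*} (s : Finset ι) (L₁ : ι → P m →L[ℝ] ℝ) (L : P m →L[ℝ] ℝ) :
    bk L (∑ i ∈ s, L₁ i) = ∑ i ∈ s, bk L (L₁ i) := by
  rw [bk_antisymm, bk_sum_left, ← Finset.sum_neg_distrib]
  refine Finset.sum_congr rfl fun i _ => ?_
  rw [← bk_antisymm]

lemma pb_antisymm (F G : P m → ℝ) (x : P m) : pb F G x = - pb G F x := bk_antisymm _ _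

lemma pb_self (F : P m → ℝ) (x : P m) : pb F F x = 0 := bk_self _

/-- A directional derivative vanishes if the function is invariant in that direction. -/
lemma fderiv_eq_zero_of_inv {E : Type*} [NormedAddCommGroup E] [NormedSpace ℝ E]
    {F : E → ℝ} {x v : E} (h : ∀ τ : ℝ, F (x + τ • v) = F x) : fderiv ℝ F x v = 0 := by
  by_cases hd : DifferentiableAt ℝ F x
  · have h1 : HasDerivAt (fun τ : ℝ => F (x + τ • v)) (fderiv ℝ F x v) 0 := by
      have h2 : HasDerivAt (fun τ : ℝ => x + τ • v) v 0 := by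
        simpa using ((hasDerivAt_id (0:ℝ)).smul_const v).const_add x
      have h3 : HasFDerivAt F (fderiv ℝ F x) (x + (0:ℝ) • v) := by
        simpa using hd.hasFDerivAt
      exact h3.comp_hasDerivAt 0 h2
    have h4 : HasDerivAt (fun τ : ℝ => F (x + τ • v)) 0 0 := by
      simp only [h]
      exact hasDerivAt_const _ _
    exact h1.unique h4
  · rw [fderiv_zero_of_not_differentiableAt hd]; rfl

/-- expansion of a covector on `Fin r → ℝ` -/
lemma clm_pi_expand {r : ℕ} (ℓ : (Fin r → ℝ) →L[ℝ] ℝ) (v : Fin r → ℝ) :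
    ℓ v = ∑ j, v j * ℓ (Pi.single j 1) := by
  have h := LinearMap.pi_apply_eq_sum_univ (ℓ : (Fin r → ℝ) →ₗ[ℝ] ℝ) v
  simp only [ContinuousLinearMap.coe_coe, smul_eq_mul] at h
  rw [h]
  refine Finset.sum_congr rfl fun j _ => ?_
  congr 2
  ext i
  simp [Pi.single_apply, eq_comm]

/-- derivative of a function of several functions -/
lemma fderiv_comp_pi {E : Type*} [NormedAddCommGroup E] [NormedSpace ℝ E] {r : ℕ}
    {A : Fin r → E → ℝ} {Θ : (Fin r → ℝ) → ℝ} {x : E}
    (hA : ∀ j, DifferentiableAt ℝ (A j) x)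
    (hΘ : DifferentiableAt ℝ Θ (fun j => A j x)) :
    fderiv ℝ (fun y => Θ (fun j => A j y)) x =
      ∑ j, (fderiv ℝ Θ (fun j => A j x) (Pi.single j 1)) • fderiv ℝ (A j) x := by
  have hA' : HasFDerivAt (fun y => (fun j => A j y))
      (ContinuousLinearMap.pi fun j => fderiv ℝ (A j) x) x := by
    rw [hasFDerivAt_pi]
    exact fun j => (hA j).hasFDerivAt
  have h1 : HasFDerivAt (fun y => Θ (fun j => A j y))
      ((fderiv ℝ Θ (fun j => A j x)).comp (ContinuousLinearMap.pi fun j => fderiv ℝ (A j) x)) x :=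
    hΘ.hasFDerivAt.comp x hA'
  rw [h1.fderiv]
  refine ContinuousLinearMap.ext fun v => ?_
  rw [ContinuousLinearMap.comp_apply, clm_pi_expand]
  simp only [FunLike.coe_sum, FunLike.coe_smul, Finset.sum_apply, Pi.smul_apply, smul_eq_mul,
    ContinuousLinearMap.coe_pi']
  refine Finset.sum_congr rfl fun j _ => ?_
  ring

/-- chain rule for the Poisson pairing -/
lemma bk_fderiv_comp_left {r : ℕ} {A : Fin r → P m → ℝ} {Θ : (Fin r → ℝ) → ℝ} {x : P m}
    (hA : ∀ j, DifferentiableAt ℝ (A j) x)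
    (hΘ : DifferentiableAt ℝ Θ (fun j => A j x)) (L : P m →L[ℝ] ℝ)
    (h : ∀ j, bk (fderiv ℝ (A j) x) L = 0) :
    bk (fderiv ℝ (fun y => Θ (fun j => A j y)) x) L = 0 := by
  rw [fderiv_comp_pi hA hΘ, bk_sum_left]
  refine Finset.sum_eq_zero fun j _ => ?_
  rw [bk_smul_left, h j, mul_zero]

/-- functions of commuting functions commute -/
lemma pb_comp_comp {r : ℕ} {A : Fin r → P m → ℝ} {Θ Θ' : (Fin r → ℝ) → ℝ} {x : P m}
    (hA : ∀ j, DifferentiableAt ℝ (A j) x)
    (hΘ : DifferentiableAt ℝ Θ (fun j => A j x))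
    (hΘ' : DifferentiableAt ℝ Θ' (fun j => A j x))
    (h : ∀ i j, pb (A i) (A j) x = 0) :
    pb (fun y => Θ (fun j => A j y)) (fun y => Θ' (fun j => A j y)) x = 0 := by
  unfold pb
  refine bk_fderiv_comp_left hA hΘ _ fun j => ?_
  rw [bk_antisymm, bk_fderiv_comp_left hA hΘ' _ fun i => h i j, neg_zero]

/-- The algebra behind the fact that a cotangent lift preserves Poisson brackets. -/
lemma bk_lift {L L' ℓ ℓ' : P m →L[ℝ] ℝ} {M S : Fin m → Fin m → ℝ}
    (hS : ∀ i k, S i k = S k i)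
    (h1 : ∀ j, L (ey j) = ∑ i, M j i * ℓ (ey i))
    (h1' : ∀ j, L' (ey j) = ∑ i, M j i * ℓ' (ey i))
    (h2 : ∀ l, ∑ j, M j l * L (ex j) = ℓ (ex l) + ∑ i, S l i * ℓ (ey i))
    (h2' : ∀ l, ∑ j, M j l * L' (ex j) = ℓ' (ex l) + ∑ i, S l i * ℓ' (ey i)) :
    bk L L' = bk ℓ ℓ' := by
  have e1 : ∑ j, L (ex j) * L' (ey j)
      = ∑ i, ℓ (ex i) * ℓ' (ey i) + ∑ i, ∑ k, S i k * (ℓ (ey k) * ℓ' (ey i)) := by
    calc ∑ j, L (ex j) * L' (ey j) = ∑ j, ∑ i, M j i * L (ex j) * ℓ' (ey i) := by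
          refine Finset.sum_congr rfl fun j _ => ?_
          rw [h1', Finset.mul_sum]
          refine Finset.sum_congr rfl fun i _ => ?_
          ring
      _ = ∑ i, (∑ j, M j i * L (ex j)) * ℓ' (ey i) := by
          rw [Finset.sum_comm]
          refine Finset.sum_congr rfl fun i _ => ?_
          rw [Finset.sum_mul]
      _ = _ := by
          rw [← Finset.sum_add_distrib]
          refine Finset.sum_congr rfl fun i _ => ?_
          rw [h2, add_mul, Finset.sum_mul]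
          congr 1
          refine Finset.sum_congr rfl fun k _ => ?_
          ring
  have e2 : ∑ j, L (ey j) * L' (ex j)
      = ∑ i, ℓ (ey i) * ℓ' (ex i) + ∑ i, ∑ k, S i k * (ℓ (ey i) * ℓ' (ey k)) := by
    calc ∑ j, L (ey j) * L' (ex j) = ∑ j, ∑ i, M j i * L' (ex j) * ℓ (ey i) := by
          refine Finset.sum_congr rfl fun j _ => ?_
          rw [h1, Finset.sum_mul]
          refine Finset.sum_congr rfl fun i _ => ?_
          ring
      _ = ∑ i, (∑ j, M j i * L' (ex j)) * ℓ (ey i) := by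
          rw [Finset.sum_comm]
          refine Finset.sum_congr rfl fun i _ => ?_
          rw [Finset.sum_mul]
      _ = _ := by
          rw [← Finset.sum_add_distrib]
          refine Finset.sum_congr rfl fun i _ => ?_
          rw [h2', add_mul, Finset.sum_mul]
          congr 1
          · ring
          refine Finset.sum_congr rfl fun k _ => ?_
          ring
  have e3 : ∑ i, ∑ k, S i k * (ℓ (ey k) * ℓ' (ey i))
      = ∑ i, ∑ k, S i k * (ℓ (ey i) * ℓ' (ey k)) := by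
    rw [Finset.sum_comm]
    refine Finset.sum_congr rfl fun i _ => Finset.sum_congr rfl fun k _ => ?_
    rw [hS]
  unfold bk
  rw [Finset.sum_sub_distrib, Finset.sum_sub_distrib, e1, e2, e3]
  ring

end Pool.Agent.H73
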