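import Mathlib
import Pool.Agent.H73.Symp

/-!
Cotangent lifts preserve the Poisson bracket.
-/

namespace Pool.Agent.H73

open scoped ContDiff Topology
open Finset Filter

variable {m : ℕ}

/-- dot product -/
def dp (a b : V m) : ℝ := ∑ i, a i * b i

lemma dp_single_right (a : V m) (i : Fin m) : dp a (Pi.single i 1) = a i := by
  unfold dp
  rw [Finset.sum_eq_single i] <;> simp +contextual [Pi.single_apply]

lemma dp_ext {a b : V m} (h : ∀ v, dp a v = dp b v) : a = b := by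
  funext i
  rw [← dp_single_right a i, ← dp_single_right b i, h]

lemma dp_add_left (a b c : V m) : dp (a + b) c = dp a c + dp b c := by
  unfold dp; rw [← Finset.sum_add_distrib]
  exact Finset.sum_congr rfl fun i _ => by simp [add_mul]

lemma dp_smul_left (r : ℝ) (a c : V m) : dp (r • a) c = r * dp a c := by
  unfold dp; rw [Finset.mul_sum]
  exact Finset.sum_congr rfl fun i _ => by simp [mul_assoc]

lemma dp_sub_left (a b c : V m) : dp (a - b) c = dp a c - dp b c := by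
  unfold dp; rw [← Finset.sum_sub_distrib]
  exact Finset.sum_congr rfl fun i _ => by simp [sub_mul]

/-- any continuous linear map in coordinates -/
lemma clm_dp (T : V m →L[ℝ] V m) (Y : V m) (v : V m) :
    dp (fun i => dp Y (T (Pi.single i 1))) v = dp Y (T v) := by
  unfold dp
  have h : ∀ j, T v j = ∑ i, v i * T (Pi.single i 1) j := by
    intro j
    have := clm_pi_expand ((ContinuousLinearMap.proj (R := ℝ) (φ := fun _ : Fin m => ℝ) j).comp T) v
    simpa using this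
  simp only [h]
  simp only [Finset.sum_mul, Finset.mul_sum]
  rw [Finset.sum_comm]
  refine Finset.sum_congr rfl fun i _ => Finset.sum_congr rfl fun j _ => ?_
  ring

/-- the momentum coordinates of the cotangent lift -/
noncomputable def pT (Ψ : V m → V m) (q Y : V m) : V m :=
  fun i => dp Y (fderiv ℝ Ψ q (Pi.single i 1))

lemma pT_dp (Ψ : V m → V m) (q Y v : V m) : dp (pT Ψ q Y) v = dp Y (fderiv ℝ Ψ q v) :=
  clm_dp _ _ _

/-- inverse of the momentum map at a given point -/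
noncomputable def Yof (Ψ : V m → V m) (q p : V m) : V m :=
  fun i => dp p ((fderiv ℝ Ψ q).inverse (Pi.single i 1))

lemma Yof_dp (Ψ : V m → V m) (q p v : V m) :
    dp (Yof Ψ q p) v = dp p ((fderiv ℝ Ψ q).inverse v) :=
  clm_dp _ _ _

lemma pT_Yof {Ψ : V m → V m} {q : V m} (h : (fderiv ℝ Ψ q).IsInvertible) (p : V m) :
    pT Ψ q (Yof Ψ q p) = p := by
  refine dp_ext fun v => ?_
  rw [pT_dp, Yof_dp]
  congr 1
  obtain ⟨e, he⟩ := h
  rw [← he]
  simp

lemma Yof_pT {Ψ : V m → V m} {q : V m} (h : (fderiv ℝ Ψ q).IsInvertible) (Y : V m) :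
    Yof Ψ q (pT Ψ q Y) = Y := by
  refine dp_ext fun v => ?_
  rw [Yof_dp, pT_dp]
  congr 1
  obtain ⟨e, he⟩ := h
  rw [← he]
  simp

lemma dp_contDiff {E : Type*} [NormedAddCommGroup E] [NormedSpace ℝ E] {n : WithTop ℕ∞}
    {f g : E → V m} {x : E}
    (hf : ContDiffAt ℝ n f x) (hg : ContDiffAt ℝ n g x) : ContDiffAt ℝ n (fun x => dp (f x) (g x)) x := by
  unfold dp
  refine ContDiffAt.sum fun i _ => ?_
  have h1 : ContDiffAt ℝ n (fun x => f x i) x := by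
    exact (contDiffAt_pi.1 hf) i
  have h2 : ContDiffAt ℝ n (fun x => g x i) x := (contDiffAt_pi.1 hg) i
  exact h1.mul h2

lemma fderiv_smooth {Ψ : V m → V m} (h : ContDiff ℝ ∞ Ψ) : ContDiff ℝ ∞ (fderiv ℝ Ψ) :=
  h.fderiv_right (m := ∞) (by simp)

lemma pT_contDiff {Ψ : V m → V m} (h : ContDiff ℝ ∞ Ψ) :
    ContDiff ℝ ∞ (fun x : P m => pT Ψ x.1 x.2) := by
  rw [contDiff_iff_contDiffAt]
  intro x
  rw [contDiffAt_pi]
  intro i
  refine dp_contDiff contDiff_snd.contDiffAt ?_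
  have h1 : ContDiff ℝ ∞ (fun x : P m => fderiv ℝ Ψ x.1) := (fderiv_smooth h).comp contDiff_fst
  exact (h1.clm_apply contDiff_const).contDiffAt

lemma Yof_contDiffAt {Ψ : V m → V m} (h : ContDiff ℝ ∞ Ψ) {x : P m}
    (hx : (fderiv ℝ Ψ x.1).IsInvertible) :
    ContDiffAt ℝ ∞ (fun x : P m => Yof Ψ x.1 x.2) x := by
  rw [contDiffAt_pi]
  intro i
  refine dp_contDiff contDiff_snd.contDiffAt ?_
  have h1 : ContDiffAt ℝ ∞ (fun x : P m => fderiv ℝ Ψ x.1) x :=
    ((fderiv_smooth h).comp contDiff_fst).contDiffAt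
  have h3 : ContDiffAt ℝ ∞ (ContinuousLinearMap.inverse : (V m →L[ℝ] V m) → (V m →L[ℝ] V m))
      (fderiv ℝ Ψ x.1) := hx.contDiffAt_map_inverse
  have h2 : ContDiffAt ℝ ∞ (fun x : P m => (fderiv ℝ Ψ x.1).inverse) x :=
    ContDiffAt.comp (g := (ContinuousLinearMap.inverse : (V m →L[ℝ] V m) → (V m →L[ℝ] V m)))
      x h3 h1
  exact h2.clm_apply contDiffAt_const

/-- second derivative matrix paired with the momentum -/
noncomputable def Smat (Ψ : V m → V m) (q Y : V m) (l i : Fin m) : ℝ :=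
  dp Y (fderiv ℝ (fderiv ℝ Ψ) q (Pi.single l 1) (Pi.single i 1))

lemma Smat_symm {Ψ : V m → V m} (h : ContDiff ℝ ∞ Ψ) (q Y : V m) (l i : Fin m) :
    Smat Ψ q Y l i = Smat Ψ q Y i l := by
  unfold Smat
  have h1 : IsSymmSndFDerivAt ℝ Ψ q :=
    (h.contDiffAt).isSymmSndFDerivAt (by
      have h2 : ((2 : ℕ∞) : WithTop ℕ∞) ≤ ((⊤ : ℕ∞) : WithTop ℕ∞) := WithTop.coe_le_coe.2 le_top
      simpa using h2)
  rw [h1]

lemma pT_hasFDerivAt_dir {Ψ : V m → V m} (h : ContDiff ℝ ∞ Ψ) (x v : P m) (i : Fin m) :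
    fderiv ℝ (fun x : P m => pT Ψ x.1 x.2) x v i =
      dp v.2 (fderiv ℝ Ψ x.1 (Pi.single i 1)) +
      dp x.2 (fderiv ℝ (fderiv ℝ Ψ) x.1 v.1 (Pi.single i 1)) := by
  have hd : DifferentiableAt ℝ (fun x : P m => pT Ψ x.1 x.2) x :=
    (pT_contDiff h).differentiable (by simp) x
  have h0 : HasDerivAt (fun τ : ℝ => pT Ψ (x + τ • v).1 (x + τ • v).2)
      (fderiv ℝ (fun x : P m => pT Ψ x.1 x.2) x v) 0 := by
    have h2 : HasDerivAt (fun τ : ℝ => x + τ • v) v 0 := by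
      simpa using ((hasDerivAt_id (0:ℝ)).smul_const v).const_add x
    have h3 : HasFDerivAt (fun x : P m => pT Ψ x.1 x.2)
      (fderiv ℝ (fun x : P m => pT Ψ x.1 x.2) x) (x + (0:ℝ) • v) := by
      simpa using hd.hasFDerivAt
    exact h3.comp_hasDerivAt 0 h2
  have h1 : HasDerivAt (fun τ : ℝ => pT Ψ (x + τ • v).1 (x + τ • v).2 i)
      (fderiv ℝ (fun x : P m => pT Ψ x.1 x.2) x v i) 0 := (hasDerivAt_pi.1 h0) i
  refine h1.unique ?_
  unfold pT dp
  rw [← Finset.sum_add_distrib]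
  refine HasDerivAt.fun_sum fun j _ => ?_
  have hY : HasDerivAt (fun τ : ℝ => (x + τ • v).2 j) (v.2 j) 0 := by
    have : (fun τ : ℝ => (x + τ • v).2 j) = fun τ => x.2 j + τ * v.2 j := by
      funext τ; simp
    rw [this]
    simpa using ((hasDerivAt_id (0:ℝ)).mul_const (v.2 j)).const_add (x.2 j)
  have hM : HasDerivAt (fun τ : ℝ => fderiv ℝ Ψ (x + τ • v).1 (Pi.single i 1) j)
      (fderiv ℝ (fderiv ℝ Ψ) x.1 v.1 (Pi.single i 1) j) 0 := by
    have h5 : HasDerivAt (fun τ : ℝ => (x + τ • v).1) v.1 0 := by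
      have : (fun τ : ℝ => (x + τ • v).1) = fun τ => x.1 + τ • v.1 := by
        funext τ; simp
      rw [this]
      simpa using ((hasDerivAt_id (0:ℝ)).smul_const v.1).const_add x.1
    have h6 : HasFDerivAt (fderiv ℝ Ψ) (fderiv ℝ (fderiv ℝ Ψ) x.1) (x + (0:ℝ) • v).1 := by
      simpa using ((fderiv_smooth h).differentiable (by simp) x.1).hasFDerivAt
    have h7 := h6.comp_hasDerivAt (0:ℝ) h5
    have h8 := h7.clm_apply (hasDerivAt_const (0:ℝ) (Pi.single i (1:ℝ) : V m))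
    have h9 := (hasDerivAt_pi.1 h8) j
    simpa using h9
  have := hY.mul hM
  refine this.congr_deriv ?_
  simp

/-- `F` is locally the cotangent lift of `𝔉` near `(q, Y)`. -/
def IsLift (Ψ : V m → V m) (F f : P m → ℝ) (q Y : V m) : Prop :=
  ∀ᶠ x : P m in 𝓝 (q, Y), F (Ψ x.1, x.2) = f (x.1, pT Ψ x.1 x.2)

lemma lift_fderiv {Ψ : V m → V m} (h : ContDiff ℝ ∞ Ψ) {F f : P m → ℝ} {q Y : V m}
    (hF : DifferentiableAt ℝ F (Ψ q, Y)) (hf : DifferentiableAt ℝ f (q, pT Ψ q Y))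
    (hl : IsLift Ψ F f q Y) (a b : V m) :
    fderiv ℝ F (Ψ q, Y) (fderiv ℝ Ψ q a, b) =
      fderiv ℝ f (q, pT Ψ q Y) (a, fderiv ℝ (fun x : P m => pT Ψ x.1 x.2) (q, Y) (a, b)) := by
  have hP : HasFDerivAt Ψ (fderiv ℝ Ψ q) q := (h.differentiable (by simp) q).hasFDerivAt
  have hM1 : HasFDerivAt (fun x : P m => (Ψ x.1, x.2))
      (((fderiv ℝ Ψ q).comp (ContinuousLinearMap.fst ℝ (V m) (V m))).prod
        (ContinuousLinearMap.snd ℝ (V m) (V m))) (q, Y) := by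
    refine HasFDerivAt.prodMk ?_ hasFDerivAt_snd
    exact HasFDerivAt.comp (q, Y) hP hasFDerivAt_fst
  have hpT : HasFDerivAt (fun x : P m => pT Ψ x.1 x.2)
      (fderiv ℝ (fun x : P m => pT Ψ x.1 x.2) (q, Y)) (q, Y) :=
    ((pT_contDiff h).differentiable (by simp) (q, Y)).hasFDerivAt
  have hM2 : HasFDerivAt (fun x : P m => (x.1, pT Ψ x.1 x.2))
      ((ContinuousLinearMap.fst ℝ (V m) (V m)).prod
        (fderiv ℝ (fun x : P m => pT Ψ x.1 x.2) (q, Y))) (q, Y) :=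
    HasFDerivAt.prodMk hasFDerivAt_fst hpT
  have h1 := HasFDerivAt.comp (q, Y) (g := F) (f := fun x : P m => (Ψ x.1, x.2))
    hF.hasFDerivAt hM1
  have h2 := HasFDerivAt.comp (q, Y) (g := f) (f := fun x : P m => (x.1, pT Ψ x.1 x.2))
    hf.hasFDerivAt hM2
  have h3 := h2.congr_of_eventuallyEq (f₁ := F ∘ fun x : P m => (Ψ x.1, x.2)) hl
  have h4 := h1.unique h3
  have := congrArg (fun L : P m →L[ℝ] ℝ => L (a, b)) h4
  simpa using this

lemma clm_P_expand_fst (L : P m →L[ℝ] ℝ) (v : V m) : L (v, 0) = ∑ j, v j * L (ex j) := by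
  have := clm_pi_expand (L.comp (ContinuousLinearMap.inl ℝ (V m) (V m))) v
  simpa [ex] using this

lemma clm_P_expand_snd (L : P m →L[ℝ] ℝ) (v : V m) : L (0, v) = ∑ j, v j * L (ey j) := by
  have := clm_pi_expand (L.comp (ContinuousLinearMap.inr ℝ (V m) (V m))) v
  simpa [ey] using this

lemma clm_P_split (L : P m →L[ℝ] ℝ) (a b : V m) : L (a, b) = L (a, 0) + L (0, b) := by
  rw [← map_add]; simp

lemma lift_fderiv_ey {Ψ : V m → V m} (h : ContDiff ℝ ∞ Ψ) {F f : P m → ℝ} {q Y : V m}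
    (hF : DifferentiableAt ℝ F (Ψ q, Y)) (hf : DifferentiableAt ℝ f (q, pT Ψ q Y))
    (hl : IsLift Ψ F f q Y) (j : Fin m) :
    fderiv ℝ F (Ψ q, Y) (ey j) =
      ∑ i, fderiv ℝ Ψ q (Pi.single i 1) j * fderiv ℝ f (q, pT Ψ q Y) (ey i) := by
  have h1 := lift_fderiv h hF hf hl 0 (Pi.single j 1)
  rw [map_zero] at h1
  have h2 : fderiv ℝ (fun x : P m => pT Ψ x.1 x.2) (q, Y) (0, Pi.single j 1) =
      fun i => fderiv ℝ Ψ q (Pi.single i 1) j := by
    funext i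
    rw [pT_hasFDerivAt_dir h]
    simp [dp, Pi.single_apply]
  rw [h2, clm_P_expand_snd (fderiv ℝ f _)] at h1
  exact h1

lemma lift_fderiv_ex {Ψ : V m → V m} (h : ContDiff ℝ ∞ Ψ) {F f : P m → ℝ} {q Y : V m}
    (hF : DifferentiableAt ℝ F (Ψ q, Y)) (hf : DifferentiableAt ℝ f (q, pT Ψ q Y))
    (hl : IsLift Ψ F f q Y) (l : Fin m) :
    ∑ j, fderiv ℝ Ψ q (Pi.single l 1) j * fderiv ℝ F (Ψ q, Y) (ex j) =
      fderiv ℝ f (q, pT Ψ q Y) (ex l) + ∑ i, Smat Ψ q Y l i * fderiv ℝ f (q, pT Ψ q Y) (ey i) := by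
  have h1 := lift_fderiv h hF hf hl (Pi.single l 1) 0
  have h2 : fderiv ℝ (fun x : P m => pT Ψ x.1 x.2) (q, Y) (Pi.single l 1, 0) =
      fun i => Smat Ψ q Y l i := by
    funext i
    rw [pT_hasFDerivAt_dir h]
    simp [Smat, dp]
  rw [h2, clm_P_expand_fst, clm_P_split, clm_P_expand_snd] at h1
  exact h1

/-- cotangent lifts preserve the bracket -/
lemma lift_pb {Ψ : V m → V m} (h : ContDiff ℝ ∞ Ψ) {F f F' f' : P m → ℝ} {q Y : V m}
    (hF : DifferentiableAt ℝ F (Ψ q, Y)) (hf : DifferentiableAt ℝ f (q, pT Ψ q Y))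
    (hl : IsLift Ψ F f q Y)
    (hF' : DifferentiableAt ℝ F' (Ψ q, Y)) (hf' : DifferentiableAt ℝ f' (q, pT Ψ q Y))
    (hl' : IsLift Ψ F' f' q Y) :
    pb F F' (Ψ q, Y) = pb f f' (q, pT Ψ q Y) :=
  bk_lift (M := fun j i => fderiv ℝ Ψ q (Pi.single i 1) j) (S := Smat Ψ q Y)
    (fun i k => Smat_symm h q Y i k)
    (fun j => lift_fderiv_ey h hF hf hl j)
    (fun j => lift_fderiv_ey h hF' hf' hl' j)
    (fun l => lift_fderiv_ex h hF hf hl l)
    (fun l => lift_fderiv_ex h hF' hf' hl' l)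

/-- cotangent lifts preserve independence -/
lemma lift_indep {Ψ : V m → V m} (h : ContDiff ℝ ∞ Ψ) {ι : Type*} [Fintype ι]
    {F f : ι → P m → ℝ} {q Y : V m}
    (hinv : (fderiv ℝ Ψ q).IsInvertible)
    (hF : ∀ i, DifferentiableAt ℝ (F i) (Ψ q, Y))
    (hf : ∀ i, DifferentiableAt ℝ (f i) (q, pT Ψ q Y))
    (hl : ∀ i, IsLift Ψ (F i) (f i) q Y)
    (hi : LinearIndependent ℝ (fun i => fderiv ℝ (f i) (q, pT Ψ q Y))) :
    LinearIndependent ℝ (fun i => fderiv ℝ (F i) (Ψ q, Y)) := by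
  rw [Fintype.linearIndependent_iff] at hi ⊢
  intro c hc
  apply hi
  refine ContinuousLinearMap.ext fun v => ?_
  obtain ⟨a, p⟩ := v
  -- choose b
  set S : V m := fun i => dp Y (fderiv ℝ (fderiv ℝ Ψ) q a (Pi.single i 1)) with hS
  set b : V m := Yof Ψ q (p - S) with hb
  have hDpT : fderiv ℝ (fun x : P m => pT Ψ x.1 x.2) (q, Y) (a, b) = p := by
    funext i
    rw [pT_hasFDerivAt_dir h]
    have h1 : dp b (fderiv ℝ Ψ q (Pi.single i 1)) = (p - S) i := by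
      have := congrFun (pT_Yof hinv (p - S)) i
      exact this
    simp only
    rw [h1]
    simp [hS]
  have h2 := congrArg (fun L : P m →L[ℝ] ℝ => L (fderiv ℝ Ψ q a, b)) hc
  simp only [FunLike.coe_sum, Finset.sum_apply, FunLike.coe_smul, Pi.smul_apply, smul_eq_mul,
    FunLike.coe_zero, Pi.zero_apply] at h2 ⊢
  rw [← h2]
  refine Finset.sum_congr rfl fun i _ => ?_
  rw [lift_fderiv h (hF i) (hf i) (hl i), hDpT]

end Pool.Agent.H73
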