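import Mathlib

/-!
A flat, logarithmically periodic function of two variables.
-/

namespace Pool.Agent.H73

open scoped ContDiff
open Filter Topology

/-- `a^N (α sin (c log a) + β cos (c log a))`. -/
noncomputable def gN (c : ℝ) (N : ℕ) (α β : ℝ) (a : ℝ) : ℝ :=
  a ^ N * (α * Real.sin (c * Real.log a) + β * Real.cos (c * Real.log a))

lemma gN_abs_le (c : ℝ) (N : ℕ) (α β a : ℝ) : |gN c N α β a| ≤ |a| ^ N * (|α| + |β|) := by
  unfold gN
  rw [abs_mul, abs_pow]
  refine mul_le_mul_of_nonneg_left ?_ (by positivity)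
  refine (abs_add_le _ _).trans ?_
  rw [abs_mul, abs_mul]
  have h1 := Real.abs_sin_le_one (c * Real.log a)
  have h2 := Real.abs_cos_le_one (c * Real.log a)
  nlinarith [abs_nonneg α, abs_nonneg β]

lemma gN_hasDerivAt (c : ℝ) (N : ℕ) (α β a : ℝ) :
    HasDerivAt (gN c (N + 2) α β)
      (gN c (N + 1) ((N + 2) * α - c * β) ((N + 2) * β + c * α) a) a := by
  rcases eq_or_ne a 0 with rfl | ha
  · have : gN c (N + 1) ((N + 2) * α - c * β) ((N + 2) * β + c * α) 0 = 0 := by
      simp [gN]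
    rw [this]
    rw [hasDerivAt_iff_isLittleO]
    have h0 : gN c (N + 2) α β 0 = 0 := by simp [gN]
    simp only [h0, sub_zero, smul_zero]
    rw [Asymptotics.isLittleO_iff]
    intro δ hδ
    have hC : 0 < |α| + |β| + 1 := by positivity
    have : ∀ᶠ x : ℝ in 𝓝 0, |x| < min 1 (δ / (|α| + |β| + 1)) := by
      have : 0 < min 1 (δ / (|α| + |β| + 1)) := by positivity
      filter_upwards [Metric.ball_mem_nhds (0:ℝ) this] with x hx
      rwa [Metric.mem_ball, dist_zero_right, Real.norm_eq_abs] at hx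
    filter_upwards [this] with x hx
    rw [Real.norm_eq_abs, Real.norm_eq_abs]
    refine (gN_abs_le c (N + 2) α β x).trans ?_
    have hx1 : |x| ≤ 1 := (hx.le).trans (min_le_left _ _)
    have hx2 : |x| ≤ δ / (|α| + |β| + 1) := (hx.le).trans (min_le_right _ _)
    have hx3 : |x| * (|α| + |β| + 1) ≤ δ := by
      rw [le_div_iff₀ hC] at hx2; exact hx2
    have h4 : |x| ^ (N + 2) ≤ |x| * |x| := by
      calc |x| ^ (N + 2) = |x| ^ N * (|x| * |x|) := by ring
        _ ≤ 1 * (|x| * |x|) := by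
          refine mul_le_mul_of_nonneg_right (pow_le_one₀ (abs_nonneg _) hx1) (by positivity)
        _ = |x| * |x| := one_mul _
    calc |x| ^ (N + 2) * (|α| + |β|) ≤ (|x| * |x|) * (|α| + |β| + 1) := by
          refine mul_le_mul h4 (by linarith) (by positivity) (by positivity)
      _ = |x| * (|α| + |β| + 1) * |x| := by ring
      _ ≤ δ * |x| := mul_le_mul_of_nonneg_right hx3 (abs_nonneg _)
  · have h1 : HasDerivAt (fun a => c * Real.log a) (c * a⁻¹) a :=
      (Real.hasDerivAt_log ha).const_mul c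
    have h2 := (h1.sin.const_mul α).add (h1.cos.const_mul β)
    have h3 := (hasDerivAt_pow (N + 2) a).mul h2
    refine h3.congr_deriv ?_
    unfold gN
    have : a * a⁻¹ = 1 := mul_inv_cancel₀ ha
    push_cast
    have e : a ^ (N + 2) = a ^ (N + 1) * a := by ring
    rw [e]
    simp only [Pi.add_apply]
    linear_combination (a ^ (N+1) * (α * (Real.cos (c * Real.log a) * c) - β * (Real.sin (c * Real.log a) * c))) * this

lemma gN_contDiff (c : ℝ) : ∀ (r : ℕ) (N : ℕ) (α β : ℝ), ContDiff ℝ r (gN c (N + r + 1) α β)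
  | 0, N, α, β => by
    simp only [Nat.add_zero, CharP.cast_eq_zero, contDiff_zero]
    rw [continuous_iff_continuousAt]
    intro a
    rcases eq_or_ne a 0 with rfl | ha
    · have h0 : gN c (N + 1) α β 0 = 0 := by simp [gN]
      rw [ContinuousAt, h0]
      rw [tendsto_zero_iff_abs_tendsto_zero]
      refine squeeze_zero (fun _ => abs_nonneg _) (fun x => gN_abs_le c (N + 1) α β x) ?_
      have : Continuous fun x : ℝ => |x| ^ (N + 1) * (|α| + |β|) := by fun_prop
      have h := this.tendsto 0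
      simpa using h
    · unfold gN
      have h1 : ContinuousAt Real.log a := Real.continuousAt_log ha
      fun_prop
  | r + 1, N, α, β => by
    push_cast
    rw [contDiff_succ_iff_deriv]
    refine ⟨fun a => (gN_hasDerivAt c (N + r) α β a).differentiableAt, by simp, ?_⟩
    have : deriv (gN c (N + (r + 1) + 1) α β)
        = gN c (N + r + 1) ((((N + r : ℕ) : ℝ) + 2) * α - c * β) ((((N + r : ℕ) : ℝ) + 2) * β + c * α) := by
      funext a
      exact (gN_hasDerivAt c (N + r) α β a).deriv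
    rw [this]
    exact gN_contDiff c r N _ _

/-- The flat function `exp (-1/(ab)^2) sin (c log |a|)`. -/
noncomputable def flat (c : ℝ) (a b : ℝ) : ℝ :=
  expNegInvGlue ((a * b) ^ 2) * Real.sin (c * Real.log a)

lemma flat_contDiff (c : ℝ) : ContDiff ℝ ∞ (fun x : ℝ × ℝ => flat c x.1 x.2) := by
  rw [contDiff_infty]
  intro r
  have h1 : ContDiff ℝ r (gN c (r + r + 1 + 1) 1 0) := by
    have := gN_contDiff c r (r + 1) 1 0
    have e : r + 1 + r + 1 = r + r + 1 + 1 := by ring
    rwa [e] at this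
  have h2 : ContDiff ℝ r (fun x : ℝ => (Polynomial.X ^ (r + 1) : Polynomial ℝ).eval x⁻¹ * expNegInvGlue x) :=
    expNegInvGlue.contDiff_polynomial_eval_inv_mul _
  have h3 : ContDiff ℝ r (fun x : ℝ × ℝ => ((x.1 * x.2) ^ 2)) := by fun_prop
  have h4 := h2.comp h3
  have h5 : ContDiff ℝ r (fun x : ℝ × ℝ => gN c (r + r + 1 + 1) 1 0 x.1) := h1.comp contDiff_fst
  have h6 : ContDiff ℝ r (fun x : ℝ × ℝ => x.2 ^ (r + r + 1 + 1)) := by fun_prop
  have h7 := (h4.mul h6).mul h5
  have key : (fun x : ℝ × ℝ => flat c x.1 x.2) = fun x : ℝ × ℝ =>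
      ((fun x => Polynomial.eval x⁻¹ (Polynomial.X ^ (r + 1)) * expNegInvGlue x) ∘
          fun x : ℝ × ℝ => (x.1 * x.2) ^ 2) x * x.2 ^ (r + r + 1 + 1) *
        gN c (r + r + 1 + 1) 1 0 x.1 := by
    funext x
    obtain ⟨a, b⟩ := x
    simp only [Function.comp, flat, gN, Polynomial.eval_pow, Polynomial.eval_X]
    rcases eq_or_ne (a * b) 0 with h | h
    · simp [h]
    · have hne : a * b ≠ 0 := h
      have : ((a * b) ^ 2)⁻¹ ^ (r + 1) * (b ^ (r + r + 1 + 1) * a ^ (r + r + 1 + 1)) = 1 := by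
        rw [← mul_pow, mul_comm b a, show r + r + 1 + 1 = 2 * (r + 1) by ring, pow_mul, ← mul_pow,
          inv_mul_cancel₀ (by positivity), one_pow]
      linear_combination (-(expNegInvGlue ((a * b) ^ 2) * Real.sin (c * Real.log a))) * this
  rw [key]
  exact h7

end Pool.Agent.H73
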