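import Mathlib
import Pool.Agent.H73.Symp
import Pool.Agent.H73.Flat

/-!
The Sol block in canonical coordinates.
-/

namespace Pool.Agent.H73

open scoped ContDiff
open Finset

variable {k : ℕ}

/-- linear independence of logarithmic differentials -/
lemma indep_of_log {E : Type*} [AddCommGroup E] [Module ℝ E] {m : ℕ} {L : Fin m → E}
    (hL : LinearIndependent ℝ L) {β w : Fin m → ℝ} (hβ : ∀ j, β j ≤ 0) (hw : ∀ i, w i ≠ 0) :
    LinearIndependent ℝ (fun i => w i • ((∑ j, β j • L j) - L i)) := by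
  rw [Fintype.linearIndependent_iff] at hL ⊢
  intro c hc
  set C : ℝ := ∑ i, c i * w i with hC
  have h1 : ∑ j, (C * β j - c j * w j) • L j = 0 := by
    have : ∑ i, c i • w i • ((∑ j, β j • L j) - L i)
        = ∑ j, (C * β j - c j * w j) • L j := by
      simp only [smul_sub, sub_smul, Finset.sum_sub_distrib, smul_smul, ← Finset.sum_smul]
      rw [← hC, Finset.smul_sum]
      simp only [smul_smul]
    rw [← this]; exact hc
  have h2 := hL _ h1
  have h3 : C * (1 - ∑ j, β j) = 0 := by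
    have : ∑ j, (C * β j - c j * w j) = 0 := Finset.sum_eq_zero fun j _ => h2 j
    rw [Finset.sum_sub_distrib, ← Finset.mul_sum, ← hC] at this
    linarith
  have h4 : ∑ j, β j ≤ 0 := Finset.sum_nonpos fun j _ => hβ j
  have hC0 : C = 0 := by
    rcases mul_eq_zero.1 h3 with h | h
    · exact h
    · linarith
  intro i
  have h5 := h2 i
  rw [hC0] at h5
  have : c i * w i = 0 := by linarith
  rcases mul_eq_zero.1 this with h | h
  · exact h
  · exact absurd h (hw i)

/-- The commuting functions of the Sol block, in canonical coordinates; `μ = log λ`. -/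
noncomputable def solA (μ : ℝ) (k : ℕ) (i : Fin (k + 3)) (x : P (k + 3)) : ℝ :=
  if i = 0 then x.2 0 * x.2 1
  else if i = 1 then flat (2 * Real.pi / μ) (x.2 0) (x.2 1)
  else if i = 2 then
    x.2 2 ^ 2 + Real.exp (2 * μ * x.1 2) * x.2 0 ^ 2 + Real.exp (-(2 * μ * x.1 2)) * x.2 1 ^ 2
  else x.1 i ^ 2 + x.2 i ^ 2

lemma fin01 : (0 : Fin (k + 3)) ≠ 1 := by
  intro h; have := congrArg Fin.val h; simp at this
lemma fin2val : (2 : Fin (k + 3)).val = 2 := by
  change 2 % (k + 3) = 2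
  exact Nat.mod_eq_of_lt (by omega)
lemma fin02 : (0 : Fin (k + 3)) ≠ 2 := by
  intro h; have := congrArg Fin.val h; rw [fin2val] at this; simp at this
lemma fin12 : (1 : Fin (k + 3)) ≠ 2 := by
  intro h; have := congrArg Fin.val h; rw [fin2val] at this; simp at this

lemma solA_zero (μ : ℝ) (x : P (k + 3)) : solA μ k 0 x = x.2 0 * x.2 1 := by
  simp [solA]
lemma solA_one (μ : ℝ) (x : P (k + 3)) :
    solA μ k 1 x = flat (2 * Real.pi / μ) (x.2 0) (x.2 1) := by
  simp [solA]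
lemma solA_two (μ : ℝ) (x : P (k + 3)) : solA μ k 2 x =
    x.2 2 ^ 2 + Real.exp (2 * μ * x.1 2) * x.2 0 ^ 2 + Real.exp (-(2 * μ * x.1 2)) * x.2 1 ^ 2 := by
  simp [solA, fin02.symm, fin12.symm]
lemma solA_ge (μ : ℝ) {i : Fin (k + 3)} (h0 : i ≠ 0) (h1 : i ≠ 1) (h2 : i ≠ 2) (x : P (k + 3)) :
    solA μ k i x = x.1 i ^ 2 + x.2 i ^ 2 := by
  simp [solA, h0, h1, h2]

lemma solA_contDiff (μ : ℝ) (i : Fin (k + 3)) : ContDiff ℝ ∞ (solA μ k i) := by
  by_cases h0 : i = 0
  · subst h0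
    have : solA μ k 0 = fun x => x.2 0 * x.2 1 := funext fun x => solA_zero μ x
    rw [this]
    fun_prop
  by_cases h1 : i = 1
  · subst h1
    have : solA μ k 1 = fun x => flat (2 * Real.pi / μ) (x.2 0) (x.2 1) :=
      funext fun x => solA_one μ x
    rw [this]
    have h := flat_contDiff (2 * Real.pi / μ)
    have h2 : ContDiff ℝ ∞ (fun x : P (k + 3) => (x.2 0, x.2 1)) := by fun_prop
    exact h.comp h2
  by_cases h2 : i = 2
  · subst h2
    have : solA μ k 2 = _ := funext fun x => solA_two μ x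
    rw [this]
    fun_prop
  · have : solA μ k i = _ := funext fun x => solA_ge μ h0 h1 h2 x
    rw [this]
    fun_prop

@[simp] lemma ex_fst (j i : Fin (k + 3)) : (ex j : P (k + 3)).1 i = if i = j then 1 else 0 := by
  simp [ex, Pi.single_apply]
@[simp] lemma ex_snd (j i : Fin (k + 3)) : (ex j : P (k + 3)).2 i = 0 := by
  simp [ex]
@[simp] lemma ey_fst (j i : Fin (k + 3)) : (ey j : P (k + 3)).1 i = 0 := by
  simp [ey]
@[simp] lemma ey_snd (j i : Fin (k + 3)) : (ey j : P (k + 3)).2 i = if i = j then 1 else 0 := by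
  simp [ey, Pi.single_apply]


lemma solA_fderiv_ex {μ : ℝ} {i l : Fin (k + 3)} {x : P (k + 3)}
    (h : ¬ (i = 2 ∧ l = 2)) (h' : ¬ ((i ≠ 0 ∧ i ≠ 1 ∧ i ≠ 2) ∧ l = i)) :
    fderiv ℝ (solA μ k i) x (ex l) = 0 := by
  apply fderiv_eq_zero_of_inv
  intro τ
  unfold solA
  by_cases h0 : i = 0
  · simp [h0]
  by_cases h1 : i = 1
  · simp [h1]
  by_cases h2 : i = 2
  · have hl : ¬ (2 = l) := fun e => h ⟨h2, e.symm⟩
    simp [h2, hl]
  · have hl : ¬ (i = l) := fun e => h' ⟨⟨h0, h1, h2⟩, e.symm⟩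
    simp [h0, h1, h2, hl]

lemma solA_fderiv_ey {μ : ℝ} {i l : Fin (k + 3)} {x : P (k + 3)}
    (h : ¬ (i = 0 ∧ (l = 0 ∨ l = 1))) (h1 : ¬ (i = 1 ∧ (l = 0 ∨ l = 1)))
    (h2 : ¬ (i = 2 ∧ (l = 0 ∨ l = 1 ∨ l = 2)))
    (h' : ¬ ((i ≠ 0 ∧ i ≠ 1 ∧ i ≠ 2) ∧ l = i)) :
    fderiv ℝ (solA μ k i) x (ey l) = 0 := by
  apply fderiv_eq_zero_of_inv
  intro τ
  unfold solA
  by_cases g0 : i = 0
  · have hl : ¬ ((0 : Fin (k+3)) = l) := fun e => h ⟨g0, Or.inl e.symm⟩
    have hl' : ¬ ((1 : Fin (k+3)) = l) := fun e => h ⟨g0, Or.inr e.symm⟩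
    simp [g0, hl, hl']
  by_cases g1 : i = 1
  · have hl : ¬ ((0 : Fin (k+3)) = l) := fun e => h1 ⟨g1, Or.inl e.symm⟩
    have hl' : ¬ ((1 : Fin (k+3)) = l) := fun e => h1 ⟨g1, Or.inr e.symm⟩
    simp [g1, hl, hl']
  by_cases g2 : i = 2
  · have hl : ¬ ((0 : Fin (k+3)) = l) := fun e => h2 ⟨g2, Or.inl e.symm⟩
    have hl' : ¬ ((1 : Fin (k+3)) = l) := fun e => h2 ⟨g2, Or.inr (Or.inl e.symm)⟩
    have hl'' : ¬ ((2 : Fin (k+3)) = l) := fun e => h2 ⟨g2, Or.inr (Or.inr e.symm)⟩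
    simp [g2, hl, hl', hl'']
  · have hl : ¬ (i = l) := fun e => h' ⟨⟨g0, g1, g2⟩, e.symm⟩
    simp [g0, g1, g2, hl]

lemma bk_zero_of_disj {m : ℕ} {L L' : P m →L[ℝ] ℝ}
    (h : ∀ l, L (ex l) = 0 ∨ L' (ey l) = 0) (h' : ∀ l, L' (ex l) = 0 ∨ L (ey l) = 0) :
    bk L L' = 0 := by
  unfold bk
  refine Finset.sum_eq_zero fun l _ => ?_
  rcases h l with h1 | h1 <;> rcases h' l with h2 | h2 <;> simp [h1, h2]

lemma solA_comm (μ : ℝ) (i j : Fin (k + 3)) (x : P (k + 3)) :
    pb (solA μ k i) (solA μ k j) x = 0 := by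
  by_cases hij : i = j
  · rw [hij]; exact pb_self _ _
  have key : ∀ i j : Fin (k + 3), i ≠ j → ∀ l, fderiv ℝ (solA μ k i) x (ex l) = 0 ∨
      fderiv ℝ (solA μ k j) x (ey l) = 0 := by
    intro i j hij l
    by_cases h : (i = 2 ∧ l = 2)
    · right
      obtain ⟨hi, hl⟩ := h
      subst hi; subst hl
      refine solA_fderiv_ey ?_ ?_ ?_ ?_
      · rintro ⟨_, h | h⟩
        · exact fin02 h.symm
        · exact fin12 h.symm
      · rintro ⟨_, h | h⟩
        · exact fin02 h.symm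
        · exact fin12 h.symm
      · rintro ⟨h, _⟩; exact hij h.symm
      · rintro ⟨_, h⟩; exact hij h
    by_cases h' : ((i ≠ 0 ∧ i ≠ 1 ∧ i ≠ 2) ∧ l = i)
    · right
      obtain ⟨⟨h0, h1, h2⟩, hl⟩ := h'
      subst hl
      refine solA_fderiv_ey ?_ ?_ ?_ ?_
      · rintro ⟨_, h | h⟩
        · exact h0 h
        · exact h1 h
      · rintro ⟨_, h | h⟩
        · exact h0 h
        · exact h1 h
      · rintro ⟨_, h | h | h⟩
        · exact h0 h
        · exact h1 h
        · exact h2 h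
      · rintro ⟨_, h⟩; exact hij h
    · left
      exact solA_fderiv_ex h h'
  exact bk_zero_of_disj (key i j hij) (key j i (Ne.symm hij))

/-- cut-off factor -/
noncomputable def cutf (δ : ℝ) (a : Fin (k + 3) → ℝ) : ℝ :=
  ∏ j, if j = 0 ∨ j = 1 then 1 else expNegInvGlue (δ - a j)

lemma cutf_contDiff (δ : ℝ) : ContDiff ℝ ∞ (cutf (k := k) δ) := by
  unfold cutf
  refine contDiff_prod fun j _ => ?_
  by_cases h : j = 0 ∨ j = 1
  · simp only [h, if_true]; exact contDiff_const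
  · simp only [h, if_false]
    refine expNegInvGlue.contDiff.comp ?_
    fun_prop

lemma cutf_nonneg (δ : ℝ) (a : Fin (k + 3) → ℝ) : 0 ≤ cutf δ a := by
  unfold cutf
  refine Finset.prod_nonneg fun j _ => ?_
  split_ifs
  · exact zero_le_one
  · exact expNegInvGlue.nonneg _

/-- the domain where the cut-off is positive -/
def cutdom (δ : ℝ) (a : Fin (k + 3) → ℝ) : Prop := ∀ j, j ≠ 0 → j ≠ 1 → a j < δ

lemma cutf_pos {δ : ℝ} {a : Fin (k + 3) → ℝ} (h : cutdom δ a) : 0 < cutf δ a := by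
  unfold cutf
  refine Finset.prod_pos fun j _ => ?_
  split_ifs with h1
  · exact zero_lt_one
  · rw [not_or] at h1
    exact expNegInvGlue.pos_of_pos (by have := h j h1.1 h1.2; linarith)

lemma cutf_zero {δ : ℝ} {a : Fin (k + 3) → ℝ} (h : ¬ cutdom δ a) : cutf δ a = 0 := by
  unfold cutdom at h
  push Not at h
  obtain ⟨j, h0, h1, h2⟩ := h
  unfold cutf
  refine Finset.prod_eq_zero (Finset.mem_univ j) ?_
  rw [if_neg (by rw [not_or]; exact ⟨h0, h1⟩)]
  exact expNegInvGlue.zero_of_nonpos (by linarith)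

/-- block functions of the Sol block -/
noncomputable def solG (μ δ : ℝ) (k : ℕ) (i : Fin (k + 3)) (x : P (k + 3)) : ℝ :=
  cutf δ (fun j => solA μ k j x) * Real.exp (-(solA μ k i x))

lemma solG_contDiff (μ δ : ℝ) (i : Fin (k + 3)) : ContDiff ℝ ∞ (solG μ δ k i) := by
  unfold solG
  have h1 : ContDiff ℝ ∞ (fun x => fun j => solA μ k j x) :=
    contDiff_pi.2 fun j => solA_contDiff μ j
  have h2 : ContDiff ℝ ∞ (fun x => cutf δ (fun j => solA μ k j x)) := (cutf_contDiff δ).comp h1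
  exact h2.mul (solA_contDiff μ i).neg.exp

lemma solG_nonneg (μ δ : ℝ) (i : Fin (k + 3)) (x : P (k + 3)) : 0 ≤ solG μ δ k i x :=
  mul_nonneg (cutf_nonneg _ _) (Real.exp_pos _).le

lemma solG_pos {μ δ : ℝ} {i : Fin (k + 3)} {x : P (k + 3)}
    (h : cutdom δ (fun j => solA μ k j x)) : 0 < solG μ δ k i x :=
  mul_pos (cutf_pos h) (Real.exp_pos _)

lemma solG_zero {μ δ : ℝ} {i : Fin (k + 3)} {x : P (k + 3)}
    (h : ¬ cutdom δ (fun j => solA μ k j x)) : solG μ δ k i x = 0 := by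
  unfold solG
  rw [cutf_zero h, zero_mul]

lemma solG_comm (μ δ : ℝ) (i j : Fin (k + 3)) (x : P (k + 3)) :
    pb (solG μ δ k i) (solG μ δ k j) x = 0 := by
  have hΘ : ∀ i : Fin (k + 3), ContDiff ℝ ∞ (fun a : Fin (k + 3) → ℝ => cutf δ a * Real.exp (-(a i))) := by
    intro i
    refine (cutf_contDiff δ).mul ?_
    fun_prop
  exact pb_comp_comp (A := solA μ k) (Θ := fun a => cutf δ a * Real.exp (-(a i)))
    (Θ' := fun a => cutf δ a * Real.exp (-(a j)))
    (fun j => (solA_contDiff μ j).differentiable (by simp) _)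
    ((hΘ i).differentiable (by simp) _) ((hΘ j).differentiable (by simp) _)
    (fun i j => solA_comm μ i j x)

/-- logarithmic derivative coefficients -/
noncomputable def solβ (μ δ : ℝ) (x : P (k + 3)) (j : Fin (k + 3)) : ℝ :=
  if j = 0 ∨ j = 1 then 0 else -((δ - solA μ k j x) ^ 2)⁻¹

lemma solG_hasFDerivAt {μ δ : ℝ} {i : Fin (k + 3)} {x : P (k + 3)}
    (h : cutdom δ (fun j => solA μ k j x)) :
    HasFDerivAt (solG μ δ k i) (solG μ δ k i x •
      ((∑ j, solβ μ δ x j • fderiv ℝ (solA μ k j) x) - fderiv ℝ (solA μ k i) x)) x := by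
  have hA : ∀ j, HasFDerivAt (solA μ k j) (fderiv ℝ (solA μ k j) x) x := fun j =>
    ((solA_contDiff μ j).differentiable (by simp) x).hasFDerivAt
  -- local formula
  have hev : ∀ᶠ y in nhds x, cutdom δ (fun j => solA μ k j y) := by
    unfold cutdom
    rw [Filter.eventually_all]
    intro j
    by_cases h0 : j = 0
    · simp [h0]
    by_cases h1 : j = 1
    · simp [h1]
    have := (solA_contDiff μ j).continuous.continuousAt.eventually_lt_const (h j h0 h1)
    filter_upwards [this] with y hy _ _ using hy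
  have hloc : ∀ y, cutdom δ (fun j => solA μ k j y) → solG μ δ k i y =
      Real.exp ((∑ j, if j = 0 ∨ j = 1 then 0 else -(δ - solA μ k j y)⁻¹) - solA μ k i y) := by
    intro y hy
    unfold solG cutf
    rw [sub_eq_add_neg, Real.exp_add, Real.exp_sum]
    congr 1
    refine Finset.prod_congr rfl fun j _ => ?_
    split_ifs with hj
    · simp
    · rw [not_or] at hj
      have := hy j hj.1 hj.2
      simp only at this
      unfold expNegInvGlue
      rw [if_neg (by linarith)]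
  have h1 : HasFDerivAt (fun y => ∑ j, if j = 0 ∨ j = 1 then (0:ℝ) else -(δ - solA μ k j y)⁻¹)
      (∑ j, solβ μ δ x j • fderiv ℝ (solA μ k j) x) x := by
    refine HasFDerivAt.fun_sum fun j _ => ?_
    unfold solβ
    by_cases hj : j = 0 ∨ j = 1
    · simp only [hj, if_true, zero_smul]
      exact hasFDerivAt_const _ _
    · simp only [hj, if_false]
      have hj' := not_or.1 hj
      have hlt := h j hj'.1 hj'.2
      simp only at hlt
      have hd : HasDerivAt (fun t : ℝ => -(δ - t)⁻¹) (-((δ - solA μ k j x) ^ 2)⁻¹) (solA μ k j x) := by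
        have h3 : HasDerivAt (fun t : ℝ => δ - t) (-1) (solA μ k j x) := by
          simpa using (hasDerivAt_id (solA μ k j x)).const_sub δ
        have h4 := (h3.inv (by linarith : δ - solA μ k j x ≠ 0 )).neg
        refine h4.congr_deriv ?_
        simp
      exact hd.comp_hasFDerivAt x (hA j)
  have h2 := (h1.sub (hA i)).exp
  have h3 : HasFDerivAt (fun y => Real.exp ((∑ j, if j = 0 ∨ j = 1 then 0 else -(δ - solA μ k j y)⁻¹) - solA μ k i y))
      (solG μ δ k i x •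
      ((∑ j, solβ μ δ x j • fderiv ℝ (solA μ k j) x) - fderiv ℝ (solA μ k i) x)) x := by
    rw [hloc x h]; exact h2
  refine h3.congr_of_eventuallyEq ?_
  filter_upwards [hev] with y hy using hloc y hy

end Pool.Agent.H73
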