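import Mathlib
import Pool.Agent.H73.Sol

/-!
Independence and dynamics of the Sol block in canonical coordinates.
-/

namespace Pool.Agent.H73

open scoped ContDiff
open Finset

variable {k : ℕ}

lemma fderiv_eq_of_curve {E : Type*} [NormedAddCommGroup E] [NormedSpace ℝ E]
    {F : E → ℝ} {x v : E} {d : ℝ} (hF : DifferentiableAt ℝ F x) {γ : ℝ → E} (h0 : γ 0 = x)
    (hγ : HasDerivAt γ v 0) (h : HasDerivAt (fun τ : ℝ => F (γ τ)) d 0) : fderiv ℝ F x v = d := by
  subst h0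
  exact (hF.hasFDerivAt.comp_hasDerivAt 0 hγ).unique h

lemma hasDerivAt_line {E : Type*} [NormedAddCommGroup E] [NormedSpace ℝ E] (x v : E) :
    HasDerivAt (fun τ : ℝ => x + τ • v) v 0 := by
  simpa using ((hasDerivAt_id (0:ℝ)).smul_const v).const_add x

lemma solA_diff (μ : ℝ) (i : Fin (k + 3)) (x : P (k + 3)) : DifferentiableAt ℝ (solA μ k i) x :=
  (solA_contDiff μ i).differentiable (by simp) x

lemma solA_fderiv_ex_ge {μ : ℝ} {i : Fin (k + 3)} (h0 : i ≠ 0) (h1 : i ≠ 1) (h2 : i ≠ 2)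
    (x : P (k + 3)) : fderiv ℝ (solA μ k i) x (ex i) = 2 * x.1 i := by
  refine fderiv_eq_of_curve (solA_diff μ i x) (γ := fun τ => x + τ • ex i) (by simp)
    (hasDerivAt_line _ _) ?_
  have : (fun τ : ℝ => solA μ k i (x + τ • ex i)) = fun τ => (x.1 i + τ) ^ 2 + x.2 i ^ 2 := by
    funext τ
    rw [solA_ge μ h0 h1 h2]
    simp
  rw [this]
  have h : HasDerivAt (fun τ : ℝ => (x.1 i + τ) ^ 2 + x.2 i ^ 2) (2 * (x.1 i + 0) ^ 1 * 1) 0 := by
    have := ((hasDerivAt_id (0:ℝ)).const_add (x.1 i)).pow 2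
    simpa using this.add_const (x.2 i ^ 2)
  simpa using h

lemma solA_fderiv_ey_ge {μ : ℝ} {i : Fin (k + 3)} (h0 : i ≠ 0) (h1 : i ≠ 1) (h2 : i ≠ 2)
    (x : P (k + 3)) : fderiv ℝ (solA μ k i) x (ey i) = 2 * x.2 i := by
  refine fderiv_eq_of_curve (solA_diff μ i x) (γ := fun τ => x + τ • ey i) (by simp)
    (hasDerivAt_line _ _) ?_
  have : (fun τ : ℝ => solA μ k i (x + τ • ey i)) = fun τ => x.1 i ^ 2 + (x.2 i + τ) ^ 2 := by
    funext τ
    rw [solA_ge μ h0 h1 h2]
    simp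
  rw [this]
  have h : HasDerivAt (fun τ : ℝ => x.1 i ^ 2 + (x.2 i + τ) ^ 2) (2 * (x.2 i + 0) ^ 1 * 1) 0 := by
    have := ((hasDerivAt_id (0:ℝ)).const_add (x.2 i)).pow 2
    simpa using this.const_add (x.1 i ^ 2)
  simpa using h

lemma solA_fderiv_ey_two {μ : ℝ} (x : P (k + 3)) :
    fderiv ℝ (solA μ k 2) x (ey 2) = 2 * x.2 2 := by
  refine fderiv_eq_of_curve (solA_diff μ 2 x) (γ := fun τ => x + τ • ey 2) (by simp)
    (hasDerivAt_line _ _) ?_
  have : (fun τ : ℝ => solA μ k 2 (x + τ • ey 2)) = fun τ => (x.2 2 + τ) ^ 2 +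
      (Real.exp (2 * μ * x.1 2) * x.2 0 ^ 2 + Real.exp (-(2 * μ * x.1 2)) * x.2 1 ^ 2) := by
    funext τ
    rw [solA_two μ]
    simp [fin02, fin12]
    ring
  rw [this]
  have h : HasDerivAt (fun τ : ℝ => (x.2 2 + τ) ^ 2 +
      (Real.exp (2 * μ * x.1 2) * x.2 0 ^ 2 + Real.exp (-(2 * μ * x.1 2)) * x.2 1 ^ 2))
      (2 * (x.2 2 + 0) ^ 1 * 1) 0 := by
    have := ((hasDerivAt_id (0:ℝ)).const_add (x.2 2)).pow 2
    simpa using this.add_const
      (Real.exp (2 * μ * x.1 2) * x.2 0 ^ 2 + Real.exp (-(2 * μ * x.1 2)) * x.2 1 ^ 2)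
  simpa using h

lemma solA_fderiv_ey_zero_zero {μ : ℝ} (x : P (k + 3)) :
    fderiv ℝ (solA μ k 0) x (ey 0) = x.2 1 := by
  refine fderiv_eq_of_curve (solA_diff μ 0 x) (γ := fun τ => x + τ • ey 0) (by simp)
    (hasDerivAt_line _ _) ?_
  have : (fun τ : ℝ => solA μ k 0 (x + τ • ey 0)) = fun τ => (x.2 0 + τ) * x.2 1 := by
    funext τ
    rw [solA_zero μ]
    simp
  rw [this]
  have h := ((hasDerivAt_id (0:ℝ)).const_add (x.2 0)).mul_const (x.2 1)
  simpa using h

/-- the scaling curve -/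
noncomputable def scurve (x : P (k + 3)) (τ : ℝ) : P (k + 3) :=
  x + ((Real.exp τ - 1) * x.2 0) • ey 0 + ((Real.exp (-τ) - 1) * x.2 1) • ey 1

lemma scurve_zero (x : P (k + 3)) : scurve x 0 = x := by simp [scurve]

lemma scurve_hasDerivAt (x : P (k + 3)) :
    HasDerivAt (scurve x) (x.2 0 • ey 0 + (-(x.2 1)) • ey 1) 0 := by
  unfold scurve
  have h1 : HasDerivAt (fun τ : ℝ => (Real.exp τ - 1) * x.2 0) (x.2 0) 0 := by
    simpa using ((Real.hasDerivAt_exp 0).sub_const 1).mul_const (x.2 0)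
  have h2 : HasDerivAt (fun τ : ℝ => (Real.exp (-τ) - 1) * x.2 1) (-(x.2 1)) 0 := by
    have := (((hasDerivAt_id (0:ℝ)).neg.exp).sub_const 1).mul_const (x.2 1)
    simpa using this
  exact ((h1.smul_const _).const_add x).add (h2.smul_const _)

lemma scurve_p0 (x : P (k + 3)) (τ : ℝ) : (scurve x τ).2 0 = Real.exp τ * x.2 0 := by
  simp [scurve, fin01]
  ring
lemma scurve_p1 (x : P (k + 3)) (τ : ℝ) : (scurve x τ).2 1 = Real.exp (-τ) * x.2 1 := by
  simp [scurve]
  ring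

lemma solA_fderiv_scurve_zero {μ : ℝ} (x : P (k + 3)) :
    fderiv ℝ (solA μ k 0) x (x.2 0 • ey 0 + (-(x.2 1)) • ey 1) = 0 := by
  refine fderiv_eq_of_curve (solA_diff μ 0 x) (scurve_zero x) (scurve_hasDerivAt x) ?_
  have : (fun τ : ℝ => solA μ k 0 (scurve x τ)) = fun τ => x.2 0 * x.2 1 := by
    funext τ
    rw [solA_zero μ, scurve_p0, scurve_p1]
    have : Real.exp τ * Real.exp (-τ) = 1 := by rw [← Real.exp_add]; simp
    linear_combination (x.2 0 * x.2 1) * this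
  rw [this]
  exact hasDerivAt_const _ _

lemma solA_fderiv_scurve_one {μ : ℝ} (x : P (k + 3)) (h0 : x.2 0 ≠ 0) :
    fderiv ℝ (solA μ k 1) x (x.2 0 • ey 0 + (-(x.2 1)) • ey 1) =
      expNegInvGlue ((x.2 0 * x.2 1) ^ 2) *
        (Real.cos ((2 * Real.pi / μ) * Real.log (x.2 0)) * (2 * Real.pi / μ)) := by
  refine fderiv_eq_of_curve (solA_diff μ 1 x) (scurve_zero x) (scurve_hasDerivAt x) ?_
  have : (fun τ : ℝ => solA μ k 1 (scurve x τ)) = fun τ => expNegInvGlue ((x.2 0 * x.2 1) ^ 2) *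
      Real.sin ((2 * Real.pi / μ) * (τ + Real.log (x.2 0))) := by
    funext τ
    rw [solA_one μ, scurve_p0, scurve_p1, flat]
    have : Real.exp τ * Real.exp (-τ) = 1 := by rw [← Real.exp_add]; simp
    have e : Real.exp τ * x.2 0 * (Real.exp (-τ) * x.2 1) = x.2 0 * x.2 1 := by
      linear_combination (x.2 0 * x.2 1) * this
    rw [e, Real.log_mul (Real.exp_pos τ).ne' h0, Real.log_exp]
  rw [this]
  have h := ((((hasDerivAt_id (0:ℝ)).add_const (Real.log (x.2 0))).const_mul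
    (2 * Real.pi / μ)).sin).const_mul (expNegInvGlue ((x.2 0 * x.2 1) ^ 2))
  simpa using h

/-- generic points, where the Sol functions are independent -/
def solGood (μ : ℝ) (x : P (k + 3)) : Prop :=
  x.2 0 ≠ 0 ∧ x.2 1 ≠ 0 ∧ x.2 2 ≠ 0 ∧ Real.cos ((2 * Real.pi / μ) * Real.log (x.2 0)) ≠ 0 ∧
    ∀ j, j ≠ 0 → j ≠ 1 → j ≠ 2 → x.1 j ≠ 0

lemma solA_indep {μ : ℝ} (hμ : 0 < μ) {x : P (k + 3)} (hx : solGood μ x) :
    LinearIndependent ℝ (fun i => fderiv ℝ (solA μ k i) x) := by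
  obtain ⟨hp0, hp1, hp2, hcos, hq⟩ := hx
  rw [Fintype.linearIndependent_iff]
  intro c hc
  have hev : ∀ v : P (k + 3), ∑ i, c i * fderiv ℝ (solA μ k i) x v = 0 := by
    intro v
    have := congrArg (fun L : P (k + 3) →L[ℝ] ℝ => L v) hc
    simpa using this
  have hge : ∀ j, j ≠ 0 → j ≠ 1 → j ≠ 2 → c j = 0 := by
    intro j h0 h1 h2
    have h := hev (ex j)
    rw [Finset.sum_eq_single j] at h
    · rw [solA_fderiv_ex_ge h0 h1 h2] at h
      have := hq j h0 h1 h2
      rcases mul_eq_zero.1 h with h | h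
      · exact h
      · exact absurd (by linarith) this
    · intro i _ hij
      rw [solA_fderiv_ex, mul_zero]
      · rintro ⟨_, h⟩; exact h2 h
      · rintro ⟨_, h⟩; exact hij h.symm
    · intro h; exact absurd (Finset.mem_univ _) h
  have h2 : c 2 = 0 := by
    have h := hev (ey 2)
    rw [Finset.sum_eq_single 2] at h
    · rw [solA_fderiv_ey_two] at h
      rcases mul_eq_zero.1 h with h | h
      · exact h
      · exact absurd (by linarith) hp2
    · intro i _ hij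
      rw [solA_fderiv_ey, mul_zero]
      · rintro ⟨_, h | h⟩
        · exact fin02 h.symm
        · exact fin12 h.symm
      · rintro ⟨_, h | h⟩
        · exact fin02 h.symm
        · exact fin12 h.symm
      · rintro ⟨h, _⟩; exact hij h
      · rintro ⟨_, h⟩; exact hij h.symm
    · intro h; exact absurd (Finset.mem_univ _) h
  have hrest : ∀ j, j ≠ 0 → j ≠ 1 → c j = 0 := by
    intro j h0 h1
    by_cases h : j = 2
    · rw [h]; exact h2
    · exact hge j h0 h1 h
  have h1 : c 1 = 0 := by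
    have h := hev (x.2 0 • ey 0 + (-(x.2 1)) • ey 1)
    rw [Finset.sum_eq_single 1] at h
    · rw [solA_fderiv_scurve_one x hp0] at h
      rcases mul_eq_zero.1 h with h | h
      · exact h
      · exfalso
        rcases mul_eq_zero.1 h with h | h
        · have : 0 < expNegInvGlue ((x.2 0 * x.2 1) ^ 2) := by
            apply expNegInvGlue.pos_of_pos
            have := mul_ne_zero hp0 hp1
            positivity
          exact absurd h this.ne'
        · rcases mul_eq_zero.1 h with h | h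
          · exact hcos h
          · have : 0 < 2 * Real.pi / μ := by positivity
            exact absurd h this.ne'
    · intro i _ hij
      by_cases hi : i = 0
      · subst hi
        rw [solA_fderiv_scurve_zero, mul_zero]
      · rw [hrest i hi hij, zero_mul]
    · intro h; exact absurd (Finset.mem_univ _) h
  have h0 : c 0 = 0 := by
    have h := hev (ey 0)
    rw [Finset.sum_eq_single 0] at h
    · rw [solA_fderiv_ey_zero_zero] at h
      rcases mul_eq_zero.1 h with h | h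
      · exact h
      · exact absurd h hp1
    · intro i _ hij
      by_cases hi : i = 1
      · rw [hi, h1, zero_mul]
      · rw [hrest i hij hi, zero_mul]
    · intro h; exact absurd (Finset.mem_univ _) h
  intro j
  by_cases hj0 : j = 0
  · rw [hj0]; exact h0
  by_cases hj1 : j = 1
  · rw [hj1]; exact h1
  exact hrest j hj0 hj1

lemma solG_indep {μ δ : ℝ} (hμ : 0 < μ) {x : P (k + 3)} (hx : solGood μ x)
    (h : cutdom δ (fun j => solA μ k j x)) :
    LinearIndependent ℝ (fun i => fderiv ℝ (solG μ δ k i) x) := by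
  have e : (fun i => fderiv ℝ (solG μ δ k i) x) = fun i => solG μ δ k i x •
      ((∑ j, solβ μ δ x j • fderiv ℝ (solA μ k j) x) - fderiv ℝ (solA μ k i) x) := by
    funext i
    exact (solG_hasFDerivAt h).fderiv
  rw [e]
  refine indep_of_log (solA_indep hμ hx) ?_ (fun i => (solG_pos h).ne')
  intro j
  unfold solβ
  split_ifs
  · exact le_refl _
  · have : 0 ≤ ((δ - solA μ k j x) ^ 2)⁻¹ := by positivity
    linarith

/-- points of the invariant torus bundle -/
def onM (p : ℝ) (x : P (k + 3)) : Prop :=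
  x.2 = Pi.single 2 p ∧ ∀ j, j ≠ 0 → j ≠ 1 → j ≠ 2 → x.1 j = 0

/-- value of the third block function on the invariant set -/
noncomputable def solVal (δ p : ℝ) (k : ℕ) : ℝ :=
  cutf (k := k) δ (fun j => if j = 2 then p ^ 2 else 0) * Real.exp (-(p ^ 2))

lemma solA_onM_two {μ p : ℝ} {x : P (k + 3)} (hx : onM p x) : solA μ k 2 x = p ^ 2 := by
  rw [solA_two, hx.1]
  simp [Pi.single_apply, fin02, fin12]

lemma solA_onM_ge {μ p : ℝ} {x : P (k + 3)} (hx : onM p x) {j : Fin (k + 3)}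
    (h0 : j ≠ 0) (h1 : j ≠ 1) (h2 : j ≠ 2) : solA μ k j x = 0 := by
  rw [solA_ge μ h0 h1 h2, hx.1, hx.2 j h0 h1 h2]
  simp [Pi.single_apply, h2]

lemma solG_onM {μ δ p : ℝ} {x : P (k + 3)} (hx : onM p x) :
    solG μ δ k 2 x = solVal δ p k := by
  unfold solG solVal
  rw [solA_onM_two hx]
  congr 1
  unfold cutf
  refine Finset.prod_congr rfl fun j _ => ?_
  by_cases h : j = 0 ∨ j = 1
  · simp [h]
  · rw [if_neg h, if_neg h]
    rw [not_or] at h
    by_cases h2 : j = 2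
    · simp only [h2, if_true]
      rw [solA_onM_two hx]
    · simp only [h2, if_false]
      rw [solA_onM_ge hx h.1 h.2 h2]

lemma onM_cutdom {μ δ p : ℝ} (hδ : 0 < δ) (hp : p ^ 2 < δ) {x : P (k + 3)} (hx : onM p x) :
    cutdom δ (fun j => solA μ k j x) := by
  intro j h0 h1
  by_cases h2 : j = 2
  · simp only [h2]; rw [solA_onM_two hx]; exact hp
  · simp only; rw [solA_onM_ge hx h0 h1 h2]; exact hδ

lemma solVal_pos {δ p : ℝ} (hδ : 0 < δ) (hp : p ^ 2 < δ) : 0 < solVal δ p k := by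
  unfold solVal
  refine mul_pos (cutf_pos ?_) (Real.exp_pos _)
  intro j h0 h1
  by_cases h2 : j = 2
  · simp only [h2, if_true]; exact hp
  · simp only [h2, if_false]; exact hδ

/-- the speed factor -/
noncomputable def solSpeed (δ p : ℝ) (k : ℕ) : ℝ :=
  solVal δ p k * (((δ - p ^ 2) ^ 2)⁻¹ + 1) * (2 * p)

lemma solSpeed_pos {δ p : ℝ} (hδ : 0 < δ) (hp : p ^ 2 < δ) (hp0 : 0 < p) :
    0 < solSpeed δ p k := by
  unfold solSpeed
  have := solVal_pos (k := k) hδ hp
  positivity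

lemma solA_onM_fderiv_ge {μ p : ℝ} {x : P (k + 3)} (hx : onM p x) {j : Fin (k + 3)}
    (h0 : j ≠ 0) (h1 : j ≠ 1) (h2 : j ≠ 2) (l : Fin (k + 3)) :
    fderiv ℝ (solA μ k j) x (ex l) = 0 ∧ fderiv ℝ (solA μ k j) x (ey l) = 0 := by
  by_cases hl : l = j
  · subst hl
    constructor
    · rw [solA_fderiv_ex_ge h0 h1 h2, hx.2 l h0 h1 h2, mul_zero]
    · rw [solA_fderiv_ey_ge h0 h1 h2, hx.1]
      simp [h2]
  · constructor
    · apply solA_fderiv_ex
      · rintro ⟨h, _⟩; exact h2 h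
      · rintro ⟨_, h⟩; exact hl h
    · apply solA_fderiv_ey
      · rintro ⟨h, _⟩; exact h0 h
      · rintro ⟨h, _⟩; exact h1 h
      · rintro ⟨h, _⟩; exact h2 h
      · rintro ⟨_, h⟩; exact hl h

lemma solA_onM_fderiv_ex_two {μ p : ℝ} {x : P (k + 3)} (hx : onM p x) (l : Fin (k + 3)) :
    fderiv ℝ (solA μ k 2) x (ex l) = 0 := by
  refine fderiv_eq_of_curve (solA_diff μ 2 x) (γ := fun τ => x + τ • ex l) (by simp)
    (hasDerivAt_line _ _) ?_
  have : (fun τ : ℝ => solA μ k 2 (x + τ • ex l)) = fun τ => p ^ 2 := by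
    funext τ
    rw [solA_two μ]
    have h1 : ∀ i, (x + τ • ex l).2 i = x.2 i := by intro i; simp
    rw [h1, h1, h1, hx.1]
    simp [fin02, fin12]
  rw [this]
  exact hasDerivAt_const _ _

lemma solA_onM_fderiv_ey_two {μ p : ℝ} {x : P (k + 3)} (hx : onM p x) {l : Fin (k + 3)}
    (hl : l ≠ 2) : fderiv ℝ (solA μ k 2) x (ey l) = 0 := by
  refine fderiv_eq_of_curve (solA_diff μ 2 x) (γ := fun τ => x + τ • ey l) (by simp)
    (hasDerivAt_line _ _) ?_
  have : (fun τ : ℝ => solA μ k 2 (x + τ • ey l)) = fun τ => p ^ 2 +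
      (Real.exp (2 * μ * x.1 2) * (if (0 : Fin (k+3)) = l then 1 else 0) +
        Real.exp (-(2 * μ * x.1 2)) * (if (1 : Fin (k + 3)) = l then 1 else 0)) * τ ^ 2 := by
    funext τ
    rw [solA_two μ]
    simp [hx.1, fin02, fin12, hl.symm]
    split_ifs <;> ring
  rw [this]
  have h := (((hasDerivAt_id (0:ℝ)).pow 2).const_mul
      (Real.exp (2 * μ * x.1 2) * (if (0 : Fin (k+3)) = l then 1 else 0) +
        Real.exp (-(2 * μ * x.1 2)) * (if (1 : Fin (k + 3)) = l then 1 else 0))).const_add (p ^ 2)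
  simpa using h

lemma solG_onM_fderiv {μ δ p : ℝ} (hδ : 0 < δ) (hp : p ^ 2 < δ) {x : P (k + 3)} (hx : onM p x)
    (l : Fin (k + 3)) :
    fderiv ℝ (solG μ δ k 2) x (ex l) = 0 ∧
    fderiv ℝ (solG μ δ k 2) x (ey l) = if l = 2 then -(solSpeed δ p k) else 0 := by
  have hcd := onM_cutdom (μ := μ) hδ hp hx
  rw [(solG_hasFDerivAt hcd).fderiv]
  have hβ01 : ∀ j : Fin (k + 3), (j = 0 ∨ j = 1) → solβ μ δ x j = 0 := by
    intro j hj; simp [solβ, hj]
  have hβ2 : solβ μ δ x 2 = -((δ - p ^ 2) ^ 2)⁻¹ := by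
    unfold solβ
    rw [if_neg (by rw [not_or]; exact ⟨fin02.symm, fin12.symm⟩), solA_onM_two hx]
  have hsum : ∀ v, (∀ j : Fin (k + 3), j ≠ 0 → j ≠ 1 → j ≠ 2 → fderiv ℝ (solA μ k j) x v = 0) →
      (solG μ δ k 2 x • ((∑ j, solβ μ δ x j • fderiv ℝ (solA μ k j) x) -
        fderiv ℝ (solA μ k 2) x)) v
      = - (solVal δ p k * (((δ - p ^ 2) ^ 2)⁻¹ + 1)) * fderiv ℝ (solA μ k 2) x v := by
    intro v hv
    have h1 : (∑ j, solβ μ δ x j • fderiv ℝ (solA μ k j) x) v =
        solβ μ δ x 2 * fderiv ℝ (solA μ k 2) x v := by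
      simp only [FunLike.coe_sum, Finset.sum_apply, FunLike.coe_smul, Pi.smul_apply, smul_eq_mul]
      rw [Finset.sum_eq_single 2]
      · intro j _ hj
        by_cases h0 : j = 0 ∨ j = 1
        · rw [hβ01 j h0, zero_mul]
        · rw [not_or] at h0
          rw [hv j h0.1 h0.2 hj, mul_zero]
      · intro h; exact absurd (Finset.mem_univ _) h
    simp only [FunLike.coe_smul, Pi.smul_apply, smul_eq_mul, FunLike.coe_sub, Pi.sub_apply]
    rw [h1, hβ2, solG_onM hx]
    ring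
  rw [hsum _ (fun j h0 h1 h2 => (solA_onM_fderiv_ge hx h0 h1 h2 l).1),
    hsum _ (fun j h0 h1 h2 => (solA_onM_fderiv_ge hx h0 h1 h2 l).2)]
  constructor
  · rw [solA_onM_fderiv_ex_two hx, mul_zero]
  · by_cases hl : l = 2
    · subst hl
      rw [if_pos rfl, solA_fderiv_ey_two, hx.1]
      unfold solSpeed
      simp
    · rw [if_neg hl, solA_onM_fderiv_ey_two hx hl, mul_zero]

end Pool.Agent.H73
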