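import Mathlib
import Pool.Agent.H73.Lift
import Pool.Agent.H73.Sol2

/-!
The deck group, the notion of a Sol embedding, and the tube lemma.
-/

namespace Pool.Agent.H73

open scoped ContDiff Topology
open Finset Filter

variable {k : ℕ}

/-- The action of the deck group: `l : ℤ` is the power of the monodromy, `a` a translation. -/
noncomputable def act (μ : ℝ) (l : ℤ) (a : ℝ × ℝ) (q : V (k + 3)) : V (k + 3) :=
  fun i => if i = 0 then Real.exp (μ * l) * q 0 + a.1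
    else if i = 1 then Real.exp (-(μ * l)) * q 1 + a.2
    else if i = 2 then q 2 + l
    else q i

lemma act_zero (μ : ℝ) (l : ℤ) (a : ℝ × ℝ) (q : V (k + 3)) :
    act μ l a q 0 = Real.exp (μ * l) * q 0 + a.1 := by simp [act]
lemma act_one (μ : ℝ) (l : ℤ) (a : ℝ × ℝ) (q : V (k + 3)) :
    act μ l a q 1 = Real.exp (-(μ * l)) * q 1 + a.2 := by simp [act]
lemma act_two (μ : ℝ) (l : ℤ) (a : ℝ × ℝ) (q : V (k + 3)) :
    act μ l a q 2 = q 2 + l := by simp [act, fin02.symm, fin12.symm]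
lemma act_ge (μ : ℝ) (l : ℤ) (a : ℝ × ℝ) (q : V (k + 3)) {i : Fin (k + 3)} (h0 : i ≠ 0)
    (h1 : i ≠ 1) (h2 : i ≠ 2) : act μ l a q i = q i := by simp [act, h0, h1, h2]

/-- linear part of the action -/
noncomputable def actL (μ : ℝ) (l : ℤ) : V (k + 3) →L[ℝ] V (k + 3) :=
  ContinuousLinearMap.pi fun i =>
    (if i = 0 then Real.exp (μ * l) else if i = 1 then Real.exp (-(μ * l)) else 1) •
      ContinuousLinearMap.proj i

lemma actL_apply (μ : ℝ) (l : ℤ) (q : V (k + 3)) (i : Fin (k + 3)) : actL μ l q i =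
    (if i = 0 then Real.exp (μ * l) else if i = 1 then Real.exp (-(μ * l)) else 1) * q i := by
  rfl

lemma act_eq (μ : ℝ) (l : ℤ) (a : ℝ × ℝ) (q : V (k + 3)) :
    act μ l a q = actL μ l q + act μ l a 0 := by
  funext i
  rw [Pi.add_apply, actL_apply]
  by_cases h0 : i = 0
  · subst h0; rw [act_zero, act_zero]; simp
  by_cases h1 : i = 1
  · subst h1; rw [act_one, act_one]; simp
  by_cases h2 : i = 2
  · subst h2; rw [act_two, act_two]; simp [h0, h1]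
  · rw [act_ge _ _ _ _ h0 h1 h2, act_ge _ _ _ _ h0 h1 h2]; simp [h0, h1]

lemma act_continuous (μ : ℝ) (l : ℤ) (a : ℝ × ℝ) : Continuous (act (k := k) μ l a) := by
  have : act (k := k) μ l a = fun q => actL μ l q + act μ l a 0 := funext fun q => act_eq μ l a q
  rw [this]
  exact (actL μ l).continuous.add continuous_const

lemma act_hasFDerivAt (μ : ℝ) (l : ℤ) (a : ℝ × ℝ) (q : V (k + 3)) :
    HasFDerivAt (act μ l a) (actL μ l) q := by
  have : act (k := k) μ l a = fun q => actL μ l q + act μ l a 0 := funext fun q => act_eq μ l a q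
  rw [this]
  exact (actL μ l).hasFDerivAt.add_const _

/-- The deck relation -/
def Rel (μ : ℝ) (Γ : AddSubgroup (ℝ × ℝ)) (q q' : V (k + 3)) : Prop :=
  ∃ l : ℤ, ∃ a ∈ Γ, q' = act μ l a q

/-- the lattice is invariant under the monodromy -/
def LatInv (μ : ℝ) (Γ : AddSubgroup (ℝ × ℝ)) : Prop :=
  ∀ l : ℤ, ∀ a ∈ Γ, (Real.exp (μ * l) * a.1, Real.exp (-(μ * l)) * a.2) ∈ Γ

/-- the lattice is cocompact -/
def LatCocompact (Γ : AddSubgroup (ℝ × ℝ)) : Prop :=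
  ∃ R : ℝ, ∀ x : ℝ × ℝ, ∃ a ∈ Γ, |x.1 + a.1| ≤ R ∧ |x.2 + a.2| ≤ R

lemma act_act (μ : ℝ) (l l' : ℤ) (a a' : ℝ × ℝ) (q : V (k + 3)) :
    act μ l a (act μ l' a' q) = act μ (l + l')
      (Real.exp (μ * l) * a'.1 + a.1, Real.exp (-(μ * l)) * a'.2 + a.2) q := by
  funext i
  by_cases h0 : i = 0
  · subst h0; rw [act_zero, act_zero, act_zero]
    push_cast
    rw [mul_add, mul_add, Real.exp_add]; ring
  by_cases h1 : i = 1
  · subst h1; rw [act_one, act_one, act_one]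
    push_cast
    rw [mul_add, mul_add, neg_add, Real.exp_add]; ring
  by_cases h2 : i = 2
  · subst h2; rw [act_two, act_two, act_two]
    push_cast; ring
  · rw [act_ge _ _ _ _ h0 h1 h2, act_ge _ _ _ _ h0 h1 h2, act_ge _ _ _ _ h0 h1 h2]

lemma act_id (μ : ℝ) (q : V (k + 3)) : act μ 0 (0, 0) q = q := by
  funext i
  by_cases h0 : i = 0
  · subst h0; rw [act_zero]; simp
  by_cases h1 : i = 1
  · subst h1; rw [act_one]; simp
  by_cases h2 : i = 2
  · subst h2; rw [act_two]; simp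
  · rw [act_ge _ _ _ _ h0 h1 h2]

lemma Rel.refl {μ : ℝ} {Γ : AddSubgroup (ℝ × ℝ)} (q : V (k + 3)) : Rel μ Γ q q :=
  ⟨0, (0, 0), Γ.zero_mem, (act_id μ q).symm⟩

lemma Rel.symm {μ : ℝ} {Γ : AddSubgroup (ℝ × ℝ)} (hΓ : LatInv μ Γ) {q q' : V (k + 3)}
    (h : Rel μ Γ q q') : Rel μ Γ q' q := by
  obtain ⟨l, a, ha, rfl⟩ := h
  refine ⟨-l, -(Real.exp (μ * (-l : ℤ)) * a.1, Real.exp (-(μ * (-l : ℤ))) * a.2),
    Γ.neg_mem (hΓ (-l) a ha), ?_⟩
  rw [act_act]
  have : (-l + l) = 0 := by ring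
  rw [this]
  simp only [Prod.neg_mk, add_neg_cancel]
  rw [act_id]

lemma Rel.trans {μ : ℝ} {Γ : AddSubgroup (ℝ × ℝ)} (hΓ : LatInv μ Γ) {q q' q'' : V (k + 3)}
    (h : Rel μ Γ q q') (h' : Rel μ Γ q' q'') : Rel μ Γ q q'' := by
  obtain ⟨l, a, ha, rfl⟩ := h
  obtain ⟨l', a', ha', rfl⟩ := h'
  refine ⟨l' + l, _, ?_, act_act _ _ _ _ _ _⟩
  exact Γ.add_mem (hΓ l' a ha) ha'

/-- points of the core -/
def core (q : V (k + 3)) : Prop := ∀ j, j ≠ 0 → j ≠ 1 → j ≠ 2 → q j = 0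

/-- points of the open tube -/
def tub (ε : ℝ) (q : V (k + 3)) : Prop := ∀ j, j ≠ 0 → j ≠ 1 → j ≠ 2 → |q j| < ε

/-- points of the closed tube -/
def ctub (ε : ℝ) (q : V (k + 3)) : Prop := ∀ j, j ≠ 0 → j ≠ 1 → j ≠ 2 → |q j| ≤ ε

lemma tub_act {μ ε : ℝ} {l : ℤ} {a : ℝ × ℝ} {q : V (k + 3)} :
    tub ε (act μ l a q) ↔ tub ε q := by
  unfold tub
  refine forall_congr' fun j => forall_congr' fun h0 => forall_congr' fun h1 =>
    forall_congr' fun h2 => ?_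
  rw [act_ge _ _ _ _ h0 h1 h2]

lemma ctub_act {μ ε : ℝ} {l : ℤ} {a : ℝ × ℝ} {q : V (k + 3)} :
    ctub ε (act μ l a q) ↔ ctub ε q := by
  unfold ctub
  refine forall_congr' fun j => forall_congr' fun h0 => forall_congr' fun h1 =>
    forall_congr' fun h2 => ?_
  rw [act_ge _ _ _ _ h0 h1 h2]

lemma tub_open (ε : ℝ) : IsOpen {q : V (k + 3) | tub ε q} := by
  have : {q : V (k + 3) | tub ε q} = ⋂ j, {q | j ≠ 0 → j ≠ 1 → j ≠ 2 → |q j| < ε} := by
    ext q; simp [tub]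
  rw [this]
  refine isOpen_iInter_of_finite fun j => ?_
  by_cases h : j ≠ 0 ∧ j ≠ 1 ∧ j ≠ 2
  · have : {q : V (k + 3) | j ≠ 0 → j ≠ 1 → j ≠ 2 → |q j| < ε} = {q | |q j| < ε} := by
      ext q; simp [h.1, h.2.1, h.2.2]
    rw [this]
    exact isOpen_lt (by fun_prop) continuous_const
  · have : {q : V (k + 3) | j ≠ 0 → j ≠ 1 → j ≠ 2 → |q j| < ε} = Set.univ := by
      ext q
      simp only [Set.mem_ofPred_eq, Set.mem_univ, iff_true]
      intro h0 h1 h2; exact absurd ⟨h0, h1, h2⟩ h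
    rw [this]; exact isOpen_univ

/-- A Sol embedding: a local diffeomorphism near the core, injective modulo the deck group. -/
structure SolEmb (μ : ℝ) (Γ : AddSubgroup (ℝ × ℝ)) (Ψ : V (k + 3) → V (k + 3)) : Prop where
  smooth : ContDiff ℝ ∞ Ψ
  inv : ∀ l : ℤ, ∀ a ∈ Γ, ∀ q, Ψ (act μ l a q) = Ψ q
  inj : ∀ q q', core q → core q' → Ψ q = Ψ q' → Rel μ Γ q q'
  imm : ∀ q, core q → (fderiv ℝ Ψ q).IsInvertible

variable {μ : ℝ} {Γ : AddSubgroup (ℝ × ℝ)} {Ψ : V (k + 3) → V (k + 3)}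

lemma SolEmb.fderiv_act (h : SolEmb μ Γ Ψ) (l : ℤ) {a : ℝ × ℝ} (ha : a ∈ Γ) (q : V (k + 3)) :
    (fderiv ℝ Ψ (act μ l a q)).comp (actL μ l) = fderiv ℝ Ψ q := by
  have h1 : HasFDerivAt Ψ (fderiv ℝ Ψ (act μ l a q)) (act μ l a q) :=
    (h.smooth.differentiable (by simp) _).hasFDerivAt
  have h2 := h1.comp q (act_hasFDerivAt μ l a q)
  have h3 : Ψ ∘ act μ l a = Ψ := funext fun q => h.inv l a ha q
  rw [h3] at h2
  exact h2.fderiv.symm

/-- the linear part of the action is invertible -/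
noncomputable def actE (μ : ℝ) (l : ℤ) : V (k + 3) ≃L[ℝ] V (k + 3) :=
  ContinuousLinearEquiv.equivOfInverse (actL μ l) (actL μ (-l))
    (by
      intro q; funext i
      rw [actL_apply, actL_apply, ← mul_assoc]
      push_cast
      split_ifs
      · rw [← Real.exp_add]; simp
      · rw [← Real.exp_add]; simp
      · simp)
    (by
      intro q; funext i
      rw [actL_apply, actL_apply, ← mul_assoc]
      push_cast
      split_ifs
      · rw [← Real.exp_add]; simp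
      · rw [← Real.exp_add]; simp
      · simp)

lemma actE_coe (μ : ℝ) (l : ℤ) :
    ((actE μ l : V (k + 3) ≃L[ℝ] V (k + 3)) : V (k + 3) →L[ℝ] V (k + 3)) = actL μ l := by
  ext; rfl

lemma SolEmb.inv_act (h : SolEmb μ Γ Ψ) (l : ℤ) {a : ℝ × ℝ} (ha : a ∈ Γ) (q : V (k + 3))
    (hq : (fderiv ℝ Ψ (act μ l a q)).IsInvertible) : (fderiv ℝ Ψ q).IsInvertible := by
  obtain ⟨e, he⟩ := hq
  refine ⟨(actE μ l).trans e, ?_⟩
  rw [← h.fderiv_act l ha q, ← he, ← actE_coe]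
  rfl

/-- compact box -/
def box (R ε : ℝ) : Set (V (k + 3)) :=
  Set.pi Set.univ fun j => if j = 0 ∨ j = 1 ∨ j = 2 then Set.Icc (-R) R else Set.Icc (-ε) ε

lemma box_compact (R ε : ℝ) : IsCompact (box (k := k) R ε) := by
  unfold box
  refine isCompact_univ_pi fun j => ?_
  split_ifs <;> exact isCompact_Icc

lemma mem_box {R ε : ℝ} {q : V (k + 3)} (h0 : |q 0| ≤ R) (h1 : |q 1| ≤ R) (h2 : |q 2| ≤ R)
    (h : ctub ε q) : q ∈ box R ε := by
  unfold box
  rw [Set.mem_univ_pi]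
  intro j
  by_cases hj : j = 0 ∨ j = 1 ∨ j = 2
  · rw [if_pos hj]
    rcases hj with rfl | rfl | rfl
    · exact abs_le.1 h0
    · exact abs_le.1 h1
    · exact abs_le.1 h2
  · rw [if_neg hj]
    rw [not_or, not_or] at hj
    exact abs_le.1 (h j hj.1 hj.2.1 hj.2.2)

lemma box_ctub {R ε : ℝ} {q : V (k + 3)} (h : q ∈ box R ε) : ctub ε q := by
  unfold box at h
  rw [Set.mem_univ_pi] at h
  intro j h0 h1 h2
  have := h j
  rw [if_neg (by rw [not_or, not_or]; exact ⟨h0, h1, h2⟩)] at this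
  exact abs_le.2 this

lemma box_two {R ε : ℝ} {q : V (k + 3)} (h : q ∈ box R ε) : |q 2| ≤ R := by
  unfold box at h
  rw [Set.mem_univ_pi] at h
  have := h 2
  rw [if_pos (by simp)] at this
  exact abs_le.2 this

/-- every point is equivalent to one in a fixed box -/
lemma exists_box (hc : LatCocompact Γ) : ∃ R : ℝ, ∀ (ε : ℝ) (q : V (k + 3)), ctub ε q →
    ∃ l : ℤ, ∃ a ∈ Γ, act μ l a q ∈ box R ε := by
  obtain ⟨R, hR⟩ := hc
  refine ⟨max R 1, fun ε q hq => ?_⟩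
  obtain ⟨a, ha, h1, h2⟩ := hR (Real.exp (μ * ((-⌊q 2⌋ : ℤ) : ℝ)) * q 0,
    Real.exp (-(μ * ((-⌊q 2⌋ : ℤ) : ℝ))) * q 1)
  refine ⟨-⌊q 2⌋, a, ha, mem_box ?_ ?_ ?_ (ctub_act.2 hq)⟩
  · rw [act_zero]; exact h1.trans (le_max_left _ _)
  · rw [act_one]; exact h2.trans (le_max_left _ _)
  · rw [act_two]
    refine le_trans ?_ (le_max_right _ _)
    push_cast
    have h3 := Int.floor_le (q 2)
    have h4 := Int.lt_floor_add_one (q 2)
    rw [abs_le]; constructor <;> linarith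

end Pool.Agent.H73
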