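import Mathlib
import Pool.Agent.H73.Embed

/-!
The tube lemma.
-/

namespace Pool.Agent.H73

open scoped ContDiff Topology
open Finset Filter

variable {k : ℕ}

variable {μ : ℝ} {Γ : AddSubgroup (ℝ × ℝ)} {Ψ : V (k + 3) → V (k + 3)}

lemma isInvertible_eventually {Ψ : V (k + 3) → V (k + 3)} (hs : ContDiff ℝ ∞ Ψ) {q : V (k + 3)}
    (hq : (fderiv ℝ Ψ q).IsInvertible) : ∀ᶠ q' in 𝓝 q, (fderiv ℝ Ψ q').IsInvertible := by
  obtain ⟨e, he⟩ := hq
  have h1 := ContinuousLinearEquiv.nhds e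
  rw [he] at h1
  have h2 : ContinuousAt (fderiv ℝ Ψ) q := (fderiv_smooth hs).continuous.continuousAt
  have h3 := h2 h1
  filter_upwards [h3] with q' hq'
  exact hq'

lemma local_injOn {Ψ : V (k + 3) → V (k + 3)} (hs : ContDiff ℝ ∞ Ψ) {q : V (k + 3)}
    (hq : (fderiv ℝ Ψ q).IsInvertible) : ∃ u ∈ 𝓝 q, Set.InjOn Ψ u := by
  obtain ⟨e, he⟩ := hq
  have h1 : HasFDerivAt Ψ (e : V (k + 3) →L[ℝ] V (k + 3)) q := by
    rw [he]; exact (hs.differentiable (by simp) q).hasFDerivAt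
  let H := (hs.contDiffAt (x := q)).toOpenPartialHomeomorph Ψ h1 (by simp)
  refine ⟨H.source, H.open_source.mem_nhds
    ((hs.contDiffAt (x := q)).mem_toOpenPartialHomeomorph_source h1 (by simp)), ?_⟩
  exact H.injOn

lemma core_of_tendsto {q : V (k + 3)} {u : ℕ → V (k + 3)} {φ : ℕ → ℕ} (hφ : StrictMono φ)
    (hu : ∀ n : ℕ, tub (1 / ((n : ℝ) + 1)) (u n)) (h : Tendsto (u ∘ φ) atTop (𝓝 q)) : core q := by
  intro j h0 h1 h2
  have h3 : Tendsto (fun n => |(u ∘ φ) n j|) atTop (𝓝 |q j|) :=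
    (((continuous_apply j).tendsto q).comp h).abs
  have h4 : Tendsto (fun n => 1 / (((φ n : ℕ) : ℝ) + 1)) atTop (𝓝 0) :=
    tendsto_one_div_add_atTop_nhds_zero_nat.comp hφ.tendsto_atTop
  have h5 := le_of_tendsto_of_tendsto' h3 h4 (fun n => (hu (φ n) j h0 h1 h2).le)
  exact abs_eq_zero.1 (le_antisymm h5 (abs_nonneg _))

lemma tub_ctub {ε : ℝ} {q : V (k + 3)} (h : tub ε q) : ctub ε q :=
  fun j h0 h1 h2 => (h j h0 h1 h2).le

lemma ctub_mono {ε ε' : ℝ} (he : ε ≤ ε') {q : V (k + 3)} (h : ctub ε q) : ctub ε' q :=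
  fun j h0 h1 h2 => (h j h0 h1 h2).trans he

lemma tub_mono {ε ε' : ℝ} (he : ε ≤ ε') {q : V (k + 3)} (h : tub ε q) : tub ε' q :=
  fun j h0 h1 h2 => (h j h0 h1 h2).trans_le he

lemma SolEmb.tube_imm (h : SolEmb μ Γ Ψ) (hc : LatCocompact Γ) :
    ∃ ε > 0, ∀ q : V (k + 3), tub ε q → (fderiv ℝ Ψ q).IsInvertible := by
  by_contra hcon
  push Not at hcon
  obtain ⟨R, hR⟩ := exists_box (k := k) (μ := μ) hc
  have hpos : ∀ n : ℕ, 0 < 1 / ((n : ℝ) + 1) := fun n => by positivity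
  have hle : ∀ n : ℕ, 1 / ((n : ℝ) + 1) ≤ 1 := fun n => by
    rw [div_le_one (by positivity)]; linarith [(Nat.cast_nonneg n : (0:ℝ) ≤ n)]
  have h1 : ∀ n : ℕ, ∃ q : V (k + 3), tub (1 / ((n : ℝ) + 1)) q ∧ q ∈ box R 1 ∧
      ¬ (fderiv ℝ Ψ q).IsInvertible := by
    intro n
    obtain ⟨q, hq, hni⟩ := hcon _ (hpos n)
    obtain ⟨l, a, ha, hb⟩ := hR 1 q (ctub_mono (hle n) (tub_ctub hq))
    exact ⟨act μ l a q, tub_act.2 hq, hb, fun hh => hni (h.inv_act l ha q hh)⟩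
  choose u hu hub huni using h1
  obtain ⟨q, hq, φ, hφ, hlim⟩ := (box_compact (k := k) R 1).tendsto_subseq hub
  have hcore := core_of_tendsto hφ hu hlim
  have hev := hlim.eventually (isInvertible_eventually h.smooth (h.imm q hcore))
  obtain ⟨n, hn⟩ := hev.exists
  exact huni _ hn

lemma SolEmb.tube_inj (h : SolEmb μ Γ Ψ) (hΓ : LatInv μ Γ) (hc : LatCocompact Γ) :
    ∃ ε > 0, ∀ q q' : V (k + 3), tub ε q → tub ε q' → Ψ q = Ψ q' → Rel μ Γ q q' := by
  by_contra hcon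
  push Not at hcon
  obtain ⟨R, hR⟩ := exists_box (k := k) (μ := μ) hc
  have hpos : ∀ n : ℕ, 0 < 1 / ((n : ℝ) + 1) := fun n => by positivity
  have hle : ∀ n : ℕ, 1 / ((n : ℝ) + 1) ≤ 1 := fun n => by
    rw [div_le_one (by positivity)]; linarith [(Nat.cast_nonneg n : (0:ℝ) ≤ n)]
  have h1 : ∀ n : ℕ, ∃ q q' : V (k + 3), tub (1 / ((n : ℝ) + 1)) q ∧ tub (1 / ((n : ℝ) + 1)) q' ∧
      q ∈ box R 1 ∧ q' ∈ box R 1 ∧ Ψ q = Ψ q' ∧ ¬ Rel μ Γ q q' := by
    intro n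
    obtain ⟨q, q', hq, hq', he, hni⟩ := hcon _ (hpos n)
    obtain ⟨l, a, ha, hb⟩ := hR 1 q (ctub_mono (hle n) (tub_ctub hq))
    obtain ⟨l', a', ha', hb'⟩ := hR 1 q' (ctub_mono (hle n) (tub_ctub hq'))
    refine ⟨act μ l a q, act μ l' a' q', tub_act.2 hq, tub_act.2 hq', hb, hb', ?_, ?_⟩
    · rw [h.inv l a ha, h.inv l' a' ha', he]
    · intro hr
      apply hni
      have e1 : Rel μ Γ q (act μ l a q) := ⟨l, a, ha, rfl⟩
      have e2 : Rel μ Γ q' (act μ l' a' q') := ⟨l', a', ha', rfl⟩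
      exact (e1.trans hΓ hr).trans hΓ (e2.symm hΓ)
  choose u u' hu hu' hub hub' he huni using h1
  obtain ⟨q, hq, φ, hφ, hlim⟩ := (box_compact (k := k) R 1).tendsto_subseq hub
  obtain ⟨q', hq', φ', hφ', hlim'⟩ := (box_compact (k := k) R 1).tendsto_subseq
    (x := u' ∘ φ) (fun n => hub' (φ n))
  have hlim2 : Tendsto (u ∘ (φ ∘ φ')) atTop (𝓝 q) := hlim.comp hφ'.tendsto_atTop
  have hlim2' : Tendsto (u' ∘ (φ ∘ φ')) atTop (𝓝 q') := hlim'
  have hφφ : StrictMono (φ ∘ φ') := hφ.comp hφ'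
  have hcore := core_of_tendsto hφφ hu hlim2
  have hcore' := core_of_tendsto hφφ hu' hlim2'
  have hcont := h.smooth.continuous
  have heq : Ψ q = Ψ q' := by
    have h3 : Tendsto (fun n => Ψ ((u ∘ (φ ∘ φ')) n)) atTop (𝓝 (Ψ q)) :=
      (hcont.tendsto q).comp hlim2
    have h4 : Tendsto (fun n => Ψ ((u' ∘ (φ ∘ φ')) n)) atTop (𝓝 (Ψ q')) :=
      (hcont.tendsto q').comp hlim2'
    have h5 : (fun n => Ψ ((u ∘ (φ ∘ φ')) n)) = fun n => Ψ ((u' ∘ (φ ∘ φ')) n) :=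
      funext fun n => he _
    rw [h5] at h3
    exact tendsto_nhds_unique h3 h4
  obtain ⟨l, a, ha, hr⟩ := (h.inj q q' hcore hcore' heq).symm hΓ
  -- `q = act l a q'`
  have hlim3 : Tendsto (fun n => act μ l a ((u' ∘ (φ ∘ φ')) n)) atTop (𝓝 q) := by
    rw [hr]
    exact ((act_continuous μ l a).tendsto q').comp hlim2'
  obtain ⟨w, hw, hinj⟩ := local_injOn h.smooth (h.imm q hcore)
  obtain ⟨n, hn1, hn2⟩ := ((hlim2.eventually hw).and (hlim3.eventually hw)).exists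
  have := hinj hn1 hn2 (by rw [h.inv l a ha]; exact he _)
  have e1 : Rel μ Γ (u' ((φ ∘ φ') n)) (u ((φ ∘ φ') n)) := ⟨l, a, ha, this⟩
  exact huni _ (e1.symm hΓ)

lemma SolEmb.tube (h : SolEmb μ Γ Ψ) (hΓ : LatInv μ Γ) (hc : LatCocompact Γ) :
    ∃ ε > 0, (∀ q : V (k + 3), tub ε q → (fderiv ℝ Ψ q).IsInvertible) ∧
      ∀ q q' : V (k + 3), tub ε q → tub ε q' → Ψ q = Ψ q' → Rel μ Γ q q' := by
  obtain ⟨ε₁, h1, h1'⟩ := h.tube_imm hc
  obtain ⟨ε₂, h2, h2'⟩ := h.tube_inj hΓ hc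
  refine ⟨min ε₁ ε₂, lt_min h1 h2, fun q hq => h1' q (tub_mono (min_le_left _ _) hq),
    fun q q' hq hq' => h2' q q' (tub_mono (min_le_right _ _) hq) (tub_mono (min_le_right _ _) hq')⟩

/-- momentum part of the action -/
noncomputable def actT (μ : ℝ) (l : ℤ) (p : V (k + 3)) : V (k + 3) :=
  fun i => (if i = 0 then Real.exp (-(μ * l)) else if i = 1 then Real.exp (μ * l) else 1) * p i

lemma SolEmb.pT_act (h : SolEmb μ Γ Ψ) (l : ℤ) {a : ℝ × ℝ} (ha : a ∈ Γ) (q Y : V (k + 3)) :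
    pT Ψ (act μ l a q) Y = actT μ l (pT Ψ q Y) := by
  have h1 := h.fderiv_act l ha q
  funext i
  unfold actT pT
  rw [← h1]
  simp only [ContinuousLinearMap.comp_apply]
  have h2 : (actL μ l) (Pi.single i 1 : V (k + 3)) =
      (if i = 0 then Real.exp (μ * l) else if i = 1 then Real.exp (-(μ * l)) else 1) •
        (Pi.single i 1 : V (k + 3)) := by
    funext j
    rw [actL_apply, Pi.smul_apply, smul_eq_mul]
    by_cases hj : j = i
    · subst hj; rfl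
    · rw [Pi.single_eq_of_ne hj, mul_zero, mul_zero]
  rw [h2, map_smul]
  have h3 : ∀ (c : ℝ) (w : V (k + 3)), dp Y (c • w) = c * dp Y w := by
    intro c w
    unfold dp
    rw [Finset.mul_sum]
    refine Finset.sum_congr rfl fun i _ => ?_
    simp; ring
  rw [h3, ← mul_assoc]
  have h4 : (if i = 0 then Real.exp (-(μ * l)) else if i = 1 then Real.exp (μ * l) else 1) *
      (if i = 0 then Real.exp (μ * l) else if i = 1 then Real.exp (-(μ * l)) else 1) = 1 := by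
    split_ifs
    · rw [← Real.exp_add]; simp
    · rw [← Real.exp_add]; simp
    · simp
  rw [h4, one_mul]

/-- invariance of the Sol functions -/
lemma solA_inv {μ : ℝ} (hμ : 0 < μ) (i : Fin (k + 3)) (l : ℤ) (a : ℝ × ℝ) (q p : V (k + 3)) :
    solA μ k i (act μ l a q, actT μ l p) = solA μ k i (q, p) := by
  have hp0 : actT μ l p 0 = Real.exp (-(μ * l)) * p 0 := by simp [actT]
  have hp1 : actT μ l p 1 = Real.exp (μ * l) * p 1 := by simp [actT]
  have hp2 : actT μ l p 2 = p 2 := by simp [actT, fin02.symm, fin12.symm]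
  have hprod : Real.exp (-(μ * l)) * Real.exp (μ * l) = 1 := by rw [← Real.exp_add]; simp
  have hmul : Real.exp (-(μ * l)) * p 0 * (Real.exp (μ * l) * p 1) = p 0 * p 1 := by
    linear_combination (p 0 * p 1) * hprod
  by_cases h0 : i = 0
  · subst h0
    rw [solA_zero, solA_zero]
    simp only
    rw [hp0, hp1, hmul]
  by_cases h1 : i = 1
  · subst h1
    rw [solA_one, solA_one]
    simp only
    rw [hp0, hp1, flat, flat, hmul]
    rcases eq_or_ne (p 0) 0 with hz | hz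
    · simp [hz]
    · congr 1
      rw [Real.log_mul (Real.exp_pos _).ne' hz, Real.log_exp]
      have : 2 * Real.pi / μ * (-(μ * l) + Real.log (p 0)) =
          2 * Real.pi / μ * Real.log (p 0) - l * (2 * Real.pi) := by
        field_simp
        ring
      rw [this, Real.sin_sub_int_mul_two_pi]
  by_cases h2 : i = 2
  · subst h2
    rw [solA_two, solA_two]
    simp only
    rw [hp0, hp1, hp2, act_two]
    have e1 : Real.exp (2 * μ * (q 2 + l)) * (Real.exp (-(μ * l)) * p 0) ^ 2 =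
        Real.exp (2 * μ * q 2) * p 0 ^ 2 := by
      have : Real.exp (2 * μ * (q 2 + l)) = Real.exp (2 * μ * q 2) * (Real.exp (μ * l)) ^ 2 := by
        rw [← Real.exp_nat_mul, ← Real.exp_add]
        congr 1; push_cast; ring
      rw [this]
      have h5 : (Real.exp (μ * l)) ^ 2 * (Real.exp (-(μ * l))) ^ 2 = 1 := by
        rw [← mul_pow, mul_comm (Real.exp (μ * l)), hprod, one_pow]
      linear_combination (Real.exp (2 * μ * q 2) * p 0 ^ 2) * h5
    have e2 : Real.exp (-(2 * μ * (q 2 + l))) * (Real.exp (μ * l) * p 1) ^ 2 =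
        Real.exp (-(2 * μ * q 2)) * p 1 ^ 2 := by
      have : Real.exp (-(2 * μ * (q 2 + l))) =
          Real.exp (-(2 * μ * q 2)) * (Real.exp (-(μ * l))) ^ 2 := by
        rw [← Real.exp_nat_mul, ← Real.exp_add]
        congr 1; push_cast; ring
      rw [this]
      have h5 : (Real.exp (-(μ * l))) ^ 2 * (Real.exp (μ * l)) ^ 2 = 1 := by
        rw [← mul_pow, hprod, one_pow]
      linear_combination (Real.exp (-(2 * μ * q 2)) * p 1 ^ 2) * h5
    rw [e1, e2]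
  · rw [solA_ge μ h0 h1 h2, solA_ge μ h0 h1 h2]
    simp only
    rw [act_ge _ _ _ _ h0 h1 h2]
    have : actT μ l p i = p i := by simp [actT, h0, h1]
    rw [this]

lemma solG_inv {μ δ : ℝ} (hμ : 0 < μ) (i : Fin (k + 3)) (l : ℤ) (a : ℝ × ℝ) (q p : V (k + 3)) :
    solG μ δ k i (act μ l a q, actT μ l p) = solG μ δ k i (q, p) := by
  unfold solG
  simp only [solA_inv hμ]

end Pool.Agent.H73
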