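import Mathlib
import Pool.Agent.H73.Tube

/-!
The Sol block in the target phase space.
-/

namespace Pool.Agent.H73

open scoped ContDiff Topology
open Finset Filter

/-- A block: commuting functions with common bounded open positivity set, independent on a dense
part of it. -/
structure Block {m : ℕ} (g : Fin m → P m → ℝ) (U : Set (P m)) : Prop where
  isOpen : IsOpen U
  bdd : Bornology.IsBounded U
  smooth : ∀ i, ContDiff ℝ ∞ (g i)
  pos : ∀ i, ∀ x ∈ U, 0 < g i x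
  zero : ∀ i, ∀ x, x ∉ U → g i x = 0
  comm : ∀ i j, ∀ x ∈ U, pb (g i) (g j) x = 0
  indep : ∃ D : Set (P m), D ⊆ U ∧ U ⊆ closure D ∧
    ∀ x ∈ D, LinearIndependent ℝ (fun i => fderiv ℝ (g i) x)

variable {k : ℕ}

variable {μ : ℝ} {Γ : AddSubgroup (ℝ × ℝ)} {Ψ : V (k + 3) → V (k + 3)}

lemma exists_local_inverse {Ψ : V (k + 3) → V (k + 3)} (hs : ContDiff ℝ ∞ Ψ) {q : V (k + 3)}
    (hq : (fderiv ℝ Ψ q).IsInvertible) : ∃ g : V (k + 3) → V (k + 3),
      ContDiffAt ℝ ∞ g (Ψ q) ∧ g (Ψ q) = q ∧ ∀ᶠ X in 𝓝 (Ψ q), Ψ (g X) = X := by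
  obtain ⟨e, he⟩ := hq
  have h1 : HasFDerivAt Ψ (e : V (k + 3) →L[ℝ] V (k + 3)) q := by
    rw [he]; exact (hs.differentiable (by simp) q).hasFDerivAt
  have hc : ContDiffAt ℝ ∞ Ψ q := hs.contDiffAt
  refine ⟨hc.localInverse h1 (by simp), hc.to_localInverse h1 (by simp),
    hc.localInverse_apply_image h1 (by simp), ?_⟩
  exact (hc.hasStrictFDerivAt' h1 (by simp)).eventually_right_inverse

open Classical in
/-- the lift of a deck-invariant function, extended by zero -/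
noncomputable def liftF (Ψ : V (k + 3) → V (k + 3)) (ε : ℝ) (f : P (k + 3) → ℝ)
    (x : P (k + 3)) : ℝ :=
  if h : ∃ q, tub ε q ∧ Ψ q = x.1 then f (h.choose, pT Ψ h.choose x.2) else 0

/-- data of a tube -/
structure Tube (μ : ℝ) (Γ : AddSubgroup (ℝ × ℝ)) (Ψ : V (k + 3) → V (k + 3)) (ε : ℝ) : Prop where
  emb : SolEmb μ Γ Ψ
  pos : 0 < ε
  imm : ∀ q : V (k + 3), tub ε q → (fderiv ℝ Ψ q).IsInvertible
  inj : ∀ q q' : V (k + 3), tub ε q → tub ε q' → Ψ q = Ψ q' → Rel μ Γ q q'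

/-- deck invariance of a function on phase space -/
def DeckInv (μ : ℝ) (f : P (k + 3) → ℝ) : Prop :=
  ∀ (l : ℤ) (a : ℝ × ℝ) (q p : V (k + 3)), f (act μ l a q, actT μ l p) = f (q, p)

lemma liftF_apply {ε : ℝ} (T : Tube μ Γ Ψ ε) {f : P (k + 3) → ℝ} (hf : DeckInv μ f)
    {q : V (k + 3)} (hq : tub ε q) (Y : V (k + 3)) :
    liftF Ψ ε f (Ψ q, Y) = f (q, pT Ψ q Y) := by
  unfold liftF
  have hex : ∃ q', tub ε q' ∧ Ψ q' = (Ψ q, Y).1 := ⟨q, hq, rfl⟩
  rw [dif_pos hex]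
  obtain ⟨h1, h2⟩ := hex.choose_spec
  obtain ⟨l, a, ha, hr⟩ := T.inj q _ hq h1 h2.symm
  rw [hr, T.emb.pT_act l ha, hf]

lemma liftF_zero {ε : ℝ} {f : P (k + 3) → ℝ} {x : P (k + 3)}
    (h : ¬ ∃ q, tub ε q ∧ Ψ q = x.1) : liftF Ψ ε f x = 0 := by
  unfold liftF
  rw [dif_neg h]

lemma liftF_isLift {ε : ℝ} (T : Tube μ Γ Ψ ε) {f : P (k + 3) → ℝ} (hf : DeckInv μ f)
    {q : V (k + 3)} (hq : tub ε q) (Y : V (k + 3)) : IsLift Ψ (liftF Ψ ε f) f q Y := by
  unfold IsLift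
  have h1 : ∀ᶠ x : P (k + 3) in 𝓝 (q, Y), tub ε x.1 :=
    (continuous_fst.tendsto (q, Y)).eventually ((tub_open ε).mem_nhds hq)
  filter_upwards [h1] with x hx
  exact liftF_apply T hf hx x.2

lemma liftF_contDiffAt {ε : ℝ} (T : Tube μ Γ Ψ ε) {f : P (k + 3) → ℝ} (hf : DeckInv μ f)
    (hs : ContDiff ℝ ∞ f) {q : V (k + 3)} (hq : tub ε q) (Y : V (k + 3)) :
    ContDiffAt ℝ ∞ (liftF Ψ ε f) (Ψ q, Y) := by
  obtain ⟨g, hg, hgq, hge⟩ := exists_local_inverse T.emb.smooth (T.imm q hq)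
  have h1 : ContDiffAt ℝ ∞ (fun x : P (k + 3) => g x.1) (Ψ q, Y) :=
    ContDiffAt.comp (g := g) (Ψ q, Y) hg contDiffAt_fst
  have h2 : ContDiffAt ℝ ∞ (fun x : P (k + 3) => ((g x.1, x.2) : P (k + 3))) (Ψ q, Y) :=
    h1.prodMk contDiffAt_snd
  have h3 : ContDiffAt ℝ ∞ (fun x : P (k + 3) => pT Ψ (g x.1) x.2) (Ψ q, Y) :=
    ContDiffAt.comp (g := fun x : P (k + 3) => pT Ψ x.1 x.2) (Ψ q, Y)
      (pT_contDiff T.emb.smooth).contDiffAt h2
  have h4 : ContDiffAt ℝ ∞ (fun x : P (k + 3) => f (g x.1, pT Ψ (g x.1) x.2)) (Ψ q, Y) :=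
    ContDiffAt.comp (g := f) (Ψ q, Y) hs.contDiffAt (h1.prodMk h3)
  refine h4.congr_of_eventuallyEq ?_
  have h5 : ∀ᶠ x : P (k + 3) in 𝓝 (Ψ q, Y), Ψ (g x.1) = x.1 :=
    (continuous_fst.tendsto (Ψ q, Y)).eventually hge
  have h6 : ∀ᶠ x : P (k + 3) in 𝓝 (Ψ q, Y), tub ε (g x.1) := by
    have h7 := h1.continuousAt
    have h8 : {q : V (k + 3) | tub ε q} ∈ 𝓝 (g (Ψ q, Y).1) := by
      simp only [hgq]
      exact (tub_open ε).mem_nhds hq
    exact h7 h8
  filter_upwards [h5, h6] with x hx1 hx2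
  have h9 := liftF_apply T hf hx2 x.2
  rw [hx1] at h9
  exact h9

lemma image_box {μ : ℝ} {Γ : AddSubgroup (ℝ × ℝ)} {Ψ : V (k + 3) → V (k + 3)}
    (h : SolEmb μ Γ Ψ) (hc : LatCocompact Γ) : ∃ R : ℝ, ∀ ε, ∀ q : V (k + 3), ctub ε q →
      ∃ l : ℤ, ∃ a ∈ Γ, act μ l a q ∈ box R ε ∧ Ψ (act μ l a q) = Ψ q := by
  obtain ⟨R, hR⟩ := exists_box (k := k) (μ := μ) hc
  refine ⟨R, fun ε q hq => ?_⟩
  obtain ⟨l, a, ha, hb⟩ := hR ε q hq
  exact ⟨l, a, ha, hb, h.inv l a ha q⟩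

lemma liftF_eq_of {ε : ℝ} (T : Tube μ Γ Ψ ε) {f : P (k + 3) → ℝ} (hf : DeckInv μ f)
    {x : P (k + 3)} (h : liftF Ψ ε f x ≠ 0) :
    ∃ q, tub ε q ∧ Ψ q = x.1 ∧ liftF Ψ ε f x = f (q, pT Ψ q x.2) := by
  by_cases hex : ∃ q, tub ε q ∧ Ψ q = x.1
  · obtain ⟨q, hq, hqx⟩ := hex
    refine ⟨q, hq, hqx, ?_⟩
    have := liftF_apply T hf hq x.2
    rw [hqx] at this
    exact this
  · exact absurd (liftF_zero hex) h

lemma liftF_contDiff {ε ε' : ℝ} (T : Tube μ Γ Ψ ε) (hc : LatCocompact Γ) (hε' : ε' < ε)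
    {f : P (k + 3) → ℝ} (hf : DeckInv μ f)
    (hs : ContDiff ℝ ∞ f) (hsupp : ∀ q p, f (q, p) ≠ 0 → ctub ε' q) :
    ContDiff ℝ ∞ (liftF Ψ ε f) := by
  rw [contDiff_iff_contDiffAt]
  intro x
  by_cases hex : ∃ q, tub ε q ∧ Ψ q = x.1
  · obtain ⟨q, hq, hqx⟩ := hex
    have := liftF_contDiffAt T hf hs hq x.2
    rw [hqx] at this
    exact this
  · -- near `x` the function vanishes
    obtain ⟨R, hR⟩ := image_box (k := k) T.emb hc
    -- the set where the lift may be nonzero is contained in the image of a compact set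
    have hcomp : IsCompact (Ψ '' box R ε') :=
      (box_compact R ε').image T.emb.smooth.continuous
    have hx : x.1 ∈ (Ψ '' box R ε')ᶜ := by
      rintro ⟨q, hq, hqx⟩
      apply hex
      refine ⟨q, fun j h0 h1 h2 => ?_, hqx⟩
      exact (box_ctub hq j h0 h1 h2).trans_lt hε'
    have hev : ∀ᶠ y : P (k + 3) in 𝓝 x, y.1 ∈ (Ψ '' box R ε')ᶜ :=
      (continuous_fst.tendsto x).eventually (hcomp.isClosed.isOpen_compl.mem_nhds hx)
    have h0 : liftF Ψ ε f =ᶠ[𝓝 x] fun _ => 0 := by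
      filter_upwards [hev] with y hy
      by_contra hne
      obtain ⟨q, hq, hqy, he⟩ := liftF_eq_of T hf hne
      rw [he] at hne
      obtain ⟨l, a, ha, hb, hb'⟩ := hR ε' q (hsupp _ _ hne)
      apply hy
      exact ⟨_, hb, by rw [hb', hqy]⟩
    exact contDiffAt_const.congr_of_eventuallyEq h0

lemma cutdom_tub {μ ε : ℝ} (hε : 0 < ε) {q p : V (k + 3)}
    (h : cutdom ((ε / 2) ^ 2) (fun j => solA μ k j (q, p))) : tub (ε / 2) q := by
  intro j h0 h1 h2
  have h3 := h j h0 h1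
  simp only at h3
  rw [solA_ge μ h0 h1 h2] at h3
  simp only at h3
  have h4 : q j ^ 2 < (ε / 2) ^ 2 := by nlinarith [sq_nonneg (p j)]
  exact abs_lt_of_sq_lt_sq h4 (by positivity)

lemma cutdom_p {μ δ R : ℝ} (hμ : 0 < μ) (hδ : 0 < δ) {q p : V (k + 3)} (hq : |q 2| ≤ R)
    (h : cutdom δ (fun j => solA μ k j (q, p))) (i : Fin (k + 3)) :
    |p i| ≤ Real.sqrt (δ * Real.exp (2 * μ * R)) := by
  apply Real.abs_le_sqrt
  have hR : 0 ≤ R := (abs_nonneg _).trans hq
  have hexp1 : 1 ≤ Real.exp (2 * μ * R) := by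
    apply Real.one_le_exp ; positivity
  have hA2 := h 2 fin02.symm fin12.symm
  simp only at hA2
  rw [solA_two] at hA2
  simp only at hA2
  have e0 : 0 < Real.exp (2 * μ * q 2) := Real.exp_pos _
  have e1 : 0 < Real.exp (-(2 * μ * q 2)) := Real.exp_pos _
  obtain ⟨hq1, hq2⟩ := abs_le.1 hq
  have eR0 : 1 ≤ Real.exp (2 * μ * q 2) * Real.exp (2 * μ * R) := by
    rw [← Real.exp_add]
    apply Real.one_le_exp
    have : 0 ≤ 2 * μ * (q 2 + R) := by
      have : 0 ≤ q 2 + R := by linarith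
      positivity
    linarith
  have eR1 : 1 ≤ Real.exp (-(2 * μ * q 2)) * Real.exp (2 * μ * R) := by
    rw [← Real.exp_add]
    apply Real.one_le_exp
    have : 0 ≤ 2 * μ * (R - q 2) := by
      have : 0 ≤ R - q 2 := by linarith
      positivity
    linarith
  have eRpos : 0 < Real.exp (2 * μ * R) := Real.exp_pos _
  have hp2 : p 2 ^ 2 ≤ δ := by nlinarith [sq_nonneg (p 0), sq_nonneg (p 1)]
  by_cases h0 : i = 0
  · subst h0
    have h5 : Real.exp (2 * μ * q 2) * p 0 ^ 2 ≤ δ := by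
      nlinarith [sq_nonneg (p 2), sq_nonneg (p 1), mul_nonneg e1.le (sq_nonneg (p 1))]
    calc p 0 ^ 2 = 1 * p 0 ^ 2 := (one_mul _).symm
      _ ≤ (Real.exp (2 * μ * q 2) * Real.exp (2 * μ * R)) * p 0 ^ 2 :=
        mul_le_mul_of_nonneg_right eR0 (sq_nonneg _)
      _ = (Real.exp (2 * μ * q 2) * p 0 ^ 2) * Real.exp (2 * μ * R) := by ring
      _ ≤ δ * Real.exp (2 * μ * R) := mul_le_mul_of_nonneg_right h5 eRpos.le
  by_cases h1 : i = 1
  · subst h1
    have h5 : Real.exp (-(2 * μ * q 2)) * p 1 ^ 2 ≤ δ := by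
      nlinarith [sq_nonneg (p 2), sq_nonneg (p 0), mul_nonneg e0.le (sq_nonneg (p 0))]
    calc p 1 ^ 2 = 1 * p 1 ^ 2 := (one_mul _).symm
      _ ≤ (Real.exp (-(2 * μ * q 2)) * Real.exp (2 * μ * R)) * p 1 ^ 2 :=
        mul_le_mul_of_nonneg_right eR1 (sq_nonneg _)
      _ = (Real.exp (-(2 * μ * q 2)) * p 1 ^ 2) * Real.exp (2 * μ * R) := by ring
      _ ≤ δ * Real.exp (2 * μ * R) := mul_le_mul_of_nonneg_right h5 eRpos.le
  by_cases h2 : i = 2
  · subst h2
    nlinarith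
  · have h3 := h i h0 h1
    simp only at h3
    rw [solA_ge μ h0 h1 h2] at h3
    simp only at h3
    nlinarith [sq_nonneg (q i)]

/-- the domain of the Sol block -/
def solU (μ ε : ℝ) (Ψ : V (k + 3) → V (k + 3)) : Set (P (k + 3)) :=
  {x | 0 < liftF Ψ ε (solG μ ((ε / 2) ^ 2) k 2) x}

/-- the block functions -/
noncomputable def solF (μ ε : ℝ) (Ψ : V (k + 3) → V (k + 3)) (i : Fin (k + 3)) :
    P (k + 3) → ℝ :=
  liftF Ψ ε (solG μ ((ε / 2) ^ 2) k i)

lemma solG_ne_zero_iff {μ δ : ℝ} {i : Fin (k + 3)} {x : P (k + 3)} :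
    solG μ δ k i x ≠ 0 ↔ cutdom δ (fun j => solA μ k j x) := by
  constructor
  · intro h
    by_contra hc
    exact h (solG_zero hc)
  · intro h
    exact (solG_pos h).ne'

lemma mem_solU {μ ε : ℝ} (T : Tube μ Γ Ψ ε) (hμ : 0 < μ) {x : P (k + 3)} :
    x ∈ solU μ ε Ψ ↔ ∃ q, tub ε q ∧ Ψ q = x.1 ∧
      cutdom ((ε / 2) ^ 2) (fun j => solA μ k j (q, pT Ψ q x.2)) := by
  unfold solU
  rw [Set.mem_ofPred_eq]
  have hinv : DeckInv μ (solG μ ((ε / 2) ^ 2) k 2) := fun l a q p => solG_inv hμ 2 l a q p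
  constructor
  · intro h
    obtain ⟨q, hq, hqx, he⟩ := liftF_eq_of T hinv h.ne'
    rw [he] at h
    exact ⟨q, hq, hqx, solG_ne_zero_iff.1 h.ne'⟩
  · rintro ⟨q, hq, hqx, hc⟩
    have h1 := liftF_apply T hinv hq x.2
    rw [hqx] at h1
    have h2 : liftF Ψ ε (solG μ ((ε / 2) ^ 2) k 2) x = solG μ ((ε / 2) ^ 2) k 2 (q, pT Ψ q x.2) := h1
    rw [h2]
    exact solG_pos hc

lemma solF_contDiff {ε : ℝ} (T : Tube μ Γ Ψ ε) (hc : LatCocompact Γ) (hμ : 0 < μ)
    (i : Fin (k + 3)) : ContDiff ℝ ∞ (solF μ ε Ψ i) := by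
  refine liftF_contDiff T hc (ε' := ε / 2) (by linarith [T.pos])
    (fun l a q p => solG_inv hμ i l a q p) (solG_contDiff _ _ _) ?_
  intro q p h
  exact tub_ctub (cutdom_tub T.pos (solG_ne_zero_iff.1 h))

lemma solF_apply {ε : ℝ} (T : Tube μ Γ Ψ ε) (hμ : 0 < μ)
    (i : Fin (k + 3)) {q : V (k + 3)} (hq : tub ε q) (Y : V (k + 3)) :
    solF μ ε Ψ i (Ψ q, Y) = solG μ ((ε / 2) ^ 2) k i (q, pT Ψ q Y) :=
  liftF_apply T (fun l a q p => solG_inv hμ i l a q p) hq Y

lemma solF_isLift {ε : ℝ} (T : Tube μ Γ Ψ ε) (hμ : 0 < μ)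
    (i : Fin (k + 3)) {q : V (k + 3)} (hq : tub ε q) (Y : V (k + 3)) :
    IsLift Ψ (solF μ ε Ψ i) (solG μ ((ε / 2) ^ 2) k i) q Y :=
  liftF_isLift T (fun l a q p => solG_inv hμ i l a q p) hq Y

lemma countable_log (y : ℝ) : {x : ℝ | Real.log x = y}.Countable := by
  refine Set.Countable.mono (s₂ := {Real.exp y, -Real.exp y, 0}) ?_ (Set.toFinite _).countable
  intro x hx
  rcases eq_or_ne x 0 with h | h
  · right; right; exact h
  · rw [Set.mem_ofPred_eq] at hx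
    have h1 := Real.exp_log_eq_abs h
    rw [hx] at h1
    rcases abs_choice x with h2 | h2
    · left; rw [h1, h2]
    · right; left; rw [h1, h2, neg_neg]

lemma countable_cos {c : ℝ} (hc : c ≠ 0) : {x : ℝ | Real.cos (c * Real.log x) = 0}.Countable := by
  have : {x : ℝ | Real.cos (c * Real.log x) = 0} ⊆
      ⋃ n : ℤ, {x : ℝ | Real.log x = (2 * n + 1) * Real.pi / 2 / c} := by
    intro x hx
    rw [Set.mem_ofPred_eq, Real.cos_eq_zero_iff] at hx
    obtain ⟨n, hn⟩ := hx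
    rw [Set.mem_iUnion]
    refine ⟨n, ?_⟩
    rw [Set.mem_ofPred_eq, ← hn]
    field_simp
  exact (Set.countable_iUnion fun n => countable_log _).mono this

/-- perturbing all the relevant coordinates -/
noncomputable def pertQ (q : V (k + 3)) (τ : ℝ) : V (k + 3) :=
  fun i => if i = 0 ∨ i = 1 ∨ i = 2 then q i else q i + τ

noncomputable def pertP (p : V (k + 3)) (τ : ℝ) : V (k + 3) := fun i => p i + τ

lemma good_of_pert (hμ : 0 < μ) (q p : V (k + 3)) :
    {τ : ℝ | ¬ solGood μ ((pertQ q τ, pertP p τ) : P (k + 3))}.Countable := by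
  have hc : (2 * Real.pi / μ) ≠ 0 := by positivity
  have h1 : {τ : ℝ | ¬ solGood μ ((pertQ q τ, pertP p τ) : P (k + 3))} ⊆
      ({-p 0} ∪ {-p 1} ∪ {-p 2}) ∪
        (fun τ => p 0 + τ) ⁻¹' {x : ℝ | Real.cos ((2 * Real.pi / μ) * Real.log x) = 0} ∪
        ⋃ j : Fin (k + 3), {-q j} := by
    intro τ hτ
    by_contra hcon
    apply hτ
    simp only [Set.mem_union, Set.mem_singleton_iff, Set.mem_preimage, Set.mem_ofPred_eq,
      Set.mem_iUnion, not_or, not_exists] at hcon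
    obtain ⟨⟨⟨⟨h0, h1⟩, h2⟩, h3⟩, h4⟩ := hcon
    refine ⟨?_, ?_, ?_, h3, ?_⟩
    · intro h; apply h0; simp only [pertP] at h; linarith
    · intro h; apply h1; simp only [pertP] at h; linarith
    · intro h; apply h2; simp only [pertP] at h; linarith
    · intro j hj0 hj1 hj2 h
      apply h4 j
      simp only [pertQ, hj0, hj1, hj2, or_self, if_false] at h
      linarith
  refine Set.Countable.mono h1 ?_
  refine Set.Countable.union (Set.Countable.union (Set.toFinite _).countable ?_) ?_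
  · exact (countable_cos hc).preimage_of_injOn (fun a _ b _ h => by simpa using h)
  · exact Set.countable_iUnion fun j => Set.countable_singleton _

lemma solF_block {ε : ℝ} (T : Tube μ Γ Ψ ε) (hc : LatCocompact Γ) (hμ : 0 < μ) :
    Block (solF μ ε Ψ) (solU μ ε Ψ) := by
  have hε := T.pos
  have hpos : ∀ i, ∀ x ∈ solU μ ε Ψ, 0 < solF μ ε Ψ i x := by
    intro i x hx
    obtain ⟨q, hq, hqx, hcd⟩ := (mem_solU T hμ).1 hx
    have h1 := solF_apply T hμ i hq x.2
    rw [hqx] at h1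
    have h2 : solF μ ε Ψ i x = solG μ ((ε / 2) ^ 2) k i (q, pT Ψ q x.2) := h1
    rw [h2]
    exact solG_pos hcd
  refine ⟨?_, ?_, fun i => solF_contDiff T hc hμ i, hpos, ?_, ?_, ?_⟩
  · -- open
    exact isOpen_lt continuous_const (solF_contDiff T hc hμ 2).continuous
  · -- bounded
    obtain ⟨R, hR⟩ := image_box (k := k) T.emb hc
    set C : ℝ := Real.sqrt (((ε / 2) ^ 2) * Real.exp (2 * μ * R)) with hC
    have hK : IsCompact ((box R (ε / 2) : Set (V (k + 3))) ×ˢ Metric.closedBall (0 : V (k + 3)) C) :=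
      (box_compact R (ε / 2)).prod (isCompact_closedBall _ _)
    have hcont : ContinuousOn (fun x : P (k + 3) => ((Ψ x.1, Yof Ψ x.1 x.2) : P (k + 3)))
        ((box R (ε / 2) : Set (V (k + 3))) ×ˢ Metric.closedBall (0 : V (k + 3)) C) := by
      intro x hx
      refine ContinuousAt.continuousWithinAt ?_
      have hinv : (fderiv ℝ Ψ x.1).IsInvertible := by
        apply T.imm
        intro j h0 h1 h2
        have := box_ctub hx.1 j h0 h1 h2
        linarith
      exact ((T.emb.smooth.continuous.comp continuous_fst).continuousAt).prodMk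
        (Yof_contDiffAt T.emb.smooth hinv).continuousAt
    refine (hK.image_of_continuousOn hcont).isBounded.subset ?_
    intro x hx
    obtain ⟨q, hq, hqx, hcd⟩ := (mem_solU T hμ).1 hx
    obtain ⟨l, a, ha, hb, hb'⟩ := hR (ε / 2) q (tub_ctub (cutdom_tub hε hcd))
    have hcd' : cutdom ((ε / 2) ^ 2) (fun j => solA μ k j (act μ l a q, pT Ψ (act μ l a q) x.2)) := by
      have : (fun j => solA μ k j (act μ l a q, pT Ψ (act μ l a q) x.2)) =
          fun j => solA μ k j (q, pT Ψ q x.2) := by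
        funext j
        rw [T.emb.pT_act l ha, solA_inv hμ]
      rw [this]; exact hcd
    refine ⟨(act μ l a q, pT Ψ (act μ l a q) x.2), ⟨hb, ?_⟩, ?_⟩
    · rw [mem_closedBall_zero_iff, pi_norm_le_iff_of_nonneg (Real.sqrt_nonneg _)]
      intro i
      exact cutdom_p hμ (by positivity) (box_two hb) hcd' i
    · simp only
      rw [Yof_pT (T.imm _ (tub_act.2 hq)), hb', hqx]
  · -- zero
    intro i x hx
    by_contra hne
    apply hx
    obtain ⟨q, hq, hqx, he⟩ := liftF_eq_of T (fun l a q p => solG_inv hμ i l a q p) hne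
    rw [mem_solU T hμ]
    unfold solF at hne
    rw [he] at hne
    exact ⟨q, hq, hqx, solG_ne_zero_iff.1 hne⟩
  · -- commute
    intro i j x hx
    obtain ⟨q, hq, hqx, hcd⟩ := (mem_solU T hμ).1 hx
    have h1 := lift_pb T.emb.smooth (F := solF μ ε Ψ i) (f := solG μ ((ε / 2) ^ 2) k i)
      (F' := solF μ ε Ψ j) (f' := solG μ ((ε / 2) ^ 2) k j) (q := q) (Y := x.2)
      ((solF_contDiff T hc hμ i).differentiable (by simp) _)
      ((solG_contDiff _ _ _).differentiable (by simp) _)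
      (solF_isLift T hμ i hq x.2)
      ((solF_contDiff T hc hμ j).differentiable (by simp) _)
      ((solG_contDiff _ _ _).differentiable (by simp) _)
      (solF_isLift T hμ j hq x.2)
    rw [hqx] at h1
    rw [solG_comm] at h1
    exact h1
  · -- independence
    refine ⟨{x | x ∈ solU μ ε Ψ ∧ LinearIndependent ℝ (fun i => fderiv ℝ (solF μ ε Ψ i) x)},
      fun x hx => hx.1, ?_, fun x hx => hx.2⟩
    intro x hx
    have hx' := hx
    obtain ⟨q, hq, hqx, hcd⟩ := (mem_solU T hμ).1 hx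
    set p := pT Ψ q x.2 with hp
    -- the curve
    have hcurve : ContinuousAt (fun τ : ℝ => ((Ψ (pertQ q τ), Yof Ψ (pertQ q τ) (pertP p τ)) : P (k + 3))) 0 := by
      have hq0 : pertQ q 0 = q := by funext i; simp [pertQ]
      have hp0 : pertP p 0 = p := by funext i; simp [pertP]
      have h1 : Continuous (fun τ : ℝ => pertQ q τ) := by
        refine continuous_pi fun i => ?_
        unfold pertQ
        split_ifs
        · exact continuous_const
        · fun_prop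
      have h2 : Continuous (fun τ : ℝ => pertP p τ) := by
        refine continuous_pi fun i => ?_
        unfold pertP
        fun_prop
      have h3 : ContinuousAt (fun x : P (k + 3) => Yof Ψ x.1 x.2) ((pertQ q 0, pertP p 0) : P (k + 3)) := by
        refine (Yof_contDiffAt T.emb.smooth ?_).continuousAt
        simp only [hq0]
        exact T.imm q hq
      have h4 : ContinuousAt (fun τ : ℝ => ((pertQ q τ, pertP p τ) : P (k + 3))) 0 :=
        (h1.prodMk h2).continuousAt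
      have h5 : ContinuousAt (fun τ : ℝ => Yof Ψ (pertQ q τ) (pertP p τ)) 0 :=
        ContinuousAt.comp (g := fun x : P (k + 3) => Yof Ψ x.1 x.2)
          (f := fun τ : ℝ => ((pertQ q τ, pertP p τ) : P (k + 3))) (x := (0:ℝ)) h3 h4
      exact ((T.emb.smooth.continuous.comp h1).continuousAt).prodMk h5
    have hval : ((Ψ (pertQ q 0), Yof Ψ (pertQ q 0) (pertP p 0)) : P (k + 3)) = x := by
      have hq0 : pertQ q 0 = q := by funext i; simp [pertQ]
      have hp0 : pertP p 0 = p := by funext i; simp [pertP]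
      rw [hq0, hp0, hp, Yof_pT (T.imm q hq), hqx]
    rw [mem_closure_iff_nhds]
    intro N hN
    have hN' : ∀ᶠ τ : ℝ in 𝓝 0, ((Ψ (pertQ q τ), Yof Ψ (pertQ q τ) (pertP p τ)) : P (k + 3)) ∈
        N ∩ solU μ ε Ψ := by
      have hU : solU μ ε Ψ ∈ 𝓝 x :=
        (isOpen_lt continuous_const (solF_contDiff T hc hμ 2).continuous).mem_nhds hx
      have := Filter.inter_mem hN hU
      rw [← hval] at this
      exact hcurve this
    have htub : ∀ᶠ τ : ℝ in 𝓝 0, tub ε (pertQ q τ) := by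
      have hq0 : pertQ q 0 = q := by funext i; simp [pertQ]
      have h1 : Continuous (fun τ : ℝ => pertQ q τ) := by
        refine continuous_pi fun i => ?_
        unfold pertQ
        split_ifs
        · exact continuous_const
        · fun_prop
      refine (h1.tendsto 0).eventually ?_
      rw [hq0]
      exact (tub_open ε).mem_nhds hq
    obtain ⟨ρ, hρ, hball⟩ := Metric.eventually_nhds_iff_ball.1 (hN'.and htub)
    have hunc : ¬ (Metric.ball (0 : ℝ) ρ) ⊆ {τ : ℝ | ¬ solGood μ ((pertQ q τ, pertP p τ) : P (k + 3))} := by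
      intro hsub
      have h1 := (good_of_pert hμ q p).mono hsub
      have h2 : (Metric.ball (0 : ℝ) ρ).Nonempty := ⟨0, Metric.mem_ball_self hρ⟩
      have h3 := h1.dense_compl ℝ
      obtain ⟨y, hy1, hy2⟩ := h3.inter_open_nonempty _ Metric.isOpen_ball h2
      exact hy2 hy1
    rw [Set.not_subset] at hunc
    obtain ⟨τ, hτ, hgood⟩ := hunc
    rw [Set.mem_ofPred_eq, not_not] at hgood
    obtain ⟨⟨hτN, hτU⟩, hτt⟩ := hball τ hτ
    refine ⟨_, hτN, hτU, ?_⟩
    have hpTY : pT Ψ (pertQ q τ) (Yof Ψ (pertQ q τ) (pertP p τ)) = pertP p τ :=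
      pT_Yof (T.imm _ hτt) _
    have hcd' : cutdom ((ε / 2) ^ 2) (fun j => solA μ k j (pertQ q τ, pertP p τ)) := by
      have h1 := hpos 2 _ hτU
      rw [solF_apply T hμ 2 hτt, hpTY] at h1
      exact solG_ne_zero_iff.1 h1.ne'
    refine lift_indep T.emb.smooth (T.imm _ hτt) (f := fun i => solG μ ((ε / 2) ^ 2) k i)
      (fun i => (solF_contDiff T hc hμ i).differentiable (by simp) _)
      (fun i => (solG_contDiff _ _ _).differentiable (by simp) _)
      (fun i => solF_isLift T hμ i hτt _) ?_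
    rw [hpTY]
    exact solG_indep hμ hgood hcd'

end Pool.Agent.H73
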