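import Mathlib
import Pool.Agent.H73.Block

/-!
Small blocks filling an open set.
-/

namespace Pool.Agent.H73

open scoped ContDiff Topology
open Finset Filter

section coeff

variable {E : Type*} [NormedAddCommGroup E] [NormedSpace ℝ E]

/-- rapidly decreasing coefficients making a series smooth -/
lemma exists_coeff {ι : Type*} [Fintype ι] (g : ℕ → ι → E → ℝ)
    (hs : ∀ n i, ContDiff ℝ ∞ (g n i)) (hc : ∀ n i, HasCompactSupport (g n i)) :
    ∃ r : ℕ → ℝ, (∀ n, 0 < r n) ∧ ∀ i, ContDiff ℝ ∞ (fun x => ∑' n, (r n • g n i) x) := by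
  classical
  obtain ⟨δ, δpos, c, δc, c_lt⟩ :
      ∃ δ : ℕ → NNReal, (∀ i : ℕ, 0 < δ i) ∧ ∃ c : NNReal, HasSum δ c ∧ c < 1 :=
    NNReal.exists_pos_sum_of_countable one_ne_zero ℕ
  have : ∀ n : ℕ, ∃ r : ℝ, 0 < r ∧ ∀ j : ι, ∀ i ≤ n, ∀ x,
      ‖iteratedFDeriv ℝ i (r • g n j) x‖ ≤ δ n := by
    intro n
    have : ∀ j : ι, ∀ i, ∃ R, ∀ x, ‖iteratedFDeriv ℝ i (fun x => g n j x) x‖ ≤ R := by
      intro j i
      have : BddAbove (Set.range fun x => ‖iteratedFDeriv ℝ i (fun x : E => g n j x) x‖) := by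
        apply ((hs n j).continuous_iteratedFDeriv
          (mod_cast le_top)).norm.bddAbove_range_of_hasCompactSupport
        apply HasCompactSupport.comp_left _ norm_zero
        apply (hc n j).iteratedFDeriv
      rcases this with ⟨R, hR⟩
      exact ⟨R, fun x => hR (Set.mem_range_self _)⟩
    choose R hR using this
    let M : ℝ := 1 + ∑ j, ∑ i ∈ Finset.range (n + 1), |R j i|
    have hM1 : 1 ≤ M := by
      have : 0 ≤ ∑ j, ∑ i ∈ Finset.range (n + 1), |R j i| := by positivity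
      simp only [M]; linarith
    have δnpos : 0 < δ n := δpos n
    have IR : ∀ j, ∀ i ≤ n, R j i ≤ M := by
      intro j i hi
      have h1 : |R j i| ≤ ∑ i ∈ Finset.range (n + 1), |R j i| :=
        Finset.single_le_sum (f := fun i => |R j i|) (fun _ _ => abs_nonneg _)
          (Finset.mem_range.2 (by omega))
      have h2 : ∑ i ∈ Finset.range (n + 1), |R j i| ≤ ∑ j, ∑ i ∈ Finset.range (n + 1), |R j i| :=
        Finset.single_le_sum (f := fun j => ∑ i ∈ Finset.range (n + 1), |R j i|)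
          (fun _ _ => by positivity) (Finset.mem_univ j)
      have h3 := le_abs_self (R j i)
      simp only [M]; linarith
    refine ⟨M⁻¹ * δ n, by positivity, fun j i hi x => ?_⟩
    calc
      ‖iteratedFDeriv ℝ i ((M⁻¹ * δ n) • g n j) x‖ = ‖(M⁻¹ * δ n) • iteratedFDeriv ℝ i (g n j) x‖ := by
        rw [iteratedFDeriv_const_smul_apply]
        exact (hs n j).contDiffAt.of_le (mod_cast le_top)
      _ = M⁻¹ * δ n * ‖iteratedFDeriv ℝ i (g n j) x‖ := by
        rw [norm_smul _ (iteratedFDeriv ℝ i (g n j) x), Real.norm_of_nonneg]; positivity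
      _ ≤ M⁻¹ * δ n * M := by gcongr; exact (hR j i x).trans (IR j i hi)
      _ = δ n := by
        have : M ≠ 0 := by positivity
        field_simp
  choose r rpos hr using this
  refine ⟨r, rpos, fun j => ?_⟩
  refine
    contDiff_tsum_of_eventually (fun k => (hs k j).const_smul (r k))
      (fun k _ => (NNReal.hasSum_coe.2 δc).summable) ?_
  intro i _
  simp only [Nat.cofinite_eq_atTop, Filter.eventually_atTop]
  exact ⟨i, fun n hn x => hr _ _ _ hn _⟩

end coeff

variable {m : ℕ}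

lemma Block.nonneg {g : Fin m → P m → ℝ} {U : Set (P m)} (h : Block g U) (i : Fin m) (x : P m) :
    0 ≤ g i x := by
  by_cases hx : x ∈ U
  · exact (h.pos i x hx).le
  · rw [h.zero i x hx]

lemma Block.hasCompactSupport {g : Fin m → P m → ℝ} {U : Set (P m)} (h : Block g U) (i : Fin m) :
    HasCompactSupport (g i) := by
  refine HasCompactSupport.of_support_subset_isCompact
    (Metric.isCompact_of_isClosed_isBounded isClosed_closure h.bdd.closure) ?_
  intro x hx
  apply subset_closure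
  by_contra hU
  exact hx (h.zero i x hU)

/-- sum of disjoint blocks -/
lemma sum_blocks {g : ℕ → Fin m → P m → ℝ} {U : ℕ → Set (P m)} (hB : ∀ n, Block (g n) (U n))
    (hd : Pairwise (Function.onFun Disjoint U)) :
    ∃ G : Fin m → P m → ℝ, ∃ r : ℕ → ℝ, (∀ n, 0 < r n) ∧ (∀ i, ContDiff ℝ ∞ (G i)) ∧
      (∀ i x, 0 ≤ G i x) ∧ (∀ n i x, x ∈ U n → G i x = r n * g n i x) ∧
      (∀ i x, x ∉ ⋃ n, U n → G i x = 0) := by
  obtain ⟨r, hr, hs⟩ := exists_coeff g (fun n i => (hB n).smooth i)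
    (fun n i => (hB n).hasCompactSupport i)
  refine ⟨fun i x => ∑' n, (r n • g n i) x, r, hr, hs, ?_, ?_, ?_⟩
  · intro i x
    exact tsum_nonneg fun n => mul_nonneg (hr n).le ((hB n).nonneg i x)
  · intro n i x hx
    change ∑' n, (r n • g n i) x = r n * g n i x
    rw [tsum_eq_single n]
    · rfl
    · intro n' hn'
      have hx' : x ∉ U n' := by
        intro h
        exact Set.disjoint_left.1 (hd hn') h hx
      simp [(hB n').zero i x hx']
  · intro i x hx
    rw [Set.mem_iUnion, not_exists] at hx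
    have : ∀ n, (r n • g n i) x = 0 := fun n => by simp [(hB n).zero i x (hx n)]
    simp only [this, tsum_zero]

lemma fderiv_of_min {E : Type*} [NormedAddCommGroup E] [NormedSpace ℝ E] {F : E → ℝ} {x : E}
    (h0 : ∀ y, 0 ≤ F y) (hx : F x = 0) : fderiv ℝ F x = 0 := by
  have : IsLocalMin F x := by
    unfold IsLocalMin IsMinFilter
    rw [hx]
    exact Filter.Eventually.of_forall h0
  exact this.fderiv_eq_zero

/-! ### cube blocks -/

/-- one-degree-of-freedom factor -/
noncomputable def cubB (c : P m) (r : ℝ) (j : Fin m) (x : P m) : ℝ :=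
  expNegInvGlue (r ^ 2 - (x.1 j - c.1 j) ^ 2) * expNegInvGlue (r ^ 2 - (x.2 j - c.2 j) ^ 2)

/-- block functions on a cube -/
noncomputable def cubG (c : P m) (r : ℝ) (i : Fin m) (x : P m) : ℝ :=
  cubB c r i x * ∏ j, cubB c r j x

lemma cubB_contDiff (c : P m) (r : ℝ) (j : Fin m) : ContDiff ℝ ∞ (cubB c r j) := by
  unfold cubB
  refine ContDiff.mul ?_ ?_
  · exact expNegInvGlue.contDiff.comp (by fun_prop)
  · exact expNegInvGlue.contDiff.comp (by fun_prop)

lemma cubG_contDiff (c : P m) (r : ℝ) (i : Fin m) : ContDiff ℝ ∞ (cubG c r i) := by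
  unfold cubG
  exact (cubB_contDiff c r i).mul (contDiff_prod fun j _ => cubB_contDiff c r j)

lemma mem_ball_P {c x : P m} {r : ℝ} (hr : 0 < r) : x ∈ Metric.ball c r ↔
    ∀ j, |x.1 j - c.1 j| < r ∧ |x.2 j - c.2 j| < r := by
  rw [Metric.mem_ball, Prod.dist_eq, max_lt_iff, dist_pi_lt_iff hr, dist_pi_lt_iff hr]
  simp only [Real.dist_eq]
  exact ⟨fun h j => ⟨h.1 j, h.2 j⟩, fun h => ⟨fun j => (h j).1, fun j => (h j).2⟩⟩

lemma sq_lt_of_abs {r y : ℝ} (hr : 0 < r) : |y| < r ↔ 0 < r ^ 2 - y ^ 2 := by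
  rw [sub_pos]
  constructor
  · intro h
    rw [← sq_abs y]
    nlinarith [abs_nonneg y]
  · intro h
    exact abs_lt_of_sq_lt_sq h hr.le

lemma cubB_nonneg (c : P m) (r : ℝ) (j : Fin m) (x : P m) : 0 ≤ cubB c r j x :=
  mul_nonneg (expNegInvGlue.nonneg _) (expNegInvGlue.nonneg _)

lemma cubG_pos {c x : P m} {r : ℝ} (hr : 0 < r) (h : x ∈ Metric.ball c r) (i : Fin m) :
    0 < cubG c r i x := by
  have h1 : ∀ j, 0 < cubB c r j x := fun j => mul_pos
    (expNegInvGlue.pos_of_pos ((sq_lt_of_abs hr).1 ((mem_ball_P hr).1 h j).1))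
    (expNegInvGlue.pos_of_pos ((sq_lt_of_abs hr).1 ((mem_ball_P hr).1 h j).2))
  exact mul_pos (h1 i) (Finset.prod_pos fun j _ => h1 j)

lemma cubG_zero {c x : P m} {r : ℝ} (hr : 0 < r) (h : x ∉ Metric.ball c r) (i : Fin m) :
    cubG c r i x = 0 := by
  rw [mem_ball_P hr] at h
  push Not at h
  obtain ⟨j, hj⟩ := h
  have : cubB c r j x = 0 := by
    unfold cubB
    by_cases h1 : |x.1 j - c.1 j| < r
    · have h2 := hj h1
      rw [expNegInvGlue.zero_of_nonpos (x := r ^ 2 - (x.2 j - c.2 j) ^ 2), mul_zero]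
      by_contra hcon
      push Not at hcon
      exact absurd ((sq_lt_of_abs hr).2 hcon) (not_lt.2 h2)
    · rw [expNegInvGlue.zero_of_nonpos (x := r ^ 2 - (x.1 j - c.1 j) ^ 2), zero_mul]
      by_contra hcon
      push Not at hcon
      exact h1 ((sq_lt_of_abs hr).2 hcon)
  unfold cubG
  rw [Finset.prod_eq_zero (Finset.mem_univ j) this, mul_zero]

lemma cubB_comm (c : P m) (r : ℝ) (i j : Fin m) (x : P m) :
    pb (cubB c r i) (cubB c r j) x = 0 := by
  by_cases hij : i = j
  · rw [hij]; exact pb_self _ _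
  have hx : ∀ i l : Fin m, l ≠ i → fderiv ℝ (cubB c r i) x (ex l) = 0 := by
    intro i l hl
    apply fderiv_eq_zero_of_inv
    intro τ
    simp [cubB, ex, hl.symm]
  have hy : ∀ i l : Fin m, l ≠ i → fderiv ℝ (cubB c r i) x (ey l) = 0 := by
    intro i l hl
    apply fderiv_eq_zero_of_inv
    intro τ
    simp [cubB, ey, hl.symm]
  refine bk_zero_of_disj (fun l => ?_) (fun l => ?_)
  · by_cases hl : l = i
    · right; subst hl; exact hy j l hij
    · left; exact hx i l hl
  · by_cases hl : l = j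
    · right; subst hl; exact hy i l (Ne.symm hij)
    · left; exact hx j l hl

lemma cubG_comm (c : P m) (r : ℝ) (i j : Fin m) (x : P m) :
    pb (cubG c r i) (cubG c r j) x = 0 := by
  have hΘ : ∀ i : Fin m, ContDiff ℝ ∞ (fun a : Fin m → ℝ => a i * ∏ j, a j) := by
    intro i
    refine ContDiff.mul (by fun_prop) (contDiff_prod fun j _ => by fun_prop)
  exact pb_comp_comp (A := cubB c r) (Θ := fun a => a i * ∏ j, a j)
    (Θ' := fun a => a j * ∏ j, a j)
    (fun j => (cubB_contDiff c r j).differentiable (by simp) _)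
    ((hΘ i).differentiable (by simp) _) ((hΘ j).differentiable (by simp) _)
    (fun i j => cubB_comm c r i j x)

/-- logarithm of the factor -/
noncomputable def cubL (c : P m) (r : ℝ) (j : Fin m) (x : P m) : ℝ :=
  -(r ^ 2 - (x.1 j - c.1 j) ^ 2)⁻¹ - (r ^ 2 - (x.2 j - c.2 j) ^ 2)⁻¹

lemma cubG_hasFDerivAt {c x : P m} {r : ℝ} (hr : 0 < r) (h : x ∈ Metric.ball c r) (i : Fin m) :
    HasFDerivAt (cubG c r i) ((-cubG c r i x) •
      ((∑ j, (-1 : ℝ) • fderiv ℝ (cubL c r j) x) - fderiv ℝ (cubL c r i) x)) x := by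
  have hd : ∀ j, DifferentiableAt ℝ (cubL c r j) x := by
    intro j
    unfold cubL
    have h1 := ((sq_lt_of_abs hr).1 ((mem_ball_P hr).1 h j).1).ne'
    have h2 := ((sq_lt_of_abs hr).1 ((mem_ball_P hr).1 h j).2).ne'
    refine DifferentiableAt.sub (DifferentiableAt.neg (DifferentiableAt.inv (by fun_prop) h1))
      (DifferentiableAt.inv (by fun_prop) h2)
  have hloc : ∀ y ∈ Metric.ball c r, cubG c r i y =
      Real.exp ((∑ j, cubL c r j y) + cubL c r i y) := by
    intro y hy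
    have hB : ∀ j, cubB c r j y = Real.exp (cubL c r j y) := by
      intro j
      have h1 := (sq_lt_of_abs hr).1 ((mem_ball_P hr).1 hy j).1
      have h2 := (sq_lt_of_abs hr).1 ((mem_ball_P hr).1 hy j).2
      unfold cubB cubL expNegInvGlue
      rw [if_neg (not_le.2 h1), if_neg (not_le.2 h2), ← Real.exp_add]
      rfl
    unfold cubG
    rw [Real.exp_add, Real.exp_sum, mul_comm]
    simp only [hB]
  have h1 : HasFDerivAt (fun y => (∑ j, cubL c r j y) + cubL c r i y)
      ((∑ j, fderiv ℝ (cubL c r j) x) + fderiv ℝ (cubL c r i) x) x :=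
    (HasFDerivAt.fun_sum fun j _ => (hd j).hasFDerivAt).add (hd i).hasFDerivAt
  have h2 := h1.exp
  rw [← hloc x h] at h2
  have e : (-cubG c r i x) •
      ((∑ j, (-1 : ℝ) • fderiv ℝ (cubL c r j) x) - fderiv ℝ (cubL c r i) x) =
      cubG c r i x • ((∑ j, fderiv ℝ (cubL c r j) x) + fderiv ℝ (cubL c r i) x) := by
    rw [← Finset.smul_sum]
    module
  rw [e]
  refine h2.congr_of_eventuallyEq ?_
  filter_upwards [Metric.isOpen_ball.mem_nhds h] with y hy using hloc y hy

lemma cubL_fderiv_ex {c x : P m} {r : ℝ} (hr : 0 < r) (h : x ∈ Metric.ball c r) (i l : Fin m) :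
    fderiv ℝ (cubL c r i) x (ex l) = if l = i then
      -(2 * (x.1 i - c.1 i)) * ((r ^ 2 - (x.1 i - c.1 i) ^ 2) ^ 2)⁻¹ else 0 := by
  by_cases hl : l = i
  · subst hl
    rw [if_pos rfl]
    have h1 := ((sq_lt_of_abs hr).1 ((mem_ball_P hr).1 h l).1).ne'
    have h2 := ((sq_lt_of_abs hr).1 ((mem_ball_P hr).1 h l).2).ne'
    have hd : DifferentiableAt ℝ (cubL c r l) x := by
      unfold cubL
      refine DifferentiableAt.sub (DifferentiableAt.neg (DifferentiableAt.inv (by fun_prop) h1))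
        (DifferentiableAt.inv (by fun_prop) h2)
    refine fderiv_eq_of_curve hd (γ := fun τ => x + τ • ex l) (by simp) (hasDerivAt_line _ _) ?_
    have e : (fun τ : ℝ => cubL c r l (x + τ • ex l)) = fun τ =>
        -(r ^ 2 - (x.1 l + τ - c.1 l) ^ 2)⁻¹ - (r ^ 2 - (x.2 l - c.2 l) ^ 2)⁻¹ := by
      funext τ
      simp [cubL, ex]
    rw [e]
    have h3 : HasDerivAt (fun τ : ℝ => r ^ 2 - (x.1 l + τ - c.1 l) ^ 2)
        (-(2 * (x.1 l + 0 - c.1 l) ^ 1 * 1)) 0 := by
      have := ((((hasDerivAt_id (0:ℝ)).const_add (x.1 l)).sub_const (c.1 l)).pow 2).const_sub (r ^ 2)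
      simpa using this
    have h4 : r ^ 2 - (x.1 l + 0 - c.1 l) ^ 2 ≠ 0 := by simpa using h1
    have h5 := ((h3.inv h4).neg).sub_const ((r ^ 2 - (x.2 l - c.2 l) ^ 2)⁻¹)
    refine h5.congr_deriv ?_
    simp only [add_zero, pow_one, mul_one]
    field_simp
  · rw [if_neg hl]
    apply fderiv_eq_zero_of_inv
    intro τ
    have : ¬ (i = l) := fun e => hl e.symm
    simp [cubL, ex, this]

lemma cubL_indep {c x : P m} {r : ℝ} (hr : 0 < r) (h : x ∈ Metric.ball c r)
    (hx : ∀ j, x.1 j ≠ c.1 j) : LinearIndependent ℝ (fun i => fderiv ℝ (cubL c r i) x) := by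
  rw [Fintype.linearIndependent_iff]
  intro a ha l
  have h1 := congrArg (fun L : P m →L[ℝ] ℝ => L (ex l)) ha
  simp only [FunLike.coe_sum, Finset.sum_apply, FunLike.coe_smul, Pi.smul_apply, smul_eq_mul,
    FunLike.coe_zero, Pi.zero_apply, cubL_fderiv_ex hr h] at h1
  rw [Finset.sum_eq_single l] at h1
  · rw [if_pos rfl] at h1
    rcases mul_eq_zero.1 h1 with h2 | h2
    · exact h2
    · exfalso
      have h3 := ((sq_lt_of_abs hr).1 ((mem_ball_P hr).1 h l).1)
      have h4 : x.1 l - c.1 l ≠ 0 := sub_ne_zero.2 (hx l)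
      rcases mul_eq_zero.1 h2 with h5 | h5
      · apply h4; linarith
      · have : 0 < ((r ^ 2 - (x.1 l - c.1 l) ^ 2) ^ 2)⁻¹ := by positivity
        exact this.ne' h5
  · intro j _ hj
    rw [if_neg (fun e => hj e.symm), mul_zero]
  · intro hh; exact absurd (Finset.mem_univ _) hh

lemma cube_block (c : P m) {r : ℝ} (hr : 0 < r) : Block (cubG c r) (Metric.ball c r) := by
  refine ⟨Metric.isOpen_ball, Metric.isBounded_ball, fun i => cubG_contDiff c r i,
    fun i x hx => cubG_pos hr hx i, fun i x hx => cubG_zero hr hx i,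
    fun i j x _ => cubG_comm c r i j x, ?_⟩
  refine ⟨{x | x ∈ Metric.ball c r ∧ ∀ j, x.1 j ≠ c.1 j}, fun x hx => hx.1, ?_, ?_⟩
  · intro x hx
    rw [mem_closure_iff_nhds]
    intro N hN
    have hcont : Continuous (fun τ : ℝ => ((fun j => x.1 j + τ, x.2) : P m)) := by fun_prop
    have h0 : ((fun j => x.1 j + 0, x.2) : P m) = x := by simp
    have hev : ∀ᶠ τ : ℝ in 𝓝 0, ((fun j => x.1 j + τ, x.2) : P m) ∈ N ∩ Metric.ball c r := by
      have h1 := hcont.tendsto 0
      simp only [h0] at h1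
      exact h1 (Filter.inter_mem hN (Metric.isOpen_ball.mem_nhds hx))
    obtain ⟨ρ, hρ, hball⟩ := Metric.eventually_nhds_iff_ball.1 hev
    have hfin : ({τ : ℝ | ∃ j, x.1 j + τ = c.1 j}).Finite := by
      have : {τ : ℝ | ∃ j, x.1 j + τ = c.1 j} ⊆ Set.range (fun j => c.1 j - x.1 j) := by
        rintro τ ⟨j, hj⟩
        exact ⟨j, by simp only; linarith⟩
      exact (Set.finite_range _).subset this
    have h3 := hfin.countable.dense_compl ℝ
    obtain ⟨τ, hτ1, hτ2⟩ := h3.inter_open_nonempty _ Metric.isOpen_ball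
      ⟨0, Metric.mem_ball_self hρ⟩
    have hτ3 := hball τ hτ1
    refine ⟨_, hτ3.1, hτ3.2, fun j hj => hτ2 ⟨j, hj⟩⟩
  · rintro x ⟨hx, hne⟩
    have e : (fun i => fderiv ℝ (cubG c r i) x) = fun i => (-cubG c r i x) •
      ((∑ j, (-1 : ℝ) • fderiv ℝ (cubL c r j) x) - fderiv ℝ (cubL c r i) x) := by
      funext i
      exact (cubG_hasFDerivAt hr hx i).fderiv
    rw [e]
    refine indep_of_log (cubL_indep hr hx hne) (fun _ => by norm_num) (fun i => ?_)
    have := cubG_pos hr hx i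
    intro h0
    linarith

end Pool.Agent.H73
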