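import Mathlib
import Pool.Agent.H73.Cube

/-!
Filling an open set by disjoint blocks.
-/

namespace Pool.Agent.H73

open scoped ContDiff Topology
open Finset Filter

variable {m : ℕ}

lemma empty_block : Block (m := m) (fun _ _ => 0) ∅ := by
  refine ⟨isOpen_empty, Bornology.isBounded_empty, fun _ => contDiff_const,
    fun _ x hx => absurd hx (Set.notMem_empty x), fun _ _ _ => rfl,
    fun _ _ x hx => absurd hx (Set.notMem_empty x), ∅, le_refl _, Set.empty_subset _,
    fun x hx => absurd hx (Set.notMem_empty x)⟩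

lemma exists_fill (O : Set (P m)) (hO : IsOpen O) :
    ∃ (g : ℕ → Fin m → P m → ℝ) (U : ℕ → Set (P m)), (∀ n, Block (g n) (U n)) ∧
      Pairwise (Function.onFun Disjoint U) ∧ (∀ n, U n ⊆ O) ∧ O ⊆ closure (⋃ n, U n) := by
  classical
  have hrad : ∀ x : P m, x ∈ O → ∃ ρ > 0, Metric.closedBall x ρ ⊆ O := by
    intro x hx
    exact Metric.nhds_basis_closedBall.mem_iff.1 (hO.mem_nhds hx)
  let R : P m → ℝ := fun x => if h : x ∈ O then (hrad x h).choose else 1
  have hR : ∀ x ∈ O, 0 < R x := by
    intro x hx
    simp only [R, dif_pos hx]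
    exact (hrad x hx).choose_spec.1
  have hR' : ∀ x ∈ O, Metric.closedBall x (R x) ⊆ O := by
    intro x hx
    simp only [R, dif_pos hx]
    exact (hrad x hx).choose_spec.2
  obtain ⟨t, r, htc, htO, htr, hμ, hdisj⟩ :=
    Besicovitch.exists_disjoint_closedBall_covering_ae
      (MeasureTheory.volume : MeasureTheory.Measure (P m)) (fun _ => Set.univ) O
      (fun x _ δ hδ => ⟨δ / 2, trivial, by simp only [Set.mem_Ioo]; constructor <;> linarith⟩) R hR
  have := htc.toEncodable
  let pick : ℕ → Option t := fun n => Encodable.decode₂ t n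
  refine ⟨fun n => match pick n with
      | none => fun _ _ => 0
      | some x => cubG (x : P m) (r x),
    fun n => match pick n with
      | none => ∅
      | some x => Metric.ball (x : P m) (r x), ?_, ?_, ?_, ?_⟩
  · intro n
    cases h : pick n with
    | none => simpa only [h] using empty_block
    | some x => simpa only [h] using cube_block (x : P m) (htr x x.2).2.1
  · intro n n' hnn
    simp only [Function.onFun]
    cases h : pick n with
    | none => simp
    | some x =>
      cases h' : pick n' with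
      | none => simp
      | some x' =>
        simp only
        have hne : (x : P m) ≠ x' := by
          intro e
          have e' : x = x' := Subtype.ext e
          subst e'
          have h1 := Encodable.mem_decode₂.1 h
          have h2 := Encodable.mem_decode₂.1 h'
          exact hnn (h1.symm.trans h2)
        exact (hdisj x.2 x'.2 hne).mono Metric.ball_subset_closedBall Metric.ball_subset_closedBall
  · intro n
    cases h : pick n with
    | none => simp only [h]; exact Set.empty_subset _
    | some x =>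
      simp only [h]
      refine Metric.ball_subset_closedBall.trans ?_
      refine (Metric.closedBall_subset_closedBall (htr x x.2).2.2.le).trans (hR' x (htO x.2))
  · intro x hx
    rw [mem_closure_iff_nhds]
    intro N hN
    obtain ⟨N', hN'N, hN'o, hxN'⟩ := mem_nhds_iff.1 hN
    have hpos : 0 < MeasureTheory.volume (N' ∩ O) :=
      (hN'o.inter hO).measure_pos _ ⟨x, hxN', hx⟩
    have : ∃ y ∈ N' ∩ O, y ∈ ⋃ x ∈ t, Metric.closedBall x (r x) := by
      by_contra hcon
      push Not at hcon
      have hsub : N' ∩ O ⊆ O \ ⋃ x ∈ t, Metric.closedBall x (r x) :=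
        fun y hy => ⟨hy.2, hcon y hy⟩
      have := MeasureTheory.measure_mono_null hsub hμ
      exact hpos.ne' this
    obtain ⟨y, hy, hyU⟩ := this
    simp only [Set.mem_iUnion, exists_prop] at hyU
    obtain ⟨c, hc, hyc⟩ := hyU
    have hrc : 0 < r c := (htr c hc).2.1
    have hycl : y ∈ closure (Metric.ball c (r c)) := by
      rw [closure_ball c hrc.ne']; exact hyc
    rw [mem_closure_iff_nhds] at hycl
    obtain ⟨w, hw1, hw2⟩ := hycl N' (hN'o.mem_nhds hy.1)
    refine ⟨w, hN'N hw1, ?_⟩
    rw [Set.mem_iUnion]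
    refine ⟨Encodable.encode (⟨c, hc⟩ : t), ?_⟩
    have : pick (Encodable.encode (⟨c, hc⟩ : t)) = some ⟨c, hc⟩ := Encodable.encodek₂ _
    simp only [this]
    exact hw2

/-- squared Euclidean norm on phase space -/
noncomputable def nE (x : P m) : ℝ := ∑ j, (x.1 j ^ 2 + x.2 j ^ 2)

lemma nE_continuous : Continuous (nE (m := m)) := by unfold nE; fun_prop

/-- The commuting family extended to a ball in phase space. -/
lemma exists_extend {g₀ : Fin m → P m → ℝ} {U₀ : Set (P m)} (hB : Block g₀ U₀) :
    ∃ (R : ℝ) (r₀ : ℝ) (G : Fin m → P m → ℝ), 0 < R ∧ 0 < r₀ ∧ (∀ i, ContDiff ℝ ∞ (G i)) ∧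
      (∀ i x, 0 ≤ G i x) ∧ (∀ i x, x ∈ U₀ → G i x = r₀ * g₀ i x) ∧
      (∀ i x, R ^ 2 ≤ nE x → G i x = 0) ∧ (∀ x ∈ U₀, nE x < R ^ 2) ∧
      (∀ i j x, pb (G i) (G j) x = 0) ∧
      (∀ i j x, pb (g₀ i) (G j) x = 0) ∧
      ∃ D : Set (P m), {x | nE x < R ^ 2} ⊆ closure D ∧ D ⊆ {x | nE x < R ^ 2} ∧
        ∀ x ∈ D, LinearIndependent ℝ (fun i => fderiv ℝ (G i) x) ∧
          (∀ i, (g₀ i x = 0 ∧ fderiv ℝ (g₀ i) x = 0) ∨
            (G i x = r₀ * g₀ i x ∧ fderiv ℝ (G i) x = r₀ • fderiv ℝ (g₀ i) x)) := by
  classical
  -- choose R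
  obtain ⟨R, hR, hRU⟩ : ∃ R : ℝ, 0 < R ∧ ∀ x ∈ U₀, nE x < R ^ 2 := by
    obtain ⟨M, hM⟩ := (hB.bdd.closure.isCompact_closure.image_of_continuousOn
      (nE_continuous.continuousOn)).bddAbove
    refine ⟨|M| + 1, by positivity, fun x hx => ?_⟩
    have h1 : nE x ≤ M := hM ⟨x, subset_closure (subset_closure hx), rfl⟩
    have h2 := le_abs_self M
    nlinarith [abs_nonneg M]
  set A : Set (P m) := {x | nE x < R ^ 2} with hA
  have hAo : IsOpen A := isOpen_lt nE_continuous continuous_const
  set O : Set (P m) := A \ closure U₀ with hO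
  have hOo : IsOpen O := hAo.sdiff isClosed_closure
  obtain ⟨g, U, hg, hd, hUO, hdense⟩ := exists_fill O hOo
  -- the full family
  let g' : ℕ → Fin m → P m → ℝ := fun n => Nat.casesOn n g₀ g
  let U' : ℕ → Set (P m) := fun n => Nat.casesOn n U₀ U
  have hB' : ∀ n, Block (g' n) (U' n) := by
    intro n
    cases n with
    | zero => exact hB
    | succ n => exact hg n
  have hdisj0 : ∀ n, Disjoint U₀ (U n) := by
    intro n
    rw [Set.disjoint_left]
    intro x hx hx'
    exact (hUO n hx').2 (subset_closure hx)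
  have hd' : Pairwise (Function.onFun Disjoint U') := by
    intro n n' hnn
    simp only [Function.onFun]
    cases n with
    | zero =>
      cases n' with
      | zero => exact absurd rfl hnn
      | succ n' => exact hdisj0 n'
    | succ n =>
      cases n' with
      | zero => exact (hdisj0 n).symm
      | succ n' => exact hd (fun e => hnn (by rw [e]))
  obtain ⟨G, r, hr, hGs, hG0, hGU, hGz⟩ := sum_blocks hB' hd'
  have hUA : ∀ n, U' n ⊆ A := by
    intro n
    cases n with
    | zero => exact fun x hx => hRU x hx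
    | succ n => exact fun x hx => (hUO n hx).1
  -- derivative on a block
  have hGd : ∀ n i x, x ∈ U' n → fderiv ℝ (G i) x = r n • fderiv ℝ (g' n i) x := by
    intro n i x hx
    have h1 : G i =ᶠ[𝓝 x] fun y => r n * g' n i y := by
      filter_upwards [(hB' n).isOpen.mem_nhds hx] with y hy using hGU n i y hy
    rw [h1.fderiv_eq]
    exact fderiv_const_mul (((hB' n).smooth i).differentiable (by simp) x) (r n)
  have hcomm : ∀ i j x, pb (G i) (G j) x = 0 := by
    intro i j x
    by_cases hx : x ∈ ⋃ n, U' n
    · obtain ⟨n, hn⟩ := Set.mem_iUnion.1 hx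
      unfold pb
      rw [hGd n i x hn, hGd n j x hn, bk_smul_left, bk_smul_right]
      have := (hB' n).comm i j x hn
      unfold pb at this
      rw [this]; simp
    · unfold pb
      rw [fderiv_of_min (hG0 i) (hGz i x hx), bk_zero_left]
  have hcomm0 : ∀ i j x, pb (g₀ i) (G j) x = 0 := by
    intro i j x
    by_cases hx : x ∈ U₀
    · unfold pb
      rw [hGd 0 j x hx, bk_smul_right]
      have := hB.comm i j x hx
      unfold pb at this
      have e : g' 0 j = g₀ j := rfl
      rw [e, this]; simp
    · unfold pb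
      rw [fderiv_of_min (hB.nonneg i) (hB.zero i x hx), bk_zero_left]
  refine ⟨R, r 0, G, hR, hr 0, hGs, hG0, fun i x hx => hGU 0 i x hx, ?_, hRU, hcomm, hcomm0, ?_⟩
  · intro i x hx
    refine hGz i x ?_
    intro hx'
    obtain ⟨n, hn⟩ := Set.mem_iUnion.1 hx'
    have := hUA n hn
    rw [hA, Set.mem_ofPred_eq] at this
    linarith
  · choose D hDU hUD hDi using fun n => (hB' n).indep
    refine ⟨⋃ n, D n, ?_, ?_, ?_⟩
    · -- density
      have h1 : ∀ n, U' n ⊆ closure (⋃ n, D n) := fun n =>
        (hUD n).trans (closure_mono (Set.subset_iUnion D n))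
      have h2 : (⋃ n, U' n) ⊆ closure (⋃ n, D n) := Set.iUnion_subset h1
      have h3 : closure (⋃ n, U' n) ⊆ closure (⋃ n, D n) := closure_minimal h2 isClosed_closure
      intro x hx
      apply h3
      by_cases hxc : x ∈ closure U₀
      · exact closure_mono (Set.subset_iUnion U' 0) hxc
      · have : x ∈ closure (⋃ n, U n) := hdense ⟨hx, hxc⟩
        refine closure_mono ?_ this
        refine Set.iUnion_subset fun n => ?_
        exact Set.subset_iUnion U' (n + 1)
    · refine Set.iUnion_subset fun n => (hDU n).trans (hUA n)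
    · intro x hx
      obtain ⟨n, hn⟩ := Set.mem_iUnion.1 hx
      have hxU := hDU n hn
      constructor
      · have h1 := hDi n x hn
        have h2 : (fun i => fderiv ℝ (G i) x) = fun i => r n • fderiv ℝ (g' n i) x :=
          funext fun i => hGd n i x hxU
        rw [h2]
        have h3 := h1.units_smul (fun _ => Units.mk0 (r n) (hr n).ne')
        exact h3
      · intro i
        cases n with
        | zero =>
          right
          exact ⟨hGU 0 i x hxU, hGd 0 i x hxU⟩
        | succ n =>
          left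
          have hx0 : x ∉ U₀ := fun h => Set.disjoint_left.1 (hdisj0 n) h hxU
          exact ⟨hB.zero i x hx0, fderiv_of_min (hB.nonneg i) (hB.zero i x hx0)⟩

end Pool.Agent.H73
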