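import Mathlib
import Pool.Agent.H73.Block

/-!
Dynamics on the invariant torus bundle of the Sol block.
-/

namespace Pool.Agent.H73

open scoped ContDiff Topology
open Finset Filter

/-- Hamiltonian vector field on `P m`. -/
noncomputable def XH {m : ℕ} (K : P m → ℝ) (x : P m) : P m :=
  (fun j => -(fderiv ℝ K x (ey j)), fun j => fderiv ℝ K x (ex j))

variable {k : ℕ}

variable {μ : ℝ} {Γ : AddSubgroup (ℝ × ℝ)} {Ψ : V (k + 3) → V (k + 3)}

/-- core point with given coordinates -/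
noncomputable def qc (k : ℕ) (u v t : ℝ) : V (k + 3) :=
  fun i => if i = 0 then u else if i = 1 then v else if i = 2 then t else 0

lemma qc_core (u v t : ℝ) : core (qc k u v t) := by
  intro j h0 h1 h2
  simp [qc, h0, h1, h2]

lemma qc_tub {ε : ℝ} (hε : 0 < ε) (u v t : ℝ) : tub ε (qc k u v t) := by
  intro j h0 h1 h2
  rw [qc_core u v t j h0 h1 h2, abs_zero]
  exact hε

lemma qc_act (μ : ℝ) (l : ℤ) (a : ℝ × ℝ) (u v t : ℝ) : act μ l a (qc k u v t) =
    qc k (Real.exp (μ * l) * u + a.1) (Real.exp (-(μ * l)) * v + a.2) (t + l) := by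
  funext i
  by_cases h0 : i = 0
  · subst h0; rw [act_zero]; simp [qc]
  by_cases h1 : i = 1
  · subst h1; rw [act_one]; simp [qc]
  by_cases h2 : i = 2
  · subst h2; rw [act_two]; simp [qc, fin02.symm, fin12.symm]
  · rw [act_ge _ _ _ _ h0 h1 h2]; simp [qc, h0, h1, h2]

/-- points of the invariant torus bundle in phase space -/
noncomputable def Wf (Ψ : V (k + 3) → V (k + 3)) (p₀ u v t : ℝ) : P (k + 3) :=
  (Ψ (qc k u v t), Yof Ψ (qc k u v t) (Pi.single 2 p₀))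

lemma qc_hasDerivAt (u v t : ℝ) :
    HasDerivAt (fun t => qc k u v t) (Pi.single 2 1) t := by
  rw [hasDerivAt_pi]
  intro i
  unfold qc
  by_cases h0 : i = 0
  · subst h0; simp [fin02, Pi.single_apply, hasDerivAt_const]
  by_cases h1 : i = 1
  · subst h1; simp [fin12, Pi.single_apply, hasDerivAt_const]
  by_cases h2 : i = 2
  · subst h2
    simp only [h0, h1, if_false, if_true, Pi.single_eq_same]
    exact hasDerivAt_id' t
  · simp [h0, h1, h2, hasDerivAt_const]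

lemma qc_continuous : Continuous (fun x : ℝ × ℝ × ℝ => qc k x.1 x.2.1 x.2.2) := by
  refine continuous_pi fun i => ?_
  unfold qc
  split_ifs <;> fun_prop

lemma Wf_continuous {ε : ℝ} (T : Tube μ Γ Ψ ε) (p₀ : ℝ) :
    Continuous (fun x : ℝ × ℝ × ℝ => Wf Ψ p₀ x.1 x.2.1 x.2.2) := by
  rw [continuous_iff_continuousAt]
  intro x
  have h1 : ContinuousAt (fun x : P (k + 3) => Yof Ψ x.1 x.2)
      ((qc k x.1 x.2.1 x.2.2, Pi.single 2 p₀) : P (k + 3)) :=
    (Yof_contDiffAt T.emb.smooth (T.imm _ (qc_tub T.pos _ _ _))).continuousAt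
  have h2 : ContinuousAt (fun x : ℝ × ℝ × ℝ =>
      ((qc k x.1 x.2.1 x.2.2, Pi.single 2 p₀) : P (k + 3))) x :=
    (qc_continuous.prodMk continuous_const).continuousAt
  have h3 : ContinuousAt (fun x : ℝ × ℝ × ℝ => Yof Ψ (qc k x.1 x.2.1 x.2.2) (Pi.single 2 p₀)) x :=
    ContinuousAt.comp (g := fun x : P (k + 3) => Yof Ψ x.1 x.2)
      (f := fun x : ℝ × ℝ × ℝ => ((qc k x.1 x.2.1 x.2.2, Pi.single 2 p₀) : P (k + 3))) h1 h2
  exact ((T.emb.smooth.continuous.comp qc_continuous).continuousAt).prodMk h3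

lemma Wf_act {ε : ℝ} (T : Tube μ Γ Ψ ε) (p₀ : ℝ) (l : ℤ) {a : ℝ × ℝ} (ha : a ∈ Γ) (u v t : ℝ) :
    Wf Ψ p₀ (Real.exp (μ * l) * u + a.1) (Real.exp (-(μ * l)) * v + a.2) (t + l) =
      Wf Ψ p₀ u v t := by
  unfold Wf
  rw [← qc_act, T.emb.inv l a ha]
  have h1 : Yof Ψ (act μ l a (qc k u v t)) (Pi.single 2 p₀) = Yof Ψ (qc k u v t) (Pi.single 2 p₀) := by
    set Y := Yof Ψ (qc k u v t) (Pi.single 2 p₀) with hY
    have h2 : pT Ψ (qc k u v t) Y = Pi.single 2 p₀ := pT_Yof (T.imm _ (qc_tub T.pos _ _ _)) _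
    have h3 : pT Ψ (act μ l a (qc k u v t)) Y = Pi.single 2 p₀ := by
      rw [T.emb.pT_act l ha, h2]
      funext i
      unfold actT
      by_cases h : i = 2
      · subst h; simp [fin02.symm, fin12.symm]
      · simp [h]
    rw [← h3, Yof_pT (T.imm _ (tub_act.2 (qc_tub T.pos _ _ _)))]
  rw [h1]

lemma Wf_inj {ε : ℝ} (T : Tube μ Γ Ψ ε) {p₀ : ℝ} {u v u' v' : ℝ}
    (h : Wf Ψ p₀ u v 0 = Wf Ψ p₀ u' v' 0) : (u' - u, v' - v) ∈ Γ := by
  have h1 : Ψ (qc k u v 0) = Ψ (qc k u' v' 0) := congrArg Prod.fst h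
  obtain ⟨l, a, ha, hr⟩ := T.inj _ _ (qc_tub T.pos _ _ _) (qc_tub T.pos _ _ _) h1
  rw [qc_act] at hr
  have e2 := congrFun hr 2
  have e0 := congrFun hr 0
  have e1 := congrFun hr 1
  simp only [qc, fin02.symm, fin12.symm, if_false, if_true, zero_add, fin01.symm] at e2 e0 e1
  have hl : l = 0 := by exact_mod_cast e2.symm
  subst hl
  simp only [Int.cast_zero, mul_zero, Real.exp_zero, neg_zero, one_mul] at e0 e1
  have : (u' - u, v' - v) = a := by
    rw [e0, e1]; ext <;> simp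
  rw [this]; exact ha

/-- The chaotic Hamiltonian of the block. -/
noncomputable def solK (μ ε : ℝ) (Ψ : V (k + 3) → V (k + 3)) (x : P (k + 3)) : ℝ :=
  (solSpeed ((ε / 2) ^ 2) (ε / 4) k)⁻¹ * solF μ ε Ψ 2 x

lemma solK_contDiff {ε : ℝ} (T : Tube μ Γ Ψ ε) (hc : LatCocompact Γ) (hμ : 0 < μ) :
    ContDiff ℝ ∞ (solK μ ε Ψ) := contDiff_const.mul (solF_contDiff T hc hμ 2)

lemma Wf_hasDerivAt {ε : ℝ} (T : Tube μ Γ Ψ ε) (hc : LatCocompact Γ) (hμ : 0 < μ) (u v t : ℝ) :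
    HasDerivAt (fun t => Wf Ψ (ε / 4) u v t) (XH (solK μ ε Ψ) (Wf Ψ (ε / 4) u v t)) t := by
  have hε := T.pos
  set q := qc k u v t with hq
  set p₀ : ℝ := ε / 4 with hp₀
  set p : V (k + 3) := Pi.single 2 p₀ with hp
  set Y := Yof Ψ q p with hY
  have hqt : tub ε q := qc_tub hε _ _ _
  have hinv := T.imm q hqt
  have hsm := T.emb.smooth
  have hpTY : pT Ψ q Y = p := pT_Yof hinv p
  have hWt : Wf Ψ p₀ u v t = (Ψ q, Y) := rfl
  have honM : onM p₀ ((q, pT Ψ q Y) : P (k + 3)) := ⟨hpTY, fun j h0 h1 h2 => qc_core u v t j h0 h1 h2⟩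
  have hδ : (0:ℝ) < (ε / 2) ^ 2 := by positivity
  have hpδ : p₀ ^ 2 < (ε / 2) ^ 2 := by rw [hp₀]; nlinarith
  have hp₀pos : 0 < p₀ := by rw [hp₀]; linarith
  have hspeed := solSpeed_pos (k := k) hδ hpδ hp₀pos
  set c := (solSpeed ((ε / 2) ^ 2) p₀ k)⁻¹ with hc'
  -- lift relation for the Hamiltonian
  set f : P (k + 3) → ℝ := fun x => c * solG μ ((ε / 2) ^ 2) k 2 x with hf
  have hl : IsLift Ψ (solK μ ε Ψ) f q Y := by
    have := solF_isLift T hμ 2 hqt Y
    unfold IsLift at this ⊢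
    filter_upwards [this] with x hx
    simp only [solK, hf, hx]
    rfl
  have hKd : DifferentiableAt ℝ (solK μ ε Ψ) (Ψ q, Y) :=
    (solK_contDiff T hc hμ).differentiable (by simp) _
  have hGd : DifferentiableAt ℝ (solG μ ((ε / 2) ^ 2) k 2) (q, pT Ψ q Y) :=
    (solG_contDiff _ _ _).differentiable (by simp) _
  have hfd : DifferentiableAt ℝ f (q, pT Ψ q Y) := hGd.const_mul c
  have hffd : fderiv ℝ f (q, pT Ψ q Y) = c • fderiv ℝ (solG μ ((ε / 2) ^ 2) k 2) (q, pT Ψ q Y) :=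
    fderiv_const_mul hGd c
  have hfex : ∀ l, fderiv ℝ f (q, pT Ψ q Y) (ex l) = 0 := by
    intro l
    rw [hffd, FunLike.coe_smul, Pi.smul_apply, (solG_onM_fderiv hδ hpδ honM l).1, smul_zero]
  have hfey : ∀ l, fderiv ℝ f (q, pT Ψ q Y) (ey l) = if l = 2 then -1 else 0 := by
    intro l
    rw [hffd, FunLike.coe_smul, Pi.smul_apply, (solG_onM_fderiv hδ hpδ honM l).2, smul_eq_mul]
    split_ifs
    · rw [hc', mul_neg, inv_mul_cancel₀ hspeed.ne']
    · simp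
  -- derivative of K
  have hKey : ∀ j, fderiv ℝ (solK μ ε Ψ) (Ψ q, Y) (ey j) = -(fderiv ℝ Ψ q (Pi.single 2 1) j) := by
    intro j
    rw [lift_fderiv_ey hsm hKd hfd hl j]
    simp only [hfey]
    simp
  have hKex : ∀ l, dp (fun j => fderiv ℝ (solK μ ε Ψ) (Ψ q, Y) (ex j)) (fderiv ℝ Ψ q (Pi.single l 1))
      = - Smat Ψ q Y l 2 := by
    intro l
    have := lift_fderiv_ex hsm hKd hfd hl l
    simp only [hfey, hfex] at this
    simp only [mul_ite, mul_neg, mul_one, mul_zero, Finset.sum_ite_eq', Finset.mem_univ, if_true,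
      zero_add] at this
    rw [← this]
    unfold dp
    refine Finset.sum_congr rfl fun j _ => ?_
    ring
  -- derivative of the curve
  have hqd := qc_hasDerivAt (k := k) u v t
  have hX : HasDerivAt (fun t => Ψ (qc k u v t)) (fderiv ℝ Ψ q (Pi.single 2 1)) t :=
    ((hsm.differentiable (by simp) q).hasFDerivAt).comp_hasDerivAt t hqd
  have hYd : DifferentiableAt ℝ (fun x : P (k + 3) => Yof Ψ x.1 x.2) (q, p) :=
    (Yof_contDiffAt hsm (x := (q, p)) hinv).differentiableAt (by simp)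
  have hqp : HasDerivAt (fun t => ((qc k u v t, p) : P (k + 3))) (Pi.single 2 1, 0) t :=
    hqd.prodMk (hasDerivAt_const t p)
  have hYt : HasDerivAt (fun t => Yof Ψ (qc k u v t) p)
      (fderiv ℝ (fun x : P (k + 3) => Yof Ψ x.1 x.2) (q, p) (Pi.single 2 1, 0)) t :=
    HasFDerivAt.comp_hasDerivAt (l := fun x : P (k + 3) => Yof Ψ x.1 x.2)
      (f := fun t => ((qc k u v t, p) : P (k + 3))) t hYd.hasFDerivAt hqp
  set D := fderiv ℝ (fun x : P (k + 3) => Yof Ψ x.1 x.2) (q, p) (Pi.single 2 1, 0) with hD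
  have hqY : HasDerivAt (fun t => ((qc k u v t, Yof Ψ (qc k u v t) p) : P (k + 3)))
      (Pi.single 2 1, D) t := hqd.prodMk hYt
  have hpTd : DifferentiableAt ℝ (fun x : P (k + 3) => pT Ψ x.1 x.2) (q, Y) :=
    (pT_contDiff hsm).differentiable (by simp) _
  have hcomp : HasDerivAt (fun t => pT Ψ (qc k u v t) (Yof Ψ (qc k u v t) p))
      (fderiv ℝ (fun x : P (k + 3) => pT Ψ x.1 x.2) (q, Y) (Pi.single 2 1, D)) t :=
    HasFDerivAt.comp_hasDerivAt (l := fun x : P (k + 3) => pT Ψ x.1 x.2)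
      (f := fun t => ((qc k u v t, Yof Ψ (qc k u v t) p) : P (k + 3))) t hpTd.hasFDerivAt hqY
  have hconst : (fun t => pT Ψ (qc k u v t) (Yof Ψ (qc k u v t) p)) = fun _ => p := by
    funext t'
    exact pT_Yof (T.imm _ (qc_tub hε _ _ _)) p
  rw [hconst] at hcomp
  have hz : fderiv ℝ (fun x : P (k + 3) => pT Ψ x.1 x.2) (q, Y) (Pi.single 2 1, D) = 0 :=
    hcomp.unique (hasDerivAt_const t p)
  have hDl : ∀ l, dp D (fderiv ℝ Ψ q (Pi.single l 1)) = - Smat Ψ q Y 2 l := by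
    intro l
    have h1 := congrFun hz l
    rw [pT_hasFDerivAt_dir hsm] at h1
    simp only [Pi.zero_apply] at h1
    unfold Smat
    linarith
  have hDeq : D = fun j => fderiv ℝ (solK μ ε Ψ) (Ψ q, Y) (ex j) := by
    have h1 : pT Ψ q D = pT Ψ q (fun j => fderiv ℝ (solK μ ε Ψ) (Ψ q, Y) (ex j)) := by
      funext l
      unfold pT
      rw [hDl, hKex, Smat_symm hsm]
    rw [← Yof_pT hinv D, h1, Yof_pT hinv]
  have hXeq : fderiv ℝ Ψ q (Pi.single 2 1) = fun j => -(fderiv ℝ (solK μ ε Ψ) (Ψ q, Y) (ey j)) := by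
    funext j
    rw [hKey, neg_neg]
  have hfin := hX.prodMk hYt
  rw [hXeq, hDeq] at hfin
  exact hfin

end Pool.Agent.H73
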