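import Mathlib

/-!
A lower bound for topological entropy from an expanding curve.
-/

namespace Pool.Agent.H73

open scoped Topology
open Filter Dynamics ExpGrowth

lemma entropy_pos_of_expanding {X : Type*} [PseudoMetricSpace X] {T : X → X} {μ c₀ ε₂ : ℝ}
    (hμ : 0 < μ) (hc₀ : 0 < c₀) (hε₂ : 0 < ε₂) {x : ℝ → X}
    (h : ∀ (v v' : ℝ) (j : ℕ), c₀ * Real.exp (-μ) ≤ Real.exp (μ * j) * |v - v'| →
      Real.exp (μ * j) * |v - v'| ≤ c₀ → ε₂ ≤ dist (T^[j] (x v)) (T^[j] (x v'))) :
    0 < coverEntropy T (Set.univ : Set X) := by
  classical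
  set U : SetRel X X := {p | dist p.1 p.2 < ε₂ / 2} with hU
  have hUm : U ∈ uniformity X := Metric.dist_mem_uniformity (by linarith)
  refine lt_of_lt_of_le ?_ (netEntropyEntourage_le_coverEntropy (T := T) (F := Set.univ) hUm)
  -- the size of the nets
  have hnet : ∀ n : ℕ, ENNReal.ofReal (Real.exp (μ * n)) ≤
      (netMaxcard T Set.univ U (n + 1) : ENNReal) := by
    intro n
    set N : ℕ := ⌊Real.exp (μ * n)⌋₊ with hN
    have hNle : (N : ℝ) ≤ Real.exp (μ * n) := Nat.floor_le (Real.exp_pos _).le
    have hNlt : Real.exp (μ * n) < N + 1 := Nat.lt_floor_add_one _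
    let v : ℕ → ℝ := fun l => c₀ * Real.exp (-(μ * n)) * l
    -- separation
    have hsep : ∀ l l' : ℕ, l < l' → l' ≤ N → ∃ j < n + 1,
        ε₂ ≤ dist (T^[j] (x (v l))) (T^[j] (x (v l'))) := by
      intro l l' hll hl'
      set d : ℝ := (l' : ℝ) - l with hd
      have hd1 : 1 ≤ d := by
        have : (l : ℝ) + 1 ≤ l' := by exact_mod_cast hll
        linarith
      have hdN : d ≤ Real.exp (μ * n) := by
        have h1 : (l' : ℝ) ≤ N := by exact_mod_cast hl'
        have h2 : (0:ℝ) ≤ l := Nat.cast_nonneg l
        linarith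
      have hdpos : 0 < d := by linarith
      set j' : ℕ := ⌈Real.log d / μ⌉₊ with hj'
      have hlog0 : 0 ≤ Real.log d := Real.log_nonneg hd1
      have hj'1 : Real.log d / μ ≤ j' := Nat.le_ceil _
      have hj'2 : (j' : ℝ) < Real.log d / μ + 1 := Nat.ceil_lt_add_one (by positivity)
      have hj'n : j' ≤ n := by
        rw [hj', Nat.ceil_le]
        rw [div_le_iff₀ hμ, mul_comm]
        have := Real.log_le_log hdpos hdN
        rwa [Real.log_exp] at this
      refine ⟨n - j', by omega, h _ _ _ ?_ ?_⟩
      all_goals
        have hcast : ((n - j' : ℕ) : ℝ) = n - j' := by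
          rw [Nat.cast_sub hj'n]
        have habs : |v l - v l'| = c₀ * Real.exp (-(μ * n)) * d := by
          have : v l - v l' = -(c₀ * Real.exp (-(μ * n)) * d) := by
            simp only [v, hd]; ring
          rw [this, abs_neg, abs_of_pos (by positivity)]
        have hexp : Real.exp (μ * ((n - j' : ℕ) : ℝ)) * |v l - v l'| =
            c₀ * (Real.exp (-(μ * j')) * d) := by
          rw [hcast, habs]
          have : Real.exp (μ * (n - j')) * Real.exp (-(μ * n)) = Real.exp (-(μ * j')) := by
            rw [← Real.exp_add]; congr 1; ring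
          calc Real.exp (μ * (n - j')) * (c₀ * Real.exp (-(μ * n)) * d)
              = c₀ * (Real.exp (μ * (n - j')) * Real.exp (-(μ * n)) * d) := by ring
            _ = _ := by rw [this]
        rw [hexp]
        have hdexp : d = Real.exp (Real.log d) := (Real.exp_log hdpos).symm
      · -- lower bound
        refine mul_le_mul_of_nonneg_left ?_ hc₀.le
        rw [hdexp, ← Real.exp_add, Real.exp_le_exp]
        have : μ * j' < Real.log d + μ := by
          have := mul_lt_mul_of_pos_left hj'2 hμ
          have e : μ * (Real.log d / μ + 1) = Real.log d + μ := by field_simp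
          linarith
        linarith
      · -- upper bound
        have : Real.exp (-(μ * j')) * d ≤ 1 := by
          rw [hdexp, ← Real.exp_add]
          rw [Real.exp_le_one_iff]
          have := mul_le_mul_of_nonneg_left hj'1 hμ.le
          have e : μ * (Real.log d / μ) = Real.log d := by field_simp
          linarith
        nlinarith
    have hinj : Set.InjOn (fun l : ℕ => x (v l)) (Finset.range (N + 1)) := by
      intro l hl l' hl' he
      simp only [Finset.coe_range, Set.mem_Iio] at hl hl'
      rcases lt_trichotomy l l' with hlt | heq | hgt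
      · obtain ⟨j, _, hj⟩ := hsep l l' hlt (by omega)
        simp only at he
        rw [he, dist_self] at hj
        linarith
      · exact heq
      · obtain ⟨j, _, hj⟩ := hsep l' l hgt (by omega)
        simp only at he
        rw [he, dist_self] at hj
        linarith
    set s : Finset X := (Finset.range (N + 1)).image (fun l => x (v l)) with hs
    have hcard : s.card = N + 1 := by
      rw [hs, Finset.card_image_of_injOn hinj, Finset.card_range]
    have hisnet : IsDynNetIn T Set.univ U (n + 1) (s : Set X) := by
      refine ⟨Set.subset_univ _, ?_⟩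
      have key : ∀ l l' : ℕ, l < l' → l' ≤ N → Disjoint
          (UniformSpace.ball (x (v l)) (dynEntourage T U (n + 1)))
          (UniformSpace.ball (x (v l')) (dynEntourage T U (n + 1))) := by
        intro l l' hll hl'
        rw [Set.disjoint_left]
        intro y hy hy'
        obtain ⟨j, hj, hd⟩ := hsep l l' hll hl'
        have h1 : (T^[j] (x (v l)), T^[j] y) ∈ U := mem_dynEntourage.1 hy j hj
        have h2 : (T^[j] (x (v l')), T^[j] y) ∈ U := mem_dynEntourage.1 hy' j hj
        rw [hU, Set.mem_ofPred_eq] at h1 h2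
        simp only at h1 h2
        have h3 := dist_triangle_right (T^[j] (x (v l))) (T^[j] (x (v l'))) (T^[j] y)
        linarith
      intro a ha b hb hab
      rw [hs, Finset.coe_image] at ha hb
      obtain ⟨l, hl, rfl⟩ := ha
      obtain ⟨l', hl', rfl⟩ := hb
      simp only [Finset.coe_range, Set.mem_Iio] at hl hl'
      rcases lt_trichotomy l l' with hlt | heq | hgt
      · exact key l l' hlt (by omega)
      · exact absurd (by rw [heq]) hab
      · exact (key l' l hgt (by omega)).symm
    have h1 := hisnet.card_le_netMaxcard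
    have h2 : ENNReal.ofReal (Real.exp (μ * n)) ≤ ((s.card : ℕ∞) : ENNReal) := by
      rw [hcard]
      have : ENNReal.ofReal (Real.exp (μ * n)) ≤ ENNReal.ofReal ((N + 1 : ℕ) : ℝ) :=
        ENNReal.ofReal_le_ofReal (by push_cast; exact hNlt.le)
      refine this.trans ?_
      rw [ENNReal.ofReal_natCast]
      simp
    exact h2.trans (by exact_mod_cast ENat.toENNReal_mono h1)
  -- growth rate
  have hgrow : ((μ / 2 : ℝ) : EReal) ≤ netEntropyEntourage T Set.univ U := by
    unfold netEntropyEntourage
    refine Frequently.le_expGrowthSup (Eventually.frequently ?_)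
    filter_upwards [eventually_ge_atTop 2] with n hn
    obtain ⟨m, rfl⟩ : ∃ m, n = m + 1 := ⟨n - 1, by omega⟩
    refine le_trans ?_ (hnet m)
    have e : ((μ / 2 : ℝ) : EReal) * ((m + 1 : ℕ) : EReal) = ((μ / 2 * (m + 1 : ℕ) : ℝ) : EReal) := by
      push_cast; rfl
    rw [e, EReal.exp_coe]
    apply ENNReal.ofReal_le_ofReal
    rw [Real.exp_le_exp]
    push_cast
    have : (1:ℝ) ≤ m := by exact_mod_cast (by omega : 1 ≤ m)
    nlinarith
  refine lt_of_lt_of_le ?_ hgrow
  exact_mod_cast (by positivity : (0:ℝ) < μ / 2)

end Pool.Agent.H73
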