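import Mathlib
import Pool.Agent.H73.Fill

/-!
Passing from phase space `P m` to homogeneous functions on `ℂ^(m+1)`.
-/

namespace Pool.Agent.H73

open scoped ContDiff Topology
open Finset Filter

/-- complex Euclidean space -/
abbrev En (n : ℕ) := EuclideanSpace ℂ (Fin n)

/-- Poisson bracket on `ℂ^n` -/
noncomputable def pbE {n : ℕ} (F G : En n → ℝ) (z : En n) : ℝ :=
  ∑ j, (fderiv ℝ F z (EuclideanSpace.single j 1) * fderiv ℝ G z (EuclideanSpace.single j Complex.I)
    - fderiv ℝ F z (EuclideanSpace.single j Complex.I) * fderiv ℝ G z (EuclideanSpace.single j 1))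

variable {m : ℕ}

/-- coordinate projection, real-linear -/
noncomputable def cj {n : ℕ} (j : Fin n) : En n →L[ℝ] ℂ :=
  (EuclideanSpace.proj (𝕜 := ℂ) j).restrictScalars ℝ

@[simp] lemma cj_apply {n : ℕ} (j : Fin n) (z : En n) : cj j z = z j := rfl

/-- the last `m` coordinates in real form -/
noncomputable def prL : En (m + 1) →L[ℝ] P m :=
  (ContinuousLinearMap.pi fun j : Fin m => Complex.reCLM.comp (cj j.succ)).prod
    (ContinuousLinearMap.pi fun j : Fin m => Complex.imCLM.comp (cj j.succ))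

@[simp] lemma prL_fst (z : En (m + 1)) (j : Fin m) : (prL z).1 j = (z j.succ).re := rfl
@[simp] lemma prL_snd (z : En (m + 1)) (j : Fin m) : (prL z).2 j = (z j.succ).im := rfl

/-- squared modulus of the zeroth coordinate -/
noncomputable def aE (z : En (m + 1)) : ℝ := (z 0).re ^ 2 + (z 0).im ^ 2

lemma aE_nonneg (z : En (m + 1)) : 0 ≤ aE z := by unfold aE; positivity

lemma aE_pos {z : En (m + 1)} (h : z 0 ≠ 0) : 0 < aE z := by
  have h1 : 0 < Complex.normSq (z 0) := Complex.normSq_pos.2 h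
  rw [Complex.normSq_apply] at h1
  unfold aE; nlinarith

lemma aE_eq_zero {z : En (m + 1)} : aE z = 0 ↔ z 0 = 0 := by
  constructor
  · intro h
    by_contra hne
    exact (aE_pos hne).ne' h
  · intro h; simp [aE, h]

lemma norm_sq_eq (z : En (m + 1)) : ‖z‖ ^ 2 = aE z + nE (prL z) := by
  rw [EuclideanSpace.norm_eq, Real.sq_sqrt (by positivity), Fin.sum_univ_succ]
  unfold aE nE
  congr 1
  · rw [Complex.sq_norm, Complex.normSq_apply]; ring
  · refine Finset.sum_congr rfl fun j _ => ?_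
    rw [Complex.sq_norm, Complex.normSq_apply]; simp; ring

/-- the derivative of `aE` -/
noncomputable def aE' (z : En (m + 1)) : En (m + 1) →L[ℝ] ℝ :=
  (2 * (z 0).re) • Complex.reCLM.comp (cj 0) + (2 * (z 0).im) • Complex.imCLM.comp (cj 0)

lemma aE_hasFDerivAt (z : En (m + 1)) : HasFDerivAt aE (aE' z) z := by
  unfold aE aE'
  have h1 : HasFDerivAt (fun z : En (m + 1) => (z 0).re) (Complex.reCLM.comp (cj 0)) z :=
    (Complex.reCLM.comp (cj 0)).hasFDerivAt
  have h2 : HasFDerivAt (fun z : En (m + 1) => (z 0).im) (Complex.imCLM.comp (cj 0)) z :=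
    (Complex.imCLM.comp (cj 0)).hasFDerivAt
  have h3 := (h1.pow 2).add (h2.pow 2)
  refine h3.congr_fderiv ?_
  simp

lemma aE_contDiff : ContDiff ℝ ∞ (aE (m := m)) := by
  unfold aE
  have h1 : ContDiff ℝ ∞ (fun z : En (m + 1) => (z 0).re) := (Complex.reCLM.comp (cj 0)).contDiff
  have h2 : ContDiff ℝ ∞ (fun z : En (m + 1) => (z 0).im) := (Complex.imCLM.comp (cj 0)).contDiff
  exact (h1.pow 2).add (h2.pow 2)

/-- The bracket of two functions of `(aE, prL)`. -/
lemma pbE_comp {Φ Φ' : ℝ × P m → ℝ} {z : En (m + 1)}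
    (h : DifferentiableAt ℝ Φ (aE z, prL z)) (h' : DifferentiableAt ℝ Φ' (aE z, prL z)) :
    pbE (fun z => Φ (aE z, prL z)) (fun z => Φ' (aE z, prL z)) z =
      pb (fun x => Φ (aE z, x)) (fun x => Φ' (aE z, x)) (prL z) := by
  have hσ : HasFDerivAt (fun z : En (m + 1) => (aE z, prL z)) ((aE' z).prod prL) z :=
    (aE_hasFDerivAt z).prodMk prL.hasFDerivAt
  have hp : ∀ {Φ : ℝ × P m → ℝ}, DifferentiableAt ℝ Φ (aE z, prL z) →
      fderiv ℝ (fun x => Φ (aE z, x)) (prL z) =
        (fderiv ℝ Φ (aE z, prL z)).comp (ContinuousLinearMap.inr ℝ ℝ (P m)) := by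
    intro Φ h
    have h1 : HasFDerivAt (fun x : P m => (aE z, x)) (ContinuousLinearMap.inr ℝ ℝ (P m)) (prL z) :=
      hasFDerivAt_prodMk_right _ _
    exact (h.hasFDerivAt.comp (prL z) h1).fderiv
  have hd : ∀ {Φ : ℝ × P m → ℝ}, DifferentiableAt ℝ Φ (aE z, prL z) → ∀ v : En (m + 1),
      fderiv ℝ (fun z => Φ (aE z, prL z)) z v = fderiv ℝ Φ (aE z, prL z) (aE' z v, prL v) := by
    intro Φ h v
    have h1 := h.hasFDerivAt.comp z hσ
    have h2 : fderiv ℝ (fun z => Φ (aE z, prL z)) z = (fderiv ℝ Φ (aE z, prL z)).comp ((aE' z).prod prL) :=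
      h1.fderiv
    rw [h2]; rfl
  unfold pbE pb bk
  rw [Fin.sum_univ_succ, hp h, hp h']
  simp only [hd h, hd h']
  have e0 : prL (EuclideanSpace.single (0 : Fin (m + 1)) (1 : ℂ)) = 0 := by
    ext j <;> simp [Fin.succ_ne_zero]
  have e0' : prL (EuclideanSpace.single (0 : Fin (m + 1)) Complex.I) = 0 := by
    ext j <;> simp [Fin.succ_ne_zero]
  have a0 : aE' z (EuclideanSpace.single (0 : Fin (m + 1)) (1 : ℂ)) = 2 * (z 0).re := by
    simp [aE']
  have a0' : aE' z (EuclideanSpace.single (0 : Fin (m + 1)) Complex.I) = 2 * (z 0).im := by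
    simp [aE']
  have hs : ∀ (L : ℝ × P m →L[ℝ] ℝ) (c : ℝ), L (c, 0) = c * L (1, 0) := by
    intro L c
    have : ((c, 0) : ℝ × P m) = c • ((1, 0) : ℝ × P m) := by simp
    rw [this, map_smul, smul_eq_mul]
  have key0 : fderiv ℝ Φ (aE z, prL z) (aE' z (EuclideanSpace.single 0 1), prL (EuclideanSpace.single 0 1)) *
        fderiv ℝ Φ' (aE z, prL z) (aE' z (EuclideanSpace.single 0 Complex.I), prL (EuclideanSpace.single 0 Complex.I)) -
      fderiv ℝ Φ (aE z, prL z) (aE' z (EuclideanSpace.single 0 Complex.I), prL (EuclideanSpace.single 0 Complex.I)) *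
        fderiv ℝ Φ' (aE z, prL z) (aE' z (EuclideanSpace.single 0 1), prL (EuclideanSpace.single 0 1)) = 0 := by
    rw [e0, e0', a0, a0', hs (fderiv ℝ Φ _) (2 * (z 0).re), hs (fderiv ℝ Φ' _) (2 * (z 0).re),
      hs (fderiv ℝ Φ _) (2 * (z 0).im), hs (fderiv ℝ Φ' _) (2 * (z 0).im)]
    ring
  rw [key0, zero_add]
  refine Finset.sum_congr rfl fun i _ => ?_
  have e1 : prL (EuclideanSpace.single i.succ (1 : ℂ)) = ex i := by
    ext j <;> by_cases h : j = i <;> simp [ex, h]
  have e1' : prL (EuclideanSpace.single i.succ Complex.I) = ey i := by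
    ext j <;> by_cases h : j = i <;> simp [ey, h]
  have a1 : aE' z (EuclideanSpace.single i.succ (1 : ℂ)) = 0 := by
    simp [aE', (Fin.succ_ne_zero i).symm]
  have a1' : aE' z (EuclideanSpace.single i.succ Complex.I) = 0 := by
    simp [aE', (Fin.succ_ne_zero i).symm]
  rw [e1, e1', a1, a1']
  rfl

end Pool.Agent.H73
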