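import Mathlib
import Pool.Agent.H73.Glob

/-!
The homogeneous functions on `ℂ^(m+1)`, their smoothness and commutation.
-/

namespace Pool.Agent.H73

open scoped ContDiff Topology
open Finset Filter

variable {m : ℕ}

/-- action variables -/
noncomputable def uE (j : Fin m) (x : P m) : ℝ := x.1 j ^ 2 + x.2 j ^ 2

lemma nE_eq (x : P m) : nE x = ∑ j, uE j x := rfl

lemma nE_nonneg (x : P m) : 0 ≤ nE x := by unfold nE; positivity

lemma uE_nonneg (j : Fin m) (x : P m) : 0 ≤ uE j x := by unfold uE; positivity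

lemma nE_smul (c : ℝ) (x : P m) : nE (c • x) = c ^ 2 * nE x := by
  unfold nE
  rw [Finset.mul_sum]
  refine Finset.sum_congr rfl fun j _ => ?_
  simp; ring

lemma nE_contDiff : ContDiff ℝ ∞ (nE (m := m)) := by unfold nE; fun_prop
lemma uE_contDiff (j : Fin m) : ContDiff ℝ ∞ (uE (m := m) j) := by unfold uE; fun_prop

/-- two-variable form -/
noncomputable def ΦE (R c : ℝ) (b : Fin m → ℝ) (g : P m → ℝ) (y : ℝ × P m) : ℝ :=
  c * y.1 + expNegInvGlue ((nE y.2 - R ^ 2 * y.1) / (y.1 + nE y.2)) * (∑ j, b j * uE j y.2) +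
    y.1 * g ((Real.sqrt y.1)⁻¹ • y.2)

/-- the homogeneous function on `ℂ^(m+1)` -/
noncomputable def FE (R c : ℝ) (b : Fin m → ℝ) (g : P m → ℝ) (z : En (m + 1)) : ℝ :=
  ΦE R c b g (aE z, prL z)

lemma nE_scaled {a : ℝ} (ha : 0 < a) (x : P m) : nE ((Real.sqrt a)⁻¹ • x) = nE x / a := by
  rw [nE_smul, inv_pow, Real.sq_sqrt ha.le]
  field_simp

lemma ΦE_contDiffAt {R c : ℝ} {b : Fin m → ℝ} {g : P m → ℝ} (hg : ContDiff ℝ ∞ g)
    {y : ℝ × P m} (hy : 0 < y.1) : ContDiffAt ℝ ∞ (ΦE R c b g) y := by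
  unfold ΦE
  have h1 : ContDiffAt ℝ ∞ (fun y : ℝ × P m => y.1) y := contDiffAt_fst
  have h2 : ContDiffAt ℝ ∞ (fun y : ℝ × P m => nE y.2) y :=
    (nE_contDiff.comp contDiff_snd).contDiffAt
  have h3 : y.1 + nE y.2 ≠ 0 := by have := nE_nonneg y.2; positivity
  have h4 : ContDiffAt ℝ ∞ (fun y : ℝ × P m => (nE y.2 - R ^ 2 * y.1) / (y.1 + nE y.2)) y :=
    (h2.sub (contDiffAt_const.mul h1)).div (h1.add h2) h3
  have h5 : ContDiffAt ℝ ∞ (fun y : ℝ × P m =>
      expNegInvGlue ((nE y.2 - R ^ 2 * y.1) / (y.1 + nE y.2))) y :=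
    ContDiffAt.comp (g := expNegInvGlue) y expNegInvGlue.contDiff.contDiffAt h4
  have h6 : ContDiffAt ℝ ∞ (fun y : ℝ × P m => ∑ j, b j * uE j y.2) y :=
    ContDiffAt.sum fun j _ => contDiffAt_const.mul ((uE_contDiff j).comp contDiff_snd).contDiffAt
  have h7 : ContDiffAt ℝ ∞ (fun y : ℝ × P m => (Real.sqrt y.1)⁻¹ • y.2) y := by
    have h8 : ContDiffAt ℝ ∞ (fun y : ℝ × P m => Real.sqrt y.1) y := h1.sqrt hy.ne'
    exact (h8.inv (Real.sqrt_pos.2 hy).ne').smul contDiffAt_snd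
  have h9 : ContDiffAt ℝ ∞ (fun y : ℝ × P m => g ((Real.sqrt y.1)⁻¹ • y.2)) y :=
    ContDiffAt.comp (g := g) y hg.contDiffAt h7
  exact ((contDiffAt_const.mul h1).add (h5.mul h6)).add (h1.mul h9)

lemma FE_contDiffAt_of_ne {R c : ℝ} {b : Fin m → ℝ} {g : P m → ℝ} (hg : ContDiff ℝ ∞ g)
    {z : En (m + 1)} (hz : z 0 ≠ 0) : ContDiffAt ℝ ∞ (FE R c b g) z := by
  unfold FE
  have h1 : ContDiffAt ℝ ∞ (fun z : En (m + 1) => (aE z, prL z)) z :=
    aE_contDiff.contDiffAt.prodMk prL.contDiff.contDiffAt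
  exact ContDiffAt.comp (g := ΦE R c b g) z (ΦE_contDiffAt hg (aE_pos hz)) h1

/-- the vanishing condition for the local functions -/
def Van (R : ℝ) (g : P m → ℝ) : Prop := ∀ x, R ^ 2 ≤ nE x → g x = 0

lemma FE_of_large {R c : ℝ} {b : Fin m → ℝ} {g : P m → ℝ} (hv : Van R g) {z : En (m + 1)}
    (h : R ^ 2 * aE z ≤ nE (prL z)) : FE R c b g z = c * aE z +
      expNegInvGlue ((nE (prL z) - R ^ 2 * aE z) / (aE z + nE (prL z))) *
        (∑ j, b j * uE j (prL z)) := by
  unfold FE ΦE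
  simp only
  have : aE z * g ((Real.sqrt (aE z))⁻¹ • prL z) = 0 := by
    rcases (aE_nonneg z).eq_or_lt with h0 | h0
    · rw [← h0, zero_mul]
    · rw [hv, mul_zero]
      rw [nE_scaled h0, le_div_iff₀ h0]
      exact h
  rw [this, add_zero]

lemma FE_contDiffAt {R c : ℝ} {b : Fin m → ℝ} {g : P m → ℝ} (hg : ContDiff ℝ ∞ g)
    (hv : Van R g) {z : En (m + 1)} (hz : z ≠ 0) : ContDiffAt ℝ ∞ (FE R c b g) z := by
  by_cases h0 : z 0 = 0
  · -- near `z` the local part vanishes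
    have hpos : 0 < ‖z‖ ^ 2 := by positivity
    rw [norm_sq_eq, aE_eq_zero.2 h0, zero_add] at hpos
    have hden : aE z + nE (prL z) ≠ 0 := by rw [aE_eq_zero.2 h0, zero_add]; exact hpos.ne'
    have hnc : ContDiff ℝ ∞ (fun z : En (m + 1) => nE (prL z)) := nE_contDiff.comp prL.contDiff
    have hev : ∀ᶠ y in 𝓝 z, R ^ 2 * aE y < nE (prL y) := by
      have h1 : Continuous fun y : En (m + 1) => nE (prL y) - R ^ 2 * aE y :=
        hnc.continuous.sub (continuous_const.mul aE_contDiff.continuous)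
      have h2 : 0 < nE (prL z) - R ^ 2 * aE z := by rw [aE_eq_zero.2 h0]; linarith
      filter_upwards [h1.continuousAt.eventually_const_lt h2] with y hy
      linarith
    have h3 : ContDiffAt ℝ ∞ (fun z : En (m + 1) => c * aE z +
      expNegInvGlue ((nE (prL z) - R ^ 2 * aE z) / (aE z + nE (prL z))) *
        (∑ j, b j * uE j (prL z))) z := by
      have ha : ContDiffAt ℝ ∞ (aE (m := m)) z := aE_contDiff.contDiffAt
      have hn := hnc.contDiffAt (x := z)
      have h4 : ContDiffAt ℝ ∞ (fun z : En (m + 1) =>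
          (nE (prL z) - R ^ 2 * aE z) / (aE z + nE (prL z))) z :=
        (hn.sub (contDiffAt_const.mul ha)).div (ha.add hn) hden
      have h5 : ContDiffAt ℝ ∞ (fun z : En (m + 1) =>
          expNegInvGlue ((nE (prL z) - R ^ 2 * aE z) / (aE z + nE (prL z)))) z :=
        ContDiffAt.comp (g := expNegInvGlue) z expNegInvGlue.contDiff.contDiffAt h4
      have h6 : ContDiffAt ℝ ∞ (fun z : En (m + 1) => ∑ j, b j * uE j (prL z)) z :=
        ContDiffAt.sum fun j _ => contDiffAt_const.mul ((uE_contDiff j).comp prL.contDiff).contDiffAt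
      exact (contDiffAt_const.mul ha).add (h5.mul h6)
    refine h3.congr_of_eventuallyEq ?_
    filter_upwards [hev] with y hy using FE_of_large hv hy.le
  · exact FE_contDiffAt_of_ne hg h0

lemma uE_comm (i j : Fin m) (x : P m) : pb (uE i) (uE j) x = 0 := by
  by_cases hij : i = j
  · rw [hij]; exact pb_self _ _
  have hx : ∀ i l : Fin m, l ≠ i → fderiv ℝ (uE i) x (ex l) = 0 := by
    intro i l hl
    apply fderiv_eq_zero_of_inv
    intro τ
    simp [uE, ex, hl.symm]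
  have hy : ∀ i l : Fin m, l ≠ i → fderiv ℝ (uE i) x (ey l) = 0 := by
    intro i l hl
    apply fderiv_eq_zero_of_inv
    intro τ
    simp [uE, ey, hl.symm]
  refine bk_zero_of_disj (fun l => ?_) (fun l => ?_)
  · by_cases hl : l = i
    · right; subst hl; exact hy j l hij
    · left; exact hx i l hl
  · by_cases hl : l = j
    · right; subst hl; exact hy i l (Ne.symm hij)
    · left; exact hx j l hl

/-- value of the partial function in the inner region -/
lemma ΦE_inner {R c : ℝ} {b : Fin m → ℝ} {g : P m → ℝ} {a : ℝ} (ha : 0 < a) {x : P m}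
    (hx : nE x < R ^ 2 * a) : (fun y => ΦE R c b g (a, y)) =ᶠ[𝓝 x]
      fun y => c * a + a * g ((Real.sqrt a)⁻¹ • y) := by
  have hev : ∀ᶠ y in 𝓝 x, nE y < R ^ 2 * a :=
    nE_continuous.continuousAt.eventually_lt_const hx
  filter_upwards [hev] with y hy
  unfold ΦE
  simp only
  rw [expNegInvGlue.zero_of_nonpos, zero_mul, add_zero]
  refine div_nonpos_of_nonpos_of_nonneg (by linarith) ?_
  have := nE_nonneg y
  linarith

lemma ΦE_outer {R c : ℝ} {b : Fin m → ℝ} {g : P m → ℝ} (hv : Van R g) {a : ℝ} (ha : 0 < a)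
    {x : P m} (hx : R ^ 2 * a < nE x) : (fun y => ΦE R c b g (a, y)) =ᶠ[𝓝 x]
      fun y => c * a + expNegInvGlue ((nE y - R ^ 2 * a) / (a + nE y)) * ∑ j, b j * uE j y := by
  have hev : ∀ᶠ y in 𝓝 x, R ^ 2 * a < nE y :=
    nE_continuous.continuousAt.eventually_const_lt hx
  filter_upwards [hev] with y hy
  unfold ΦE
  simp only
  have : g ((Real.sqrt a)⁻¹ • y) = 0 := by
    apply hv
    rw [nE_scaled ha, le_div_iff₀ ha]
    exact hy.le
  rw [this, mul_zero, add_zero]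

lemma fderiv_scaled {c a s : ℝ} {g : P m → ℝ} (hg : Differentiable ℝ g) (x : P m) :
    fderiv ℝ (fun y => c * a + a * g (s • y)) x = (a * s) • fderiv ℝ g (s • x) := by
  have h1 : HasFDerivAt (fun y : P m => s • y) (s • ContinuousLinearMap.id ℝ (P m)) x :=
    (hasFDerivAt_id x).const_smul s
  have h2 : HasFDerivAt (fun y : P m => g (s • y))
      ((fderiv ℝ g (s • x)).comp (s • ContinuousLinearMap.id ℝ (P m))) x :=
    HasFDerivAt.comp (g := g) x (hg (s • x)).hasFDerivAt h1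
  have h3 := (h2.const_mul a).const_add (c * a)
  rw [h3.fderiv]
  ext v <;> simp [mul_assoc]

lemma ΦE_nonneg {R : ℝ} {b : Fin m → ℝ} {g : P m → ℝ} (hb : ∀ j, 0 ≤ b j)
    (hg : ∀ x, 0 ≤ g x) {a : ℝ} (ha : 0 < a) (c : ℝ) (y : P m) :
    0 ≤ ΦE R c b g (a, y) - c * a := by
  unfold ΦE
  simp only
  have h1 : 0 ≤ expNegInvGlue ((nE y - R ^ 2 * a) / (a + nE y)) * ∑ j, b j * uE j y :=
    mul_nonneg (expNegInvGlue.nonneg _)
      (Finset.sum_nonneg fun j _ => mul_nonneg (hb j) (uE_nonneg j y))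
  have h2 := mul_nonneg ha.le (hg ((Real.sqrt a)⁻¹ • y))
  linarith

lemma ΦE_boundary {R c : ℝ} {b : Fin m → ℝ} {g : P m → ℝ} (hb : ∀ j, 0 ≤ b j)
    (hg : ∀ x, 0 ≤ g x) (hv : Van R g) {a : ℝ} (ha : 0 < a) {x : P m} (hx : nE x = R ^ 2 * a) :
    fderiv ℝ (fun y => ΦE R c b g (a, y)) x = 0 := by
  have h1 : fderiv ℝ (fun y => ΦE R c b g (a, y) - c * a) x = 0 := by
    apply fderiv_of_min
    · exact fun y => ΦE_nonneg hb hg ha c y
    · unfold ΦE
      simp only
      have h2 : g ((Real.sqrt a)⁻¹ • x) = 0 := by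
        apply hv
        rw [nE_scaled ha, le_div_iff₀ ha]
        exact hx.ge
      rw [h2, hx]
      simp
  rwa [fderiv_sub_const] at h1

lemma FE_comm_aux {R c c' : ℝ} {b b' : Fin m → ℝ} {g g' : P m → ℝ} (hgs : ContDiff ℝ ∞ g)
    (hgs' : ContDiff ℝ ∞ g') (hb : ∀ j, 0 ≤ b j) (hb' : ∀ j, 0 ≤ b' j)
    (hg : ∀ x, 0 ≤ g x) (hg' : ∀ x, 0 ≤ g' x) (hv : Van R g) (hv' : Van R g')
    (hc : ∀ x, pb g g' x = 0) {z : En (m + 1)} (hz : z 0 ≠ 0) :
    pbE (FE R c b g) (FE R c' b' g') z = 0 := by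
  have ha := aE_pos hz
  have hD : DifferentiableAt ℝ (ΦE R c b g) (aE z, prL z) :=
    (ΦE_contDiffAt hgs (y := (aE z, prL z)) ha).differentiableAt (by simp)
  have hD' : DifferentiableAt ℝ (ΦE R c' b' g') (aE z, prL z) :=
    (ΦE_contDiffAt hgs' (y := (aE z, prL z)) ha).differentiableAt (by simp)
  have h0 := pbE_comp hD hD'
  change pbE (fun z => ΦE R c b g (aE z, prL z)) (fun z => ΦE R c' b' g' (aE z, prL z)) z = 0
  rw [h0]
  set a := aE z
  set x := prL z
  unfold pb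
  rcases lt_trichotomy (nE x) (R ^ 2 * a) with h | h | h
  · rw [(ΦE_inner ha h).fderiv_eq, (ΦE_inner ha h).fderiv_eq,
      fderiv_scaled (hgs.differentiable (by simp)), fderiv_scaled (hgs'.differentiable (by simp)),
      bk_smul_left, bk_smul_right]
    have := hc ((Real.sqrt a)⁻¹ • x)
    unfold pb at this
    rw [this]; ring
  · rw [ΦE_boundary hb hg hv ha h, bk_zero_left]
  · rw [(ΦE_outer hv ha h).fderiv_eq, (ΦE_outer hv' ha h).fderiv_eq]
    have hu : ∀ j, DifferentiableAt ℝ (uE (m := m) j) x := fun j =>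
      (uE_contDiff j).differentiable (by simp) x
    have hden : a + ∑ j, uE j x ≠ 0 := by
      have := nE_nonneg x
      rw [nE_eq] at this
      positivity
    have hΘ : ∀ (c : ℝ) (b : Fin m → ℝ), DifferentiableAt ℝ (fun u : Fin m → ℝ => c * a +
        expNegInvGlue ((∑ j, u j - R ^ 2 * a) / (a + ∑ j, u j)) * ∑ j, b j * u j)
        (fun j => uE j x) := by
      intro c b
      have h1n : ContDiffAt ℝ 1 (fun u : Fin m → ℝ => ∑ j, u j - R ^ 2 * a)
          (fun j => uE j x) := by fun_prop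
      have h1d : ContDiffAt ℝ 1 (fun u : Fin m → ℝ => a + ∑ j, u j)
          (fun j => uE j x) := by fun_prop
      have h1 : DifferentiableAt ℝ (fun u : Fin m → ℝ =>
          (∑ j, u j - R ^ 2 * a) / (a + ∑ j, u j)) (fun j => uE j x) :=
        (h1n.div h1d hden).differentiableAt (by simp)
      have h2 : DifferentiableAt ℝ (fun u : Fin m → ℝ =>
          expNegInvGlue ((∑ j, u j - R ^ 2 * a) / (a + ∑ j, u j))) (fun j => uE j x) :=
        DifferentiableAt.comp (g := expNegInvGlue) _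
          ((expNegInvGlue.contDiff (n := 1)).differentiable (by simp) _) h1
      exact (h2.mul (by fun_prop)).const_add _
    exact pb_comp_comp (A := fun j => uE j) (Θ := fun u : Fin m → ℝ => c * a +
        expNegInvGlue ((∑ j, u j - R ^ 2 * a) / (a + ∑ j, u j)) * ∑ j, b j * u j)
      (Θ' := fun u : Fin m → ℝ => c' * a +
        expNegInvGlue ((∑ j, u j - R ^ 2 * a) / (a + ∑ j, u j)) * ∑ j, b' j * u j)
      hu (hΘ c b) (hΘ c' b') (fun i j => uE_comm i j x)

lemma FE_comm {R c c' : ℝ} {b b' : Fin m → ℝ} {g g' : P m → ℝ} (hgs : ContDiff ℝ ∞ g)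
    (hgs' : ContDiff ℝ ∞ g') (hb : ∀ j, 0 ≤ b j) (hb' : ∀ j, 0 ≤ b' j)
    (hg : ∀ x, 0 ≤ g x) (hg' : ∀ x, 0 ≤ g' x) (hv : Van R g) (hv' : Van R g')
    (hc : ∀ x, pb g g' x = 0) {z : En (m + 1)} (hz : z ≠ 0) :
    pbE (FE R c b g) (FE R c' b' g') z = 0 := by
  -- continuity argument
  have hcont : ∀ {c : ℝ} {b : Fin m → ℝ} {g : P m → ℝ}, ContDiff ℝ ∞ g → Van R g → ∀ v,
      ContinuousAt (fun z => fderiv ℝ (FE R c b g) z v) z := by
    intro c b g hg hv v
    have h1 := (FE_contDiffAt (c := c) (b := b) hg hv hz)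
    have h2 : ContDiffAt ℝ ∞ (fderiv ℝ (FE R c b g)) z := h1.fderiv_right (by simp)
    exact (h2.continuousAt).clm_apply continuousAt_const
  have hpc : ContinuousAt (fun z => pbE (FE R c b g) (FE R c' b' g') z) z := by
    unfold pbE
    refine tendsto_finsetSum _ fun j _ => ?_
    exact ((hcont hgs hv _).mul (hcont hgs' hv' _)).sub ((hcont hgs hv _).mul (hcont hgs' hv' _))
  by_cases h0 : z 0 = 0
  · have hcur : Tendsto (fun τ : ℝ => z + τ • EuclideanSpace.single (0 : Fin (m + 1)) (1 : ℂ))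
        (𝓝[≠] 0) (𝓝 z) := by
      have : Continuous (fun τ : ℝ => z + τ • EuclideanSpace.single (0 : Fin (m + 1)) (1 : ℂ)) := by
        fun_prop
      have h1 := this.tendsto 0
      simp only [zero_smul, add_zero] at h1
      exact h1.mono_left nhdsWithin_le_nhds
    have h1 := hpc.tendsto.comp hcur
    have h2 : ((fun z => pbE (FE R c b g) (FE R c' b' g') z) ∘
        fun τ : ℝ => z + τ • EuclideanSpace.single (0 : Fin (m + 1)) (1 : ℂ)) =ᶠ[𝓝[≠] 0]
        fun _ => (0:ℝ) := by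
      filter_upwards [self_mem_nhdsWithin] with τ hτ
      refine FE_comm_aux hgs hgs' hb hb' hg hg' hv hv' hc ?_
      have : (z + τ • EuclideanSpace.single (0 : Fin (m + 1)) (1 : ℂ)) 0 = (τ : ℂ) := by
        simp [h0]
      rw [this]
      have hτ' : τ ≠ 0 := hτ
      exact Complex.ofReal_ne_zero.2 hτ'
    have h3 := h1.congr' h2
    exact tendsto_nhds_unique h3 tendsto_const_nhds
  · exact FE_comm_aux hgs hgs' hb hb' hg hg' hv hv' hc h0

end Pool.Agent.H73
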