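import Mathlib
import Pool.Agent.H73.Glob2

/-!
Homogeneity, positivity and independence of the global functions.
-/

namespace Pool.Agent.H73

open scoped ContDiff Topology
open Finset Filter

variable {m : ℕ}

lemma aE_smul (t : ℝ) (z : En (m + 1)) : aE (t • z) = t ^ 2 * aE z := by
  unfold aE
  simp
  ring

lemma uE_smul (t : ℝ) (j : Fin m) (x : P m) : uE j (t • x) = t ^ 2 * uE j x := by
  unfold uE
  simp
  ring

lemma FE_smul {R c : ℝ} {b : Fin m → ℝ} {g : P m → ℝ} {t : ℝ} (ht : 0 < t) (z : En (m + 1)) :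
    FE R c b g (t • z) = t ^ 2 * FE R c b g z := by
  unfold FE ΦE
  simp only [aE_smul, map_smul, nE_smul, uE_smul]
  have h1 : (t ^ 2 * nE (prL z) - R ^ 2 * (t ^ 2 * aE z)) / (t ^ 2 * aE z + t ^ 2 * nE (prL z)) =
      (nE (prL z) - R ^ 2 * aE z) / (aE z + nE (prL z)) := by
    have e1 : t ^ 2 * nE (prL z) - R ^ 2 * (t ^ 2 * aE z) =
      t ^ 2 * (nE (prL z) - R ^ 2 * aE z) := by ring
    have e2 : t ^ 2 * aE z + t ^ 2 * nE (prL z) = t ^ 2 * (aE z + nE (prL z)) := by ring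
    rw [e1, e2]
    exact mul_div_mul_left _ _ (by positivity)
  have h2 : (Real.sqrt (t ^ 2 * aE z))⁻¹ • t • prL z = (Real.sqrt (aE z))⁻¹ • prL z := by
    rw [Real.sqrt_mul (by positivity), Real.sqrt_sq ht.le, smul_smul]
    congr 1
    rw [mul_inv, mul_comm t⁻¹, mul_assoc, inv_mul_cancel₀ ht.ne', mul_one]
  have h3 : ∑ j, b j * (t ^ 2 * uE j (prL z)) = t ^ 2 * ∑ j, b j * uE j (prL z) := by
    rw [Finset.mul_sum]
    exact Finset.sum_congr rfl fun j _ => by ring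
  rw [h1, h2, h3]
  ring

lemma FE_euler {R c : ℝ} {b : Fin m → ℝ} {g : P m → ℝ} {z : En (m + 1)}
    (hd : DifferentiableAt ℝ (FE R c b g) z) : fderiv ℝ (FE R c b g) z z = 2 * FE R c b g z := by
  have h1 : HasDerivAt (fun t : ℝ => t • z) z 1 := by
    simpa using (hasDerivAt_id (1:ℝ)).smul_const z
  have h2 : HasFDerivAt (FE R c b g) (fderiv ℝ (FE R c b g) z) ((1:ℝ) • z) := by
    rw [one_smul]; exact hd.hasFDerivAt
  have h3 : HasDerivAt (fun t : ℝ => FE R c b g (t • z)) (fderiv ℝ (FE R c b g) z z) 1 :=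
    HasFDerivAt.comp_hasDerivAt (l := FE R c b g) (f := fun t : ℝ => t • z) 1 h2 h1
  have h4 : HasDerivAt (fun t : ℝ => t ^ 2 * FE R c b g z) (2 * FE R c b g z) 1 := by
    simpa using (hasDerivAt_pow 2 (1:ℝ)).mul_const (FE R c b g z)
  have h5 : (fun t : ℝ => FE R c b g (t • z)) =ᶠ[𝓝 1] fun t => t ^ 2 * FE R c b g z := by
    filter_upwards [lt_mem_nhds (zero_lt_one : (0:ℝ) < 1)] with t ht using FE_smul ht z
  exact h3.unique (h4.congr_of_eventuallyEq h5)

/-- vector with given coordinates -/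
noncomputable def mkE (c : ℂ) (x : P m) : En (m + 1) :=
  WithLp.toLp 2 (Fin.cons c (fun j => (⟨x.1 j, x.2 j⟩ : ℂ)) : Fin (m + 1) → ℂ)

@[simp] lemma mkE_zero (c : ℂ) (x : P m) : (mkE c x) 0 = c := rfl
@[simp] lemma mkE_succ (c : ℂ) (x : P m) (j : Fin m) : (mkE c x) j.succ = ⟨x.1 j, x.2 j⟩ := rfl

lemma prL_mkE (c : ℂ) (x : P m) : prL (mkE c x) = x := by
  ext j <;> simp

lemma mkE_continuous : Continuous (fun y : ℂ × P m => mkE y.1 y.2) := by
  unfold mkE
  refine (PiLp.continuous_toLp 2 _).comp ?_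
  refine continuous_pi fun i => ?_
  refine Fin.cases ?_ (fun j => ?_) i
  · simp only [Fin.cons_zero]; exact continuous_fst
  · simp only [Fin.cons_succ]
    have h1 : Continuous (fun y : ℂ × P m => ((y.2.1 j : ℝ) : ℂ) + ((y.2.2 j : ℝ) : ℂ) * Complex.I) := by
      fun_prop
    have h2 : (fun y : ℂ × P m => (⟨y.2.1 j, y.2.2 j⟩ : ℂ)) =
        fun y : ℂ × P m => ((y.2.1 j : ℝ) : ℂ) + ((y.2.2 j : ℝ) : ℂ) * Complex.I := by
      funext y
      exact Complex.mk_eq_add_mul_I _ _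
    rw [h2]; exact h1

lemma FE_fderiv_dir {R c : ℝ} {b : Fin m → ℝ} {g : P m → ℝ} (hg : ContDiff ℝ ∞ g)
    {z : En (m + 1)} (hz : z 0 ≠ 0) (ξ : P m) :
    fderiv ℝ (FE R c b g) z (mkE 0 ξ) = fderiv ℝ (fun y => ΦE R c b g (aE z, y)) (prL z) ξ := by
  have ha := aE_pos hz
  have hD : DifferentiableAt ℝ (ΦE R c b g) (aE z, prL z) :=
    (ΦE_contDiffAt hg (y := (aE z, prL z)) ha).differentiableAt (by simp)
  have hσ : HasFDerivAt (fun z : En (m + 1) => (aE z, prL z)) ((aE' z).prod prL) z :=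
    (aE_hasFDerivAt z).prodMk prL.hasFDerivAt
  have h1 : HasFDerivAt (FE R c b g) ((fderiv ℝ (ΦE R c b g) (aE z, prL z)).comp ((aE' z).prod prL)) z :=
    hD.hasFDerivAt.comp z hσ
  have h2 : HasFDerivAt (fun x : P m => (aE z, x)) (ContinuousLinearMap.inr ℝ ℝ (P m)) (prL z) :=
    hasFDerivAt_prodMk_right _ _
  have h3 : HasFDerivAt (fun y => ΦE R c b g (aE z, y))
      ((fderiv ℝ (ΦE R c b g) (aE z, prL z)).comp (ContinuousLinearMap.inr ℝ ℝ (P m))) (prL z) :=
    hD.hasFDerivAt.comp (prL z) h2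
  rw [h1.fderiv, h3.fderiv]
  simp only [ContinuousLinearMap.comp_apply, ContinuousLinearMap.prod_apply, prL_mkE,
    ContinuousLinearMap.inr_apply]
  have : aE' z (mkE 0 ξ) = 0 := by simp [aE']
  rw [this]

/-- the full family -/
noncomputable def Fam (R : ℝ) (K : P m → ℝ) (G : Fin m → P m → ℝ) :
    Fin (m + 1) → En (m + 1) → ℝ :=
  Fin.cons (FE R (1 / 2) (fun _ => 1 / 2) K) (fun i => FE R 0 (Pi.single i 1) (G i))

@[simp] lemma Fam_zero (R : ℝ) (K : P m → ℝ) (G : Fin m → P m → ℝ) :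
    Fam R K G 0 = FE R (1 / 2) (fun _ => 1 / 2) K := rfl
@[simp] lemma Fam_succ (R : ℝ) (K : P m → ℝ) (G : Fin m → P m → ℝ) (i : Fin m) :
    Fam R K G i.succ = FE R 0 (Pi.single i 1) (G i) := rfl

lemma H_pos {R : ℝ} {K : P m → ℝ} (hK : ∀ x, 0 ≤ K x) {z : En (m + 1)} (hz : z ≠ 0) :
    0 < FE R (1 / 2) (fun _ => 1 / 2) K z := by
  have hn : 0 < ‖z‖ ^ 2 := by positivity
  rw [norm_sq_eq] at hn
  have hθ := expNegInvGlue.nonneg ((nE (prL z) - R ^ 2 * aE z) / (aE z + nE (prL z)))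
  have hsum : ∑ j : Fin m, (1 / 2 : ℝ) * uE j (prL z) = 1 / 2 * nE (prL z) := by
    rw [nE_eq, Finset.mul_sum]
  unfold FE ΦE
  simp only
  rw [hsum]
  rcases (aE_nonneg z).eq_or_lt with h0 | h0
  · rw [← h0] at hn ⊢
    have hpos : 0 < nE (prL z) := by linarith
    have e : (nE (prL z) - R ^ 2 * 0) / (0 + nE (prL z)) = 1 := by
      rw [mul_zero, sub_zero, zero_add]; exact div_self hpos.ne'
    rw [e]
    have := expNegInvGlue.pos_of_pos (zero_lt_one : (0:ℝ) < 1)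
    have h5 : 0 < expNegInvGlue 1 * (1 / 2 * nE (prL z)) := by positivity
    linarith
  · have h1 := nE_nonneg (prL z)
    have h2 := hK ((Real.sqrt (aE z))⁻¹ • prL z)
    have h3 := mul_nonneg h0.le h2
    have h4 := mul_nonneg hθ (mul_nonneg (by norm_num : (0:ℝ) ≤ 1/2) h1)
    linarith

/-- Linear algebra reduction: what has to be proved at a point. -/
lemma Fam_indep_of {R : ℝ} {K : P m → ℝ} {G : Fin m → P m → ℝ} (hK : ContDiff ℝ ∞ K)
    (hG : ∀ i, ContDiff ℝ ∞ (G i)) {z : En (m + 1)} (hz : z 0 ≠ 0)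
    (h : ∀ (c₀ : ℝ) (c : Fin m → ℝ),
      (∀ ξ, c₀ * fderiv ℝ (fun y => ΦE R (1 / 2) (fun _ => 1 / 2) K (aE z, y)) (prL z) ξ +
        ∑ i, c i * fderiv ℝ (fun y => ΦE R 0 (Pi.single i 1) (G i) (aE z, y)) (prL z) ξ = 0) →
      c₀ * FE R (1 / 2) (fun _ => 1 / 2) K z + ∑ i, c i * FE R 0 (Pi.single i 1) (G i) z = 0 →
      c₀ = 0 ∧ ∀ i, c i = 0) :
    LinearIndependent ℝ (fun i => fderiv ℝ (Fam R K G i) z) := by
  rw [Fintype.linearIndependent_iff]
  intro c hc
  have hev : ∀ v, c 0 * fderiv ℝ (FE R (1 / 2) (fun _ => 1 / 2) K) z v +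
      ∑ i : Fin m, c i.succ * fderiv ℝ (FE R 0 (Pi.single i 1) (G i)) z v = 0 := by
    intro v
    have h1 := congrArg (fun L : En (m + 1) →L[ℝ] ℝ => L v) hc
    simp only [FunLike.coe_sum, Finset.sum_apply, FunLike.coe_smul, Pi.smul_apply, smul_eq_mul,
      FunLike.coe_zero, Pi.zero_apply] at h1
    rw [Fin.sum_univ_succ] at h1
    exact h1
  have h2 := h (c 0) (fun i => c i.succ) (fun ξ => ?_) ?_
  · intro i
    refine Fin.cases h2.1 (fun j => h2.2 j) i
  · have := hev (mkE 0 ξ)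
    rw [FE_fderiv_dir hK hz] at this
    simp only [FE_fderiv_dir (hG _) hz] at this
    exact this
  · have := hev z
    rw [FE_euler ((FE_contDiffAt_of_ne hK hz).differentiableAt (by simp))] at this
    simp only [FE_euler ((FE_contDiffAt_of_ne (hG _) hz).differentiableAt (by simp))] at this
    have e : ∑ i : Fin m, c i.succ * (2 * FE R 0 (Pi.single i 1) (G i) z) =
        2 * ∑ i : Fin m, c i.succ * FE R 0 (Pi.single i 1) (G i) z := by
      rw [Finset.mul_sum]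
      exact Finset.sum_congr rfl fun j _ => by ring
    rw [e] at this
    linarith

/-- independence in the inner region -/
lemma Fam_indep_inner {R : ℝ} {K : P m → ℝ} {G : Fin m → P m → ℝ} (hK : ContDiff ℝ ∞ K)
    (hG : ∀ i, ContDiff ℝ ∞ (G i)) {z : En (m + 1)} (hz : z 0 ≠ 0)
    (hin : nE (prL z) < R ^ 2 * aE z)
    {w : P m} (hw : w = (Real.sqrt (aE z))⁻¹ • prL z)
    (hi : LinearIndependent ℝ (fun i => fderiv ℝ (G i) w)) (i₀ : Fin m) (κ : ℝ)
    (hKw : K w = κ * G i₀ w) (hKd : fderiv ℝ K w = κ • fderiv ℝ (G i₀) w) :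
    LinearIndependent ℝ (fun i => fderiv ℝ (Fam R K G i) z) := by
  have ha := aE_pos hz
  have hs : 0 < Real.sqrt (aE z) := Real.sqrt_pos.2 ha
  refine Fam_indep_of hK hG hz ?_
  intro c₀ c h1 h2
  have h3 : ∀ ξ, c₀ * (κ * fderiv ℝ (G i₀) w ξ) + ∑ i, c i * fderiv ℝ (G i) w ξ = 0 := by
    intro ξ
    have h4 := h1 ξ
    rw [(ΦE_inner ha hin).fderiv_eq, fderiv_scaled (hK.differentiable (by simp)), ← hw, hKd] at h4
    have h5 : ∀ i, fderiv ℝ (fun y => ΦE R 0 (Pi.single i 1) (G i) (aE z, y)) (prL z) ξ =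
        (aE z * (Real.sqrt (aE z))⁻¹) * fderiv ℝ (G i) w ξ := by
      intro i
      rw [(ΦE_inner ha hin).fderiv_eq, fderiv_scaled ((hG i).differentiable (by simp)), ← hw]
      rfl
    simp only [h5] at h4
    simp only [FunLike.coe_smul, Pi.smul_apply, smul_eq_mul] at h4
    have h6 : (aE z * (Real.sqrt (aE z))⁻¹) *
        (c₀ * (κ * fderiv ℝ (G i₀) w ξ) + ∑ i, c i * fderiv ℝ (G i) w ξ) = 0 := by
      rw [mul_add, Finset.mul_sum, ← h4]
      congr 1
      · ring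
      · exact Finset.sum_congr rfl fun i _ => by ring
    rcases mul_eq_zero.1 h6 with h7 | h7
    · exfalso
      have : 0 < aE z * (Real.sqrt (aE z))⁻¹ := by positivity
      exact this.ne' h7
    · exact h7
  -- coefficients
  have h4 : ∀ i, c i + (if i = i₀ then c₀ * κ else 0) = 0 := by
    rw [Fintype.linearIndependent_iff] at hi
    apply hi
    refine ContinuousLinearMap.ext fun ξ => ?_
    simp only [FunLike.coe_sum, Finset.sum_apply, FunLike.coe_smul, Pi.smul_apply, smul_eq_mul,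
      FunLike.coe_zero, Pi.zero_apply, add_mul, Finset.sum_add_distrib, ite_mul, zero_mul,
      Finset.sum_ite_eq', Finset.mem_univ, if_true]
    have := h3 ξ
    linarith
  -- values
  have hval : ∀ (c : ℝ) (b : Fin m → ℝ) (g : P m → ℝ), FE R c b g z = c * aE z + aE z * g w := by
    intro c b g
    have := (ΦE_inner (c := c) (b := b) (g := g) ha hin).eq_of_nhds
    rw [hw]
    exact this
  simp only [hval] at h2
  have h5 : ∑ i, c i * (0 * aE z + aE z * G i w) = -(c₀ * κ) * (aE z * G i₀ w) := by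
    rw [Finset.sum_eq_single i₀]
    · have := h4 i₀
      rw [if_pos rfl] at this
      have h6 : c i₀ = -(c₀ * κ) := by linarith
      rw [h6]; ring
    · intro i _ hne
      have := h4 i
      rw [if_neg hne, add_zero] at this
      rw [this, zero_mul]
    · intro hh; exact absurd (Finset.mem_univ _) hh
  rw [h5, hKw] at h2
  have h6 : c₀ * (1 / 2 * aE z) = 0 := by linarith
  have h7 : c₀ = 0 := by
    rcases mul_eq_zero.1 h6 with h | h
    · exact h
    · exfalso; linarith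
  refine ⟨h7, fun i => ?_⟩
  have := h4 i
  rw [h7] at this
  simpa using this

end Pool.Agent.H73
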