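import Mathlib
import Pool.Agent.H73.Glob3

/-!
Independence in the outer region and density.
-/

namespace Pool.Agent.H73

open scoped ContDiff Topology
open Finset Filter

variable {m : ℕ}

/-- explicit derivative of the action variable -/
noncomputable def uE' (j : Fin m) (x : P m) : P m →L[ℝ] ℝ :=
  (2 * x.1 j) • ((ContinuousLinearMap.proj j).comp (ContinuousLinearMap.fst ℝ (V m) (V m))) +
  (2 * x.2 j) • ((ContinuousLinearMap.proj j).comp (ContinuousLinearMap.snd ℝ (V m) (V m)))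

lemma uE_hasFDerivAt (j : Fin m) (x : P m) : HasFDerivAt (uE j) (uE' j x) x := by
  unfold uE uE'
  have h1 : HasFDerivAt (fun x : P m => x.1 j)
      ((ContinuousLinearMap.proj j).comp (ContinuousLinearMap.fst ℝ (V m) (V m))) x :=
    ((ContinuousLinearMap.proj (R := ℝ) (φ := fun _ : Fin m => ℝ) j).comp
      (ContinuousLinearMap.fst ℝ (V m) (V m))).hasFDerivAt
  have h2 : HasFDerivAt (fun x : P m => x.2 j)
      ((ContinuousLinearMap.proj j).comp (ContinuousLinearMap.snd ℝ (V m) (V m))) x :=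
    ((ContinuousLinearMap.proj (R := ℝ) (φ := fun _ : Fin m => ℝ) j).comp
      (ContinuousLinearMap.snd ℝ (V m) (V m))).hasFDerivAt
  refine ((h1.pow 2).add (h2.pow 2)).congr_fderiv ?_
  simp

lemma expNegInvGlue_deriv_nonneg (y : ℝ) : ∃ d, 0 ≤ d ∧ HasDerivAt expNegInvGlue d y := by
  have hd : DifferentiableAt ℝ expNegInvGlue y :=
    (expNegInvGlue.contDiff (n := 1)).differentiable (by simp) y
  refine ⟨deriv expNegInvGlue y, ?_, hd.hasDerivAt⟩
  exact expNegInvGlue.monotone.deriv_nonneg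

/-- independence in the outer region -/
lemma Fam_indep_outer {R : ℝ} {K : P m → ℝ} {G : Fin m → P m → ℝ} (hK : ContDiff ℝ ∞ K)
    (hG : ∀ i, ContDiff ℝ ∞ (G i)) (hvK : Van R K) (hvG : ∀ i, Van R (G i))
    {z : En (m + 1)} (hz : z 0 ≠ 0)
    (hout : R ^ 2 * aE z < nE (prL z)) (hu : ∀ j, uE j (prL z) ≠ 0) :
    LinearIndependent ℝ (fun i => fderiv ℝ (Fam R K G i) z) := by
  have ha := aE_pos hz
  refine Fam_indep_of hK hG hz ?_
  intro c₀ c h1 h2
  set a := aE z with ha'
  set x := prL z with hx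
  set s₀ := nE x with hs₀
  have hs₀pos : 0 ≤ s₀ := nE_nonneg x
  have hden : a + s₀ ≠ 0 := by positivity
  -- the outer cut-off
  set θ : ℝ := expNegInvGlue ((s₀ - R ^ 2 * a) / (a + s₀)) with hθ
  have hθpos : 0 < θ := by
    apply expNegInvGlue.pos_of_pos
    apply div_pos
    · linarith
    · positivity
  obtain ⟨d, hd0, hd⟩ := expNegInvGlue_deriv_nonneg ((s₀ - R ^ 2 * a) / (a + s₀))
  obtain ⟨θ', hθ'0, hθ'⟩ : ∃ θ', 0 ≤ θ' ∧
      HasDerivAt (fun s : ℝ => expNegInvGlue ((s - R ^ 2 * a) / (a + s))) θ' s₀ := by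
    have h3 : HasDerivAt (fun s : ℝ => (s - R ^ 2 * a) / (a + s))
        ((1 * (a + s₀) - (s₀ - R ^ 2 * a) * 1) / (a + s₀) ^ 2) s₀ :=
      ((hasDerivAt_id s₀).sub_const (R ^ 2 * a)).div ((hasDerivAt_id s₀).const_add a) hden
    refine ⟨d * ((1 * (a + s₀) - (s₀ - R ^ 2 * a) * 1) / (a + s₀) ^ 2), ?_, ?_⟩
    · refine mul_nonneg hd0 (div_nonneg ?_ (by positivity))
      have : 0 ≤ R ^ 2 * a := by positivity
      linarith
    · exact HasDerivAt.comp (h₂ := expNegInvGlue)
        (h := fun s : ℝ => (s - R ^ 2 * a) / (a + s)) s₀ hd h3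
  have hnE : HasFDerivAt (nE (m := m)) (∑ j, uE' j x) x := by
    have : nE (m := m) = fun x => ∑ j, uE j x := rfl
    rw [this]
    exact HasFDerivAt.fun_sum fun j _ => uE_hasFDerivAt j x
  have hθx : HasFDerivAt (fun y : P m => expNegInvGlue ((nE y - R ^ 2 * a) / (a + nE y)))
      (θ' • ∑ j, uE' j x) x :=
    HasDerivAt.comp_hasFDerivAt (h₂ := fun s : ℝ => expNegInvGlue ((s - R ^ 2 * a) / (a + s)))
      x hθ' hnE
  have hφ : ∀ (c : ℝ) (b : Fin m → ℝ) (g : P m → ℝ), Van R g → ∀ ξ,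
      fderiv ℝ (fun y => ΦE R c b g (a, y)) x ξ =
        θ * (∑ j, b j * uE' j x ξ) + (∑ j, b j * uE j x) * (θ' * ∑ j, uE' j x ξ) := by
    intro c b g hv ξ
    rw [(ΦE_outer hv ha hout).fderiv_eq]
    have h3 : HasFDerivAt (fun y : P m => ∑ j, b j * uE j y) (∑ j, b j • uE' j x) x :=
      HasFDerivAt.fun_sum fun j _ => (uE_hasFDerivAt j x).const_mul (b j)
    have h4 : HasFDerivAt (fun y : P m => c * a +
        expNegInvGlue ((nE y - R ^ 2 * a) / (a + nE y)) * ∑ j, b j * uE j y)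
        (θ • (∑ j, b j • uE' j x) + (∑ j, b j * uE j x) • (θ' • ∑ j, uE' j x)) x :=
      (hθx.mul h3).const_add (c * a)
    rw [h4.fderiv]
    simp only [FunLike.coe_add, FunLike.coe_smul, FunLike.coe_sum, Pi.add_apply, Pi.smul_apply,
      Finset.sum_apply, smul_eq_mul]
  -- test vectors
  let ξ : Fin m → P m := fun l => (2 * uE l x)⁻¹ • (x.1 l • ex l + x.2 l • ey l)
  have hξ : ∀ l j, uE' j x (ξ l) = if j = l then 1 else 0 := by
    intro l j
    have hul := hu l
    by_cases h : j = l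
    · subst h
      rw [if_pos rfl]
      simp only [uE', ξ, ex, ey]
      simp
      have : uE j x = x.1 j ^ 2 + x.2 j ^ 2 := rfl
      rw [this] at hul ⊢
      field_simp
    · rw [if_neg h]
      simp [uE', ξ, ex, ey, h]
  set D : ℝ := ∑ i, (c i + 1 / 2 * c₀) * uE i x with hD
  have h3 : ∀ l, (c l + 1 / 2 * c₀) * θ + D * θ' = 0 := by
    intro l
    have h4 := h1 (ξ l)
    rw [hφ _ _ _ hvK] at h4
    simp only [fun i => hφ 0 (Pi.single i 1) (G i) (hvG i) (ξ l), hξ] at h4
    have e1 : ∀ i : Fin m, ∑ j, (Pi.single i (1:ℝ) : Fin m → ℝ) j * (if j = l then (1:ℝ) else 0) =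
        if i = l then 1 else 0 := by
      intro i
      rw [Finset.sum_eq_single l]
      · by_cases h : i = l
        · subst h; simp
        · simp [h, Pi.single_apply, eq_comm]
      · intro j _ hj; simp [hj]
      · intro hh; exact absurd (Finset.mem_univ _) hh
    have e2 : ∀ i : Fin m, ∑ j, (Pi.single i (1:ℝ) : Fin m → ℝ) j * uE j x = uE i x := by
      intro i
      rw [Finset.sum_eq_single i]
      · simp
      · intro j _ hj; simp [hj]
      · intro hh; exact absurd (Finset.mem_univ _) hh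
    have e3 : ∑ j : Fin m, (if j = l then (1:ℝ) else 0) = 1 := by simp
    have e4 : ∑ j : Fin m, (1 / 2 : ℝ) * (if j = l then (1:ℝ) else 0) = 1 / 2 := by
      rw [← Finset.mul_sum, e3, mul_one]
    simp only [e1, e2, e3, e4] at h4
    have e5 : ∑ i, c i * (θ * (if i = l then 1 else 0) + uE i x * (θ' * 1)) =
        c l * θ + (∑ i, c i * uE i x) * θ' := by
      simp only [mul_add, Finset.sum_add_distrib]
      congr 1
      · simp
      · rw [Finset.sum_mul]
        exact Finset.sum_congr rfl fun i _ => by ring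
    rw [e5] at h4
    have e6 : D = (∑ i, c i * uE i x) + c₀ * ∑ j, 1 / 2 * uE j x := by
      rw [hD, Finset.mul_sum, ← Finset.sum_add_distrib]
      exact Finset.sum_congr rfl fun i _ => by ring
    rw [e6]
    linarith
  have h4 : D * (θ + θ' * s₀) = 0 := by
    have h5 : ∑ l, ((c l + 1 / 2 * c₀) * θ + D * θ') * uE l x = 0 :=
      Finset.sum_eq_zero fun l _ => by rw [h3 l, zero_mul]
    have h6 : ∑ l, ((c l + 1 / 2 * c₀) * θ + D * θ') * uE l x = D * θ + D * θ' * s₀ := by
      rw [hs₀, nE_eq]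
      have : ∀ l, ((c l + 1 / 2 * c₀) * θ + D * θ') * uE l x =
          (c l + 1 / 2 * c₀) * uE l x * θ + D * θ' * uE l x := fun l => by ring
      simp only [this, Finset.sum_add_distrib]
      rw [← Finset.sum_mul, ← Finset.mul_sum, ← hD]
    rw [h6] at h5
    linarith
  have hD0 : D = 0 := by
    rcases mul_eq_zero.1 h4 with h | h
    · exact h
    · exfalso
      have : 0 < θ + θ' * s₀ := by positivity
      exact this.ne' h
  have hcl : ∀ l, c l = -(1 / 2 * c₀) := by
    intro l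
    have := h3 l
    rw [hD0, zero_mul, add_zero] at this
    rcases mul_eq_zero.1 this with h | h
    · linarith
    · exact absurd h hθpos.ne'
  -- values
  have hle : R ^ 2 * aE z ≤ nE (prL z) := hout.le
  rw [FE_of_large hvK hle] at h2
  simp only [fun i => FE_of_large (c := 0) (b := Pi.single i 1) (hvG i) hle] at h2
  have e2 : ∀ i : Fin m, ∑ j, (Pi.single i (1:ℝ) : Fin m → ℝ) j * uE j (prL z) = uE i x := by
    intro i
    rw [Finset.sum_eq_single i]
    · simp [hx]
    · intro j _ hj; simp [hj]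
    · intro hh; exact absurd (Finset.mem_univ _) hh
  have e3 : ∑ j : Fin m, (1 / 2 : ℝ) * uE j (prL z) = 1 / 2 * s₀ := by
    rw [hs₀, nE_eq, Finset.mul_sum]
  simp only [e2, e3, hcl] at h2
  rw [← ha', ← hx, ← hs₀, ← hθ] at h2
  have e4 : ∑ i, -(1 / 2 * c₀) * (0 * a + θ * uE i x) = -(1 / 2 * c₀) * θ * s₀ := by
    rw [hs₀, nE_eq, Finset.mul_sum]
    exact Finset.sum_congr rfl fun i _ => by ring
  rw [e4] at h2
  have h7 : c₀ * (1 / 2 * a) = 0 := by linarith
  have h8 : c₀ = 0 := by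
    rcases mul_eq_zero.1 h7 with h | h
    · exact h
    · exfalso; linarith
  exact ⟨h8, fun i => by rw [hcl i, h8]; ring⟩

end Pool.Agent.H73
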