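import Mathlib
import Pool.Agent.H73.Glob4

/-!
Density of the set of independence.
-/

namespace Pool.Agent.H73

open scoped ContDiff Topology
open Finset Filter

variable {m : ℕ}

lemma mkE_prL (z : En (m + 1)) : mkE (z 0) (prL z) = z := by
  ext i
  refine Fin.cases ?_ (fun j => ?_) i
  · rfl
  · rw [mkE_succ]; exact Complex.ext rfl rfl

lemma aE_mkE (c : ℂ) (x : P m) : aE (mkE c x) = c.re ^ 2 + c.im ^ 2 := rfl

lemma Fam_dense {R : ℝ} (hR : 0 < R) {K : P m → ℝ} {G : Fin m → P m → ℝ} (hK : ContDiff ℝ ∞ K)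
    (hG : ∀ i, ContDiff ℝ ∞ (G i)) (hvK : Van R K) (hvG : ∀ i, Van R (G i))
    (i₀ : Fin m)
    {D : Set (P m)} (hD : {x | nE x < R ^ 2} ⊆ closure D) (hDA : D ⊆ {x | nE x < R ^ 2})
    (hDi : ∀ x ∈ D, LinearIndependent ℝ (fun i => fderiv ℝ (G i) x) ∧
      ∃ κ : ℝ, K x = κ * G i₀ x ∧ fderiv ℝ K x = κ • fderiv ℝ (G i₀) x) :
    Dense {z : En (m + 1) | z ≠ 0 ∧ LinearIndependent ℝ (fun i => fderiv ℝ (Fam R K G i) z)} := by
  rw [dense_iff_inter_open]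
  intro N hNo ⟨z, hzN⟩
  -- Step 1
  obtain ⟨z₁, hz₁N, hz₁⟩ : ∃ z₁ ∈ N, z₁ 0 ≠ 0 := by
    by_cases h0 : z 0 = 0
    · have hcur : Continuous (fun τ : ℝ => z + τ • EuclideanSpace.single (0 : Fin (m + 1)) (1 : ℂ)) := by
        fun_prop
      have h1 : ∀ᶠ τ : ℝ in 𝓝 0, z + τ • EuclideanSpace.single (0 : Fin (m + 1)) (1 : ℂ) ∈ N := by
        have h2 := hcur.tendsto 0
        simp only [zero_smul, add_zero] at h2
        exact h2 (hNo.mem_nhds hzN)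
      have h3 : ∀ᶠ τ : ℝ in 𝓝[≠] 0, z + τ • EuclideanSpace.single (0 : Fin (m + 1)) (1 : ℂ) ∈ N :=
        h1.filter_mono nhdsWithin_le_nhds
      obtain ⟨τ, hτN, hτ⟩ := (h3.and self_mem_nhdsWithin).exists
      refine ⟨_, hτN, ?_⟩
      have h4 : (z + τ • EuclideanSpace.single (0 : Fin (m + 1)) (1 : ℂ)) 0 = (τ : ℂ) := by
        simp [h0]
      rw [h4]
      exact Complex.ofReal_ne_zero.2 hτ
    · exact ⟨z, hzN, h0⟩
  -- Step 2
  obtain ⟨z₂, hz₂N, hz₂, hz₂ne⟩ : ∃ z₂ ∈ N, z₂ 0 ≠ 0 ∧ nE (prL z₂) ≠ R ^ 2 * aE z₂ := by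
    by_cases heq : nE (prL z₁) = R ^ 2 * aE z₁
    · have hcur : Continuous (fun τ : ℝ => mkE (((1 + τ : ℝ) : ℂ) * z₁ 0) (prL z₁)) :=
        mkE_continuous.comp (by fun_prop : Continuous fun τ : ℝ => ((((1 + τ : ℝ) : ℂ) * z₁ 0, prL z₁) : ℂ × P m))
      have h1 : ∀ᶠ τ : ℝ in 𝓝 0, mkE (((1 + τ : ℝ) : ℂ) * z₁ 0) (prL z₁) ∈ N := by
        have h2 := hcur.tendsto 0
        simp only [add_zero, Complex.ofReal_one, one_mul, mkE_prL] at h2
        exact h2 (hNo.mem_nhds hz₁N)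
      have h3 : ∀ᶠ τ : ℝ in 𝓝[>] 0, mkE (((1 + τ : ℝ) : ℂ) * z₁ 0) (prL z₁) ∈ N :=
        h1.filter_mono nhdsWithin_le_nhds
      obtain ⟨τ, hτN, hτ⟩ := (h3.and self_mem_nhdsWithin).exists
      have hτ0 : (0:ℝ) < τ := hτ
      refine ⟨_, hτN, ?_, ?_⟩
      · rw [mkE_zero]
        refine mul_ne_zero (Complex.ofReal_ne_zero.2 (by linarith)) hz₁
      · rw [prL_mkE, aE_mkE, heq]
        intro h
        have e : (((1 + τ : ℝ) : ℂ) * z₁ 0).re ^ 2 + (((1 + τ : ℝ) : ℂ) * z₁ 0).im ^ 2 =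
            (1 + τ) ^ 2 * aE z₁ := by
          unfold aE
          simp
          ring
        rw [e] at h
        have ha := aE_pos hz₁
        have h5 : R ^ 2 * aE z₁ * ((1 + τ) ^ 2 - 1) = 0 := by linarith
        have h6 : 0 < (1 + τ) ^ 2 - 1 := by nlinarith
        have h7 : 0 < R ^ 2 * aE z₁ * ((1 + τ) ^ 2 - 1) := by positivity
        exact h7.ne' h5
    · exact ⟨z₁, hz₁N, hz₁, heq⟩
  have ha := aE_pos hz₂
  have hs : 0 < Real.sqrt (aE z₂) := Real.sqrt_pos.2 ha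
  rcases lt_or_gt_of_ne hz₂ne with hlt | hgt
  · -- inner region
    set w₂ : P m := (Real.sqrt (aE z₂))⁻¹ • prL z₂ with hw₂
    have hw₂A : w₂ ∈ closure D := by
      apply hD
      rw [Set.mem_ofPred_eq, hw₂, nE_scaled ha, div_lt_iff₀ ha]
      exact hlt
    have hcur : Continuous (fun w : P m => mkE (z₂ 0) (Real.sqrt (aE z₂) • w)) :=
      mkE_continuous.comp (by fun_prop : Continuous fun w : P m => ((z₂ 0, Real.sqrt (aE z₂) • w) : ℂ × P m))
    have hval : mkE (z₂ 0) (Real.sqrt (aE z₂) • w₂) = z₂ := by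
      rw [hw₂, smul_smul, mul_inv_cancel₀ hs.ne', one_smul, mkE_prL]
    have hnb : (fun w : P m => mkE (z₂ 0) (Real.sqrt (aE z₂) • w)) ⁻¹' N ∈ 𝓝 w₂ := by
      apply hcur.continuousAt.preimage_mem_nhds
      rw [hval]; exact hNo.mem_nhds hz₂N
    obtain ⟨w, hwN, hwD⟩ := mem_closure_iff_nhds.1 hw₂A _ hnb
    set z₃ := mkE (z₂ 0) (Real.sqrt (aE z₂) • w) with hz₃
    have hz₃0 : z₃ 0 ≠ 0 := hz₂
    have haz : aE z₃ = aE z₂ := rfl
    have hpz : prL z₃ = Real.sqrt (aE z₂) • w := prL_mkE _ _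
    have hwz : w = (Real.sqrt (aE z₃))⁻¹ • prL z₃ := by
      rw [haz, hpz, smul_smul, inv_mul_cancel₀ hs.ne', one_smul]
    obtain ⟨hli, κ, hκ1, hκ2⟩ := hDi w hwD
    have hwA : nE w < R ^ 2 := hDA hwD
    refine ⟨z₃, hwN, ?_, ?_⟩
    · intro h; rw [h] at hz₃0; exact hz₃0 rfl
    · refine Fam_indep_inner hK hG hz₃0 ?_ hwz hli i₀ κ hκ1 hκ2
      rw [haz, hpz, nE_smul, Real.sq_sqrt ha.le]
      nlinarith
  · -- outer region
    have hcur : Continuous (fun τ : ℝ => mkE (z₂ 0) ((fun j => (prL z₂).1 j + τ, (prL z₂).2) : P m)) :=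
      mkE_continuous.comp (by fun_prop : Continuous fun τ : ℝ =>
        ((z₂ 0, (fun j => (prL z₂).1 j + τ, (prL z₂).2)) : ℂ × P m))
    have h0 : mkE (z₂ 0) ((fun j => (prL z₂).1 j + 0, (prL z₂).2) : P m) = z₂ := by
      have : ((fun j => (prL z₂).1 j + 0, (prL z₂).2) : P m) = prL z₂ := by
        ext j <;> simp
      rw [this, mkE_prL]
    have hopen : IsOpen {y : En (m + 1) | R ^ 2 * aE y < nE (prL y)} :=
      isOpen_lt (continuous_const.mul aE_contDiff.continuous)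
        (nE_continuous.comp prL.continuous)
    have hev : ∀ᶠ τ : ℝ in 𝓝 0, mkE (z₂ 0) ((fun j => (prL z₂).1 j + τ, (prL z₂).2) : P m) ∈
        N ∩ {y : En (m + 1) | R ^ 2 * aE y < nE (prL y)} := by
      have h1 := hcur.tendsto 0
      simp only [h0] at h1
      exact h1 (Filter.inter_mem (hNo.mem_nhds hz₂N) (hopen.mem_nhds hgt))
    obtain ⟨ρ, hρ, hball⟩ := Metric.eventually_nhds_iff_ball.1 hev
    have hfin : ({τ : ℝ | ∃ j, (prL z₂).1 j + τ = 0}).Finite := by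
      have : {τ : ℝ | ∃ j, (prL z₂).1 j + τ = 0} ⊆ Set.range (fun j => -(prL z₂).1 j) := by
        rintro τ ⟨j, hj⟩
        exact ⟨j, by simp only; linarith⟩
      exact (Set.finite_range _).subset this
    have h3 := hfin.countable.dense_compl ℝ
    obtain ⟨τ, hτ1, hτ2⟩ := h3.inter_open_nonempty _ Metric.isOpen_ball
      ⟨0, Metric.mem_ball_self hρ⟩
    obtain ⟨h4, h5⟩ := hball τ hτ1
    set z₃ := mkE (z₂ 0) ((fun j => (prL z₂).1 j + τ, (prL z₂).2) : P m) with hz₃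
    have hz₃0 : z₃ 0 ≠ 0 := hz₂
    refine ⟨z₃, h4, ?_, ?_⟩
    · intro h; rw [h] at hz₃0; exact hz₃0 rfl
    · refine Fam_indep_outer hK hG hvK hvG hz₃0 h5 ?_
      intro j hj
      apply hτ2
      refine ⟨j, ?_⟩
      rw [hz₃, prL_mkE] at hj
      unfold uE at hj
      simp only at hj
      nlinarith [sq_nonneg ((prL z₂).1 j + τ), sq_nonneg ((prL z₂).2 j)]

/-- Openness of the independence set away from the origin. -/
lemma Fam_open {R : ℝ} {K : P m → ℝ} {G : Fin m → P m → ℝ} (hK : ContDiff ℝ ∞ K)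
    (hG : ∀ i, ContDiff ℝ ∞ (G i)) (hvK : Van R K) (hvG : ∀ i, Van R (G i)) :
    IsOpen {z : En (m + 1) | z ≠ 0 ∧ LinearIndependent ℝ (fun i => fderiv ℝ (Fam R K G i) z)} := by
  rw [isOpen_iff_mem_nhds]
  rintro z ⟨hz, hli⟩
  have h1 : ∀ i, ContinuousAt (fun z => fderiv ℝ (Fam R K G i) z) z := by
    intro i
    have : ContDiffAt ℝ ∞ (Fam R K G i) z := by
      refine Fin.cases ?_ (fun j => ?_) i
      · exact FE_contDiffAt hK hvK hz
      · exact FE_contDiffAt (hG j) (hvG j) hz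
    have h2 : ContDiffAt ℝ ∞ (fderiv ℝ (Fam R K G i)) z := this.fderiv_right (by simp)
    exact h2.continuousAt
  have h3 : ContinuousAt (fun z => fun i => fderiv ℝ (Fam R K G i) z) z :=
    continuousAt_pi.2 h1
  have h4 : {L : Fin (m + 1) → (En (m + 1) →L[ℝ] ℝ) | LinearIndependent ℝ L} ∈
      𝓝 (fun i => fderiv ℝ (Fam R K G i) z) :=
    (isOpen_setOfPred_linearIndependent).mem_nhds hli
  have h5 := h3.preimage_mem_nhds h4
  filter_upwards [h5, isOpen_compl_singleton.mem_nhds hz] with y hy1 hy2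
  exact ⟨hy2, hy1⟩

end Pool.Agent.H73
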