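import Mathlib
import Pool.Agent.H73.Glob5

/-!
Global flows of tangent vector fields on the unit sphere.
-/

namespace Pool.Agent.H73

open scoped ContDiff Topology
open Finset Filter

section general

variable {E : Type*} [NormedAddCommGroup E] [NormedSpace ℝ E] [CompleteSpace E]

/-- global integral curves of bounded Lipschitz vector fields -/
lemma exists_global_curve {V : E → E} {K L : NNReal} (hV : LipschitzWith K V)
    (hL : ∀ x, ‖V x‖ ≤ L) (x : E) :
    ∃ γ : ℝ → E, γ 0 = x ∧ ∀ t, HasDerivAt γ (V (γ t)) t := by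
  have hloc : ∀ T : ℝ, 0 < T → ∃ α : ℝ → E, α 0 = x ∧
      ∀ t ∈ Set.Ioo (-T) T, HasDerivAt α (V (α t)) t := by
    intro T hT
    have h0 : (0:ℝ) ∈ Set.Icc (-T) T := ⟨by linarith, hT.le⟩
    have hP : IsPicardLindelof (fun _ : ℝ => V) (⟨0, h0⟩ : Set.Icc (-T) T) x
        (L * ⟨T, hT.le⟩) 0 L K := by
      refine ⟨fun t _ => hV.lipschitzOnWith, fun y _ => continuousOn_const,
        fun t _ y _ => hL y, ?_⟩
      simp
      exact le_refl _
    obtain ⟨α, hα0, hα⟩ := hP.exists_eq_forall_mem_Icc_hasDerivWithinAt₀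
    exact ⟨α, hα0, fun t ht => (hα t (Set.Ioo_subset_Icc_self ht)).hasDerivAt
      (Icc_mem_nhds ht.1 ht.2)⟩
  choose! α hα0 hα using hloc
  have huniq : ∀ T T' : ℝ, 0 < T → T ≤ T' → Set.EqOn (α T) (α T') (Set.Ioo (-T) T) := by
    intro T T' hT hTT
    have hT' : 0 < T' := hT.trans_le hTT
    refine ODE_solution_unique_of_mem_Ioo (v := fun _ => V) (s := fun _ => Set.univ) (K := K)
      (fun t _ => hV.lipschitzOnWith) (t₀ := 0) ⟨by linarith, hT⟩
      (fun t ht => ⟨hα T hT t ht, trivial⟩)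
      (fun t ht => ⟨hα T' hT' t ⟨by linarith [ht.1], by linarith [ht.2]⟩, trivial⟩) ?_
    rw [hα0 T hT, hα0 T' hT']
  refine ⟨fun t => α (|t| + 1) t, ?_, ?_⟩
  · simp only [abs_zero, zero_add]
    exact hα0 1 one_pos
  · intro t
    have hpos : ∀ s : ℝ, 0 < |s| + 1 := fun s => by positivity
    have hmem : ∀ s : ℝ, s ∈ Set.Ioo (-(|s| + 1)) (|s| + 1) := by
      intro s
      have h1 := neg_abs_le s
      have h2 := le_abs_self s
      constructor <;> linarith
    have hev : (fun s => α (|s| + 1) s) =ᶠ[𝓝 t] α (|t| + 2) := by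
      have h1 : ∀ᶠ s : ℝ in 𝓝 t, |s| + 1 < |t| + 2 := by
        have : ContinuousAt (fun s : ℝ => |s| + 1) t := by fun_prop
        exact this.eventually_lt_const (by linarith)
      filter_upwards [h1] with s hs
      exact huniq _ _ (hpos s) hs.le (hmem s)
    have h2 : HasDerivAt (α (|t| + 2)) (V (α (|t| + 2) t)) t := by
      refine hα _ (by positivity) t ?_
      have h1 := neg_abs_le t
      have h2 := le_abs_self t
      constructor <;> linarith
    have h3 := h2.congr_of_eventuallyEq hev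
    have h4 : α (|t| + 2) t = α (|t| + 1) t := hev.self_of_nhds.symm
    rw [h4] at h3
    exact h3

end general

section sphere

set_option linter.unusedSectionVars false

variable {E : Type*} [NormedAddCommGroup E] [InnerProductSpace ℝ E] [FiniteDimensional ℝ E]

/-- radial cut-off, equal to one on the unit sphere -/
noncomputable def rad (z : E) : ℝ :=
  expNegInvGlue ((‖z‖ ^ 2 - 1 / 4) * (4 - ‖z‖ ^ 2)) / expNegInvGlue (9 / 4)

lemma rad_contDiff : ContDiff ℝ ∞ (rad (E := E)) := by
  unfold rad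
  refine ContDiff.div_const ?_ _
  refine expNegInvGlue.contDiff.comp ?_
  have h : ContDiff ℝ ∞ (fun z : E => ‖z‖ ^ 2) := contDiff_norm_sq ℝ
  exact (h.sub contDiff_const).mul (contDiff_const.sub h)

lemma rad_one {z : E} (hz : ‖z‖ = 1) : rad z = 1 := by
  unfold rad
  have h1 : ((1:ℝ) ^ 2 - 1 / 4) * (4 - (1:ℝ) ^ 2) = 9 / 4 := by norm_num
  rw [hz, h1]
  exact div_self (expNegInvGlue.pos_of_pos (by norm_num)).ne'

lemma rad_zero_of_small {z : E} (hz : ‖z‖ < 1 / 2) : rad z = 0 := by
  unfold rad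
  rw [expNegInvGlue.zero_of_nonpos, zero_div]
  have h0 := norm_nonneg z
  have h1 : ‖z‖ ^ 2 < 1 / 4 := by nlinarith
  nlinarith

lemma rad_zero_of_large {z : E} (hz : 2 < ‖z‖) : rad z = 0 := by
  unfold rad
  rw [expNegInvGlue.zero_of_nonpos, zero_div]
  have h1 : 4 < ‖z‖ ^ 2 := by nlinarith
  nlinarith

/-- Flow on the unit sphere of a tangent field. -/
lemma exists_sphere_flow {Y : E → E} (hs : ∀ z, z ≠ 0 → ContDiffAt ℝ 1 Y z)
    (ht : ∀ z, z ≠ 0 → inner ℝ z (Y z) = 0) :
    ∃ φ : ℝ → Metric.sphere (0 : E) 1 → Metric.sphere (0 : E) 1,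
      (∀ z, φ 0 z = z) ∧
      (∀ t z, HasDerivAt (fun s => ((φ s z : Metric.sphere (0 : E) 1) : E)) (Y (φ t z)) t) ∧
      (∀ γ : ℝ → E, (∀ t, ‖γ t‖ = 1) → (∀ t, HasDerivAt γ (Y (γ t)) t) →
        ∀ z : Metric.sphere (0 : E) 1, (z : E) = γ 0 → ∀ t, ((φ t z : Metric.sphere (0 : E) 1) : E) = γ t) := by
  set V : E → E := fun z => rad z • Y z with hV
  have hVs : ContDiff ℝ 1 V := by
    rw [contDiff_iff_contDiffAt]
    intro z
    by_cases hz : z = 0
    · subst hz
      have : V =ᶠ[𝓝 0] fun _ => 0 := by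
        filter_upwards [Metric.ball_mem_nhds (0 : E) (by norm_num : (0:ℝ) < 1 / 2)] with y hy
        rw [hV]
        simp only
        rw [rad_zero_of_small (by simpa using hy), zero_smul]
      exact contDiffAt_const.congr_of_eventuallyEq this
    · exact ((rad_contDiff.of_le (by exact_mod_cast le_top)).contDiffAt).smul (hs z hz)
  have hVc : HasCompactSupport V := by
    refine HasCompactSupport.of_support_subset_isCompact (isCompact_closedBall (0:E) 2) ?_
    intro z hz
    rw [mem_closedBall_zero_iff]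
    by_contra hcon
    push Not at hcon
    apply hz
    rw [hV]
    simp only
    rw [rad_zero_of_large hcon, zero_smul]
  obtain ⟨K, hK⟩ := hVs.lipschitzWith_of_hasCompactSupport hVc (by simp)
  obtain ⟨C, hC⟩ := hVs.continuous.bounded_above_of_compact_support hVc
  have hC0 : 0 ≤ C := (norm_nonneg _).trans (hC 0)
  have hflow := exists_global_curve (V := V) (K := K) (L := ⟨C, hC0⟩) hK hC
  choose Φ hΦ0 hΦ using hflow
  have hVt : ∀ z, inner ℝ z (V z) = 0 := by
    intro z
    by_cases hz : z = 0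
    · subst hz; simp
    · rw [hV]; simp only; rw [inner_smul_right, ht z hz, mul_zero]
  have hnorm : ∀ (z : E) (t : ℝ), ‖Φ z t‖ ^ 2 = ‖z‖ ^ 2 := by
    intro z t
    have h1 : ∀ t, HasDerivAt (fun t => ‖Φ z t‖ ^ 2) 0 t := by
      intro t
      have h2 := (hΦ z t).norm_sq
      rw [hVt, mul_zero] at h2
      exact h2
    have h3 := is_const_of_deriv_eq_zero (fun t => (h1 t).differentiableAt) (fun t => (h1 t).deriv) t 0
    simp only [hΦ0] at h3
    exact h3
  have hsph : ∀ (z : Metric.sphere (0 : E) 1) (t : ℝ), Φ z t ∈ Metric.sphere (0 : E) 1 := by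
    intro z t
    rw [mem_sphere_zero_iff_norm]
    have h1 := hnorm z t
    have h2 : ‖(z : E)‖ = 1 := mem_sphere_zero_iff_norm.1 z.2
    rw [h2] at h1
    have h3 := norm_nonneg (Φ z t)
    nlinarith
  refine ⟨fun t z => ⟨Φ z t, hsph z t⟩, fun z => Subtype.ext (hΦ0 z), ?_, ?_⟩
  · intro t z
    have h1 := hΦ z t
    have h2 : V (Φ z t) = Y (Φ z t) := by
      rw [hV]; simp only
      rw [rad_one (mem_sphere_zero_iff_norm.1 (hsph z t)), one_smul]
    rw [h2] at h1
    exact h1
  · intro γ hγ1 hγ z hz t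
    have h1 : Φ z = γ := by
      refine ODE_solution_unique_univ (v := fun _ => V) (s := fun _ => Set.univ) (K := K) (t₀ := 0)
        (fun t => hK.lipschitzOnWith) (fun t => ⟨hΦ z t, trivial⟩) (fun t => ⟨?_, trivial⟩) ?_
      · have h2 : V (γ t) = Y (γ t) := by
          rw [hV]; simp only
          rw [rad_one (hγ1 t), one_smul]
        rw [h2]; exact hγ t
      · rw [hΦ0, hz]
    simp only
    rw [h1]

end sphere

end Pool.Agent.H73
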