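import Mathlib
import Pool.Agent.H73.Flow

/-!
Reeb vector fields on the sphere and Hamiltonian vector fields on `ℂ^n`.
-/

namespace Pool.Agent.H73

open scoped ContDiff Topology
open Finset Filter

/-- The standard Liouville form `λ₀ = ½ ∑ (x_j dy_j - y_j dx_j)` at `z`, applied to `v`. -/
noncomputable def lam0 {n : ℕ} (z v : En n) : ℝ :=
  (1 / 2) * ∑ j, ((z j).re * (v j).im - (z j).im * (v j).re)

/-- The standard symplectic form `dλ₀ = ∑ dx_j ∧ dy_j`. -/
noncomputable def om0 {n : ℕ} (v w : En n) : ℝ :=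
  ∑ j, ((v j).re * (w j).im - (v j).im * (w j).re)

/-- Euclidean (real) inner product. -/
noncomputable def dotE {n : ℕ} (v w : En n) : ℝ :=
  ∑ j, ((v j).re * (w j).re + (v j).im * (w j).im)

/-- `R` is the Reeb vector at the point `z` of the unit sphere for the contact form
`α = f λ₀` on the unit sphere: it is tangent to the sphere, `α(R) = 1` and
`dα(R, v) = 0` for all `v` tangent to the sphere. -/
def IsReeb {n : ℕ} (f : En n → ℝ) (z R : En n) : Prop :=
  dotE z R = 0 ∧ f z * lam0 z R = 1 ∧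
    ∀ v : En n, dotE z v = 0 →
      fderiv ℝ f z R * lam0 z v - fderiv ℝ f z v * lam0 z R + f z * om0 R v = 0

/-- Hamiltonian vector field on `ℂ^n`. -/
noncomputable def XE {n : ℕ} (H : En n → ℝ) (z : En n) : En n :=
  WithLp.toLp 2 (fun j => (⟨-(fderiv ℝ H z (EuclideanSpace.single j Complex.I)),
    fderiv ℝ H z (EuclideanSpace.single j 1)⟩ : ℂ))

variable {n : ℕ}

@[simp] lemma XE_re (H : En n → ℝ) (z : En n) (j : Fin n) :
    (XE H z j).re = -(fderiv ℝ H z (EuclideanSpace.single j Complex.I)) := rfl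
@[simp] lemma XE_im (H : En n → ℝ) (z : En n) (j : Fin n) :
    (XE H z j).im = fderiv ℝ H z (EuclideanSpace.single j 1) := rfl

lemma clm_En_expand (L : En n →L[ℝ] ℝ) (v : En n) :
    L v = ∑ j, ((v j).re * L (EuclideanSpace.single j 1) +
      (v j).im * L (EuclideanSpace.single j Complex.I)) := by
  have h : v = ∑ j, ((v j).re • EuclideanSpace.single j (1:ℂ) +
      (v j).im • EuclideanSpace.single j Complex.I) := by
    ext i
    simp only [PiLp.toLp_apply, WithLp.ofLp_sum, WithLp.ofLp_add, WithLp.ofLp_smul,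
      Finset.sum_apply, Pi.add_apply, Pi.smul_apply, PiLp.ofLp_single]
    rw [Finset.sum_eq_single i]
    · simp only [Pi.single_eq_same]
      apply Complex.ext <;> simp
    · intro j _ hj
      simp [Pi.single_apply, hj.symm]
    · intro hh; exact absurd (Finset.mem_univ _) hh
  conv_lhs => rw [h]
  rw [map_sum]
  refine Finset.sum_congr rfl fun j _ => ?_
  rw [map_add, map_smul, map_smul, smul_eq_mul, smul_eq_mul]

lemma om0_XE (H : En n → ℝ) (z v : En n) : om0 (XE H z) v = - fderiv ℝ H z v := by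
  rw [clm_En_expand (fderiv ℝ H z) v]
  unfold om0
  rw [← Finset.sum_neg_distrib]
  refine Finset.sum_congr rfl fun j _ => ?_
  simp only [XE_re, XE_im]
  ring

lemma om0_self (v : En n) : om0 v v = 0 := by
  unfold om0
  refine Finset.sum_eq_zero fun j _ => ?_
  ring

lemma om0_eq_lam0 (z v : En n) : om0 z v = 2 * lam0 z v := by
  unfold om0 lam0
  ring

lemma om0_sub_smul (a v w : En n) (c : ℝ) : om0 (a - c • v) w = om0 a w - c * om0 v w := by
  unfold om0
  rw [Finset.mul_sum, ← Finset.sum_sub_distrib]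
  refine Finset.sum_congr rfl fun j _ => ?_
  simp
  ring

lemma lam0_sub_smul (z a v : En n) (c : ℝ) : lam0 z (a - c • v) = lam0 z a - c * lam0 z v := by
  unfold lam0
  rw [← mul_assoc, mul_comm c, mul_assoc, ← mul_sub]
  congr 1
  rw [Finset.mul_sum, ← Finset.sum_sub_distrib]
  refine Finset.sum_congr rfl fun j _ => ?_
  simp
  ring

lemma lam0_self (z : En n) : lam0 z z = 0 := by
  have := om0_eq_lam0 z z
  rw [om0_self] at this
  linarith

lemma lam0_XE {H : En n → ℝ} {z : En n} (he : fderiv ℝ H z z = 2 * H z) :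
    lam0 z (XE H z) = H z := by
  have h1 := clm_En_expand (fderiv ℝ H z) z
  rw [he] at h1
  unfold lam0
  have h2 : ∑ j, ((z j).re * (XE H z j).im - (z j).im * (XE H z j).re) =
      ∑ j, ((z j).re * fderiv ℝ H z (EuclideanSpace.single j 1) +
      (z j).im * fderiv ℝ H z (EuclideanSpace.single j Complex.I)) := by
    refine Finset.sum_congr rfl fun j _ => ?_
    simp only [XE_re, XE_im]
    ring
  rw [h2, ← h1]
  ring

lemma dotE_eq (v w : En n) : dotE v w = inner ℝ v w := by
  rw [PiLp.inner_apply]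
  unfold dotE
  refine Finset.sum_congr rfl fun j _ => ?_
  rw [Complex.inner]
  simp
  ring

/-- the tangential Reeb field -/
noncomputable def YE (H : En n → ℝ) (z : En n) : En n :=
  XE H z - (inner ℝ z (XE H z) / ‖z‖ ^ 2) • z

lemma YE_tangent (H : En n → ℝ) {z : En n} (hz : z ≠ 0) : inner ℝ z (YE H z) = 0 := by
  unfold YE
  rw [inner_sub_right, inner_smul_right, real_inner_self_eq_norm_sq]
  have : ‖z‖ ^ 2 ≠ 0 := by positivity
  field_simp
  ring

lemma YE_isReeb {H : En n → ℝ} {z : En n} (hH : 0 < H z) (hd : DifferentiableAt ℝ H z)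
    (he : fderiv ℝ H z z = 2 * H z) (hz : z ≠ 0) :
    IsReeb (fun z => (H z)⁻¹) z (YE H z) := by
  set c := inner ℝ z (XE H z) / ‖z‖ ^ 2 with hc
  have hY : YE H z = XE H z - c • z := rfl
  have hlam : lam0 z (YE H z) = H z := by
    rw [hY, lam0_sub_smul, lam0_self, lam0_XE he]; ring
  have hDH : fderiv ℝ H z (XE H z) = 0 := by
    have := om0_XE H z (XE H z)
    rw [om0_self] at this
    linarith
  have hDHY : fderiv ℝ H z (YE H z) = -(c * (2 * H z)) := by
    rw [hY, map_sub, map_smul, hDH, he, smul_eq_mul]; ring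
  have hf : fderiv ℝ (fun z => (H z)⁻¹) z = -((H z) ^ 2)⁻¹ • fderiv ℝ H z := by
    have h1 : HasFDerivAt (fun z => (H z)⁻¹) (-((H z) ^ 2)⁻¹ • fderiv ℝ H z) z := by
      have := (hasDerivAt_inv hH.ne').comp_hasFDerivAt z hd.hasFDerivAt
      exact this
    exact h1.fderiv
  refine ⟨?_, ?_, ?_⟩
  · rw [dotE_eq]; exact YE_tangent H hz
  · rw [hlam]; exact inv_mul_cancel₀ hH.ne'
  · intro v _
    have hom : om0 (YE H z) v = - fderiv ℝ H z v - c * (2 * lam0 z v) := by
      rw [hY, om0_sub_smul, om0_XE, om0_eq_lam0]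
    rw [hf, hlam, hom]
    simp only [FunLike.coe_smul, Pi.smul_apply, smul_eq_mul, hDHY]
    have hH' := hH.ne'
    field_simp
    ring

lemma XE_contDiffAt {H : En n → ℝ} {z : En n} (hH : ContDiffAt ℝ ∞ H z) :
    ContDiffAt ℝ 1 (XE H) z := by
  have h1 : ContDiffAt ℝ ∞ (fderiv ℝ H) z := hH.fderiv_right (by simp)
  have h2 : ∀ v, ContDiffAt ℝ 1 (fun z => fderiv ℝ H z v) z := fun v =>
    (h1.of_le (by exact_mod_cast le_top)).clm_apply contDiffAt_const
  have h3 : XE H = fun z => ∑ j, ((-(fderiv ℝ H z (EuclideanSpace.single j Complex.I))) •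
      EuclideanSpace.single j (1:ℂ) + (fderiv ℝ H z (EuclideanSpace.single j 1)) •
      EuclideanSpace.single j Complex.I) := by
    funext z
    ext i
    simp only [PiLp.toLp_apply, WithLp.ofLp_sum, WithLp.ofLp_add, WithLp.ofLp_smul,
      Finset.sum_apply, Pi.add_apply, Pi.smul_apply, PiLp.ofLp_single]
    rw [Finset.sum_eq_single i]
    · simp only [Pi.single_eq_same]
      apply Complex.ext <;> simp
    · intro j _ hj
      simp [Pi.single_apply, hj.symm]
    · intro hh; exact absurd (Finset.mem_univ _) hh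
  rw [h3]
  refine ContDiffAt.sum fun j _ => ?_
  exact ((h2 _).neg.smul contDiffAt_const).add ((h2 _).smul contDiffAt_const)

lemma YE_contDiffAt {H : En n → ℝ} {z : En n} (hH : ContDiffAt ℝ ∞ H z) (hz : z ≠ 0) :
    ContDiffAt ℝ 1 (YE H) z := by
  have h1 := XE_contDiffAt hH
  unfold YE
  have h2 : ContDiffAt ℝ 1 (fun z : En n => inner ℝ z (XE H z)) z :=
    contDiffAt_id.inner ℝ h1
  have h3 : ContDiffAt ℝ 1 (fun z : En n => ‖z‖ ^ 2) z := (contDiff_norm_sq ℝ).contDiffAt
  have h4 : ‖z‖ ^ 2 ≠ 0 := by positivity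
  exact h1.sub ((h2.div h3 h4).smul contDiffAt_id)

/-- homogeneity of the Hamiltonian vector field -/
lemma XE_smul {H : En n → ℝ} (hh : ∀ (t : ℝ) (z : En n), 0 < t → H (t • z) = t ^ 2 * H z)
    (hd : ∀ z, z ≠ 0 → DifferentiableAt ℝ H z) {t : ℝ} (ht : 0 < t) {z : En n} (hz : z ≠ 0) :
    XE H (t • z) = t • XE H z := by
  have hfd : ∀ v, fderiv ℝ H (t • z) v = t * fderiv ℝ H z v := by
    intro v
    have htz : t • z ≠ 0 := smul_ne_zero ht.ne' hz
    have h1 : HasFDerivAt (fun z : En n => t • z) (t • ContinuousLinearMap.id ℝ (En n)) z :=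
      (hasFDerivAt_id z).const_smul t
    have h2 : HasFDerivAt (fun z : En n => H (t • z))
        ((fderiv ℝ H (t • z)).comp (t • ContinuousLinearMap.id ℝ (En n))) z :=
      HasFDerivAt.comp (g := H) z (hd _ htz).hasFDerivAt h1
    have h3 : HasFDerivAt (fun z : En n => H (t • z)) (t ^ 2 • fderiv ℝ H z) z := by
      have h4 : (fun z : En n => H (t • z)) = fun z => t ^ 2 * H z := funext fun z => hh t z ht
      rw [h4]
      exact (hd z hz).hasFDerivAt.const_mul (t ^ 2)
    have h5 := congrArg (fun L : En n →L[ℝ] ℝ => L v) (h2.unique h3)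
    simp only [ContinuousLinearMap.comp_apply, FunLike.coe_smul, Pi.smul_apply,
      ContinuousLinearMap.coe_id', id, map_smul, smul_eq_mul] at h5
    have h6 : t * (fderiv ℝ H (t • z) v - t * fderiv ℝ H z v) = 0 := by linarith
    rcases mul_eq_zero.1 h6 with h | h
    · exact absurd h ht.ne'
    · linarith
  ext j
  apply Complex.ext
  · simp [hfd]
  · simp [hfd]

/-- projecting an integral curve of the Hamiltonian field to the sphere -/
lemma project_curve {H : En n → ℝ} (hh : ∀ (t : ℝ) (z : En n), 0 < t → H (t • z) = t ^ 2 * H z)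
    (hd : ∀ z, z ≠ 0 → DifferentiableAt ℝ H z) {ζ : ℝ → En n} {t : ℝ} (hζ0 : ζ t ≠ 0)
    (hζ : HasDerivAt ζ (XE H (ζ t)) t) :
    HasDerivAt (fun s => (‖ζ s‖)⁻¹ • ζ s) (YE H ((‖ζ t‖)⁻¹ • ζ t)) t := by
  have hN : 0 < ‖ζ t‖ := norm_pos_iff.2 hζ0
  have h1 : HasDerivAt (fun s => ‖ζ s‖) (inner ℝ (ζ t) (XE H (ζ t)) / ‖ζ t‖) t := by
    have h2 : HasDerivAt (fun s => ‖ζ s‖ ^ 2) (2 * inner ℝ (ζ t) (XE H (ζ t))) t := hζ.norm_sq
    have h3 : HasDerivAt (fun s => Real.sqrt (‖ζ s‖ ^ 2))
        (2 * inner ℝ (ζ t) (XE H (ζ t)) / (2 * Real.sqrt (‖ζ t‖ ^ 2))) t := by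
      exact h2.sqrt (by positivity)
    have h4 : (fun s => Real.sqrt (‖ζ s‖ ^ 2)) = fun s => ‖ζ s‖ :=
      funext fun s => Real.sqrt_sq (norm_nonneg _)
    rw [h4, Real.sqrt_sq (norm_nonneg _)] at h3
    refine h3.congr_deriv ?_
    field_simp
  have h5 := (h1.inv hN.ne').smul hζ
  refine h5.congr_deriv ?_
  have hinv : 0 < (‖ζ t‖)⁻¹ := by positivity
  unfold YE
  rw [XE_smul hh hd hinv hζ0, norm_smul, norm_inv, norm_norm, inv_mul_cancel₀ hN.ne']
  simp only [inner_smul_left, inner_smul_right, smul_smul]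
  simp
  rw [sub_eq_add_neg, ← neg_smul]
  congr 2
  field_simp

end Pool.Agent.H73
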