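import Mathlib
import Pool.Agent.H73.Reeb
import Pool.Agent.H73.Dyn
import Pool.Agent.H73.Entropy

/-!
Abstract main theorem: a Sol embedding gives a completely integrable Reeb flow with positive
topological entropy.
-/

namespace Pool.Agent.H73

open scoped ContDiff Topology
open Finset Filter

/-- Complete integrability of the Reeb flow of `f λ₀` on the unit sphere of `ℂ^n`. -/
def CompletelyIntegrable {n : ℕ} (f : En n → ℝ) : Prop :=
  ∃ F : Fin n → En n → ℝ,
    (∃ i₀, ∀ z, z ≠ 0 → F i₀ z = ‖z‖ ^ 2 / f ((‖z‖)⁻¹ • z)) ∧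
    (∀ i, ContDiffOn ℝ ∞ (F i) {0}ᶜ) ∧
    (∀ i (t : ℝ) z, 0 < t → F i (t • z) = t ^ 2 * F i z) ∧
    (∀ i j z, z ≠ 0 → pbE (F i) (F j) z = 0) ∧
    ∃ U : Set (En n), IsOpen U ∧ Dense U ∧ (0 : En n) ∉ U ∧
      ∀ z ∈ U, LinearIndependent ℝ (fun i => fderiv ℝ (F i) z)

/-- `φ` is the flow of the Reeb vector field of `f λ₀` on the unit sphere of `ℂ^n`. -/
def IsReebFlow {n : ℕ} (f : En n → ℝ)
    (φ : ℝ → Metric.sphere (0 : En n) 1 → Metric.sphere (0 : En n) 1) : Prop :=
  (∀ z, φ 0 z = z) ∧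
  ∀ t z, ∃ R : En n, IsReeb f (φ t z) R ∧
    HasDerivAt (fun s => ((φ s z : Metric.sphere (0 : En n) 1) : En n)) R t

variable {m : ℕ}

/-- `mkE` as a linear map -/
noncomputable def mkLin : (ℂ × P m) →ₗ[ℝ] En (m + 1) where
  toFun y := mkE y.1 y.2
  map_add' y y' := by
    ext i
    refine Fin.cases ?_ (fun j => ?_) i
    · simp
    · simp only [mkE_succ, PiLp.add_apply]
      apply Complex.ext <;> simp
  map_smul' c y := by
    ext i
    refine Fin.cases ?_ (fun j => ?_) i
    · simp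
    · simp only [mkE_succ, PiLp.smul_apply, RingHom.id_apply]
      apply Complex.ext <;> simp

/-- `mkE` as a continuous linear map -/
noncomputable def mkL : (ℂ × P m) →L[ℝ] En (m + 1) := LinearMap.toContinuousLinearMap mkLin

lemma mkL_apply (y : ℂ × P m) : mkL y = mkE y.1 y.2 := rfl

lemma XE_inner {R : ℝ} {K : P m → ℝ} (hK : ContDiff ℝ ∞ K) {c : ℂ}
    (hc : c.re ^ 2 + c.im ^ 2 = 1) {x : P m} (hx : nE x < R ^ 2) :
    XE (FE R (1 / 2) (fun _ => 1 / 2) K) (mkE c x) =
      mkE (((1 + 2 * K x - fderiv ℝ K x x : ℝ) : ℂ) * Complex.I * c) (XH K x) := by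
  set z := mkE c x with hz
  set H := FE R (1 / 2) (fun _ => 1 / 2) K with hH
  have haz : aE z = 1 := hc
  have hpz : prL z = x := prL_mkE c x
  have hz0 : z 0 ≠ 0 := by
    intro h
    have h1 := aE_eq_zero.2 h
    rw [haz] at h1
    exact one_ne_zero h1
  have ha : 0 < aE z := by rw [haz]; exact one_pos
  have hin : nE (prL z) < R ^ 2 * aE z := by rw [haz, hpz, mul_one]; exact hx
  have hdir : ∀ ξ, fderiv ℝ H z (mkE 0 ξ) = fderiv ℝ K x ξ := by
    intro ξ
    rw [hH, FE_fderiv_dir hK hz0, (ΦE_inner ha hin).fderiv_eq,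
      fderiv_scaled (hK.differentiable (by simp)), haz, hpz]
    simp
  -- derivative in the zeroth direction
  have hD : DifferentiableAt ℝ (ΦE R (1 / 2) (fun _ => 1 / 2) K) (aE z, prL z) :=
    (ΦE_contDiffAt hK (y := (aE z, prL z)) ha).differentiableAt (by simp)
  have hσ : HasFDerivAt (fun z : En (m + 1) => (aE z, prL z)) ((aE' z).prod prL) z :=
    (aE_hasFDerivAt z).prodMk prL.hasFDerivAt
  have h1 : HasFDerivAt H ((fderiv ℝ (ΦE R (1 / 2) (fun _ => 1 / 2) K) (aE z, prL z)).comp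
      ((aE' z).prod prL)) z := hD.hasFDerivAt.comp z hσ
  set L := fderiv ℝ (ΦE R (1 / 2) (fun _ => 1 / 2) K) (aE z, prL z) with hL
  set κ := L (1, 0) with hκ
  have hs : ∀ (r : ℝ), L (r, 0) = r * κ := by
    intro r
    have : ((r, 0) : ℝ × P m) = r • ((1, 0) : ℝ × P m) := by simp
    rw [this, map_smul, smul_eq_mul]
  have hfd : ∀ v, fderiv ℝ H z v = L (aE' z v, prL v) := by
    intro v
    rw [h1.fderiv]; rfl
  have hHz : H z = 1 / 2 + K x := by
    have := (ΦE_inner (c := 1 / 2) (b := fun _ => 1 / 2) (g := K) ha hin).eq_of_nhds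
    have h2 : H z = ΦE R (1 / 2) (fun _ => 1 / 2) K (aE z, prL z) := rfl
    rw [h2]
    simp only [haz, hpz] at this ⊢
    rw [this]
    simp
  have h2κ : 2 * κ = 1 + 2 * K x - fderiv ℝ K x x := by
    have he : fderiv ℝ H z z = 2 * H z := FE_euler ((FE_contDiffAt_of_ne hK hz0).differentiableAt (by simp))
    have h3 : L (0, x) = fderiv ℝ K x x := by
      have := hfd (mkE 0 x)
      rw [hdir, prL_mkE] at this
      have h4 : aE' z (mkE 0 x) = 0 := by simp [aE']
      rw [h4] at this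
      exact this.symm
    have h5 : aE' z z = 2 := by
      have : aE' z z = 2 * aE z := by simp [aE', aE]; ring
      rw [this, haz]; norm_num
    rw [hfd, h5, hpz] at he
    have h6 : L (2, x) = L (2, 0) + L (0, x) := by rw [← map_add]; simp
    rw [h6, hs, h3, hHz] at he
    linarith
  have hzc : z 0 = c := rfl
  ext i
  refine Fin.cases ?_ (fun j => ?_) i
  · rw [mkE_zero]
    have e1 : prL (EuclideanSpace.single (0 : Fin (m + 1)) (1 : ℂ)) = 0 := by
      ext j <;> simp [Fin.succ_ne_zero]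
    have e2 : prL (EuclideanSpace.single (0 : Fin (m + 1)) Complex.I) = 0 := by
      ext j <;> simp [Fin.succ_ne_zero]
    have e3 : aE' z (EuclideanSpace.single (0 : Fin (m + 1)) (1 : ℂ)) = 2 * c.re := by
      simp [aE', hzc]
    have e4 : aE' z (EuclideanSpace.single (0 : Fin (m + 1)) Complex.I) = 2 * c.im := by
      simp [aE', hzc]
    apply Complex.ext
    · rw [XE_re, hfd, e2, e4, hs, ← h2κ]
      simp
      ring
    · rw [XE_im, hfd, e1, e3, hs, ← h2κ]
      simp
      ring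
  · rw [mkE_succ]
    have e1 : mkE 0 (ex j : P m) = EuclideanSpace.single j.succ (1 : ℂ) := by
      ext i
      refine Fin.cases ?_ (fun l => ?_) i
      · simp [(Fin.succ_ne_zero j).symm]
      · rw [mkE_succ]
        by_cases h : l = j
        · subst h; apply Complex.ext <;> simp [ex]
        · apply Complex.ext <;> simp [ex, h]
    have e2 : mkE 0 (ey j : P m) = EuclideanSpace.single j.succ Complex.I := by
      ext i
      refine Fin.cases ?_ (fun l => ?_) i
      · simp [(Fin.succ_ne_zero j).symm]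
      · rw [mkE_succ]
        by_cases h : l = j
        · subst h; apply Complex.ext <;> simp [ey]
        · apply Complex.ext <;> simp [ey, h]
    apply Complex.ext
    · rw [XE_re, ← e2, hdir]; rfl
    · rw [XE_im, ← e1, hdir]; rfl

/-- lifting an integral curve of `K` to an integral curve of the global Hamiltonian -/
lemma lift_curve {R : ℝ} {K : P m → ℝ} (hK : ContDiff ℝ ∞ K) {w : ℝ → P m}
    (hw : ∀ t, HasDerivAt w (XH K (w t)) t) (hwR : ∀ t, nE (w t) < R ^ 2) :
    ∃ β : ℝ → ℝ, ∀ t, HasDerivAt (fun t => mkE (Complex.exp (β t * Complex.I)) (w t))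
      (XE (FE R (1 / 2) (fun _ => 1 / 2) K) (mkE (Complex.exp (β t * Complex.I)) (w t))) t := by
  set b : ℝ → ℝ := fun t => 1 + 2 * K (w t) - fderiv ℝ K (w t) (w t) with hb
  have hwc : Continuous w := continuous_iff_continuousAt.2 fun t => (hw t).continuousAt
  have hbc : Continuous b := by
    have h1 : Continuous (fun t => K (w t)) := hK.continuous.comp hwc
    have h2 : Continuous (fun t => fderiv ℝ K (w t) (w t)) :=
      ((hK.continuous_fderiv (by simp)).comp hwc).clm_apply hwc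
    exact (continuous_const.add (continuous_const.mul h1)).sub h2
  refine ⟨fun t => ∫ s in (0:ℝ)..t, b s, fun t => ?_⟩
  set β : ℝ → ℝ := fun t => ∫ s in (0:ℝ)..t, b s with hβ
  have hβd : HasDerivAt β (b t) t :=
    intervalIntegral.integral_hasDerivAt_right (hbc.intervalIntegrable _ _)
      (hbc.stronglyMeasurableAtFilter _ _) hbc.continuousAt
  have hexp : HasDerivAt (fun t => Complex.exp (β t * Complex.I))
      (Complex.exp (β t * Complex.I) * ((b t : ℂ) * Complex.I)) t := by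
    have h1 : HasDerivAt (fun t => ((β t : ℝ) : ℂ)) ((b t : ℝ) : ℂ) t := hβd.ofReal_comp
    exact (h1.mul_const Complex.I).cexp
  have hcn : (Complex.exp (β t * Complex.I)).re ^ 2 + (Complex.exp (β t * Complex.I)).im ^ 2 = 1 := by
    rw [Complex.exp_ofReal_mul_I_re, Complex.exp_ofReal_mul_I_im]
    exact Real.cos_sq_add_sin_sq _
  rw [XE_inner hK hcn (hwR t)]
  have h2 : HasDerivAt (fun t => ((Complex.exp (β t * Complex.I), w t) : ℂ × P m))
      (Complex.exp (β t * Complex.I) * ((b t : ℂ) * Complex.I), XH K (w t)) t := hexp.prodMk (hw t)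
  have h3 := (mkL (m := m)).hasFDerivAt.comp_hasDerivAt t h2
  have h4 : (mkL (m := m)) (Complex.exp (β t * Complex.I) * ((b t : ℂ) * Complex.I), XH K (w t)) =
      mkE (((1 + 2 * K (w t) - fderiv ℝ K (w t) (w t) : ℝ) : ℂ) * Complex.I *
        Complex.exp (β t * Complex.I)) (XH K (w t)) := by
    rw [mkL_apply]
    congr 1
    simp only [hb]
    ring
  rw [h4] at h3
  exact h3

/-- distance comparison between the sphere and phase space -/
lemma dist_compare {R : ℝ} {c c' : ℂ} {x x' : P m}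
    (hc : c.re ^ 2 + c.im ^ 2 = 1) (hc' : c'.re ^ 2 + c'.im ^ 2 = 1)
    (hx : nE x < R ^ 2) (hx' : nE x' < R ^ 2) :
    dist x x' ≤ (Real.sqrt (1 + R ^ 2) + (1 + R ^ 2)) *
      dist ((‖mkE c x‖)⁻¹ • mkE c x) ((‖mkE c' x'‖)⁻¹ • mkE c' x') := by
  have hprn : ∀ v : En (m + 1), ‖prL v‖ ≤ ‖v‖ := by
    intro v
    rw [Prod.norm_def]
    refine max_le ?_ ?_
    · rw [pi_norm_le_iff_of_nonneg (norm_nonneg _)]
      intro j
      rw [prL_fst, Real.norm_eq_abs]
      exact (Complex.abs_re_le_norm _).trans (PiLp.norm_apply_le v j.succ)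
    · rw [pi_norm_le_iff_of_nonneg (norm_nonneg _)]
      intro j
      rw [prL_snd, Real.norm_eq_abs]
      exact (Complex.abs_im_le_norm _).trans (PiLp.norm_apply_le v j.succ)
  have hN : ∀ {c : ℂ} {x : P m}, c.re ^ 2 + c.im ^ 2 = 1 → nE x < R ^ 2 →
      1 ≤ ‖mkE c x‖ ∧ ‖mkE c x‖ ≤ Real.sqrt (1 + R ^ 2) := by
    intro c x hc hx
    have h1 : ‖mkE c x‖ ^ 2 = 1 + nE x := by
      rw [norm_sq_eq, prL_mkE, aE_mkE, hc]
    have h2 := nE_nonneg x
    constructor
    · nlinarith [norm_nonneg (mkE c x)]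
    · apply Real.le_sqrt_of_sq_le
      rw [h1]; linarith
  obtain ⟨hN1, hN2⟩ := hN hc hx
  obtain ⟨hN1', hN2'⟩ := hN hc' hx'
  set M := Real.sqrt (1 + R ^ 2) with hM
  set N := ‖mkE c x‖ with hNd
  set N' := ‖mkE c' x'‖ with hNd'
  set u := N⁻¹ • mkE c x with hu
  set u' := N'⁻¹ • mkE c' x' with hu'
  have hNpos : 0 < N := by linarith
  have hNpos' : 0 < N' := by linarith
  have hxu : x = N • prL u := by
    rw [hu, map_smul, prL_mkE, smul_smul, mul_inv_cancel₀ hNpos.ne', one_smul]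
  have hxu' : x' = N' • prL u' := by
    rw [hu', map_smul, prL_mkE, smul_smul, mul_inv_cancel₀ hNpos'.ne', one_smul]
  have hcn : ‖c‖ = 1 := by
    have : ‖c‖ ^ 2 = 1 := by rw [Complex.sq_norm, Complex.normSq_apply]; linarith
    nlinarith [norm_nonneg c]
  have hcn' : ‖c'‖ = 1 := by
    have : ‖c'‖ ^ 2 = 1 := by rw [Complex.sq_norm, Complex.normSq_apply]; linarith
    nlinarith [norm_nonneg c']
  have hu0 : ‖u 0‖ = N⁻¹ := by
    have : u 0 = (N⁻¹ : ℝ) • c := rfl
    rw [this, norm_smul, hcn, mul_one, Real.norm_eq_abs, abs_of_pos (by positivity)]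
  have hu0' : ‖u' 0‖ = N'⁻¹ := by
    have : u' 0 = (N'⁻¹ : ℝ) • c' := rfl
    rw [this, norm_smul, hcn', mul_one, Real.norm_eq_abs, abs_of_pos (by positivity)]
  have hd0 : |N⁻¹ - N'⁻¹| ≤ dist u u' := by
    rw [← hu0, ← hu0']
    refine (abs_norm_sub_norm_le _ _).trans ?_
    have : u 0 - u' 0 = (u - u') 0 := rfl
    rw [this, dist_eq_norm]
    exact PiLp.norm_apply_le _ _
  have hNN : |N - N'| ≤ M ^ 2 * dist u u' := by
    have h1 : N - N' = -(N * N' * (N⁻¹ - N'⁻¹)) := by field_simp; ring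
    rw [h1, abs_neg, abs_mul, abs_mul, abs_of_pos hNpos, abs_of_pos hNpos']
    have h2 : N * N' ≤ M * M := mul_le_mul hN2 hN2' hNpos'.le (by linarith)
    calc N * N' * |N⁻¹ - N'⁻¹| ≤ (M * M) * dist u u' :=
          mul_le_mul h2 hd0 (abs_nonneg _) (by nlinarith)
      _ = M ^ 2 * dist u u' := by ring
  have hM2 : M ^ 2 = 1 + R ^ 2 := Real.sq_sqrt (by positivity)
  have hu1' : ‖u'‖ = 1 := by
    rw [hu', norm_smul, Real.norm_eq_abs, abs_of_pos (by positivity : 0 < N'⁻¹), ← hNd',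
      inv_mul_cancel₀ hNpos'.ne']
  have hdx : x - x' = N • prL (u - u') + (N - N') • prL u' := by
    conv_lhs => rw [hxu, hxu']
    rw [map_sub, smul_sub, sub_smul]
    abel
  rw [dist_eq_norm, hdx]
  refine (norm_add_le _ _).trans ?_
  rw [norm_smul, norm_smul, Real.norm_eq_abs, Real.norm_eq_abs, abs_of_pos hNpos]
  have h1 : N * ‖prL (u - u')‖ ≤ M * dist u u' := by
    rw [dist_eq_norm]
    exact mul_le_mul hN2 (hprn _) (norm_nonneg _) (by linarith)
  have h2 : |N - N'| * ‖prL u'‖ ≤ (M ^ 2 * dist u u') * 1 := by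
    refine mul_le_mul hNN ?_ (norm_nonneg _) (by positivity)
    exact (hprn u').trans hu1'.le
  rw [hM2] at h2
  linarith

end Pool.Agent.H73
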