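import Mathlib
import Pool.Agent.H73.Main

/-!
Abstract main theorem.
-/

namespace Pool.Agent.H73

open scoped ContDiff Topology
open Finset Filter

variable {k : ℕ}

/-- no short lattice vectors in the expanding direction -/
def LatDisc (Γ : AddSubgroup (ℝ × ℝ)) : Prop :=
  ∃ c₀ > 0, ∀ τ : ℝ, 0 < τ → τ ≤ c₀ → ((0 : ℝ), τ) ∉ Γ

/-- separation along the expanding curve -/
lemma curve_separation {μ ε : ℝ} {Γ : AddSubgroup (ℝ × ℝ)} {Ψ : V (k + 3) → V (k + 3)}
    (T : Tube μ Γ Ψ ε) (hμ : 0 < μ) (hc : LatCocompact Γ) (hd : LatDisc Γ) (p₀ : ℝ) :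
    ∃ c₀ > 0, ∃ ε₁ > 0, ∀ v v' : ℝ, c₀ * Real.exp (-μ) ≤ |v - v'| → |v - v'| ≤ c₀ →
      ε₁ ≤ dist (Wf Ψ p₀ 0 v 0) (Wf Ψ p₀ 0 v' 0) := by
  obtain ⟨c₀, hc₀, hdis⟩ := hd
  obtain ⟨R, hR⟩ := hc
  have hWc := Wf_continuous T p₀
  set Kc : Set (ℝ × ℝ × ℝ) := Set.Icc (-R) R ×ˢ Set.Icc (-R) R ×ˢ
    Set.Icc (c₀ * Real.exp (-μ)) c₀ with hKc
  have hKcomp : IsCompact Kc := isCompact_Icc.prod (isCompact_Icc.prod isCompact_Icc)
  set F : ℝ × ℝ × ℝ → ℝ := fun y => dist (Wf Ψ p₀ y.1 y.2.1 0) (Wf Ψ p₀ y.1 (y.2.1 + y.2.2) 0) with hF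
  have hFc : Continuous F := by
    have h1 : Continuous (fun y : ℝ × ℝ × ℝ => Wf Ψ p₀ y.1 y.2.1 0) :=
      hWc.comp (by fun_prop : Continuous fun y : ℝ × ℝ × ℝ => ((y.1, y.2.1, 0) : ℝ × ℝ × ℝ))
    have h2 : Continuous (fun y : ℝ × ℝ × ℝ => Wf Ψ p₀ y.1 (y.2.1 + y.2.2) 0) :=
      hWc.comp (by fun_prop : Continuous fun y : ℝ × ℝ × ℝ => ((y.1, y.2.1 + y.2.2, 0) : ℝ × ℝ × ℝ))
    exact h1.dist h2
  have hpos : ∀ y ∈ Kc, 0 < F y := by
    intro y hy
    rw [hF]
    simp only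
    rw [dist_pos]
    intro heq
    have h1 := Wf_inj T heq
    simp only [sub_self, add_sub_cancel_left] at h1
    have h2 := hy.2.2
    refine hdis y.2.2 ?_ h2.2 h1
    exact lt_of_lt_of_le (by positivity) h2.1
  obtain ⟨ε₁, hε₁, hmin⟩ : ∃ ε₁ > 0, ∀ y ∈ Kc, ε₁ ≤ F y := by
    by_cases hne : Kc.Nonempty
    · obtain ⟨y₀, hy₀, hy₀'⟩ := hKcomp.exists_isMinOn hne hFc.continuousOn
      exact ⟨F y₀, hpos y₀ hy₀, fun y hy => hy₀' hy⟩
    · exact ⟨1, one_pos, fun y hy => absurd ⟨y, hy⟩ hne⟩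
  refine ⟨c₀, hc₀, ε₁, hε₁, ?_⟩
  -- ordered version
  have key : ∀ v τ : ℝ, c₀ * Real.exp (-μ) ≤ τ → τ ≤ c₀ →
      ε₁ ≤ dist (Wf Ψ p₀ 0 v 0) (Wf Ψ p₀ 0 (v + τ) 0) := by
    intro v τ h1 h2
    obtain ⟨a, ha, ha1, ha2⟩ := hR (0, v)
    have e1 := Wf_act T p₀ 0 ha 0 v 0
    have e2 := Wf_act T p₀ 0 ha 0 (v + τ) 0
    simp only [Int.cast_zero, mul_zero, Real.exp_zero, neg_zero, one_mul, zero_add, add_zero] at e1 e2
    rw [← e1, ← e2]
    have h3 := hmin (a.1, v + a.2, τ) ⟨?_, ?_, ?_⟩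
    · rw [hF] at h3
      simp only at h3
      have e3 : v + a.2 + τ = v + τ + a.2 := by ring
      rw [e3] at h3
      exact h3
    · simp only [zero_add] at ha1
      exact abs_le.1 ha1
    · exact abs_le.1 ha2
    · exact ⟨h1, h2⟩
  intro v v' h1 h2
  rcases le_total v v' with hle | hle
  · have e : |v - v'| = v' - v := by rw [abs_sub_comm]; exact abs_of_nonneg (by linarith)
    rw [e] at h1 h2
    have := key v (v' - v) h1 h2
    rwa [add_sub_cancel] at this
  · have e : |v - v'| = v - v' := abs_of_nonneg (by linarith)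
    rw [e] at h1 h2
    have := key v' (v - v') h1 h2
    rw [add_sub_cancel, dist_comm] at this
    exact this

theorem main_abstract {μ : ℝ} (hμ : 0 < μ) {Γ : AddSubgroup (ℝ × ℝ)} (hΓ : LatInv μ Γ)
    (hc : LatCocompact Γ) (hd : LatDisc Γ) {Ψ : V (k + 3) → V (k + 3)} (hE : SolEmb μ Γ Ψ) :
    ∃ f : En (k + 3 + 1) → ℝ, (∀ z, z ≠ 0 → 0 < f z) ∧ ContDiffOn ℝ ∞ f {0}ᶜ ∧
      CompletelyIntegrable f ∧
      ∃ φ : ℝ → Metric.sphere (0 : En (k + 3 + 1)) 1 → Metric.sphere (0 : En (k + 3 + 1)) 1,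
        IsReebFlow f φ ∧ 0 < Dynamics.coverEntropy (φ 1) Set.univ := by
  obtain ⟨ε, hε, himm, hinj⟩ := hE.tube hΓ hc
  have T : Tube μ Γ Ψ ε := ⟨hE, hε, himm, hinj⟩
  have hB := solF_block T hc hμ
  obtain ⟨R, r₀, G, hR, hr₀, hGs, hG0, hGU, hGv, hUR, hGc, hgGc, D, hD, hDA, hDi⟩ := exists_extend hB
  set K := solK μ ε Ψ with hK
  set cst : ℝ := (solSpeed ((ε / 2) ^ 2) (ε / 4) k)⁻¹ with hcst
  have hδ : (0:ℝ) < (ε / 2) ^ 2 := by positivity
  have hpδ : (ε / 4) ^ 2 < (ε / 2) ^ 2 := by nlinarith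
  have hcpos : 0 < cst := inv_pos.2 (solSpeed_pos hδ hpδ (by positivity))
  have hKs : ContDiff ℝ ∞ K := solK_contDiff T hc hμ
  have hK0 : ∀ x, 0 ≤ K x := fun x => mul_nonneg hcpos.le (hB.nonneg 2 x)
  have hKd : ∀ x, fderiv ℝ K x = cst • fderiv ℝ (solF μ ε Ψ 2) x := fun x =>
    fderiv_const_mul ((hB.smooth 2).differentiable (by simp) x) cst
  have hKv : Van R K := by
    intro x hx
    have : x ∉ solU μ ε Ψ := fun h => absurd (hUR x h) (not_lt.2 hx)
    rw [hK]
    unfold solK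
    rw [hB.zero 2 x this, mul_zero]
  have hGv' : ∀ i, Van R (G i) := fun i x hx => hGv i x hx
  have hKG : ∀ j x, pb K (G j) x = 0 := by
    intro j x
    unfold pb
    rw [hKd, bk_smul_left]
    have := hgGc 2 j x
    unfold pb at this
    rw [this, mul_zero]
  set H := FE R (1 / 2) (fun _ => 1 / 2) K with hH
  have hHpos : ∀ z, z ≠ 0 → 0 < H z := fun z hz => H_pos hK0 hz
  have hHs : ∀ z, z ≠ 0 → ContDiffAt ℝ ∞ H z := fun z hz => FE_contDiffAt hKs hKv hz
  have hHh : ∀ (t : ℝ) (z : En (k + 3 + 1)), 0 < t → H (t • z) = t ^ 2 * H z :=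
    fun t z ht => FE_smul ht z
  set f : En (k + 3 + 1) → ℝ := fun z => (H z)⁻¹ with hf
  refine ⟨f, fun z hz => inv_pos.2 (hHpos z hz), ?_, ?_, ?_⟩
  · intro z hz
    exact ((hHs z hz).inv (hHpos z hz).ne').contDiffWithinAt
  · -- integrability
    refine ⟨Fam R K G, ⟨0, fun z hz => ?_⟩, fun i => ?_, fun i t z ht => ?_, fun i j z hz => ?_,
      {z | z ≠ 0 ∧ LinearIndependent ℝ (fun i => fderiv ℝ (Fam R K G i) z)},
      Fam_open hKs hGs hKv hGv', ?_, fun h => h.1 rfl, fun z hz => hz.2⟩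
    · rw [Fam_zero, hf]
      simp only
      rw [← hH, div_inv_eq_mul, hHh _ _ (by positivity), ← mul_assoc, ← mul_pow,
        mul_inv_cancel₀ (norm_ne_zero_iff.2 hz), one_pow, one_mul]
    · intro z hz
      refine Fin.cases ?_ (fun j => ?_) i
      · exact (hHs z hz).contDiffWithinAt
      · exact (FE_contDiffAt (hGs j) (hGv' j) hz).contDiffWithinAt
    · refine Fin.cases ?_ (fun j => ?_) i
      · exact hHh t z ht
      · exact FE_smul ht z
    · have hb1 : ∀ j : Fin (k + 3), (0:ℝ) ≤ (fun _ => 1 / 2 : Fin (k + 3) → ℝ) j := fun j => by norm_num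
      have hb2 : ∀ i j : Fin (k + 3), (0:ℝ) ≤ (Pi.single i (1:ℝ) : Fin (k + 3) → ℝ) j := by
        intro i j
        by_cases h : j = i
        · subst h; simp
        · simp [h]
      refine Fin.cases ?_ (fun i => ?_) i
      · refine Fin.cases ?_ (fun j => ?_) j
        · exact FE_comm hKs hKs hb1 hb1 hK0 hK0 hKv hKv (fun x => pb_self _ _) hz
        · exact FE_comm hKs (hGs j) hb1 (hb2 j) hK0 (hG0 j) hKv (hGv' j) (hKG j) hz
      · refine Fin.cases ?_ (fun j => ?_) j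
        · exact FE_comm (hGs i) hKs (hb2 i) hb1 (hG0 i) hK0 (hGv' i) hKv
            (fun x => by rw [pb_antisymm, hKG, neg_zero]) hz
        · exact FE_comm (hGs i) (hGs j) (hb2 i) (hb2 j) (hG0 i) (hG0 j) (hGv' i) (hGv' j)
            (hGc i j) hz
    · refine Fam_dense hR hKs hGs hKv hGv' 2 hD hDA ?_
      intro x hx
      obtain ⟨h1, h2⟩ := hDi x hx
      refine ⟨h1, ?_⟩
      rcases h2 2 with ⟨h3, h4⟩ | ⟨h3, h4⟩
      · refine ⟨0, ?_, ?_⟩
        · rw [hK]; unfold solK; rw [h3]; ring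
        · rw [hKd, h4]; simp
      · refine ⟨cst / r₀, ?_, ?_⟩
        · rw [hK]; unfold solK
          rw [h3, ← hcst]
          field_simp
        · rw [hKd, h4, smul_smul]
          congr 1
          field_simp
  · -- dynamics
    obtain ⟨φ, hφ0, hφd, hφu⟩ := exists_sphere_flow (E := En (k + 3 + 1)) (Y := YE H)
      (fun z hz => YE_contDiffAt (hHs z hz) hz) (fun z hz => YE_tangent H hz)
    refine ⟨φ, ⟨hφ0, fun t z => ⟨_, ?_, hφd t z⟩⟩, ?_⟩
    · have hz0 : ((φ t z : Metric.sphere (0 : En (k + 3 + 1)) 1) : En (k + 3 + 1)) ≠ 0 := by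
        intro h
        have := mem_sphere_zero_iff_norm.1 (φ t z).2
        rw [h] at this; simp at this
      exact YE_isReeb (hHpos _ hz0) ((hHs _ hz0).differentiableAt (by simp))
        (FE_euler ((hHs _ hz0).differentiableAt (by simp))) hz0
    · -- entropy
      obtain ⟨c₀, hc₀, ε₁, hε₁, hsep⟩ := curve_separation T hμ hc hd (ε / 4)
      -- the curves
      have hWU : ∀ v t : ℝ, nE (Wf Ψ (ε / 4) 0 v t) < R ^ 2 := by
        intro v t
        apply hUR
        rw [mem_solU T hμ]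
        refine ⟨qc (k := k) 0 v t, qc_tub hε _ _ _, rfl, ?_⟩
        have hpTY : pT Ψ (qc k 0 v t) (Yof Ψ (qc k 0 v t) (Pi.single 2 (ε / 4))) =
            Pi.single 2 (ε / 4) := pT_Yof (himm _ (qc_tub hε _ _ _)) _
        have : (Wf Ψ (ε / 4) 0 v t).2 = Yof Ψ (qc k 0 v t) (Pi.single 2 (ε / 4)) := rfl
        rw [this, hpTY]
        exact onM_cutdom hδ hpδ ⟨rfl, fun j h0 h1 h2 => qc_core _ _ _ j h0 h1 h2⟩
      have hβ : ∀ v : ℝ, ∃ β : ℝ → ℝ, ∀ t, HasDerivAt
          (fun t => mkE (Complex.exp (β t * Complex.I)) (Wf Ψ (ε / 4) 0 v t))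
          (XE H (mkE (Complex.exp (β t * Complex.I)) (Wf Ψ (ε / 4) 0 v t))) t := fun v =>
        lift_curve hKs (fun t => Wf_hasDerivAt T hc hμ 0 v t) (fun t => hWU v t)
      choose β hβ using hβ
      set ζ : ℝ → ℝ → En (k + 3 + 1) := fun v t =>
        mkE (Complex.exp (β v t * Complex.I)) (Wf Ψ (ε / 4) 0 v t) with hζ
      have hcn : ∀ v t, (Complex.exp (β v t * Complex.I)).re ^ 2 +
          (Complex.exp (β v t * Complex.I)).im ^ 2 = 1 := by
        intro v t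
        rw [Complex.exp_ofReal_mul_I_re, Complex.exp_ofReal_mul_I_im]
        exact Real.cos_sq_add_sin_sq _
      have hζ0 : ∀ v t, ζ v t ≠ 0 := by
        intro v t h
        have h1 : (ζ v t) 0 = 0 := by rw [h]; rfl
        have h2 : (ζ v t) 0 = Complex.exp (β v t * Complex.I) := rfl
        rw [h2] at h1
        exact Complex.exp_ne_zero _ h1
      set u : ℝ → ℝ → En (k + 3 + 1) := fun v t => (‖ζ v t‖)⁻¹ • ζ v t with hu
      have hun : ∀ v t, ‖u v t‖ = 1 := by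
        intro v t
        rw [hu]
        simp only
        rw [norm_smul, norm_inv, norm_norm, inv_mul_cancel₀ (norm_ne_zero_iff.2 (hζ0 v t))]
      have hud : ∀ v t, HasDerivAt (u v) (YE H (u v t)) t := by
        intro v t
        exact project_curve hHh (fun z hz => (hHs z hz).differentiableAt (by simp)) (hζ0 v t)
          (hβ v t)
      let us : ℝ → ℝ → Metric.sphere (0 : En (k + 3 + 1)) 1 := fun v t =>
        ⟨u v t, mem_sphere_zero_iff_norm.2 (hun v t)⟩
      have hiter : ∀ v (j : ℕ), (φ 1)^[j] (us v 0) = us v j := by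
        intro v j
        induction j with
        | zero => simp
        | succ j ih =>
          rw [Function.iterate_succ_apply', ih]
          apply Subtype.ext
          have h1 := hφu (fun t => u v (t + j)) (fun t => hun v _)
            (fun t => by
              have h2 := (hud v (t + j)).scomp t ((hasDerivAt_id t).add_const (j : ℝ))
              simpa [Function.comp_def] using h2) (us v j) (by simp [us]) 1
          rw [h1]
          simp only [us]
          congr 1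
          push_cast; ring
      have hωe : ∀ (v : ℝ) (j : ℕ), Wf Ψ (ε / 4) 0 v j = Wf Ψ (ε / 4) 0 (Real.exp (μ * j) * v) 0 := by
        intro v j
        have h1 := Wf_act T (ε / 4) (j : ℤ) Γ.zero_mem 0 (Real.exp (μ * j) * v) 0
        rw [← h1]
        congr 1
        · simp
        · simp only [Int.cast_natCast, Prod.snd_zero, add_zero]
          rw [← mul_assoc, ← Real.exp_add]
          simp
        · simp
      refine entropy_pos_of_expanding (x := fun v => us v 0) hμ hc₀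
        (ε₂ := ε₁ / (Real.sqrt (1 + R ^ 2) + (1 + R ^ 2))) (by positivity) ?_
      intro v v' j h1 h2
      rw [hiter, hiter]
      have h3 : |Real.exp (μ * j) * v - Real.exp (μ * j) * v'| = Real.exp (μ * j) * |v - v'| := by
        rw [← mul_sub, abs_mul, abs_of_pos (Real.exp_pos _)]
      have h4 := hsep (Real.exp (μ * j) * v) (Real.exp (μ * j) * v') (by rw [h3]; exact h1)
        (by rw [h3]; exact h2)
      rw [← hωe, ← hωe] at h4
      have h5 := dist_compare (hcn v j) (hcn v' j) (hWU v j) (hWU v' j)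
      rw [div_le_iff₀ (by positivity)]
      have h6 : dist (us v j) (us v' j) = dist (u v j) (u v' j) := rfl
      rw [h6, mul_comm]
      exact h4.trans h5

end Pool.Agent.H73
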