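import Mathlib
import Pool.Agent.H73.Main2

/-!
The lattice and the constants for the explicit Sol embedding.
-/

namespace Pool.Agent.H73

open scoped ContDiff Topology
open Finset Filter

noncomputable def cA : ℝ := 1 - √2
noncomputable def cB : ℝ := 1 + √2

lemma sqrt2_sq : √2 * √2 = (2:ℝ) := Real.mul_self_sqrt (by norm_num)

lemma sqrt2_gt : (1:ℝ) < √2 := by
  rw [show (1:ℝ) = √1 by simp]
  exact Real.sqrt_lt_sqrt (by norm_num) (by norm_num)

lemma cA_sq : cA ^ 2 = 2 * cA + 1 := by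
  unfold cA; nlinarith [sqrt2_sq]
lemma cB_sq : cB ^ 2 = 2 * cB + 1 := by
  unfold cB; nlinarith [sqrt2_sq]
lemma cB_pos : 0 < cB := by unfold cB; positivity
lemma cA_neg : cA < 0 := by
  unfold cA
  have := sqrt2_gt
  linarith
lemma cA_ne : cA ≠ 0 := cA_neg.ne
lemma cB_ne : cB ≠ 0 := cB_pos.ne'

/-- the expansion exponent -/
noncomputable def mu0 : ℝ := Real.log (3 + 2 * √2)

lemma mu0_pos : 0 < mu0 := by
  apply Real.log_pos
  have := Real.sqrt_nonneg 2
  linarith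

lemma exp_mu0 : Real.exp mu0 = cB ^ (2:ℤ) := by
  unfold mu0
  rw [Real.exp_log (by positivity)]
  have : cB ^ (2:ℤ) = cB ^ 2 := by norm_cast
  rw [this]
  unfold cB
  nlinarith [sqrt2_sq]

lemma cAB : cA * cB = -1 := by unfold cA cB; nlinarith [sqrt2_sq]

lemma exp_mu0_l (l : ℤ) : Real.exp (mu0 * l) = cB ^ (2 * l) := by
  rw [Real.exp_mul, Real.rpow_intCast, exp_mu0, ← zpow_mul]

lemma cAB_zpow (n : ℤ) (hn : Even n) : cA ^ n * cB ^ n = 1 := by
  rw [← mul_zpow, cAB, hn.neg_one_zpow]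

lemma exp_neg_mu0_l (l : ℤ) : Real.exp (-(mu0 * l)) = cB ^ (-(2 * l)) := by
  rw [Real.exp_neg, exp_mu0_l, zpow_neg]

lemma cA_pow_l (l : ℤ) : cA ^ (2 * l) * Real.exp (mu0 * l) = 1 := by
  rw [exp_mu0_l]
  exact cAB_zpow _ (even_two_mul l)

lemma cB_pow_l (l : ℤ) : cB ^ (2 * l) * Real.exp (-(mu0 * l)) = 1 := by
  rw [Real.exp_neg, exp_mu0_l]
  exact mul_inv_cancel₀ (zpow_ne_zero _ cB_ne)

/-- the angle functions, without the factor -/
noncomputable def lin (n : ℤ) (a : ℝ × ℝ) : ℝ := cA ^ n * a.1 + cB ^ n * a.2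

lemma lin_rec (n : ℤ) (a : ℝ × ℝ) : lin (n + 2) a = 2 * lin (n + 1) a + lin n a := by
  unfold lin
  rw [zpow_add₀ cA_ne, zpow_add₀ cA_ne, zpow_add₀ cB_ne, zpow_add₀ cB_ne]
  have h1 : cA ^ (2:ℤ) = 2 * cA + 1 := by
    have : cA ^ (2:ℤ) = cA ^ 2 := by norm_cast
    rw [this]; exact cA_sq
  have h2 : cB ^ (2:ℤ) = 2 * cB + 1 := by
    have : cB ^ (2:ℤ) = cB ^ 2 := by norm_cast
    rw [this]; exact cB_sq
  rw [h1, h2, zpow_one, zpow_one]
  ring

lemma lin_add (n : ℤ) (a b : ℝ × ℝ) : lin n (a + b) = lin n a + lin n b := by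
  unfold lin; simp only [Prod.fst_add, Prod.snd_add]; ring
lemma lin_neg (n : ℤ) (a : ℝ × ℝ) : lin n (-a) = - lin n a := by
  unfold lin; simp only [Prod.fst_neg, Prod.snd_neg]; ring

lemma lin_act (n l : ℤ) (a : ℝ × ℝ) :
    lin (n + 2 * l) (Real.exp (mu0 * l) * a.1, Real.exp (-(mu0 * l)) * a.2) = lin n a := by
  unfold lin
  simp only
  rw [zpow_add₀ cA_ne, zpow_add₀ cB_ne]
  have h1 := cA_pow_l l
  have h2 := cB_pow_l l
  calc cA ^ n * cA ^ (2 * l) * (Real.exp (mu0 * l) * a.1) +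
      cB ^ n * cB ^ (2 * l) * (Real.exp (-(mu0 * l)) * a.2)
      = cA ^ n * (cA ^ (2 * l) * Real.exp (mu0 * l)) * a.1 +
        cB ^ n * (cB ^ (2 * l) * Real.exp (-(mu0 * l))) * a.2 := by ring
    _ = _ := by rw [h1, h2]; ring

/-- being an integer -/
def IsI (x : ℝ) : Prop := ∃ m : ℤ, x = m

lemma IsI.add {x y : ℝ} (hx : IsI x) (hy : IsI y) : IsI (x + y) := by
  obtain ⟨m, rfl⟩ := hx
  obtain ⟨n, rfl⟩ := hy
  exact ⟨m + n, by push_cast; ring⟩
lemma IsI.neg {x : ℝ} (hx : IsI x) : IsI (-x) := by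
  obtain ⟨m, rfl⟩ := hx
  exact ⟨-m, by push_cast; ring⟩
lemma IsI.zero : IsI 0 := ⟨0, by simp⟩
lemma IsI.two {x : ℝ} (hx : IsI x) : IsI (2 * x) := by
  obtain ⟨m, rfl⟩ := hx
  exact ⟨2 * m, by push_cast; ring⟩

def PP (n : ℤ) (a : ℝ × ℝ) : Prop := IsI (lin n a) ∧ IsI (lin (n + 1) a)

lemma PP_succ {n : ℤ} {a : ℝ × ℝ} : PP n a ↔ PP (n + 1) a := by
  constructor
  · rintro ⟨h1, h2⟩
    refine ⟨h2, ?_⟩
    rw [show n + 1 + 1 = n + 2 by ring, lin_rec]
    exact h2.two.add h1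
  · rintro ⟨h1, h2⟩
    refine ⟨?_, h1⟩
    rw [show n + 1 + 1 = n + 2 by ring] at h2
    have := lin_rec n a
    have e : lin n a = lin (n + 2) a + -(2 * lin (n + 1) a) := by linarith
    rw [e]
    exact h2.add h1.two.neg

lemma PP_all {a : ℝ × ℝ} (m n : ℤ) (h : PP m a) : PP n a := by
  have up : ∀ (j : ℕ) (m : ℤ), PP m a → PP (m + j) a := by
    intro j
    induction j with
    | zero => intro m h; simpa using h
    | succ j ih =>
      intro m h
      have := PP_succ.1 (ih m h)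
      rw [show m + (j:ℤ) + 1 = m + ((j + 1 : ℕ) : ℤ) by push_cast; ring] at this
      exact this
  have down : ∀ (j : ℕ) (m : ℤ), PP m a → PP (m - j) a := by
    intro j
    induction j with
    | zero => intro m h; simpa using h
    | succ j ih =>
      intro m h
      refine PP_succ.2 ?_
      rw [show m - ((j + 1 : ℕ) : ℤ) + 1 = m - j by push_cast; ring]
      exact ih m h
  rcases le_total m n with hmn | hmn
  · obtain ⟨j, hj⟩ := Int.le.dest hmn
    rw [← hj]; exact up j m h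
  · obtain ⟨j, hj⟩ := Int.le.dest hmn
    have : n = m - j := by omega
    rw [this]; exact down j m h

/-- the lattice -/
noncomputable def Gam : AddSubgroup (ℝ × ℝ) where
  carrier := {a | PP 0 a}
  zero_mem' := by
    refine ⟨?_, ?_⟩ <;> · unfold lin; simpa using IsI.zero
  add_mem' := by
    rintro a b ⟨h1, h2⟩ ⟨h3, h4⟩
    refine ⟨?_, ?_⟩
    · rw [lin_add]; exact h1.add h3
    · rw [lin_add]; exact h2.add h4
  neg_mem' := by
    rintro a ⟨h1, h2⟩
    refine ⟨?_, ?_⟩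
    · rw [lin_neg]; exact h1.neg
    · rw [lin_neg]; exact h2.neg

lemma mem_Gam {a : ℝ × ℝ} (n : ℤ) : a ∈ Gam ↔ PP n a :=
  ⟨fun h => PP_all 0 n h, fun h => PP_all n 0 h⟩

lemma Gam_inv : LatInv mu0 Gam := by
  intro l a ha
  rw [mem_Gam (0 + 2 * l)]
  have h := (mem_Gam 0).1 ha
  refine ⟨?_, ?_⟩
  · rw [lin_act]; exact h.1
  · rw [show (0:ℤ) + 2 * l + 1 = (0 + 1) + 2 * l by ring, lin_act]; exact h.2

lemma lin_zero (a : ℝ × ℝ) : lin 0 a = a.1 + a.2 := by unfold lin; simp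
lemma lin_one (a : ℝ × ℝ) : lin 1 a = cA * a.1 + cB * a.2 := by unfold lin; simp

lemma Gam_cocompact : LatCocompact Gam := by
  refine ⟨2, ?_⟩
  intro x
  -- subtract the integer parts
  set X := lin 0 x with hX
  set Y := lin 1 x with hY
  set m : ℤ := ⌊X⌋ with hm
  set n : ℤ := ⌊Y⌋ with hn
  -- the lattice vector with lin 0 = -m, lin 1 = -n
  set a : ℝ × ℝ := (-(((m:ℝ) + ((m:ℝ) - n) / √2) / 2), -(((m:ℝ) - ((m:ℝ) - n) / √2) / 2)) with ha
  have hs : √2 ≠ 0 := by have := sqrt2_gt; positivity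
  have h0 : lin 0 a = -m := by
    rw [lin_zero, ha]; simp only; ring
  have h1 : lin 1 a = -n := by
    rw [lin_one, ha]
    simp only
    unfold cA cB
    field_simp
    ring
  refine ⟨a, ?_, ?_⟩
  · rw [mem_Gam 0]
    refine ⟨⟨-m, by rw [h0]; push_cast; ring⟩, ⟨-n, ?_⟩⟩
    rw [show (0:ℤ) + 1 = 1 by ring, h1]; push_cast; ring
  · have e0 : lin 0 (x + a) = X - m := by rw [lin_add, h0]; ring
    have e1 : lin 1 (x + a) = Y - n := by rw [lin_add, h1]; ring
    have b0 : 0 ≤ X - m := by rw [hm]; have := Int.floor_le X; linarith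
    have b0' : X - m ≤ 1 := by rw [hm]; have := Int.lt_floor_add_one X; linarith
    have b1 : 0 ≤ Y - n := by rw [hn]; have := Int.floor_le Y; linarith
    have b1' : Y - n ≤ 1 := by rw [hn]; have := Int.lt_floor_add_one Y; linarith
    rw [lin_zero] at e0
    rw [lin_one] at e1
    simp only [Prod.fst_add, Prod.snd_add] at e0 e1
    have hs1 := sqrt2_gt
    have hs2 := sqrt2_sq
    set p := x.1 + a.1 with hp
    set q := x.2 + a.2 with hq
    unfold cA cB at e1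
    -- p + q = P, (1-s)p + (1+s) q = Q => s (q - p) = Q - P
    have e2 : √2 * (q - p) = (Y - n) - (X - m) := by linarith
    have e3 : |q - p| ≤ 1 := by
      have h5 : |√2 * (q - p)| ≤ 1 := by rw [e2, abs_le]; constructor <;> linarith
      rw [abs_mul, abs_of_pos (by linarith)] at h5
      nlinarith [abs_nonneg (q - p)]
    rw [abs_le] at e3
    constructor <;> rw [abs_le] <;> constructor <;> linarith [e3.1, e3.2]

lemma Gam_disc : LatDisc Gam := by
  refine ⟨1 / 2, by norm_num, ?_⟩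
  intro τ h1 h2 h3
  obtain ⟨⟨m, hm⟩, -⟩ := (mem_Gam 0).1 h3
  rw [lin_zero] at hm
  simp only [zero_add] at hm
  rw [hm] at h1 h2
  have h4 : (0:ℤ) < m := by exact_mod_cast h1
  have h5 : (1:ℝ) ≤ m := by exact_mod_cast h4
  linarith

end Pool.Agent.H73
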