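import Mathlib

/-!
Weil numbers and monodromy filtrations (definitions), for MP_d037d4_ag.
-/

namespace Pool.H73.WM

open Module Module.End

/-- `α` is a Weil number of weight `w` (with respect to `q`): it is algebraic over `ℚ` and
every complex root of its minimal polynomial has absolute value `q^(w/2)`. -/
def IsWeil {Ω : Type*} [Field Ω] [CharZero Ω] (q : ℕ) (α : Ω) (w : ℤ) : Prop :=
  IsAlgebraic ℚ α ∧
    ∀ z : ℂ, Polynomial.aeval z (minpoly ℚ α) = 0 → ‖z‖ = (q : ℝ) ^ ((w : ℝ) / 2)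

/-- `M` is the monodromy filtration of the nilpotent operator `N` on the (finite-dimensional)
space `V`: an increasing filtration, zero for small and everything for large indices, with
`N M_j ⊆ M_{j-2}` and `N^k : M_k / M_{k-1} → M_{-k} / M_{-k-1}` bijective for all `k ≥ 0`.
(Uniqueness is proved in `Pool.Agent.H73.WMUnique`; existence is classical.) -/
structure IsMonodromyFiltration {Ω : Type} [Field Ω] {V : Type} [AddCommGroup V] [Module Ω V]
    (N : V →ₗ[Ω] V) (M : ℤ → Submodule Ω V) : Prop where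
  mono : Monotone M
  bot : ∃ j, M j = ⊥
  top : ∃ j, M j = ⊤
  shift : ∀ j, ∀ x ∈ M j, N x ∈ M (j - 2)
  inj : ∀ k : ℕ, ∀ x ∈ M k, (N ^ k) x ∈ M (-k - 1) → x ∈ M (k - 1)
  surj : ∀ k : ℕ, ∀ y ∈ M (-k), ∃ x ∈ M k, y - (N ^ k) x ∈ M (-k - 1)

end Pool.H73.WM
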