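import Mathlib
import Pool.Agent.H73.WMDefs

/-!
Weil numbers and sums of generalized eigenspaces, for MP_d037d4_ag.
-/

namespace Pool.H73.WM

open Module Module.End

section weil
variable {Ω : Type*} [Field Ω] [CharZero Ω] {q : ℕ}

theorem IsWeil.unique (hq : 1 < q) {α : Ω} {w v : ℤ} (h : IsWeil q α w) (h' : IsWeil q α v) :
    w = v := by
  obtain ⟨ha, h1⟩ := h
  obtain ⟨-, h2⟩ := h'
  have hint : IsIntegral ℚ α := ha.isIntegral
  have hdeg : (minpoly ℚ α).degree ≠ 0 := (minpoly.degree_pos hint).ne'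
  obtain ⟨z, hz⟩ := IsAlgClosed.exists_aeval_eq_zero ℂ (minpoly ℚ α) hdeg
  have h3 := h1 z hz
  rw [h2 z hz] at h3
  have hq1 : (1 : ℝ) < q := by exact_mod_cast hq
  have h4 := (Real.strictMono_rpow_of_base_gt_one hq1).injective h3
  have h5 : (v : ℝ) = w := by linarith
  exact_mod_cast h5.symm

theorem IsWeil.mul (hq : 1 < q) {α β : Ω} {w v : ℤ} (h : IsWeil q α w) (h' : IsWeil q β v) :
    IsWeil q (α * β) (w + v) := by
  refine ⟨h.1.mul h'.1, ?_⟩
  intro z hz
  let A := algebraicClosure ℚ Ω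
  let a : A := ⟨α, (mem_algebraicClosure_iff).2 h.1⟩
  let b : A := ⟨β, (mem_algebraicClosure_iff).2 h'.1⟩
  have hal : Algebra.IsAlgebraic ℚ A := algebraicClosure.isAlgebraic ℚ Ω
  have hma : minpoly ℚ a = minpoly ℚ α :=
    (minpoly.algebraMap_eq (algebraMap A Ω).injective a).symm
  have hmb : minpoly ℚ b = minpoly ℚ β :=
    (minpoly.algebraMap_eq (algebraMap A Ω).injective b).symm
  have hmab : minpoly ℚ (a * b) = minpoly ℚ (α * β) :=
    (minpoly.algebraMap_eq (algebraMap A Ω).injective (a * b)).symm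
  have hne : minpoly ℚ (a * b) ≠ 0 := minpoly.ne_zero (hal.isAlgebraic (a * b)).isIntegral
  have hmem : z ∈ (minpoly ℚ (a * b)).rootSet ℂ := by
    rw [Polynomial.mem_rootSet]
    exact ⟨hne, by rw [hmab]; exact hz⟩
  rw [← Algebra.IsAlgebraic.range_eval_eq_rootSet_minpoly] at hmem
  obtain ⟨ψ, hψ⟩ := hmem
  have hψ' : ψ a * ψ b = z := by rw [← map_mul]; exact hψ
  have e1 : ‖ψ a‖ = (q : ℝ) ^ ((w : ℝ) / 2) := by
    apply h.2
    rw [← hma, Polynomial.aeval_algHom_apply, minpoly.aeval, map_zero]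
  have e2 : ‖ψ b‖ = (q : ℝ) ^ ((v : ℝ) / 2) := by
    apply h'.2
    rw [← hmb, Polynomial.aeval_algHom_apply, minpoly.aeval, map_zero]
  have hq0 : (0 : ℝ) < q := by
    have : 0 < q := by omega
    exact_mod_cast this
  rw [← hψ', norm_mul, e1, e2, ← Real.rpow_add hq0]
  congr 1
  push_cast
  ring

theorem isWeil_rat (r : ℚ) (w : ℤ) (h : ‖(r : ℂ)‖ = (q : ℝ) ^ ((w : ℝ) / 2)) :
    IsWeil q (r : Ω) w := by
  have hr : (r : Ω) = algebraMap ℚ Ω r := by simp
  refine ⟨by rw [hr]; exact isAlgebraic_algebraMap r, ?_⟩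
  intro z hz
  rw [hr, minpoly.eq_X_sub_C] at hz
  simp only [map_sub, Polynomial.aeval_X, Polynomial.aeval_C, eq_ratCast] at hz
  have : z = (r : ℂ) := by linear_combination hz
  rw [this]
  exact h

theorem isWeil_one : IsWeil q (1 : Ω) 0 := by
  have := isWeil_rat (Ω := Ω) (q := q) 1 0 (by simp)
  simpa using this

theorem isWeil_q : IsWeil q (q : Ω) 2 := by
  have := isWeil_rat (Ω := Ω) (q := q) (q : ℚ) 2 (by simp)
  simpa using this

theorem isWeil_qinv : IsWeil q ((q : Ω)⁻¹) (-2) := by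
  have h := isWeil_rat (Ω := Ω) (q := q) ((q : ℚ)⁻¹) (-2) (by
    have e : (((-2 : ℤ) : ℝ) / 2) = -1 := by norm_num
    rw [e, Real.rpow_neg_one]
    simp)
  simpa using h

theorem isWeil_q_pow (hq : 1 < q) (d : ℕ) : IsWeil q ((q : Ω) ^ d) (2 * d) := by
  induction d with
  | zero => simpa using isWeil_one (Ω := Ω) (q := q)
  | succ d ih =>
    have := ih.mul hq (isWeil_q (Ω := Ω) (q := q))
    rw [pow_succ]
    convert this using 1
    push_cast
    ring

theorem isWeil_qinv_pow (hq : 1 < q) (d : ℕ) : IsWeil q (((q : Ω)⁻¹) ^ d) (-(2 * d)) := by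
  induction d with
  | zero => simpa using isWeil_one (Ω := Ω) (q := q)
  | succ d ih =>
    have := ih.mul hq (isWeil_qinv (Ω := Ω) (q := q))
    rw [pow_succ]
    convert this using 1
    push_cast
    ring

end weil

section GS
variable {Ω : Type*} [Field Ω] {V : Type*} [AddCommGroup V] [Module Ω V]

/-- The sum of the generalized eigenspaces of `F` for the eigenvalues in `S`. -/
def GS (F : V →ₗ[Ω] V) (S : Set Ω) : Submodule Ω V := ⨆ α ∈ S, maxGenEigenspace F α

theorem GS_mono (F : V →ₗ[Ω] V) {S T : Set Ω} (h : S ⊆ T) : GS F S ≤ GS F T :=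
  biSup_mono h

theorem GS_union (F : V →ₗ[Ω] V) (S T : Set Ω) : GS F (S ∪ T) = GS F S ⊔ GS F T := by
  unfold GS
  exact iSup_union

theorem GS_disjoint (F : V →ₗ[Ω] V) {S T : Set Ω} (h : Disjoint S T) :
    Disjoint (GS F S) (GS F T) :=
  (independent_maxGenEigenspace F).disjoint_biSup_biSup h

theorem le_GS (F : V →ₗ[Ω] V) {S : Set Ω} {α : Ω} (h : α ∈ S) :
    maxGenEigenspace F α ≤ GS F S :=
  le_biSup (fun α => maxGenEigenspace F α) h

theorem GS_le (F : V →ₗ[Ω] V) {S : Set Ω} {P : Submodule Ω V}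
    (h : ∀ α ∈ S, maxGenEigenspace F α ≤ P) : GS F S ≤ P :=
  iSup₂_le h

theorem GS_univ [IsAlgClosed Ω] [FiniteDimensional Ω V] (F : V →ₗ[Ω] V) :
    GS F Set.univ = ⊤ := by
  have := iSup_maxGenEigenspace_eq_top F
  unfold GS
  simpa using this

/-- A linear map `T` with `(F - β) T = c T (F - α)` carries the generalized `α`-eigenspace to the
generalized `β`-eigenspace. -/
theorem mapsTo_gen {F T : V →ₗ[Ω] V} {α β c : Ω}
    (h : ∀ x, F (T x) - β • T x = c • T (F x - α • x)) :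
    ∀ x ∈ maxGenEigenspace F α, T x ∈ maxGenEigenspace F β := by
  intro x hx
  rw [mem_maxGenEigenspace] at hx ⊢
  obtain ⟨n, hn⟩ := hx
  refine ⟨n, ?_⟩
  have key : ∀ m : ℕ, ∀ y : V, ((F - β • (1 : End Ω V)) ^ m) (T y)
      = c ^ m • T (((F - α • (1 : End Ω V)) ^ m) y) := by
    intro m
    induction m with
    | zero => intro y; simp
    | succ m ih =>
      intro y
      have e1 : ((F - β • (1 : End Ω V)) ^ (m + 1)) (T y)
          = ((F - β • (1 : End Ω V)) ^ m) (F (T y) - β • T y) := by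
        rw [pow_succ]; rfl
      have e2 : ((F - α • (1 : End Ω V)) ^ (m + 1)) y
          = ((F - α • (1 : End Ω V)) ^ m) (F y - α • y) := by
        rw [pow_succ]; rfl
      rw [e1, e2, h, map_smul, ih, smul_smul, pow_succ]
      congr 1
      ring
  rw [key, hn]
  simp

theorem GS_mapsTo_F (F : V →ₗ[Ω] V) (S : Set Ω) : ∀ x ∈ GS F S, F x ∈ GS F S := by
  have : GS F S ≤ (GS F S).comap F := by
    apply GS_le
    intro α hα x hx
    have h1 : F x ∈ maxGenEigenspace F α :=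
      mapsTo_gen (F := F) (T := F) (α := α) (β := α) (c := 1) (by intro x; simp) x hx
    exact le_GS F hα h1
  exact this

/-- An eigenvector inside `GS F S` has its eigenvalue in `S`. -/
theorem eig_mem (F : V →ₗ[Ω] V) (S : Set Ω) {α : Ω} {x : V} (hx : x ∈ GS F S) (hx0 : x ≠ 0)
    (hF : F x = α • x) : α ∈ S := by
  by_contra hα
  have hd : Disjoint (GS F S) (GS F {α}) := GS_disjoint F (by simpa using hα)
  have h2 : x ∈ GS F {α} := by
    apply le_GS F (Set.mem_singleton α)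
    rw [mem_maxGenEigenspace]
    exact ⟨1, by simp [hF]⟩
  exact hx0 (Submodule.disjoint_def.1 hd x hx h2)

/-- A nonzero `F`-stable subspace contains an eigenvector. -/
theorem exists_eigenvector [IsAlgClosed Ω] [FiniteDimensional Ω V] (F : V →ₗ[Ω] V)
    (P : Submodule Ω V) (hP : ∀ x ∈ P, F x ∈ P) {x : V} (hx : x ∈ P) (hx0 : x ≠ 0) :
    ∃ y ∈ P, y ≠ 0 ∧ ∃ α : Ω, F y = α • y := by
  have : Nontrivial P := ⟨⟨⟨x, hx⟩, 0, by
    intro h
    exact hx0 (by simpa using congrArg Subtype.val h)⟩⟩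
  obtain ⟨α, hα⟩ := Module.End.exists_eigenvalue (F.restrict hP)
  obtain ⟨y, hy⟩ := hα.exists_hasEigenvector
  refine ⟨y, y.2, ?_, α, ?_⟩
  · intro h
    exact hy.2 (by ext; exact h)
  · have := hy.apply_eq_smul
    have h2 := congrArg Subtype.val this
    simpa using h2

end GS

end Pool.H73.WM
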