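import Mathlib
import Pool.Agent.H73.WMBasic

/-!
A cohomology theory with Frobenius and monodromy, for MP_d037d4_ag.
-/

namespace Pool.H73.WM

open Module Module.End TensorProduct

/-- Cohomology groups `H^i(Y)`, finite-dimensional over `Ω`, for a class of varieties `Y` with a
dimension, with a linear Frobenius `F` and a monodromy operator `N`. -/
structure Coh (Ω : Type) [Field Ω] where
  /-- The varieties. -/
  Var : Type
  /-- The dimension. -/
  dim : Var → ℕ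
  /-- The cohomology groups. -/
  H : Var → ℕ → Type
  [acg : ∀ Y i, AddCommGroup (H Y i)]
  [mod : ∀ Y i, Module Ω (H Y i)]
  [fin : ∀ Y i, FiniteDimensional Ω (H Y i)]
  /-- The (linear) Frobenius. -/
  F : ∀ Y i, H Y i →ₗ[Ω] H Y i
  /-- The monodromy operator. -/
  N : ∀ Y i, H Y i →ₗ[Ω] H Y i

attribute [instance] Coh.acg Coh.mod Coh.fin

section
variable {Ω : Type} [Field Ω] (C : Coh Ω)

/-- The Frobenius `F` applied to a class. -/
def Coh.f {Y : C.Var} {i : ℕ} (x : C.H Y i) : C.H Y i := C.F Y i x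

/-- The monodromy operator `N` applied to a class. -/
def Coh.n {Y : C.Var} {i : ℕ} (x : C.H Y i) : C.H Y i := C.N Y i x

/-- `Ω`-bilinear maps `H^i(Y) × H^j(Y) → Ω`. -/
abbrev Coh.Bil (Y : C.Var) (i j : ℕ) : Type := C.H Y i →ₗ[Ω] C.H Y j →ₗ[Ω] Ω

/-- The value of a bilinear form. -/
def Coh.ev {C : Coh Ω} {Y : C.Var} {i j : ℕ} (B : C.Bil Y i j) (x : C.H Y i) (y : C.H Y j) : Ω :=
  B x y

/-- A perfect pairing: both maps to the dual spaces are bijective. -/
def Coh.Perfect {C : Coh Ω} {Y : C.Var} {i j : ℕ} (B : C.Bil Y i j) : Prop :=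
  Function.Bijective B ∧ Function.Bijective B.flip

/-- `Ω`-bilinear maps `H^i(Y) × H^j(Z) → H^k(X)`. -/
abbrev Coh.Cross (Y Z X : C.Var) (i j k : ℕ) : Type := C.H Y i →ₗ[Ω] C.H Z j →ₗ[Ω] C.H X k

/-- The value of a bilinear map. -/
def Coh.cr {C : Coh Ω} {Y Z X : C.Var} {i j k : ℕ} (B : C.Cross Y Z X i j k) (x : C.H Y i)
    (y : C.H Z j) : C.H X k := B x y

/-- The linear map `H^i(Y) ⊗ H^j(Z) → H^k(X)` given by a bilinear map is injective. -/
def Coh.TensorInjective {C : Coh Ω} {Y Z X : C.Var} {i j k : ℕ} (B : C.Cross Y Z X i j k) : Prop :=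
  Function.Injective (TensorProduct.lift B)

end

/-- The relation of `F` and `N`, mixedness, and vanishing above twice the dimension. -/
structure Coh.Basic {Ω : Type} [Field Ω] [CharZero Ω] (C : Coh Ω) (q : ℕ) : Prop where
  F_inj : ∀ Y i (x : C.H Y i), C.f x = 0 → x = 0
  N_nilp : ∀ Y i, IsNilpotent (C.N Y i)
  NF : ∀ Y i (x : C.H Y i), C.n (C.f x) = (q : Ω) • C.f (C.n x)
  /-- Every eigenvalue of Frobenius is a Weil number of some integral weight. -/
  mixed : ∀ Y i (α : Ω) (x : C.H Y i), x ≠ 0 → C.f x = α • x → ∃ w : ℤ, IsWeil q α w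
  vanish : ∀ Y i, 2 * C.dim Y < i → ∀ x : C.H Y i, x = 0

/-- Poincaré duality: perfect pairings `H^i(Y) × H^j(Y) → Ω(-dim Y)` for `i + j = 2 dim Y`, with
the usual sign rule and compatible with `F` and `N`. -/
structure Coh.Duality {Ω : Type} [Field Ω] (C : Coh Ω) (q : ℕ) where
  /-- The pairing. -/
  pair : ∀ Y i j, i + j = 2 * C.dim Y → C.Bil Y i j
  perfect : ∀ Y i j h, Coh.Perfect (pair Y i j h)
  symm : ∀ Y i j h h' x y, Coh.ev (pair Y i j h) x y = (-1) ^ (i * j) * Coh.ev (pair Y j i h') y x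
  pair_F : ∀ Y i j h x y,
    Coh.ev (pair Y i j h) (C.f x) (C.f y) = (q : Ω) ^ C.dim Y * Coh.ev (pair Y i j h) x y
  pair_N : ∀ Y i j h x y, Coh.ev (pair Y i j h) (C.n x) y = - Coh.ev (pair Y i j h) x (C.n y)

/-- Products and the exterior product in cohomology, with the injectivity of the Künneth map
`H^i(Y) ⊗ H^j(Z) → H^{i+j}(Y × Z)`. -/
structure Coh.Products {Ω : Type} [Field Ω] (C : Coh Ω) where
  /-- The product of two varieties. -/
  prod : C.Var → C.Var → C.Var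
  dim_prod : ∀ Y Z, C.dim (prod Y Z) = C.dim Y + C.dim Z
  /-- The exterior product. -/
  cross : ∀ Y Z i j, C.Cross Y Z (prod Y Z) i j (i + j)
  kunneth : ∀ Y Z i j, Coh.TensorInjective (cross Y Z i j)
  cross_F : ∀ Y Z i j x y, C.f (Coh.cr (cross Y Z i j) x y) = Coh.cr (cross Y Z i j) (C.f x) (C.f y)
  cross_N : ∀ Y Z i j x y, C.n (Coh.cr (cross Y Z i j) x y)
    = Coh.cr (cross Y Z i j) (C.n x) y + Coh.cr (cross Y Z i j) x (C.n y)

/-- `H^i(Y)` contains a nonzero class `x` with `F x = β x` and `N x = 0`. -/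
def Coh.HasClass {Ω : Type} [Field Ω] (C : Coh Ω) (Y : C.Var) (i : ℕ) (β : Ω) : Prop :=
  ∃ x : C.H Y i, x ≠ 0 ∧ C.f x = β • x ∧ C.n x = 0

/-- The projective line (with its classes in `H^0` and `H^2`) and a Tate curve (with the class of
weight `0` in its `H^1`). -/
structure Coh.Curves {Ω : Type} [Field Ω] (C : Coh Ω) (q : ℕ) where
  /-- The projective line. -/
  P1 : C.Var
  dim_P1 : C.dim P1 = 1
  P1_H0 : C.HasClass P1 0 1
  P1_H2 : C.HasClass P1 2 q
  /-- A Tate curve. -/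
  E : C.Var
  dim_E : C.dim E = 1
  E_H1 : C.HasClass E 1 1

/-- A cohomology theory with Frobenius and monodromy, with coefficients in `Ω`.  The model is
`H^i_HK(Y)` (extended to `Ω`, an algebraic closure of `K_0`), with the linear Frobenius `F` (the
`f`-th power of `φ`) and the monodromy operator `N`, for the smooth projective equidimensional
varieties `Y` over a fixed `K` with residue field of `q` elements (in general: the Weil-Deligne
representation attached to the cohomology of `Y`, with a lift `F` of geometric Frobenius).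
All the properties below are known for it. -/
structure Theory (q : ℕ) (Ω : Type) [Field Ω] [CharZero Ω] extends Coh Ω where
  /-- The relation of `F` and `N`, mixedness, vanishing. -/
  basic : toCoh.Basic q
  /-- Poincaré duality. -/
  duality : toCoh.Duality q
  /-- Products. -/
  products : toCoh.Products
  /-- The projective line and a Tate curve. -/
  curves : toCoh.Curves q

namespace Theory

variable {q : ℕ} {Ω : Type} [Field Ω] [CharZero Ω] (T : Theory q Ω)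

theorem NF (Y : T.Var) (i : ℕ) (x : T.H Y i) :
    T.N Y i (T.F Y i x) = (q : Ω) • T.F Y i (T.N Y i x) := T.basic.NF Y i x

theorem mixed (Y : T.Var) (i : ℕ) (α : Ω) (x : T.H Y i) (h : x ≠ 0) (h' : T.F Y i x = α • x) :
    ∃ w : ℤ, IsWeil q α w := T.basic.mixed Y i α x h h'

theorem vanish (Y : T.Var) (i : ℕ) (h : 2 * T.dim Y < i) (x : T.H Y i) : x = 0 :=
  T.basic.vanish Y i h x

/-- The Poincaré pairing. -/
abbrev pair (Y : T.Var) (i j : ℕ) (h : i + j = 2 * T.dim Y) : T.H Y i →ₗ[Ω] T.H Y j →ₗ[Ω] Ω :=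
  T.duality.pair Y i j h

theorem pair_left (Y : T.Var) (i j : ℕ) (h : i + j = 2 * T.dim Y) :
    Function.Bijective (T.pair Y i j h) := (T.duality.perfect Y i j h).1

theorem pair_right (Y : T.Var) (i j : ℕ) (h : i + j = 2 * T.dim Y) :
    Function.Bijective (T.pair Y i j h).flip := (T.duality.perfect Y i j h).2

theorem pair_symm (Y : T.Var) (i j : ℕ) (h : i + j = 2 * T.dim Y) (h' : j + i = 2 * T.dim Y)
    (x : T.H Y i) (y : T.H Y j) :
    T.pair Y i j h x y = (-1) ^ (i * j) * T.pair Y j i h' y x := T.duality.symm Y i j h h' x y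

theorem pair_F (Y : T.Var) (i j : ℕ) (h : i + j = 2 * T.dim Y) (x : T.H Y i) (y : T.H Y j) :
    T.pair Y i j h (T.F Y i x) (T.F Y j y) = (q : Ω) ^ T.dim Y * T.pair Y i j h x y :=
  T.duality.pair_F Y i j h x y

theorem pair_N (Y : T.Var) (i j : ℕ) (h : i + j = 2 * T.dim Y) (x : T.H Y i) (y : T.H Y j) :
    T.pair Y i j h (T.N Y i x) y = - T.pair Y i j h x (T.N Y j y) := T.duality.pair_N Y i j h x y

/-- The product of two varieties. -/
abbrev prod (Y Z : T.Var) : T.Var := T.products.prod Y Z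

theorem dim_prod (Y Z : T.Var) : T.dim (T.prod Y Z) = T.dim Y + T.dim Z :=
  T.products.dim_prod Y Z

/-- The exterior product. -/
abbrev cross (Y Z : T.Var) (i j : ℕ) : T.H Y i →ₗ[Ω] T.H Z j →ₗ[Ω] T.H (T.prod Y Z) (i + j) :=
  T.products.cross Y Z i j

theorem kunneth (Y Z : T.Var) (i j : ℕ) :
    Function.Injective (TensorProduct.lift (T.cross Y Z i j)) := T.products.kunneth Y Z i j

theorem cross_F (Y Z : T.Var) (i j : ℕ) (x : T.H Y i) (y : T.H Z j) :
    T.F (T.prod Y Z) (i + j) (T.cross Y Z i j x y) = T.cross Y Z i j (T.F Y i x) (T.F Z j y) :=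
  T.products.cross_F Y Z i j x y

theorem cross_N (Y Z : T.Var) (i j : ℕ) (x : T.H Y i) (y : T.H Z j) :
    T.N (T.prod Y Z) (i + j) (T.cross Y Z i j x y)
      = T.cross Y Z i j (T.N Y i x) y + T.cross Y Z i j x (T.N Z j y) :=
  T.products.cross_N Y Z i j x y

/-- The projective line. -/
abbrev P1 : T.Var := T.curves.P1

theorem dim_P1 : T.dim T.P1 = 1 := T.curves.dim_P1
theorem P1_H0 : ∃ x : T.H T.P1 0, x ≠ 0 ∧ T.F T.P1 0 x = (1 : Ω) • x ∧ T.N T.P1 0 x = 0 :=
  T.curves.P1_H0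
theorem P1_H2 : ∃ x : T.H T.P1 2, x ≠ 0 ∧ T.F T.P1 2 x = (q : Ω) • x ∧ T.N T.P1 2 x = 0 :=
  T.curves.P1_H2

/-- The Tate curve. -/
abbrev E : T.Var := T.curves.E

theorem dim_E : T.dim T.E = 1 := T.curves.dim_E
theorem E_H1 : ∃ x : T.H T.E 1, x ≠ 0 ∧ T.F T.E 1 x = (1 : Ω) • x ∧ T.N T.E 1 x = 0 :=
  T.curves.E_H1

end Theory

namespace Theory

variable {q : ℕ} {Ω : Type} [Field Ω] [CharZero Ω] (T : Theory q Ω)

/-- For a filtration `M` of `H^i(Y)`: `M` is stable under `F`. -/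
def FStable {Y : T.Var} {i : ℕ} (M : ℤ → Submodule Ω (T.H Y i)) : Prop :=
  ∀ j, ∀ x ∈ M j, T.f x ∈ M j

/-- For a filtration `M` of `H^i(Y)`: every eigenvalue of `F` on `M_j / M_{j-1}` is a Weil number of
weight `i + j`. -/
def Pure {Y : T.Var} {i : ℕ} (M : ℤ → Submodule Ω (T.H Y i)) : Prop :=
  ∀ j, ∀ x ∈ M j, x ∉ M (j - 1) → ∀ α : Ω, T.f x - α • x ∈ M (j - 1) → IsWeil q α (i + j)

/-- The weight-monodromy property of `H^i(Y)`: on the `j`-th graded piece of the monodromy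
filtration `M` (which is stable under `F`), every eigenvalue of `F` is a Weil number of weight
`i + j`. -/
def WeightMonodromy (Y : T.Var) (i : ℕ) : Prop :=
  ∃ M : ℤ → Submodule Ω (T.H Y i), IsMonodromyFiltration (T.N Y i) M ∧ T.FStable M ∧ T.Pure M

/-- The part of weight `w` of `H^i(Y)`: the sum of the generalized eigenspaces of Frobenius for
the eigenvalues which are Weil numbers of weight `w`. -/
def W (Y : T.Var) (i : ℕ) (w : ℤ) : Submodule Ω (T.H Y i) :=
  ⨆ α ∈ {α : Ω | IsWeil q α w}, maxGenEigenspace (T.F Y i) α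

theorem W_def (Y : T.Var) (i : ℕ) (w : ℤ) : T.W Y i w = GS (T.F Y i) {α : Ω | IsWeil q α w} := rfl

/-- The part of weight at most `w`. -/
def Wle (Y : T.Var) (i : ℕ) (w : ℤ) : Submodule Ω (T.H Y i) :=
  GS (T.F Y i) {α : Ω | ∃ v ≤ w, IsWeil q α v}

variable {T}

theorem q_ne (hq : 1 < q) : (q : Ω) ≠ 0 := by
  have : q ≠ 0 := by omega
  exact_mod_cast this

/-! ### Eigenspaces and weights -/

theorem gen_eq_bot (Y : T.Var) (i : ℕ) {α : Ω} (h : ¬ ∃ w : ℤ, IsWeil q α w) :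
    maxGenEigenspace (T.F Y i) α = ⊥ := by
  by_contra hne
  obtain ⟨x, hx, hx0⟩ := (Submodule.ne_bot_iff _).1 hne
  rw [mem_maxGenEigenspace] at hx
  apply h
  -- a nonzero generalized eigenvector gives an eigenvector
  classical
  let n := Nat.find hx
  have hn : ((T.F Y i - α • (1 : End Ω (T.H Y i))) ^ n) x = 0 := Nat.find_spec hx
  have hn0 : n ≠ 0 := by
    intro h0
    rw [h0] at hn
    exact hx0 (by simpa using hn)
  obtain ⟨m, hm⟩ := Nat.exists_eq_succ_of_ne_zero hn0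
  have hm' : ((T.F Y i - α • (1 : End Ω (T.H Y i))) ^ m) x ≠ 0 :=
    Nat.find_min hx (by omega)
  refine T.mixed Y i α (((T.F Y i - α • (1 : End Ω (T.H Y i))) ^ m) x) hm' ?_
  rw [hm, pow_succ'] at hn
  have : (T.F Y i - α • (1 : End Ω (T.H Y i))) (((T.F Y i - α • (1 : End Ω (T.H Y i))) ^ m) x)
      = 0 := hn
  rw [LinearMap.sub_apply, sub_eq_zero] at this
  rw [this]
  rfl

variable [IsAlgClosed Ω]

theorem mixed_top (Y : T.Var) (i : ℕ) :
    GS (T.F Y i) {α : Ω | ∃ w : ℤ, IsWeil q α w} = ⊤ := by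
  rw [eq_top_iff, ← GS_univ (T.F Y i)]
  apply GS_le
  intro α _
  by_cases h : ∃ w : ℤ, IsWeil q α w
  · exact le_GS _ h
  · rw [gen_eq_bot Y i h]
    exact bot_le

omit [IsAlgClosed Ω] in
theorem weil_disjoint (hq : 1 < q) {P Q : ℤ → Prop} (h : ∀ w, P w → Q w → False) :
    Disjoint {α : Ω | ∃ v, P v ∧ IsWeil q α v} {α : Ω | ∃ v, Q v ∧ IsWeil q α v} := by
  rw [Set.disjoint_left]
  rintro α ⟨v, hv, hα⟩ ⟨w, hw, hβ⟩
  have := IsWeil.unique hq hα hβ
  subst this
  exact h _ hv hw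

/-- Every vector is a sum of a vector of weight `w` and one without weight `w`. -/
theorem exists_decomp (Y : T.Var) (i : ℕ) (w : ℤ) (x : T.H Y i) :
    ∃ a ∈ T.W Y i w, ∃ b ∈ GS (T.F Y i) {α : Ω | ∃ v, v ≠ w ∧ IsWeil q α v}, x = a + b := by
  have hx : x ∈ GS (T.F Y i) ({α : Ω | IsWeil q α w} ∪ {α : Ω | ∃ v, v ≠ w ∧ IsWeil q α v}) := by
    have h1 : x ∈ GS (T.F Y i) {α : Ω | ∃ w : ℤ, IsWeil q α w} := by
      rw [mixed_top]; trivial
    refine GS_mono _ ?_ h1
    rintro α ⟨v, hv⟩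
    by_cases h : v = w
    · left; subst h; exact hv
    · right; exact ⟨v, h, hv⟩
  rw [GS_union] at hx
  obtain ⟨a, ha, b, hb, hab⟩ := Submodule.mem_sup.1 hx
  exact ⟨a, ha, b, hb, hab.symm⟩

omit [IsAlgClosed Ω] in
theorem Wle_eq (Y : T.Var) (i : ℕ) (w : ℤ) : T.Wle Y i w = T.W Y i w ⊔ T.Wle Y i (w - 1) := by
  unfold Wle
  rw [W_def, ← GS_union]
  congr 1
  ext α
  simp only [Set.mem_ofPred_eq, Set.mem_union]
  constructor
  · rintro ⟨v, hv, h⟩
    by_cases h2 : v = w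
    · left; subst h2; exact h
    · right; exact ⟨v, by omega, h⟩
  · rintro (h | ⟨v, hv, h⟩)
    · exact ⟨w, le_refl _, h⟩
    · exact ⟨v, by omega, h⟩

omit [IsAlgClosed Ω] in
theorem Wle_mono (Y : T.Var) (i : ℕ) {v w : ℤ} (h : v ≤ w) : T.Wle Y i v ≤ T.Wle Y i w := by
  apply GS_mono
  rintro α ⟨u, hu, hα⟩
  exact ⟨u, by omega, hα⟩

omit [IsAlgClosed Ω] in
theorem W_disj (hq : 1 < q) (Y : T.Var) (i : ℕ) (w : ℤ) {v : ℤ} (hv : v < w) :
    Disjoint (T.W Y i w) (T.Wle Y i v) := by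
  rw [W_def]
  apply GS_disjoint
  rw [Set.disjoint_left]
  rintro α hα ⟨u, hu, hβ⟩
  have := IsWeil.unique hq hα hβ
  omega

/-! ### Action of `N` on weights -/

omit [IsAlgClosed Ω] in
theorem N_gen (hq : 1 < q) (Y : T.Var) (i : ℕ) (α : Ω) :
    ∀ x ∈ maxGenEigenspace (T.F Y i) α, T.N Y i x ∈ maxGenEigenspace (T.F Y i) (α * (q : Ω)⁻¹) := by
  have hq0 : (q : Ω) ≠ 0 := q_ne hq
  apply mapsTo_gen (c := (q : Ω)⁻¹)
  intro x
  have h := T.NF Y i x
  have h2 : T.F Y i (T.N Y i x) = (q : Ω)⁻¹ • T.N Y i (T.F Y i x) := by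
    rw [h, smul_smul, inv_mul_cancel₀ hq0, one_smul]
  rw [h2, map_sub, map_smul, smul_sub, smul_smul, mul_comm α]

omit [IsAlgClosed Ω] in
theorem N_GS (hq : 1 < q) (Y : T.Var) (i : ℕ) (S S' : Set Ω)
    (h : ∀ α ∈ S, α * (q : Ω)⁻¹ ∈ S') :
    ∀ x ∈ GS (T.F Y i) S, T.N Y i x ∈ GS (T.F Y i) S' := by
  have : GS (T.F Y i) S ≤ (GS (T.F Y i) S').comap (T.N Y i) := by
    apply GS_le
    intro α hα x hx
    exact le_GS _ (h α hα) (N_gen hq Y i α x hx)
  exact this

omit [IsAlgClosed Ω] in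
theorem N_W (hq : 1 < q) (Y : T.Var) (i : ℕ) (w : ℤ) :
    ∀ x ∈ T.W Y i w, T.N Y i x ∈ T.W Y i (w - 2) := by
  apply N_GS hq
  intro α hα
  exact (IsWeil.mul hq hα isWeil_qinv)

omit [IsAlgClosed Ω] in
theorem N_Wle (hq : 1 < q) (Y : T.Var) (i : ℕ) (w : ℤ) :
    ∀ x ∈ T.Wle Y i w, T.N Y i x ∈ T.Wle Y i (w - 2) := by
  apply N_GS hq
  rintro α ⟨v, hv, hα⟩
  exact ⟨v + -2, by omega, (IsWeil.mul hq hα isWeil_qinv)⟩

omit [IsAlgClosed Ω] in
theorem Npow_W (hq : 1 < q) (Y : T.Var) (i : ℕ) (w : ℤ) (k : ℕ) :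
    ∀ x ∈ T.W Y i w, (T.N Y i ^ k) x ∈ T.W Y i (w - 2 * k) := by
  induction k with
  | zero => intro x hx; simpa using hx
  | succ k ih =>
    intro x hx
    rw [pow_succ']
    have := N_W hq Y i _ _ (ih x hx)
    have e : w - 2 * (k : ℤ) - 2 = w - 2 * ((k + 1 : ℕ) : ℤ) := by push_cast; ring
    rw [e] at this
    exact this

omit [IsAlgClosed Ω] in
theorem Npow_Wle (hq : 1 < q) (Y : T.Var) (i : ℕ) (w : ℤ) (k : ℕ) :
    ∀ x ∈ T.Wle Y i w, (T.N Y i ^ k) x ∈ T.Wle Y i (w - 2 * k) := by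
  induction k with
  | zero => intro x hx; simpa using hx
  | succ k ih =>
    intro x hx
    rw [pow_succ']
    have := N_Wle hq Y i _ _ (ih x hx)
    have e : w - 2 * (k : ℤ) - 2 = w - 2 * ((k + 1 : ℕ) : ℤ) := by push_cast; ring
    rw [e] at this
    exact this

omit [IsAlgClosed Ω] in
theorem F_Npow (hq : 1 < q) (Y : T.Var) (i : ℕ) (k : ℕ) (x : T.H Y i) :
    T.F Y i ((T.N Y i ^ k) x) = ((q : Ω)⁻¹) ^ k • (T.N Y i ^ k) (T.F Y i x) := by
  have hq0 : (q : Ω) ≠ 0 := q_ne hq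
  induction k generalizing x with
  | zero => simp
  | succ k ih =>
    have h : T.F Y i (T.N Y i x) = (q : Ω)⁻¹ • T.N Y i (T.F Y i x) := by
      rw [T.NF Y i x, smul_smul, inv_mul_cancel₀ hq0, one_smul]
    have e : ∀ y, (T.N Y i ^ (k + 1)) y = (T.N Y i ^ k) (T.N Y i y) := by
      intro y; rw [pow_succ]; rfl
    rw [e, e, ih, h, map_smul, smul_smul, pow_succ]

/-! ### Pairing and weights -/

omit [IsAlgClosed Ω] in
theorem pair_gen (Y : T.Var) (i j : ℕ) (h : i + j = 2 * T.dim Y) {α β : Ω}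
    (hαβ : α * β ≠ (q : Ω) ^ T.dim Y) :
    ∀ x ∈ maxGenEigenspace (T.F Y i) α, ∀ y ∈ maxGenEigenspace (T.F Y j) β,
      T.pair Y i j h x y = 0 := by
  have key : ∀ s m n : ℕ, m + n ≤ s → ∀ x y,
      ((T.F Y i - α • (1 : End Ω (T.H Y i))) ^ m) x = 0 →
      ((T.F Y j - β • (1 : End Ω (T.H Y j))) ^ n) y = 0 → T.pair Y i j h x y = 0 := by
    intro s
    induction s with
    | zero =>
      intro m n hmn x y hx hy
      have : m = 0 := by omega
      subst this
      have : x = 0 := by simpa using hx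
      simp [this]
    | succ s ih =>
      intro m n hmn x y hx hy
      rcases Nat.eq_zero_or_pos m with hm | hm
      · subst hm
        have : x = 0 := by simpa using hx
        simp [this]
      rcases Nat.eq_zero_or_pos n with hn | hn
      · subst hn
        have : y = 0 := by simpa using hy
        simp [this]
      obtain ⟨m, rfl⟩ : ∃ m', m = m' + 1 := ⟨m - 1, by omega⟩
      obtain ⟨n, rfl⟩ : ∃ n', n = n' + 1 := ⟨n - 1, by omega⟩
      have e1 : ((T.F Y i - α • (1 : End Ω (T.H Y i))) ^ m) (T.F Y i x - α • x) = 0 := by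
        rw [← hx, pow_succ]; rfl
      have e2 : ((T.F Y j - β • (1 : End Ω (T.H Y j))) ^ n) (T.F Y j y - β • y) = 0 := by
        rw [← hy, pow_succ]; rfl
      have e3 : ((T.F Y j - β • (1 : End Ω (T.H Y j))) ^ (n + 1)) (T.F Y j y) = 0 := by
        have hc : Commute (T.F Y j - β • (1 : End Ω (T.H Y j))) (T.F Y j) := by
          apply Commute.sub_left (Commute.refl _)
          exact (Commute.one_left _).smul_left β
        have := (hc.pow_left (n + 1)).eq
        have h2 := congrArg (fun f => f y) this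
        simp only [End.mul_apply] at h2
        rw [h2, hy, map_zero]
      have h1 := ih m (n + 1) (by omega) _ _ e1 e3
      have h2 := ih (m + 1) n (by omega) _ _ hx e2
      have h3 := T.pair_F Y i j h x y
      have h4 : T.pair Y i j h (T.F Y i x) (T.F Y j y)
          = T.pair Y i j h (T.F Y i x - α • x) (T.F Y j y)
            + α * T.pair Y i j h x (T.F Y j y - β • y) + α * β * T.pair Y i j h x y := by
        simp only [map_sub, LinearMap.sub_apply, map_smul, LinearMap.smul_apply, smul_eq_mul]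
        ring
      rw [h1, h2] at h4
      rw [h4] at h3
      have h5 : (α * β - (q : Ω) ^ T.dim Y) * T.pair Y i j h x y = 0 := by
        linear_combination h3
      rcases mul_eq_zero.1 h5 with h6 | h6
      · exact absurd (sub_eq_zero.1 h6) hαβ
      · exact h6
  intro x hx y hy
  rw [mem_maxGenEigenspace] at hx hy
  obtain ⟨m, hm⟩ := hx
  obtain ⟨n, hn⟩ := hy
  exact key _ m n le_rfl x y hm hn

omit [IsAlgClosed Ω] in
theorem pair_GS (Y : T.Var) (i j : ℕ) (h : i + j = 2 * T.dim Y) {S S' : Set Ω}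
    (hS : ∀ α ∈ S, ∀ β ∈ S', α * β ≠ (q : Ω) ^ T.dim Y) :
    ∀ x ∈ GS (T.F Y i) S, ∀ y ∈ GS (T.F Y j) S', T.pair Y i j h x y = 0 := by
  intro x hx y hy
  have h1 : ∀ α ∈ S, ∀ x ∈ maxGenEigenspace (T.F Y i) α,
      GS (T.F Y j) S' ≤ LinearMap.ker (T.pair Y i j h x) := by
    intro α hα x hx
    apply GS_le
    intro β hβ y hy
    exact pair_gen Y i j h (hS α hα β hβ) x hx y hy
  have h2 : GS (T.F Y i) S ≤ LinearMap.ker ((T.pair Y i j h).flip y) := by
    apply GS_le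
    intro α hα x hx
    exact h1 α hα x hx hy
  exact h2 hx

omit [IsAlgClosed Ω] in
theorem pair_W (hq : 1 < q) (Y : T.Var) (i j : ℕ) (h : i + j = 2 * T.dim Y) (w : ℤ) :
    ∀ x ∈ T.W Y i w,
      ∀ y ∈ GS (T.F Y j) {α : Ω | ∃ v, v ≠ 2 * (T.dim Y : ℤ) - w ∧ IsWeil q α v},
      T.pair Y i j h x y = 0 := by
  apply pair_GS
  rintro α hα β ⟨v, hv, hβ⟩ hab
  have h1 := IsWeil.mul hq hα hβ
  rw [hab] at h1
  have h2 := IsWeil.unique hq h1 (isWeil_q_pow hq (T.dim Y))
  omega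

omit [IsAlgClosed Ω] in
theorem pair_W' (hq : 1 < q) (Y : T.Var) (i j : ℕ) (h : i + j = 2 * T.dim Y) (w : ℤ) :
    ∀ x ∈ GS (T.F Y i) {α : Ω | ∃ v, v ≠ 2 * (T.dim Y : ℤ) - w ∧ IsWeil q α v},
      ∀ y ∈ T.W Y j w,
      T.pair Y i j h x y = 0 := by
  apply pair_GS
  rintro α ⟨v, hv, hα⟩ β hβ hab
  have h1 := IsWeil.mul hq hα hβ
  rw [hab] at h1
  have h2 := IsWeil.unique hq h1 (isWeil_q_pow hq (T.dim Y))
  omega

omit [IsAlgClosed Ω] in
theorem pair_Npow (Y : T.Var) (i j : ℕ) (h : i + j = 2 * T.dim Y) (k : ℕ) (x : T.H Y i)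
    (y : T.H Y j) :
    T.pair Y i j h ((T.N Y i ^ k) x) y = (-1) ^ k * T.pair Y i j h x ((T.N Y j ^ k) y) := by
  induction k generalizing x y with
  | zero => simp
  | succ k ih =>
    have e1 : (T.N Y i ^ (k + 1)) x = (T.N Y i ^ k) (T.N Y i x) := by rw [pow_succ]; rfl
    have e2 : (T.N Y j ^ (k + 1)) y = T.N Y j ((T.N Y j ^ k) y) := by rw [pow_succ']; rfl
    rw [e1, ih, T.pair_N, e2]
    ring

end Theory

end Pool.H73.WM
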