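import Pool.Agent.H73.ZetaMain

/-!
Projective schemes over `ℤ[1/N]`.
-/

namespace Pool.Agent.H73.Zeta

open scoped LinearAlgebra.Projectivization
open Finset

theorem aeval_smul {σ K : Type} [Field K] {f : MvPolynomial σ ℤ} {d : ℕ} (hf : f.IsHomogeneous d)
    (a : K) (v : σ → K) : MvPolynomial.aeval (a • v) f = a ^ d * MvPolynomial.aeval v f := by
  rw [MvPolynomial.aeval_def, MvPolynomial.aeval_def, MvPolynomial.eval₂_eq,
    MvPolynomial.eval₂_eq, Finset.mul_sum]
  apply Finset.sum_congr rfl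
  intro s hs
  simp only [Pi.smul_apply, smul_eq_mul, mul_pow, Finset.prod_mul_distrib]
  rw [Finset.prod_pow_eq_pow_sum]
  have h2 : ∑ i ∈ s.support, s i = d := (hf.degree_eq_sum_deg_support hs).symm
  rw [h2]
  ring

theorem zeros_smul {σ K : Type} [Field K] {F : Finset (MvPolynomial σ ℤ)}
    (hF : ∀ f ∈ F, ∃ d, f.IsHomogeneous d) (a : Kˣ) (v : σ → K) :
    (∀ f ∈ F, MvPolynomial.aeval (a • v) f = 0) ↔ ∀ f ∈ F, MvPolynomial.aeval v f = 0 := by
  apply forall₂_congr
  intro f hf
  obtain ⟨d, hd⟩ := hF f hf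
  have : MvPolynomial.aeval (a • v) f = (a : K) ^ d * MvPolynomial.aeval v f :=
    aeval_smul hd (a : K) v
  rw [this, mul_eq_zero]
  constructor
  · rintro (h | h)
    · exact absurd h (pow_ne_zero d a.ne_zero)
    · exact h
  · exact Or.inr

/-- Points of a projective scheme and of its cone. -/
theorem card_proj {σ K : Type} [Fintype σ] [Field K] [Finite K] (P : (σ → K) → Prop)
    (hP : ∀ (a : Kˣ) (v : σ → K), P (a • v) ↔ P v) :
    ((Nat.card K : ℤ) - 1) * (Nat.card {x : ℙ K (σ → K) // P x.rep} : ℤ) =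
      cnt (fun v : σ → K => v ≠ 0 ∧ P v) := by
  let Φ : {x : ℙ K (σ → K) // P x.rep} × Kˣ → {v : σ → K // v ≠ 0 ∧ P v} := fun z =>
    ⟨z.2 • z.1.1.rep, by
      rw [Ne, smul_eq_zero_iff_eq]
      exact z.1.1.rep_nonzero, (hP _ _).2 z.1.2⟩
  have hΦ : Function.Bijective Φ := by
    constructor
    · rintro ⟨⟨x, hx⟩, a⟩ ⟨⟨y, hy⟩, b⟩ h
      have h1 : a • x.rep = b • y.rep := congrArg Subtype.val h
      have hxy : x = y := by
        rw [← x.mk_rep, ← y.mk_rep, Projectivization.mk_eq_mk_iff]
        refine ⟨a⁻¹ * b, ?_⟩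
        rw [mul_smul, ← h1, inv_smul_smul]
      subst hxy
      have hab : a = b := by
        obtain ⟨i, hi⟩ : ∃ i, x.rep i ≠ 0 := by
          by_contra hcon
          exact x.rep_nonzero (funext fun i => not_not.1 (not_exists.1 hcon i))
        have h2 := congrFun h1 i
        simp only [Pi.smul_apply, Units.smul_def, smul_eq_mul] at h2
        exact Units.ext (mul_right_cancel₀ hi h2)
      rw [hab]
    · rintro ⟨v, hv, hPv⟩
      obtain ⟨a, ha⟩ := Projectivization.exists_smul_eq_mk_rep K v hv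
      refine ⟨(⟨Projectivization.mk K v hv, ?_⟩, a⁻¹), ?_⟩
      · rw [← ha]
        exact (hP _ _).2 hPv
      · apply Subtype.ext
        show a⁻¹ • (Projectivization.mk K v hv).rep = v
        rw [← ha, inv_smul_smul]
  have h1 := Nat.card_congr (Equiv.ofBijective Φ hΦ)
  rw [Nat.card_prod] at h1
  have h2 : (Nat.card Kˣ : ℤ) = (Nat.card K : ℤ) - 1 := by
    have := Nat.card_eq_card_units_add_one (α := K)
    rw [this]
    push_cast
    ring
  unfold cnt
  rw [← h1]
  push_cast
  rw [h2]
  ring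

theorem cast_FF_eq_zero (p : Nat.Primes) (k : ℕ) (N : ℕ) :
    ((N : ℤ) : FF p k) = 0 ↔ (p : ℕ) ∣ N := by
  have : Fact (p : ℕ).Prime := ⟨p.2⟩
  rw [Int.cast_natCast]
  exact CharP.cast_eq_zero_iff (GaloisField (p : ℕ) k) (p : ℕ) N

theorem proj_formula {σ : Type} [Fintype σ] {F : Finset (MvPolynomial σ ℤ)}
    (hF : ∀ f ∈ F, ∃ d, f.IsHomogeneous d) (N : ℕ) (p : Nat.Primes) {k : ℕ} (hk : k ≠ 0) :
    ((p : ℤ) ^ k - 1) * projCount F N p k = if (p : ℕ) ∣ N then 0 else
      cnt (fun v : σ → FF p k => v ≠ 0 ∧ ∀ f ∈ F, MvPolynomial.aeval v f = 0) := by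
  unfold projCount
  split_ifs with h
  · rw [mul_zero]
  · rw [← card_FF p hk]
    exact card_proj (fun v : σ → FF p k => ∀ f ∈ F, MvPolynomial.aeval v f = 0)
      (zeros_smul hF)

/-- Inverting `N`. -/
theorem cnt_inv {σ : Type} {K : Type} [Field K] (P : (σ → K) → Prop) (n : K) [Decidable (n = 0)] :
    cnt (fun y : Option σ → K => P (fun s => y (some s)) ∧ n * y none - 1 = 0) =
      if n = 0 then 0 else cnt P := by
  split_ifs with hn
  · unfold cnt
    have : IsEmpty {y : Option σ → K // P (fun s => y (some s)) ∧ n * y none - 1 = 0} := by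
      constructor
      rintro ⟨y, -, h⟩
      rw [hn, zero_mul, zero_sub, neg_eq_zero] at h
      exact one_ne_zero h
    simp
  · unfold cnt
    congr 1
    apply Nat.card_congr
    refine
      { toFun := fun y => ⟨fun s => y.1 (some s), y.2.1⟩
        invFun := fun v => ⟨fun o => Option.elim o n⁻¹ v.1, v.2, ?_⟩
        left_inv := ?_
        right_inv := fun v => rfl }
    · show n * n⁻¹ - 1 = 0
      rw [mul_inv_cancel₀ hn, sub_self]
    · rintro ⟨y, h1, h2⟩
      apply Subtype.ext
      funext o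
      cases o with
      | none =>
        show n⁻¹ = y none
        rw [sub_eq_zero] at h2
        exact (eq_inv_of_mul_eq_one_right h2).symm
      | some s => rfl

variable {E : Set ℝ}

/-- Projective schemes from trilinear forms. -/
theorem proj_of_tri (hT : Tri E) (hE : ∀ x : ℝ, x + 1 ∈ E ↔ x ∈ E) {σ : Type} [Fintype σ]
    {F : Finset (MvPolynomial σ ℤ)} (hF : ∀ f ∈ F, ∃ d, f.IsHomogeneous d) (N : ℕ) :
    GB E (projCount F N) := by
  classical
  apply GB.div hE
  -- the two affine schemes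
  have h1 := gb_system hT hE (σ := Option σ) (ι := {f // f ∈ F} ⊕ Unit)
    (Sum.elim (fun f => MvPolynomial.rename some f.1)
      (fun _ => MvPolynomial.C (N : ℤ) * MvPolynomial.X none - 1))
  have h2 := gb_system hT hE (σ := Option σ) (ι := ({f // f ∈ F} ⊕ Unit) ⊕ σ)
    (Sum.elim (Sum.elim (fun f => MvPolynomial.rename some f.1)
      (fun _ => MvPolynomial.C (N : ℤ) * MvPolynomial.X none - 1))
      (fun i => MvPolynomial.X (some i)))
  refine (h1.sub h2).congr (fun p k hk => ?_)
  rw [proj_formula hF N p hk]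
  have e1 : ∀ y : Option σ → FF p k, MvPolynomial.aeval y
      (MvPolynomial.C (N : ℤ) * MvPolynomial.X none - 1 : MvPolynomial (Option σ) ℤ) =
      ((N : ℤ) : FF p k) * y none - 1 := by
    intro y
    simp
  have e2 : ∀ (y : Option σ → FF p k) (f : MvPolynomial σ ℤ),
      MvPolynomial.aeval y (MvPolynomial.rename some f) =
      MvPolynomial.aeval (fun s => y (some s)) f := by
    intro y f
    rw [MvPolynomial.aeval_rename]
    rfl
  have c1 : cnt (fun x : Option σ → FF p k => ∀ i, MvPolynomial.aeval x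
      ((Sum.elim (fun f : {f // f ∈ F} => MvPolynomial.rename some f.1)
      (fun _ : Unit => MvPolynomial.C (N : ℤ) * MvPolynomial.X none - 1)) i) = 0) =
      if ((N : ℤ) : FF p k) = 0 then 0 else
        cnt (fun v : σ → FF p k => ∀ f ∈ F, MvPolynomial.aeval v f = 0) := by
    rw [← cnt_inv]
    apply cnt_congr
    intro y
    constructor
    · intro h
      refine ⟨fun f hf => ?_, ?_⟩
      · rw [← e2]
        exact h (Sum.inl ⟨f, hf⟩)
      · rw [← e1]
        exact h (Sum.inr ())
    · rintro ⟨h, h'⟩ (⟨f, hf⟩ | u)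
      · have := h f hf
        rw [← e2] at this
        exact this
      · rw [← e1] at h'
        exact h'
  have c2 : cnt (fun x : Option σ → FF p k => ∀ i, MvPolynomial.aeval x
      ((Sum.elim (Sum.elim (fun f : {f // f ∈ F} => MvPolynomial.rename some f.1)
      (fun _ : Unit => MvPolynomial.C (N : ℤ) * MvPolynomial.X none - 1))
      (fun i : σ => MvPolynomial.X (some i))) i) = 0) =
      if ((N : ℤ) : FF p k) = 0 then 0 else
        cnt (fun v : σ → FF p k => v = 0 ∧ ∀ f ∈ F, MvPolynomial.aeval v f = 0) := by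
    rw [← cnt_inv]
    apply cnt_congr
    intro y
    constructor
    · intro h
      refine ⟨⟨funext fun i => ?_, fun f hf => ?_⟩, ?_⟩
      · have := h (Sum.inr i)
        simpa using this
      · rw [← e2]
        exact h (Sum.inl (Sum.inl ⟨f, hf⟩))
      · rw [← e1]
        exact h (Sum.inl (Sum.inr ()))
    · rintro ⟨⟨h0, h⟩, h'⟩ ((⟨f, hf⟩ | u) | i)
      · have := h f hf
        rw [← e2] at this
        exact this
      · rw [← e1] at h'
        exact h'
      · have := congrFun h0 i
        simpa using this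
  have c3 : cnt (fun v : σ → FF p k => ∀ f ∈ F, MvPolynomial.aeval v f = 0) -
      cnt (fun v : σ → FF p k => v = 0 ∧ ∀ f ∈ F, MvPolynomial.aeval v f = 0) =
      cnt (fun v : σ → FF p k => v ≠ 0 ∧ ∀ f ∈ F, MvPolynomial.aeval v f = 0) := by
    have := Fintype.ofFinite (FF p k)
    rw [cnt_sum, cnt_sum, cnt_sum, ← Finset.sum_sub_distrib]
    apply Finset.sum_congr rfl
    intro v _
    by_cases h0 : v = 0 <;> by_cases h3 : ∀ f ∈ F, MvPolynomial.aeval v f = 0 <;> simp [h0, h3]
  rw [c1, c2]
  by_cases hN : (p : ℕ) ∣ N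
  · rw [if_pos hN, if_pos ((cast_FF_eq_zero p k N).2 hN), if_pos ((cast_FF_eq_zero p k N).2 hN),
      sub_zero]
  · rw [if_neg hN, if_neg (fun h => hN ((cast_FF_eq_zero p k N).1 h)),
      if_neg (fun h => hN ((cast_FF_eq_zero p k N).1 h)), c3]

/-- The hypothesis on projective schemes. -/
def Pro (E : Set ℝ) : Prop := ∀ (σ : Type) [Fintype σ] (F : Finset (MvPolynomial σ ℤ)),
  (∀ f ∈ F, ∃ d, f.IsHomogeneous d) → ∀ N : ℕ, 0 < N → Good E (projCount F N)

/-- Trilinear forms from projective schemes. -/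
theorem tri_of_proj (hP : Pro E) (hE : ∀ x : ℝ, x + 1 ∈ E ↔ x ∈ E) : Tri E := by
  classical
  intro a b c T _
  -- the zeta function of a point
  have hone : GB E (fun _ _ => 1) := by
    have h1 := hP Unit ∅ (by simp) 1 one_pos
    have h2 : ∀ (p : Nat.Primes) (k : ℕ), k ≠ 0 →
        projCount (∅ : Finset (MvPolynomial Unit ℤ)) 1 p k = 1 := by
      intro p k hk
      have h3 := proj_formula (F := (∅ : Finset (MvPolynomial Unit ℤ))) (by simp) 1 p hk
      rw [if_neg (by
        intro h
        exact p.2.one_lt.ne' (Nat.dvd_one.1 h))] at h3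
      have h4 : cnt (fun v : Unit → FF p k => v ≠ 0 ∧ ∀ f ∈ (∅ : Finset (MvPolynomial Unit ℤ)),
          MvPolynomial.aeval v f = 0) = (p : ℤ) ^ k - 1 := by
        have h5 := card_proj (K := FF p k) (σ := Unit) (fun _ => True) (fun _ _ => Iff.rfl)
        have h6 : Nat.card {x : ℙ (FF p k) (Unit → FF p k) // True} = 1 := by
          rw [Nat.card_congr (Equiv.subtypeUnivEquiv (fun _ => trivial))]
          have h7 := Projectivization.card' (FF p k) (Unit → FF p k)
          have h8 : Nat.card (Unit → FF p k) = Nat.card (FF p k) :=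
            Nat.card_congr (Equiv.funUnique Unit (FF p k))
          have h9 := card_FF p hk
          have h10 : 1 < (p : ℕ) ^ k := Nat.one_lt_pow hk p.2.one_lt
          have h11 : Nat.card (FF p k) = (p : ℕ) ^ k := by exact_mod_cast h9
          rw [h8, h11] at h7
          have h12 : Nat.card (ℙ (FF p k) (Unit → FF p k)) * ((p : ℕ) ^ k - 1) =
            1 * ((p : ℕ) ^ k - 1) := by omega
          exact Nat.eq_of_mul_eq_mul_right (by omega) h12
        rw [h6, card_FF p hk] at h5
        simp only [Finset.notMem_empty, false_implies, implies_true]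
        rw [← h5]
        push_cast
        ring
      rw [h4] at h3
      have h5 : (p : ℤ) ^ k - 1 ≠ 0 := by
        have h10 : 1 < (p : ℕ) ^ k := Nat.one_lt_pow hk p.2.one_lt
        have : (1 : ℤ) < (p : ℤ) ^ k := by exact_mod_cast h10
        linarith
      exact mul_left_cancel₀ h5 (by rw [h3, mul_one])
    refine ⟨h1.congr h2, 1, 0, fun p k _ => ?_⟩
    simp
  let σ := Fin a ⊕ Fin b ⊕ Fin c
  let f : MvPolynomial σ ℤ := ∑ i, ∑ j, ∑ l, MvPolynomial.C (T i j l) *
    MvPolynomial.X (Sum.inl i) * MvPolynomial.X (Sum.inr (Sum.inl j)) *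
      MvPolynomial.X (Sum.inr (Sum.inr l))
  have hf : f.IsHomogeneous 3 := by
    apply MvPolynomial.IsHomogeneous.sum
    intro i _
    apply MvPolynomial.IsHomogeneous.sum
    intro j _
    apply MvPolynomial.IsHomogeneous.sum
    intro l _
    have h0 := ((((MvPolynomial.isHomogeneous_C σ (T i j l)).mul
      (MvPolynomial.isHomogeneous_X ℤ (Sum.inl i : σ))).mul
      (MvPolynomial.isHomogeneous_X ℤ (Sum.inr (Sum.inl j) : σ))).mul
      (MvPolynomial.isHomogeneous_X ℤ (Sum.inr (Sum.inr l) : σ)))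
    exact h0
  have hF : ∀ g ∈ ({f} : Finset (MvPolynomial σ ℤ)), ∃ d, g.IsHomogeneous d := by
    intro g hg
    rw [Finset.mem_singleton] at hg
    exact ⟨3, hg ▸ hf⟩
  have hprop : ∀ (p : Nat.Primes) (k : ℕ), k ≠ 0 →
      triCount T p k = 1 + ((p : ℤ) ^ k - 1) * projCount ({f} : Finset (MvPolynomial σ ℤ)) 1 p k
      := by
    intro p k hk
    rw [proj_formula hF 1 p hk, if_neg (by
        intro h
        exact p.2.one_lt.ne' (Nat.dvd_one.1 h))]
    let e : (Fin a → FF p k) × (Fin b → FF p k) × (Fin c → FF p k) ≃ (σ → FF p k) :=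
      ((Equiv.refl _).prodCongr (Equiv.sumArrowEquivProdArrow _ _ _).symm).trans
        (Equiv.sumArrowEquivProdArrow _ _ _).symm
    have h1 : triCount T p k = cnt (fun v : σ → FF p k => MvPolynomial.aeval v f = 0) := by
      rw [← cnt_equiv e]
      apply congrArg (fun n : ℕ => (n : ℤ))
      apply Nat.card_congr
      apply Equiv.subtypeEquivRight
      intro z
      have : MvPolynomial.aeval (e z) f =
          ∑ i, ∑ j, ∑ l, (T i j l : FF p k) * z.1 i * z.2.1 j * z.2.2 l := by
        simp only [f, map_sum, map_mul, MvPolynomial.aeval_X, MvPolynomial.aeval_C]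
        rfl
      rw [this]
    have h2 : cnt (fun v : σ → FF p k => v ≠ 0 ∧ ∀ g ∈ ({f} : Finset (MvPolynomial σ ℤ)),
        MvPolynomial.aeval v g = 0) = cnt (fun v : σ → FF p k => MvPolynomial.aeval v f = 0) -
        cnt (fun v : σ → FF p k => v = 0) := by
      have := Fintype.ofFinite (FF p k)
      rw [cnt_sum, cnt_sum, cnt_sum, ← Finset.sum_sub_distrib]
      apply Finset.sum_congr rfl
      intro v _
      have h0 : MvPolynomial.aeval (0 : σ → FF p k) f = 0 := by
        have := aeval_smul hf (0 : FF p k) (0 : σ → FF p k)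
        rw [zero_smul] at this
        rw [this]
        ring
      by_cases hv : v = 0
      · subst hv
        simp [h0]
      · by_cases h3 : MvPolynomial.aeval v f = 0 <;> simp [hv, h3]
    rw [h1, h2, cnt_eq]
    ring
  have hG : GB E (projCount ({f} : Finset (MvPolynomial σ ℤ)) 1) := by
    refine ⟨hP σ {f} hF 1 one_pos, ?_⟩
    have hb : Bdd (fun p k => ((p : ℤ) ^ k - 1) *
        projCount ({f} : Finset (MvPolynomial σ ℤ)) 1 p k) := by
      have := bdd_cnt (α := fun p k => σ → FF p k) (Fintype.card σ)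
        (fun p k hk => by rw [card_fun, card_FF p hk])
        (fun p k v => v ≠ 0 ∧ ∀ g ∈ ({f} : Finset (MvPolynomial σ ℤ)), MvPolynomial.aeval v g = 0)
      refine this.congr (fun p k hk => ?_)
      rw [proj_formula hF 1 p hk, if_neg (by
        intro h
        exact p.2.one_lt.ne' (Nat.dvd_one.1 h))]
    refine Bdd.of_mul (fun p k hk => ?_) hb
    have h10 : 1 < (p : ℕ) ^ k := Nat.one_lt_pow hk p.2.one_lt
    have : (1 : ℤ) < (p : ℤ) ^ k := by exact_mod_cast h10
    linarith
  have hfin := (hone.add (hG.shift hE 1)).sub hG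
  refine hfin.1.congr (fun p k hk => ?_)
  rw [hprop p k hk]
  ring

end Pool.Agent.H73.Zeta
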