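import Mathlib
import Pool.Agent.H73.Lat

/-!
The stage map: isotopy between the two coordinate tori in four-space.
-/

namespace Pool.Agent.H73

open scoped ContDiff Topology
open Finset Filter

noncomputable def tau (s : ℝ) : ℝ := Real.smoothTransition (4 * s - 1)
noncomputable def sig (s : ℝ) : ℝ := Real.smoothTransition (4 * s - 5 / 2)

lemma tau_low {s : ℝ} (h : s ≤ 1 / 4) : tau s = 0 :=
  Real.smoothTransition.zero_of_nonpos (by linarith)
lemma sig_low {s : ℝ} (h : s ≤ 5 / 8) : sig s = 0 :=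
  Real.smoothTransition.zero_of_nonpos (by linarith)
lemma tau_high {s : ℝ} (h : 1 / 2 ≤ s) : tau s = 1 :=
  Real.smoothTransition.one_of_one_le (by linarith)
lemma sig_high {s : ℝ} (h : 7 / 8 ≤ s) : sig s = 1 :=
  Real.smoothTransition.one_of_one_le (by linarith)
lemma tau_nonneg (s : ℝ) : 0 ≤ tau s := Real.smoothTransition.nonneg _
lemma tau_le (s : ℝ) : tau s ≤ 1 := Real.smoothTransition.le_one _
lemma sig_nonneg (s : ℝ) : 0 ≤ sig s := Real.smoothTransition.nonneg _
lemma sig_le (s : ℝ) : sig s ≤ 1 := Real.smoothTransition.le_one _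

noncomputable def al (s y : ℝ) : ℝ := (1 - tau s) + tau s * Real.cos y
noncomputable def ga (s : ℝ) : ℝ := tau s * (1 - tau s)
noncomputable def de (s y : ℝ) : ℝ := tau s * Real.sin y
noncomputable def fX (s x r : ℝ) : ℝ := (1 + sig s + r) * Real.cos x
noncomputable def fY (s x r : ℝ) : ℝ := (1 + sig s + r) * Real.sin x
noncomputable def fA (s x y r w : ℝ) : ℝ :=
  (al s y ^ 2 - ga s ^ 2 - de s y ^ 2) * fX s x r - 2 * al s y * de s y * fY s x r
    + 2 * al s y * ga s * w
noncomputable def fB (s x y r w : ℝ) : ℝ :=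
  2 * al s y * de s y * fX s x r + (al s y ^ 2 + ga s ^ 2 - de s y ^ 2) * fY s x r
    + 2 * ga s * de s y * w
noncomputable def fW (s x y r w : ℝ) : ℝ :=
  -(2 * al s y * ga s) * fX s x r + 2 * ga s * de s y * fY s x r
    + (al s y ^ 2 - ga s ^ 2 + de s y ^ 2) * w
noncomputable def fC (s x y r w : ℝ) : ℝ := (2 - sig s + fW s x y r w) * Real.cos y
noncomputable def fD (s x y r w : ℝ) : ℝ := (2 - sig s + fW s x y r w) * Real.sin y

section low
variable {s : ℝ} (h : s ≤ 1 / 4) (x y r w : ℝ)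
include h
lemma fW_low : fW s x y r w = w := by
  unfold fW al ga de; rw [tau_low h]; ring
lemma fA_low : fA s x y r w = (1 + r) * Real.cos x := by
  unfold fA al ga de fX; rw [tau_low h, sig_low (by linarith)]; ring
lemma fB_low : fB s x y r w = (1 + r) * Real.sin x := by
  unfold fB al ga de fX fY; rw [tau_low h, sig_low (by linarith)]; ring
lemma fC_low : fC s x y r w = (2 + w) * Real.cos y := by
  unfold fC; rw [fW_low h, sig_low (by linarith)]; ring
lemma fD_low : fD s x y r w = (2 + w) * Real.sin y := by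
  unfold fD; rw [fW_low h, sig_low (by linarith)]; ring
end low

section high
variable {s : ℝ} (h : 7 / 8 ≤ s) (x y r w : ℝ)
include h
lemma fW_high : fW s x y r w = w := by
  unfold fW al ga de; rw [tau_high (by linarith)]
  have := Real.cos_sq_add_sin_sq y
  linear_combination w * this
lemma fA_high : fA s x y r w = (2 + r) * Real.cos (x + 2 * y) := by
  unfold fA al ga de fX fY; rw [tau_high (by linarith), sig_high h, Real.cos_add, Real.cos_two_mul,
    Real.sin_two_mul]
  have := Real.cos_sq_add_sin_sq y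
  linear_combination (-(2 + r) * Real.cos x) * this
lemma fB_high : fB s x y r w = (2 + r) * Real.sin (x + 2 * y) := by
  unfold fB al ga de fX fY; rw [tau_high (by linarith), sig_high h, Real.sin_add, Real.cos_two_mul,
    Real.sin_two_mul]
  have := Real.cos_sq_add_sin_sq y
  linear_combination (-(2 + r) * Real.sin x) * this
lemma fC_high : fC s x y r w = (1 + w) * Real.cos y := by
  unfold fC; rw [fW_high h, sig_high h]; ring
lemma fD_high : fD s x y r w = (1 + w) * Real.sin y := by
  unfold fD; rw [fW_high h, sig_high h]; ring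
end high

/-- the matrix is a multiple of a rotation -/
lemma al_de_le (s y : ℝ) : al s y ^ 2 + de s y ^ 2 ≤ 1 := by
  unfold al de
  have h1 := Real.cos_sq_add_sin_sq y
  have h2 := tau_nonneg s
  have h3 := tau_le s
  have h4 := Real.cos_le_one y
  have : ((1 - tau s) + tau s * Real.cos y) ^ 2 + (tau s * Real.sin y) ^ 2
      = (1 - tau s) ^ 2 + 2 * (tau s * (1 - tau s)) * Real.cos y + tau s ^ 2 := by
    linear_combination tau s ^ 2 * h1
  rw [this]
  have h5 : 0 ≤ tau s * (1 - tau s) := mul_nonneg h2 (by linarith)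
  nlinarith [mul_le_mul_of_nonneg_left h4 h5]

lemma nn_pos (s y : ℝ) : 0 < al s y ^ 2 + ga s ^ 2 + de s y ^ 2 := by
  by_cases h0 : tau s = 0
  · unfold al ga de; rw [h0]; norm_num
  by_cases h1 : tau s = 1
  · unfold al ga de; rw [h1]
    have := Real.cos_sq_add_sin_sq y
    nlinarith
  · have : ga s ≠ 0 := by
      unfold ga
      exact mul_ne_zero h0 (sub_ne_zero.2 (Ne.symm h1))
    positivity

lemma ga_le (s : ℝ) : ga s ≤ 1 / 4 := by
  unfold ga; nlinarith [sq_nonneg (tau s - 1 / 2)]
lemma ga_nonneg (s : ℝ) : 0 ≤ ga s := mul_nonneg (tau_nonneg s) (by linarith [tau_le s])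

/-- the inverse of the multiple of a rotation -/
lemma inv_X (s x y r w : ℝ) : (al s y ^ 2 + ga s ^ 2 + de s y ^ 2) ^ 2 * fX s x r =
    (al s y ^ 2 - ga s ^ 2 - de s y ^ 2) * fA s x y r w + 2 * al s y * de s y * fB s x y r w
    - 2 * al s y * ga s * fW s x y r w := by
  unfold fA fB fW; ring
lemma inv_Y (s x y r w : ℝ) : (al s y ^ 2 + ga s ^ 2 + de s y ^ 2) ^ 2 * fY s x r =
    -(2 * al s y * de s y) * fA s x y r w +
    (al s y ^ 2 + ga s ^ 2 - de s y ^ 2) * fB s x y r w
    + 2 * ga s * de s y * fW s x y r w := by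
  unfold fA fB fW; ring
lemma inv_w (s x y r w : ℝ) : (al s y ^ 2 + ga s ^ 2 + de s y ^ 2) ^ 2 * w =
    2 * al s y * ga s * fA s x y r w + 2 * ga s * de s y * fB s x y r w
    + (al s y ^ 2 - ga s ^ 2 + de s y ^ 2) * fW s x y r w := by
  unfold fA fB fW; ring

lemma abs_al (s y : ℝ) : |al s y| ≤ 1 := by
  have h := al_de_le s y
  rw [abs_le]; constructor <;> nlinarith [sq_nonneg (de s y)]
lemma abs_de (s y : ℝ) : |de s y| ≤ 1 := by
  have h := al_de_le s y
  rw [abs_le]; constructor <;> nlinarith [sq_nonneg (al s y)]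

lemma fX_bd (s x : ℝ) : |fX s x 0| ≤ 2 := by
  unfold fX
  rw [abs_mul]
  have h1 := Real.abs_cos_le_one x
  have h2 : |1 + sig s + 0| ≤ 2 := by
    rw [abs_le]; constructor <;> linarith [sig_nonneg s, sig_le s]
  calc |1 + sig s + 0| * |Real.cos x| ≤ 2 * 1 := mul_le_mul h2 h1 (abs_nonneg _) (by norm_num)
    _ = 2 := by norm_num
lemma fY_bd (s x : ℝ) : |fY s x 0| ≤ 2 := by
  unfold fY
  rw [abs_mul]
  have h1 := Real.abs_sin_le_one x
  have h2 : |1 + sig s + 0| ≤ 2 := by
    rw [abs_le]; constructor <;> linarith [sig_nonneg s, sig_le s]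
  calc |1 + sig s + 0| * |Real.sin x| ≤ 2 * 1 := mul_le_mul h2 h1 (abs_nonneg _) (by norm_num)
    _ = 2 := by norm_num

/-- positivity of the second radius on the core -/
lemma fW_bd (s x y : ℝ) : |fW s x y 0 0| ≤ 1 ∧ 0 < 2 - sig s + fW s x y 0 0 := by
  by_cases hg : ga s = 0
  · have : fW s x y 0 0 = 0 := by unfold fW; rw [hg]; ring
    rw [this]
    refine ⟨by simp, by linarith [sig_le s]⟩
  · have hs : s < 1 / 2 := by
      by_contra hc
      push Not at hc
      exact hg (by unfold ga; rw [tau_high hc]; ring)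
    have hsig : sig s = 0 := sig_low (by linarith)
    have h1 : |fW s x y 0 0| ≤ 1 := by
      unfold fW
      have hX : |fX s x 0| ≤ 1 := by
        unfold fX; rw [hsig]; simpa using Real.abs_cos_le_one x
      have hY : |fY s x 0| ≤ 1 := by
        unfold fY; rw [hsig]; simpa using Real.abs_sin_le_one x
      have ha := abs_al s y
      have hd := abs_de s y
      have hgl := ga_le s
      have hgn := ga_nonneg s
      have e1 : |al s y * fX s x 0| ≤ 1 := by
        rw [abs_mul]
        calc |al s y| * |fX s x 0| ≤ 1 * 1 := mul_le_mul ha hX (abs_nonneg _) (by norm_num)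
          _ = 1 := by norm_num
      have e2 : |de s y * fY s x 0| ≤ 1 := by
        rw [abs_mul]
        calc |de s y| * |fY s x 0| ≤ 1 * 1 := mul_le_mul hd hY (abs_nonneg _) (by norm_num)
          _ = 1 := by norm_num
      rw [abs_le] at e1 e2 ⊢
      constructor <;> nlinarith [e1.1, e1.2, e2.1, e2.2]
    refine ⟨h1, ?_⟩
    rw [hsig]
    have := (abs_le.1 h1).1
    linarith

lemma fA_bd (s x y : ℝ) : -10 < fA s x y 0 0 := by
  unfold fA
  have hX := fX_bd s x
  have hY := fY_bd s x
  have ha := abs_al s y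
  have hd := abs_de s y
  have hgl := ga_le s
  have hgn := ga_nonneg s
  have h := al_de_le s y
  have e1 : |al s y ^ 2 - ga s ^ 2 - de s y ^ 2| ≤ 2 := by
    rw [abs_le]; constructor <;> nlinarith [sq_nonneg (al s y), sq_nonneg (de s y)]
  have e2 : |2 * al s y * de s y| ≤ 2 := by
    rw [abs_le]; constructor <;> nlinarith [sq_nonneg (al s y + de s y), sq_nonneg (al s y - de s y)]
  have e3 : |(al s y ^ 2 - ga s ^ 2 - de s y ^ 2) * fX s x 0| ≤ 4 := by
    rw [abs_mul]
    calc _ ≤ (2:ℝ) * 2 := mul_le_mul e1 hX (abs_nonneg _) (by norm_num)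
      _ = 4 := by norm_num
  have e4 : |2 * al s y * de s y * fY s x 0| ≤ 4 := by
    rw [abs_mul]
    calc _ ≤ (2:ℝ) * 2 := mul_le_mul e2 hY (abs_nonneg _) (by norm_num)
      _ = 4 := by norm_num
  rw [abs_le] at e3 e4
  linarith [e3.1, e4.2]

lemma fC_bd (s x y : ℝ) : -10 < fC s x y 0 0 := by
  unfold fC
  obtain ⟨h1, h2⟩ := fW_bd s x y
  have h3 := Real.neg_one_le_cos y
  have h4 := (abs_le.1 h1).2
  have h5 : 2 - sig s + fW s x y 0 0 ≤ 3 := by linarith [sig_nonneg s]
  nlinarith

/-- periodicity in both angles -/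
lemma stage_per (s x y r w : ℝ) (m n : ℤ) :
    fA s (x + m * (2 * Real.pi)) (y + n * (2 * Real.pi)) r w = fA s x y r w ∧
    fB s (x + m * (2 * Real.pi)) (y + n * (2 * Real.pi)) r w = fB s x y r w ∧
    fC s (x + m * (2 * Real.pi)) (y + n * (2 * Real.pi)) r w = fC s x y r w ∧
    fD s (x + m * (2 * Real.pi)) (y + n * (2 * Real.pi)) r w = fD s x y r w := by
  unfold fC fD fW fA fB fX fY al de
  rw [Real.cos_add_int_mul_two_pi, Real.sin_add_int_mul_two_pi, Real.cos_add_int_mul_two_pi,
    Real.sin_add_int_mul_two_pi]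
  exact ⟨rfl, rfl, rfl, rfl⟩

end Pool.Agent.H73
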