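import Mathlib
import Pool.Agent.H73.Stage

/-!
The explicit embedding of the Sol manifold times a ball.
-/

namespace Pool.Agent.H73

open scoped ContDiff Topology
open Finset Filter

variable {k : ℕ}

lemma fin3val : (3 : Fin (k + 2 + 3)).val = 3 := by
  change 3 % (k + 2 + 3) = 3
  exact Nat.mod_eq_of_lt (by omega)
lemma fin4val : (4 : Fin (k + 2 + 3)).val = 4 := by
  change 4 % (k + 2 + 3) = 4
  exact Nat.mod_eq_of_lt (by omega)
lemma fin2val' : (2 : Fin (k + 2 + 3)).val = 2 := by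
  change 2 % (k + 2 + 3) = 2
  exact Nat.mod_eq_of_lt (by omega)
lemma fin30 : (3 : Fin (k + 2 + 3)) ≠ 0 := by
  intro h; have := congrArg Fin.val h; rw [fin3val] at this; simp at this
lemma fin31 : (3 : Fin (k + 2 + 3)) ≠ 1 := by
  intro h; have := congrArg Fin.val h; rw [fin3val] at this; simp at this
lemma fin32 : (3 : Fin (k + 2 + 3)) ≠ 2 := by
  intro h; have := congrArg Fin.val h; rw [fin3val, fin2val'] at this; simp at this
lemma fin40 : (4 : Fin (k + 2 + 3)) ≠ 0 := by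
  intro h; have := congrArg Fin.val h; rw [fin4val] at this; simp at this
lemma fin41 : (4 : Fin (k + 2 + 3)) ≠ 1 := by
  intro h; have := congrArg Fin.val h; rw [fin4val] at this; simp at this
lemma fin42 : (4 : Fin (k + 2 + 3)) ≠ 2 := by
  intro h; have := congrArg Fin.val h; rw [fin4val, fin2val'] at this; simp at this
lemma fin43 : (4 : Fin (k + 2 + 3)) ≠ 3 := by
  intro h; have := congrArg Fin.val h; rw [fin4val, fin3val] at this; simp at this

noncomputable def th (n : ℤ) (q : V (k + 2 + 3)) : ℝ := 2 * Real.pi * lin n (q 0, q 1)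
noncomputable def rd (n : ℤ) (q : V (k + 2 + 3)) : ℝ := if Even n then q 3 else q 4
noncomputable def wd (n : ℤ) (q : V (k + 2 + 3)) : ℝ := if Even n then q 4 else q 3

noncomputable def gg (f : ℝ → ℝ → ℝ → ℝ → ℝ → ℝ) (n : ℤ) (q : V (k + 2 + 3)) : ℝ :=
  f (2 * q 2 - n) (th n q) (th (n + 1) q) (rd n q) (wd n q)

noncomputable def z1 (n : ℤ) (q : V (k + 2 + 3)) : ℝ := if Even n then gg fA n q else gg fC n q
noncomputable def z2 (n : ℤ) (q : V (k + 2 + 3)) : ℝ := if Even n then gg fB n q else gg fD n q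
noncomputable def z3 (n : ℤ) (q : V (k + 2 + 3)) : ℝ := if Even n then gg fC n q else gg fA n q
noncomputable def z4 (n : ℤ) (q : V (k + 2 + 3)) : ℝ := if Even n then gg fD n q else gg fB n q

noncomputable def FF (n : ℤ) (q : V (k + 2 + 3)) : V (k + 2 + 3) := fun i =>
  if i = 0 then (10 + z1 n q) * Real.cos (2 * Real.pi * q 2)
  else if i = 1 then (10 + z1 n q) * Real.sin (2 * Real.pi * q 2)
  else if i = 2 then z2 n q
  else if i = 3 then z3 n q
  else if i = 4 then z4 n q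
  else q i

noncomputable def Psi (q : V (k + 2 + 3)) : V (k + 2 + 3) := FF ⌊2 * q 2⌋ q

lemma FF_0 (n : ℤ) (q : V (k + 2 + 3)) :
    FF n q 0 = (10 + z1 n q) * Real.cos (2 * Real.pi * q 2) := by simp [FF]
lemma FF_1 (n : ℤ) (q : V (k + 2 + 3)) :
    FF n q 1 = (10 + z1 n q) * Real.sin (2 * Real.pi * q 2) := by simp [FF]
lemma FF_2 (n : ℤ) (q : V (k + 2 + 3)) : FF n q 2 = z2 n q := by
  simp [FF, fin02.symm, fin12.symm]
lemma FF_3 (n : ℤ) (q : V (k + 2 + 3)) : FF n q 3 = z3 n q := by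
  simp [FF, fin30, fin31, fin32]
lemma FF_4 (n : ℤ) (q : V (k + 2 + 3)) : FF n q 4 = z4 n q := by
  simp [FF, fin40, fin41, fin42, fin43]
lemma FF_ge (n : ℤ) (q : V (k + 2 + 3)) {i : Fin (k + 2 + 3)} (h0 : i ≠ 0) (h1 : i ≠ 1)
    (h2 : i ≠ 2) (h3 : i ≠ 3) (h4 : i ≠ 4) : FF n q i = q i := by
  simp [FF, h0, h1, h2, h3, h4]

/-! ### smoothness -/

section smooth

variable {E : Type*} [NormedAddCommGroup E] [NormedSpace ℝ E] {s x y r w : E → ℝ}

lemma tau_smooth (hs : ContDiff ℝ ∞ s) : ContDiff ℝ ∞ (fun e => tau (s e)) := by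
  unfold tau
  exact Real.smoothTransition.contDiff.comp ((contDiff_const.mul hs).sub contDiff_const)
lemma sig_smooth (hs : ContDiff ℝ ∞ s) : ContDiff ℝ ∞ (fun e => sig (s e)) := by
  unfold sig
  exact Real.smoothTransition.contDiff.comp ((contDiff_const.mul hs).sub contDiff_const)

lemma al_smooth (hs : ContDiff ℝ ∞ s) (hy : ContDiff ℝ ∞ y) :
    ContDiff ℝ ∞ (fun e => al (s e) (y e)) := by
  unfold al
  exact (contDiff_const.sub (tau_smooth hs)).add ((tau_smooth hs).mul (Real.contDiff_cos.comp hy))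
lemma ga_smooth (hs : ContDiff ℝ ∞ s) :
    ContDiff ℝ ∞ (fun e => ga (s e)) := by
  unfold ga
  exact (tau_smooth hs).mul (contDiff_const.sub (tau_smooth hs))
lemma de_smooth (hs : ContDiff ℝ ∞ s) (hy : ContDiff ℝ ∞ y) :
    ContDiff ℝ ∞ (fun e => de (s e) (y e)) := by
  unfold de
  exact (tau_smooth hs).mul (Real.contDiff_sin.comp hy)
lemma fX_smooth (hs : ContDiff ℝ ∞ s) (hx : ContDiff ℝ ∞ x) (hr : ContDiff ℝ ∞ r) :
    ContDiff ℝ ∞ (fun e => fX (s e) (x e) (r e)) := by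
  unfold fX
  exact ((contDiff_const.add (sig_smooth hs)).add hr).mul (Real.contDiff_cos.comp hx)
lemma fY_smooth (hs : ContDiff ℝ ∞ s) (hx : ContDiff ℝ ∞ x) (hr : ContDiff ℝ ∞ r) :
    ContDiff ℝ ∞ (fun e => fY (s e) (x e) (r e)) := by
  unfold fY
  exact ((contDiff_const.add (sig_smooth hs)).add hr).mul (Real.contDiff_sin.comp hx)

variable (hs : ContDiff ℝ ∞ s) (hx : ContDiff ℝ ∞ x) (hy : ContDiff ℝ ∞ y)
  (hr : ContDiff ℝ ∞ r) (hw : ContDiff ℝ ∞ w)
include hs hx hy hr hw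

lemma fA_smooth : ContDiff ℝ ∞ (fun e => fA (s e) (x e) (y e) (r e) (w e)) := by
  unfold fA
  have ha := al_smooth hs hy
  have hg := ga_smooth hs
  have hd := de_smooth hs hy
  have hX := fX_smooth hs hx hr
  have hY := fY_smooth hs hx hr
  exact (((((ha.pow 2).sub (hg.pow 2)).sub (hd.pow 2)).mul hX).sub
    (((contDiff_const.mul ha).mul hd).mul hY)).add (((contDiff_const.mul ha).mul hg).mul hw)
lemma fB_smooth : ContDiff ℝ ∞ (fun e => fB (s e) (x e) (y e) (r e) (w e)) := by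
  unfold fB
  have ha := al_smooth hs hy
  have hg := ga_smooth hs
  have hd := de_smooth hs hy
  have hX := fX_smooth hs hx hr
  have hY := fY_smooth hs hx hr
  exact ((((contDiff_const.mul ha).mul hd).mul hX).add
    ((((ha.pow 2).add (hg.pow 2)).sub (hd.pow 2)).mul hY)).add
    (((contDiff_const.mul hg).mul hd).mul hw)
lemma fW_smooth : ContDiff ℝ ∞ (fun e => fW (s e) (x e) (y e) (r e) (w e)) := by
  unfold fW
  have ha := al_smooth hs hy
  have hg := ga_smooth hs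
  have hd := de_smooth hs hy
  have hX := fX_smooth hs hx hr
  have hY := fY_smooth hs hx hr
  exact (((((contDiff_const.mul ha).mul hg).neg).mul hX).add
    (((contDiff_const.mul hg).mul hd).mul hY)).add
    ((((ha.pow 2).sub (hg.pow 2)).add (hd.pow 2)).mul hw)
lemma fC_smooth : ContDiff ℝ ∞ (fun e => fC (s e) (x e) (y e) (r e) (w e)) := by
  unfold fC
  exact ((contDiff_const.sub (sig_smooth hs)).add (fW_smooth hs hx hy hr hw)).mul
    (Real.contDiff_cos.comp hy)
lemma fD_smooth : ContDiff ℝ ∞ (fun e => fD (s e) (x e) (y e) (r e) (w e)) := by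
  unfold fD
  exact ((contDiff_const.sub (sig_smooth hs)).add (fW_smooth hs hx hy hr hw)).mul
    (Real.contDiff_sin.comp hy)

end smooth

lemma coord_smooth (i : Fin (k + 2 + 3)) : ContDiff ℝ ∞ (fun q : V (k + 2 + 3) => q i) :=
  contDiff_apply ℝ ℝ i

lemma th_smooth (n : ℤ) : ContDiff ℝ ∞ (fun q : V (k + 2 + 3) => th n q) := by
  unfold th lin
  exact contDiff_const.mul ((contDiff_const.mul (coord_smooth 0)).add
    (contDiff_const.mul (coord_smooth 1)))
lemma rd_smooth (n : ℤ) : ContDiff ℝ ∞ (fun q : V (k + 2 + 3) => rd n q) := by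
  unfold rd; split_ifs <;> exact coord_smooth _
lemma wd_smooth (n : ℤ) : ContDiff ℝ ∞ (fun q : V (k + 2 + 3) => wd n q) := by
  unfold wd; split_ifs <;> exact coord_smooth _
lemma s_smooth (n : ℤ) : ContDiff ℝ ∞ (fun q : V (k + 2 + 3) => 2 * q 2 - (n:ℝ)) :=
  (contDiff_const.mul (coord_smooth 2)).sub contDiff_const

lemma gA_smooth (n : ℤ) : ContDiff ℝ ∞ (fun q : V (k + 2 + 3) => gg fA n q) :=
  fA_smooth (s_smooth n) (th_smooth n) (th_smooth (n + 1)) (rd_smooth n) (wd_smooth n)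
lemma gB_smooth (n : ℤ) : ContDiff ℝ ∞ (fun q : V (k + 2 + 3) => gg fB n q) :=
  fB_smooth (s_smooth n) (th_smooth n) (th_smooth (n + 1)) (rd_smooth n) (wd_smooth n)
lemma gC_smooth (n : ℤ) : ContDiff ℝ ∞ (fun q : V (k + 2 + 3) => gg fC n q) :=
  fC_smooth (s_smooth n) (th_smooth n) (th_smooth (n + 1)) (rd_smooth n) (wd_smooth n)
lemma gD_smooth (n : ℤ) : ContDiff ℝ ∞ (fun q : V (k + 2 + 3) => gg fD n q) :=
  fD_smooth (s_smooth n) (th_smooth n) (th_smooth (n + 1)) (rd_smooth n) (wd_smooth n)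
lemma gW_smooth (n : ℤ) : ContDiff ℝ ∞ (fun q : V (k + 2 + 3) => gg fW n q) :=
  fW_smooth (s_smooth n) (th_smooth n) (th_smooth (n + 1)) (rd_smooth n) (wd_smooth n)

lemma z1_smooth (n : ℤ) : ContDiff ℝ ∞ (fun q : V (k + 2 + 3) => z1 n q) := by
  unfold z1; split_ifs; exacts [gA_smooth n, gC_smooth n]
lemma z2_smooth (n : ℤ) : ContDiff ℝ ∞ (fun q : V (k + 2 + 3) => z2 n q) := by
  unfold z2; split_ifs; exacts [gB_smooth n, gD_smooth n]
lemma z3_smooth (n : ℤ) : ContDiff ℝ ∞ (fun q : V (k + 2 + 3) => z3 n q) := by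
  unfold z3; split_ifs; exacts [gC_smooth n, gA_smooth n]
lemma z4_smooth (n : ℤ) : ContDiff ℝ ∞ (fun q : V (k + 2 + 3) => z4 n q) := by
  unfold z4; split_ifs; exacts [gD_smooth n, gB_smooth n]

lemma FF_smooth (n : ℤ) : ContDiff ℝ ∞ (FF n : V (k + 2 + 3) → V (k + 2 + 3)) := by
  rw [contDiff_pi]
  intro i
  unfold FF
  split_ifs
  · exact (contDiff_const.add (z1_smooth n)).mul
      (Real.contDiff_cos.comp (contDiff_const.mul (coord_smooth 2)))
  · exact (contDiff_const.add (z1_smooth n)).mul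
      (Real.contDiff_sin.comp (contDiff_const.mul (coord_smooth 2)))
  · exact z2_smooth n
  · exact z3_smooth n
  · exact z4_smooth n
  · exact coord_smooth i

/-! ### matching -/

lemma th_rec (n : ℤ) (q : V (k + 2 + 3)) : th (n + 2) q = th n q + 2 * th (n + 1) q := by
  unfold th; rw [lin_rec]; ring

lemma even_succ_iff (n : ℤ) : Even (n + 1) ↔ ¬ Even n := Int.even_add_one

lemma gg_match {n : ℤ} {q : V (k + 2 + 3)} (h1 : (n:ℝ) + 7 / 8 ≤ 2 * q 2)
    (h2 : 2 * q 2 ≤ n + 5 / 4) :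
    gg fA n q = gg fC (n + 1) q ∧ gg fB n q = gg fD (n + 1) q ∧
    gg fC n q = gg fA (n + 1) q ∧ gg fD n q = gg fB (n + 1) q := by
  have hs : 7 / 8 ≤ 2 * q 2 - (n:ℝ) := by linarith
  have hs' : 2 * q 2 - ((n + 1 : ℤ) : ℝ) ≤ 1 / 4 := by push_cast; linarith
  have hr : rd (n + 1) q = wd n q := by
    unfold rd wd
    by_cases h : Even n
    · have h' : ¬ Even (n + 1) := by rw [even_succ_iff]; exact not_not.2 h
      rw [if_neg h', if_pos h]
    · have h' : Even (n + 1) := by rw [even_succ_iff]; exact h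
      rw [if_pos h', if_neg h]
  have hw : wd (n + 1) q = rd n q := by
    unfold rd wd
    by_cases h : Even n
    · have h' : ¬ Even (n + 1) := by rw [even_succ_iff]; exact not_not.2 h
      rw [if_neg h', if_pos h]
    · have h' : Even (n + 1) := by rw [even_succ_iff]; exact h
      rw [if_pos h', if_neg h]
  have ht : th (n + 1 + 1) q = th n q + 2 * th (n + 1) q := by
    rw [show n + 1 + 1 = n + 2 by ring]; exact th_rec n q
  unfold gg
  rw [fA_high hs, fB_high hs, fC_high hs, fD_high hs, fA_low hs', fB_low hs', fC_low hs',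
    fD_low hs', hr, hw, ht]
  exact ⟨rfl, rfl, rfl, rfl⟩

lemma FF_match {n : ℤ} {q : V (k + 2 + 3)} (h1 : (n:ℝ) + 7 / 8 ≤ 2 * q 2)
    (h2 : 2 * q 2 ≤ n + 5 / 4) : FF n q = FF (n + 1) q := by
  obtain ⟨e1, e2, e3, e4⟩ := gg_match h1 h2
  have g1 : z1 n q = z1 (n + 1) q := by
    unfold z1
    by_cases h : Even n
    · have h' : ¬ Even (n + 1) := by rw [even_succ_iff]; exact not_not.2 h
      rw [if_neg h', if_pos h, e1]
    · have h' : Even (n + 1) := by rw [even_succ_iff]; exact h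
      rw [if_pos h', if_neg h, e3]
  have g2 : z2 n q = z2 (n + 1) q := by
    unfold z2
    by_cases h : Even n
    · have h' : ¬ Even (n + 1) := by rw [even_succ_iff]; exact not_not.2 h
      rw [if_neg h', if_pos h, e2]
    · have h' : Even (n + 1) := by rw [even_succ_iff]; exact h
      rw [if_pos h', if_neg h, e4]
  have g3 : z3 n q = z3 (n + 1) q := by
    unfold z3
    by_cases h : Even n
    · have h' : ¬ Even (n + 1) := by rw [even_succ_iff]; exact not_not.2 h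
      rw [if_neg h', if_pos h, e3]
    · have h' : Even (n + 1) := by rw [even_succ_iff]; exact h
      rw [if_pos h', if_neg h, e1]
  have g4 : z4 n q = z4 (n + 1) q := by
    unfold z4
    by_cases h : Even n
    · have h' : ¬ Even (n + 1) := by rw [even_succ_iff]; exact not_not.2 h
      rw [if_neg h', if_pos h, e4]
    · have h' : Even (n + 1) := by rw [even_succ_iff]; exact h
      rw [if_pos h', if_neg h, e2]
  funext i
  unfold FF
  rw [g1, g2, g3, g4]

lemma Psi_eventually (q : V (k + 2 + 3)) : Psi =ᶠ[𝓝 q] FF ⌊2 * q 2⌋ := by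
  set n := ⌊2 * q 2⌋ with hn
  have h1 : (n:ℝ) ≤ 2 * q 2 := Int.floor_le _
  have h2 : 2 * q 2 < n + 1 := Int.lt_floor_add_one _
  have hc : Continuous (fun p : V (k + 2 + 3) => 2 * p 2) := by fun_prop
  have e1 : ∀ᶠ p : V (k + 2 + 3) in 𝓝 q, (n:ℝ) - 1 / 8 < 2 * p 2 :=
    hc.continuousAt.eventually_const_lt (by linarith)
  have e2 : ∀ᶠ p : V (k + 2 + 3) in 𝓝 q, 2 * p 2 < (n:ℝ) + 1 :=
    hc.continuousAt.eventually_lt_const h2
  filter_upwards [e1, e2] with p h3 h4
  by_cases h5 : (n:ℝ) ≤ 2 * p 2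
  · have : ⌊2 * p 2⌋ = n := Int.floor_eq_iff.2 ⟨h5, h4⟩
    unfold Psi; rw [this]
  · push Not at h5
    have : ⌊2 * p 2⌋ = n - 1 := by
      rw [Int.floor_eq_iff]; push_cast; constructor <;> linarith
    unfold Psi; rw [this]
    have h6 := FF_match (n := n - 1) (q := p) (by push_cast; linarith) (by push_cast; linarith)
    rw [h6]
    congr 1
    ring

lemma Psi_smooth : ContDiff ℝ ∞ (Psi : V (k + 2 + 3) → V (k + 2 + 3)) := by
  rw [contDiff_iff_contDiffAt]
  intro q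
  exact (FF_smooth _).contDiffAt.congr_of_eventuallyEq (Psi_eventually q)

/-! ### invariance -/

lemma th_act (n l : ℤ) (a : ℝ × ℝ) (q : V (k + 2 + 3)) :
    th (n + 2 * l) (act mu0 l a q) = th n q + 2 * Real.pi * lin (n + 2 * l) a := by
  unfold th
  rw [act_zero, act_one]
  have : ((Real.exp (mu0 * l) * q 0 + a.1, Real.exp (-(mu0 * l)) * q 1 + a.2) : ℝ × ℝ) =
      (Real.exp (mu0 * l) * (q 0, q 1).1, Real.exp (-(mu0 * l)) * (q 0, q 1).2) + a := rfl
  rw [this, lin_add, lin_act]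
  ring

lemma act_3 (l : ℤ) (a : ℝ × ℝ) (q : V (k + 2 + 3)) : act mu0 l a q 3 = q 3 :=
  act_ge _ _ _ _ fin30 fin31 fin32
lemma act_4 (l : ℤ) (a : ℝ × ℝ) (q : V (k + 2 + 3)) : act mu0 l a q 4 = q 4 :=
  act_ge _ _ _ _ fin40 fin41 fin42

lemma even_add_two_mul (n l : ℤ) : Even (n + 2 * l) ↔ Even n := by
  rw [Int.even_add]
  constructor
  · intro h; exact h.2 (even_two_mul l)
  · intro h; exact ⟨fun _ => even_two_mul l, fun _ => h⟩

lemma gg_act (n l : ℤ) {a : ℝ × ℝ} (ha : a ∈ Gam) (q : V (k + 2 + 3)) :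
    gg fA (n + 2 * l) (act mu0 l a q) = gg fA n q ∧ gg fB (n + 2 * l) (act mu0 l a q) = gg fB n q ∧
    gg fC (n + 2 * l) (act mu0 l a q) = gg fC n q ∧
    gg fD (n + 2 * l) (act mu0 l a q) = gg fD n q := by
  obtain ⟨⟨m, hm⟩, ⟨m', hm'⟩⟩ := (mem_Gam (n + 2 * l)).1 ha
  have h1 : th (n + 2 * l) (act mu0 l a q) = th n q + m * (2 * Real.pi) := by
    rw [th_act, hm]; ring
  have h2 : th (n + 2 * l + 1) (act mu0 l a q) = th (n + 1) q + m' * (2 * Real.pi) := by
    rw [show n + 2 * l + 1 = (n + 1) + 2 * l by ring] at hm' ⊢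
    rw [th_act, hm']; ring
  have h3 : rd (n + 2 * l) (act mu0 l a q) = rd n q := by
    unfold rd; simp only [even_add_two_mul, act_3, act_4]
  have h4 : wd (n + 2 * l) (act mu0 l a q) = wd n q := by
    unfold wd; simp only [even_add_two_mul, act_3, act_4]
  have h5 : 2 * (act mu0 l a q) 2 - ((n + 2 * l : ℤ) : ℝ) = 2 * q 2 - n := by
    rw [act_two]; push_cast; ring
  unfold gg
  rw [h1, h2, h3, h4, h5]
  exact stage_per _ _ _ _ _ m m'

lemma FF_act (n l : ℤ) {a : ℝ × ℝ} (ha : a ∈ Gam) (q : V (k + 2 + 3)) :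
    FF (n + 2 * l) (act mu0 l a q) = FF n q := by
  obtain ⟨e1, e2, e3, e4⟩ := gg_act n l ha q
  have c1 : Real.cos (2 * Real.pi * (act mu0 l a q) 2) = Real.cos (2 * Real.pi * q 2) := by
    rw [act_two, show 2 * Real.pi * (q 2 + l) = 2 * Real.pi * q 2 + l * (2 * Real.pi) by ring,
      Real.cos_add_int_mul_two_pi]
  have c2 : Real.sin (2 * Real.pi * (act mu0 l a q) 2) = Real.sin (2 * Real.pi * q 2) := by
    rw [act_two, show 2 * Real.pi * (q 2 + l) = 2 * Real.pi * q 2 + l * (2 * Real.pi) by ring,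
      Real.sin_add_int_mul_two_pi]
  funext i
  by_cases h0 : i = 0
  · subst h0; rw [FF_0, FF_0, c1]; unfold z1; simp only [even_add_two_mul, e1, e3]
  by_cases h1 : i = 1
  · subst h1; rw [FF_1, FF_1, c2]; unfold z1; simp only [even_add_two_mul, e1, e3]
  by_cases h2 : i = 2
  · subst h2; rw [FF_2, FF_2]; unfold z2; simp only [even_add_two_mul, e2, e4]
  by_cases h3 : i = 3
  · subst h3; rw [FF_3, FF_3]; unfold z3; simp only [even_add_two_mul, e1, e3]
  by_cases h4 : i = 4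
  · subst h4; rw [FF_4, FF_4]; unfold z4; simp only [even_add_two_mul, e2, e4]
  rw [FF_ge _ _ h0 h1 h2 h3 h4, FF_ge _ _ h0 h1 h2 h3 h4]
  exact act_ge _ _ _ _ h0 h1 h2

lemma Psi_act (l : ℤ) {a : ℝ × ℝ} (ha : a ∈ Gam) (q : V (k + 2 + 3)) :
    Psi (act mu0 l a q) = Psi q := by
  unfold Psi
  have : ⌊2 * (act mu0 l a q) 2⌋ = ⌊2 * q 2⌋ + 2 * l := by
    rw [act_two, show 2 * (q 2 + (l:ℝ)) = 2 * q 2 + ((2 * l : ℤ) : ℝ) by push_cast; ring,
      Int.floor_add_intCast]
  rw [this, FF_act _ _ ha]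

end Pool.Agent.H73
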