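import Mathlib
import Pool.Agent.H73.Emb5

/-!
Injectivity and immersivity of the explicit map on the core.
-/

namespace Pool.Agent.H73

open scoped ContDiff Topology
open Finset Filter

variable {k : ℕ}

lemma polar_inj {ρ ρ' θ θ' : ℝ} (h : 0 < ρ) (h' : 0 < ρ')
    (hc : ρ * Real.cos θ = ρ' * Real.cos θ') (hs : ρ * Real.sin θ = ρ' * Real.sin θ') :
    ρ = ρ' ∧ ∃ m : ℤ, θ = θ' + m * (2 * Real.pi) := by
  have h1 := Real.cos_sq_add_sin_sq θ
  have h2 := Real.cos_sq_add_sin_sq θ'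
  have h3 : ρ ^ 2 = ρ' ^ 2 := by
    have e1 : ρ ^ 2 = (ρ * Real.cos θ) ^ 2 + (ρ * Real.sin θ) ^ 2 := by
      linear_combination (-ρ ^ 2) * h1
    have e2 : ρ' ^ 2 = (ρ' * Real.cos θ') ^ 2 + (ρ' * Real.sin θ') ^ 2 := by
      linear_combination (-ρ' ^ 2) * h2
    rw [e1, e2, hc, hs]
  have h4 : ρ = ρ' := by
    have := (sq_eq_sq₀ h.le h'.le).1 h3
    exact this
  refine ⟨h4, ?_⟩
  subst h4
  have c : Real.cos θ = Real.cos θ' := mul_left_cancel₀ h.ne' hc
  have s : Real.sin θ = Real.sin θ' := mul_left_cancel₀ h.ne' hs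
  obtain ⟨m, hm⟩ := Real.Angle.angle_eq_iff_two_pi_dvd_sub.1 (Real.Angle.cos_sin_inj c s)
  exact ⟨m, by linarith⟩

/-- the stage is injective on the core -/
lemma stage_inj {s x y x' y' : ℝ} (h1 : fA s x y 0 0 = fA s x' y' 0 0)
    (h2 : fB s x y 0 0 = fB s x' y' 0 0) (h3 : fC s x y 0 0 = fC s x' y' 0 0)
    (h4 : fD s x y 0 0 = fD s x' y' 0 0) :
    (∃ m : ℤ, x = x' + m * (2 * Real.pi)) ∧ (∃ m : ℤ, y = y' + m * (2 * Real.pi)) := by
  unfold fC at h3
  unfold fD at h4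
  obtain ⟨h5, m, hm⟩ := polar_inj (fW_bd s x y).2 (fW_bd s x' y').2 h3 h4
  have hW : fW s x y 0 0 = fW s x' y' 0 0 := by linarith
  refine ⟨?_, m, hm⟩
  have ha : al s y = al s y' := by
    unfold al; rw [hm, Real.cos_add_int_mul_two_pi]
  have hd : de s y = de s y' := by
    unfold de; rw [hm, Real.sin_add_int_mul_two_pi]
  have i1 := inv_X s x y 0 0
  have i1' := inv_X s x' y' 0 0
  have i2 := inv_Y s x y 0 0
  have i2' := inv_Y s x' y' 0 0
  rw [h1, h2, hW, ha, hd, ← i1'] at i1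
  rw [h1, h2, hW, ha, hd, ← i2'] at i2
  have hn := nn_pos s y'
  have hn2 : (al s y' ^ 2 + ga s ^ 2 + de s y' ^ 2) ^ 2 ≠ 0 := by positivity
  have hX : fX s x 0 = fX s x' 0 := mul_left_cancel₀ hn2 i1
  have hY : fY s x 0 = fY s x' 0 := mul_left_cancel₀ hn2 i2
  unfold fX at hX
  unfold fY at hY
  have hp : 0 < 1 + sig s + 0 := by linarith [sig_nonneg s]
  exact (polar_inj hp hp hX hY).2

lemma core_3 {q : V (k + 2 + 3)} (h : core q) : q 3 = 0 := h 3 fin30 fin31 fin32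
lemma core_4 {q : V (k + 2 + 3)} (h : core q) : q 4 = 0 := h 4 fin40 fin41 fin42
lemma core_rd {q : V (k + 2 + 3)} (h : core q) (n : ℤ) : rd n q = 0 := by
  unfold rd; rw [core_3 h, core_4 h]; simp
lemma core_wd {q : V (k + 2 + 3)} (h : core q) (n : ℤ) : wd n q = 0 := by
  unfold wd; rw [core_3 h, core_4 h]; simp

lemma z1_gt {q : V (k + 2 + 3)} (h : core q) (n : ℤ) : 0 < 10 + z1 n q := by
  have h1 : -10 < gg fA n q := by
    unfold gg; rw [core_rd h, core_wd h]; exact fA_bd _ _ _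
  have h2 : -10 < gg fC n q := by
    unfold gg; rw [core_rd h, core_wd h]; exact fC_bd _ _ _
  unfold z1
  split_ifs <;> linarith

lemma FF_eq_iff_gg {n : ℤ} {q q' : V (k + 2 + 3)} (h1 : z1 n q = z1 n q') (h2 : z2 n q = z2 n q')
    (h3 : z3 n q = z3 n q') (h4 : z4 n q = z4 n q') :
    gg fA n q = gg fA n q' ∧ gg fB n q = gg fB n q' ∧ gg fC n q = gg fC n q' ∧
    gg fD n q = gg fD n q' := by
  unfold z1 at h1
  unfold z2 at h2
  unfold z3 at h3
  unfold z4 at h4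
  by_cases h : Even n
  · rw [if_pos h, if_pos h] at h1 h2 h3 h4
    exact ⟨h1, h2, h3, h4⟩
  · rw [if_neg h, if_neg h] at h1 h2 h3 h4
    exact ⟨h3, h4, h1, h2⟩

lemma Psi_inj_aux {q q' : V (k + 2 + 3)} (hq : core q) (hq' : core q') (h : Psi q = Psi q')
    (h2 : q 2 = q' 2) : Rel mu0 Gam q q' := by
  unfold Psi at h
  rw [← h2] at h
  set n := ⌊2 * q 2⌋ with hn
  have e0 := congrFun h 0
  have e1 := congrFun h 1
  have e2 := congrFun h 2
  have e3 := congrFun h 3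
  have e4 := congrFun h 4
  rw [FF_0, FF_0] at e0
  rw [FF_1, FF_1] at e1
  rw [FF_2, FF_2] at e2
  rw [FF_3, FF_3] at e3
  rw [FF_4, FF_4] at e4
  have hz1 : z1 n q = z1 n q' := by
    have := (polar_inj (z1_gt hq n) (z1_gt hq' n) e0 e1).1
    linarith
  obtain ⟨g1, g2, g3, g4⟩ := FF_eq_iff_gg hz1 e2 e3 e4
  unfold gg at g1 g2 g3 g4
  rw [core_rd hq, core_wd hq, core_rd hq', core_wd hq', ← h2] at g1 g2 g3 g4
  obtain ⟨⟨m, hm⟩, m', hm'⟩ := stage_inj g1 g2 g3 g4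
  -- the difference is a lattice vector
  set a : ℝ × ℝ := (q' 0 - q 0, q' 1 - q 1) with ha
  have hpi : (0:ℝ) < 2 * Real.pi := by positivity
  have key : ∀ j : ℤ, ∀ m : ℤ, th j q = th j q' + m * (2 * Real.pi) → IsI (lin j a) := by
    intro j m hm
    refine ⟨-m, ?_⟩
    unfold th at hm
    have h5 : lin j (q 0, q 1) = lin j (q' 0, q' 1) + m := by
      have : 2 * Real.pi * lin j (q 0, q 1) = 2 * Real.pi * (lin j (q' 0, q' 1) + m) := by
        rw [hm]; ring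
      exact mul_left_cancel₀ hpi.ne' this
    have h6 : lin j (q' 0, q' 1) = lin j (q 0, q 1) + lin j a := by
      rw [← lin_add]; congr 1; rw [ha]; ext <;> simp
    push_cast
    linarith
  have haG : a ∈ Gam := (mem_Gam n).2 ⟨key n m hm, key (n + 1) m' hm'⟩
  refine ⟨0, a, haG, ?_⟩
  funext i
  by_cases h0 : i = 0
  · subst h0; rw [act_zero]; simp [ha]
  by_cases h1 : i = 1
  · subst h1; rw [act_one]; simp [ha]
  by_cases h2' : i = 2
  · subst h2'; rw [act_two]; simp [h2]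
  · rw [act_ge _ _ _ _ h0 h1 h2', hq i h0 h1 h2', hq' i h0 h1 h2']

lemma core_act {l : ℤ} {a : ℝ × ℝ} {q : V (k + 3)} (h : core q) :
    core (act mu0 l a q) := by
  intro j h0 h1 h2
  rw [act_ge _ _ _ _ h0 h1 h2]
  exact h j h0 h1 h2

lemma Psi_inj {q q' : V (k + 2 + 3)} (hq : core q) (hq' : core q') (h : Psi q = Psi q') :
    Rel mu0 Gam q q' := by
  have e0 := congrFun h 0
  have e1 := congrFun h 1
  unfold Psi at e0 e1
  rw [FF_0, FF_0] at e0
  rw [FF_1, FF_1] at e1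
  obtain ⟨-, m, hm⟩ := polar_inj (z1_gt hq _) (z1_gt hq' _) e0 e1
  have hpi : (0:ℝ) < 2 * Real.pi := by positivity
  have h2 : q 2 = q' 2 + m := by
    have : 2 * Real.pi * q 2 = 2 * Real.pi * (q' 2 + m) := by rw [hm]; ring
    exact mul_left_cancel₀ hpi.ne' this
  have h0 : ((0:ℝ), (0:ℝ)) ∈ Gam := Gam.zero_mem
  have h3 : Psi q = Psi (act mu0 m (0, 0) q') := by rw [Psi_act _ h0]; exact h
  have h4 := Psi_inj_aux hq (core_act hq') h3 (by rw [act_two]; exact h2)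
  have h5 : Rel mu0 Gam q' (act mu0 m (0, 0) q') := ⟨m, (0, 0), h0, rfl⟩
  exact Rel.trans Gam_inv h4 (Rel.symm Gam_inv h5)

/-! ### immersion -/

lemma polar_deriv {ρ θ : ℝ → ℝ} {ρ' θ' t : ℝ} (hρ : HasDerivAt ρ ρ' t) (hθ : HasDerivAt θ θ' t)
    (h0 : ρ t ≠ 0) (hc : HasDerivAt (fun t => ρ t * Real.cos (θ t)) 0 t)
    (hs : HasDerivAt (fun t => ρ t * Real.sin (θ t)) 0 t) : ρ' = 0 ∧ θ' = 0 := by
  have h1 := (hρ.mul hθ.cos).unique hc
  have h2 := (hρ.mul hθ.sin).unique hs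
  have h3 := Real.cos_sq_add_sin_sq (θ t)
  constructor
  · linear_combination Real.cos (θ t) * h1 + Real.sin (θ t) * h2 - ρ' * h3
  · have : ρ t * θ' = 0 := by
      linear_combination (-Real.sin (θ t)) * h1 + Real.cos (θ t) * h2 - ρ t * θ' * h3
    exact (mul_eq_zero.1 this).resolve_left h0

/-- the stage is immersive (s, y fixed first) -/
lemma stage_imm {s : ℝ} {x y r w : ℝ → ℝ} {x' y' r' w' : ℝ} (hx : HasDerivAt x x' 0)
    (hy : HasDerivAt y y' 0) (hyl : ∀ t, y t = y 0 + t * y')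
    (hr : HasDerivAt r r' 0) (hw : HasDerivAt w w' 0)
    {W' : ℝ} (hW : HasDerivAt (fun t => fW s (x t) (y t) (r t) (w t)) W' 0)
    (r0 : r 0 = 0) (w0 : w 0 = 0)
    (hA : HasDerivAt (fun t => fA s (x t) (y t) (r t) (w t)) 0 0)
    (hB : HasDerivAt (fun t => fB s (x t) (y t) (r t) (w t)) 0 0)
    (hC : HasDerivAt (fun t => fC s (x t) (y t) (r t) (w t)) 0 0)
    (hD : HasDerivAt (fun t => fD s (x t) (y t) (r t) (w t)) 0 0) :
    x' = 0 ∧ y' = 0 ∧ r' = 0 ∧ w' = 0 := by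
  have h1 : HasDerivAt (fun t => 2 - sig s + fW s (x t) (y t) (r t) (w t)) W' 0 := by
    simpa using hW.const_add (2 - sig s)
  have hne : (2 - sig s + fW s (x 0) (y 0) (r 0) (w 0)) ≠ 0 := by
    rw [r0, w0]; exact (fW_bd s (x 0) (y 0)).2.ne'
  obtain ⟨hW0, hy0⟩ := polar_deriv (t := 0) h1 hy hne hC hD
  have hyc : ∀ t, y t = y 0 := by intro t; rw [hyl t, hy0]; ring
  -- the matrix is constant
  set A := al s (y 0) with hAdef
  set D := de s (y 0) with hDdef
  set G := ga s with hGdef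
  have hX : HasDerivAt (fun t => (A ^ 2 + G ^ 2 + D ^ 2) ^ 2 * fX s (x t) (r t)) 0 0 := by
    have : (fun t => (A ^ 2 + G ^ 2 + D ^ 2) ^ 2 * fX s (x t) (r t)) = fun t =>
        (A ^ 2 - G ^ 2 - D ^ 2) * fA s (x t) (y t) (r t) (w t) +
        2 * A * D * fB s (x t) (y t) (r t) (w t)
        - 2 * A * G * fW s (x t) (y t) (r t) (w t) := by
      funext t
      have := inv_X s (x t) (y t) (r t) (w t)
      rw [hyc t] at this ⊢
      exact this
    rw [this]
    have := ((hA.const_mul (A ^ 2 - G ^ 2 - D ^ 2)).add (hB.const_mul (2 * A * D))).sub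
      (hW.const_mul (2 * A * G))
    rw [hW0] at this
    simp only [mul_zero, add_zero, sub_zero] at this
    exact this
  have hY : HasDerivAt (fun t => (A ^ 2 + G ^ 2 + D ^ 2) ^ 2 * fY s (x t) (r t)) 0 0 := by
    have : (fun t => (A ^ 2 + G ^ 2 + D ^ 2) ^ 2 * fY s (x t) (r t)) = fun t =>
        -(2 * A * D) * fA s (x t) (y t) (r t) (w t) +
        (A ^ 2 + G ^ 2 - D ^ 2) * fB s (x t) (y t) (r t) (w t)
        + 2 * G * D * fW s (x t) (y t) (r t) (w t) := by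
      funext t
      have := inv_Y s (x t) (y t) (r t) (w t)
      rw [hyc t] at this ⊢
      exact this
    rw [this]
    have := ((hA.const_mul (-(2 * A * D))).add (hB.const_mul (A ^ 2 + G ^ 2 - D ^ 2))).add
      (hW.const_mul (2 * G * D))
    rw [hW0] at this
    simp only [mul_zero, add_zero, sub_zero] at this
    exact this
  have hw2 : HasDerivAt (fun t => (A ^ 2 + G ^ 2 + D ^ 2) ^ 2 * w t) 0 0 := by
    have : (fun t => (A ^ 2 + G ^ 2 + D ^ 2) ^ 2 * w t) = fun t =>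
        2 * A * G * fA s (x t) (y t) (r t) (w t) +
        2 * G * D * fB s (x t) (y t) (r t) (w t)
        + (A ^ 2 - G ^ 2 + D ^ 2) * fW s (x t) (y t) (r t) (w t) := by
      funext t
      have := inv_w s (x t) (y t) (r t) (w t)
      rw [hyc t] at this ⊢
      exact this
    rw [this]
    have := ((hA.const_mul (2 * A * G)).add (hB.const_mul (2 * G * D))).add
      (hW.const_mul (A ^ 2 - G ^ 2 + D ^ 2))
    rw [hW0] at this
    simp only [mul_zero, add_zero, sub_zero] at this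
    exact this
  have hn : (A ^ 2 + G ^ 2 + D ^ 2) ^ 2 ≠ 0 := by
    have := nn_pos s (y 0)
    rw [← hAdef, ← hGdef, ← hDdef] at this
    positivity
  have hw3 : w' = 0 := by
    have := (hw.const_mul ((A ^ 2 + G ^ 2 + D ^ 2) ^ 2)).unique hw2
    exact (mul_eq_zero.1 this).resolve_left hn
  have hr1 : HasDerivAt (fun t => (A ^ 2 + G ^ 2 + D ^ 2) ^ 2 * (1 + sig s + r t))
      ((A ^ 2 + G ^ 2 + D ^ 2) ^ 2 * r') 0 := by
    have := (hr.const_add (1 + sig s)).const_mul ((A ^ 2 + G ^ 2 + D ^ 2) ^ 2)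
    simpa using this
  have hne2 : (A ^ 2 + G ^ 2 + D ^ 2) ^ 2 * (1 + sig s + r 0) ≠ 0 := by
    refine mul_ne_zero hn ?_
    rw [r0]; have := sig_nonneg s; positivity
  have hX' : HasDerivAt (fun t => (A ^ 2 + G ^ 2 + D ^ 2) ^ 2 * (1 + sig s + r t) *
      Real.cos (x t)) 0 0 := by
    have e : (fun t => (A ^ 2 + G ^ 2 + D ^ 2) ^ 2 * (1 + sig s + r t) * Real.cos (x t)) =
      (fun t => (A ^ 2 + G ^ 2 + D ^ 2) ^ 2 * fX s (x t) (r t)) := by
      funext t; unfold fX; ring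
    rw [e]; exact hX
  have hY' : HasDerivAt (fun t => (A ^ 2 + G ^ 2 + D ^ 2) ^ 2 * (1 + sig s + r t) *
      Real.sin (x t)) 0 0 := by
    have e : (fun t => (A ^ 2 + G ^ 2 + D ^ 2) ^ 2 * (1 + sig s + r t) * Real.sin (x t)) =
      (fun t => (A ^ 2 + G ^ 2 + D ^ 2) ^ 2 * fY s (x t) (r t)) := by
      funext t; unfold fY; ring
    rw [e]; exact hY
  obtain ⟨h5, h6⟩ := polar_deriv (t := 0) hr1 hx hne2 hX' hY'
  exact ⟨h6, hy0, (mul_eq_zero.1 h5).resolve_left hn, hw3⟩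

/-- a straight line -/
noncomputable def ln (q h : V (k + 2 + 3)) (t : ℝ) : V (k + 2 + 3) := q + t • h

lemma ln_apply (q h : V (k + 2 + 3)) (t : ℝ) (i : Fin (k + 2 + 3)) :
    ln q h t i = q i + t * h i := rfl
lemma ln_hasDerivAt (q h : V (k + 2 + 3)) (t : ℝ) : HasDerivAt (ln q h) h t := by
  have h1 : HasDerivAt (fun t : ℝ => t • h) ((1:ℝ) • h) t := (hasDerivAt_id t).smul_const h
  have h2 := h1.const_add q
  rw [one_smul] at h2
  exact h2
lemma ln_coord (q h : V (k + 2 + 3)) (i : Fin (k + 2 + 3)) (t : ℝ) :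
    HasDerivAt (fun t => ln q h t i) (h i) t := by
  have := ln_hasDerivAt q h t
  rw [hasDerivAt_pi] at this
  exact this i

lemma th_ln (n : ℤ) (q h : V (k + 2 + 3)) (t : ℝ) : th n (ln q h t) = th n q + t * th n h := by
  unfold th lin
  simp only [ln_apply]
  ring

lemma th_ln_deriv (n : ℤ) (q h : V (k + 2 + 3)) (t : ℝ) :
    HasDerivAt (fun t => th n (ln q h t)) (th n h) t := by
  have e : (fun t => th n (ln q h t)) = fun t => th n q + t * th n h := funext fun t => th_ln n q h t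
  rw [e]
  simpa using ((hasDerivAt_id t).mul_const (th n h)).const_add (th n q)

lemma rd_ln_deriv (n : ℤ) (q h : V (k + 2 + 3)) (t : ℝ) :
    HasDerivAt (fun t => rd n (ln q h t)) (rd n h) t := by
  unfold rd; split_ifs <;> exact ln_coord q h _ t
lemma wd_ln_deriv (n : ℤ) (q h : V (k + 2 + 3)) (t : ℝ) :
    HasDerivAt (fun t => wd n (ln q h t)) (wd n h) t := by
  unfold wd; split_ifs <;> exact ln_coord q h _ t

lemma comp_ln {F : V (k + 2 + 3) → ℝ} (hF : ContDiff ℝ ∞ F) (q h : V (k + 2 + 3)) (t : ℝ) :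
    ∃ c, HasDerivAt (fun t => F (ln q h t)) c t := by
  have h1 : HasFDerivAt F (fderiv ℝ F (ln q h t)) (ln q h t) :=
    (hF.differentiable (by simp) _).hasFDerivAt
  exact ⟨_, h1.comp_hasDerivAt t (ln_hasDerivAt q h t)⟩

lemma FF_imm_aux {n : ℤ} {q h : V (k + 2 + 3)} (hq : core q)
    (hF : HasDerivAt (fun t => FF n (ln q h t)) 0 0) : h = 0 := by
  rw [hasDerivAt_pi] at hF
  have e0 := hF 0
  have e1 := hF 1
  have e2 := hF 2
  have e3 := hF 3
  have e4 := hF 4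
  simp only [FF_0, Pi.zero_apply] at e0
  simp only [FF_1, Pi.zero_apply] at e1
  simp only [FF_2, Pi.zero_apply] at e2
  simp only [FF_3, Pi.zero_apply] at e3
  simp only [FF_4, Pi.zero_apply] at e4
  obtain ⟨c, hc⟩ := comp_ln (z1_smooth n) q h 0
  have hT : HasDerivAt (fun t => 2 * Real.pi * ln q h t 2) (2 * Real.pi * h 2) 0 :=
    (ln_coord q h 2 0).const_mul (2 * Real.pi)
  have h1 : HasDerivAt (fun t => 10 + z1 n (ln q h t)) c 0 := by simpa using hc.const_add 10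
  have l0 : ln q h 0 = q := by unfold ln; simp
  have hne : 10 + z1 n (ln q h 0) ≠ 0 := by rw [l0]; exact (z1_gt hq n).ne'
  obtain ⟨hc0, hT0⟩ := polar_deriv (t := 0) h1 hT hne e0 e1
  have hh2 : h 2 = 0 := by
    have hpi : (2 * Real.pi : ℝ) ≠ 0 := by positivity
    exact (mul_eq_zero.1 hT0).resolve_left hpi
  rw [hc0] at hc
  -- derivatives of the stage functions
  have key : HasDerivAt (fun t => gg fA n (ln q h t)) 0 0 ∧
      HasDerivAt (fun t => gg fB n (ln q h t)) 0 0 ∧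
      HasDerivAt (fun t => gg fC n (ln q h t)) 0 0 ∧
      HasDerivAt (fun t => gg fD n (ln q h t)) 0 0 := by
    unfold z1 at hc
    unfold z2 at e2
    unfold z3 at e3
    unfold z4 at e4
    by_cases hE : Even n
    · simp only [if_pos hE] at hc e2 e3 e4
      exact ⟨hc, e2, e3, e4⟩
    · simp only [if_neg hE] at hc e2 e3 e4
      exact ⟨e3, e4, hc, e2⟩
  obtain ⟨kA, kB, kC, kD⟩ := key
  obtain ⟨W', hW⟩ := comp_ln (gW_smooth n) q h 0
  have hs : ∀ t, 2 * ln q h t 2 - (n:ℝ) = 2 * q 2 - n := by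
    intro t; rw [ln_apply, hh2]; ring
  unfold gg at kA kB kC kD hW
  simp only [hs] at kA kB kC kD hW
  have hres := stage_imm (th_ln_deriv n q h 0) (th_ln_deriv (n + 1) q h 0)
    (fun t => by rw [th_ln, l0]) (rd_ln_deriv n q h 0) (wd_ln_deriv n q h 0) hW
    (by rw [l0]; exact core_rd hq n) (by rw [l0]; exact core_wd hq n) kA kB kC kD
  obtain ⟨t1, t2, t3, t4⟩ := hres
  -- the angles
  have hpi : (2 * Real.pi : ℝ) ≠ 0 := by positivity
  unfold th at t1 t2
  have l1 := (mul_eq_zero.1 t1).resolve_left hpi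
  have l2 := (mul_eq_zero.1 t2).resolve_left hpi
  unfold lin at l1 l2
  simp only at l1 l2
  rw [zpow_add₀ cA_ne, zpow_add₀ cB_ne, zpow_one, zpow_one] at l2
  have hBA : cB - cA ≠ 0 := by
    have := cA_neg; have := cB_pos; linarith
  have h1' : h 1 = 0 := by
    have : (cB - cA) * cB ^ n * h 1 = 0 := by linear_combination l2 - cA * l1
    exact (mul_eq_zero.1 this).resolve_left (mul_ne_zero hBA (zpow_ne_zero _ cB_ne))
  have h0' : h 0 = 0 := by
    rw [h1', mul_zero, add_zero] at l1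
    exact (mul_eq_zero.1 l1).resolve_left (zpow_ne_zero _ cA_ne)
  have h34 : h 3 = 0 ∧ h 4 = 0 := by
    unfold rd at t3
    unfold wd at t4
    by_cases hE : Even n
    · rw [if_pos hE] at t3 t4; exact ⟨t3, t4⟩
    · rw [if_neg hE] at t3 t4; exact ⟨t4, t3⟩
  funext i
  rw [Pi.zero_apply]
  by_cases i0 : i = 0
  · rw [i0]; exact h0'
  by_cases i1 : i = 1
  · rw [i1]; exact h1'
  by_cases i2 : i = 2
  · rw [i2]; exact hh2
  by_cases i3 : i = 3
  · rw [i3]; exact h34.1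
  by_cases i4 : i = 4
  · rw [i4]; exact h34.2
  have e5 := hF i
  simp only [FF_ge _ _ i0 i1 i2 i3 i4, Pi.zero_apply] at e5
  exact (ln_coord q h i 0).unique e5

lemma Psi_imm {q : V (k + 2 + 3)} (hq : core q) :
    (fderiv ℝ (Psi : V (k + 2 + 3) → V (k + 2 + 3)) q).IsInvertible := by
  have h1 : fderiv ℝ (Psi : V (k + 2 + 3) → V (k + 2 + 3)) q = fderiv ℝ (FF ⌊2 * q 2⌋) q :=
    (Psi_eventually q).fderiv_eq
  rw [h1]
  set L := fderiv ℝ (FF ⌊2 * q 2⌋ : V (k + 2 + 3) → V (k + 2 + 3)) q with hL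
  have hLd : HasFDerivAt (FF ⌊2 * q 2⌋ : V (k + 2 + 3) → V (k + 2 + 3)) L q :=
    ((FF_smooth _).differentiable (by simp) q).hasFDerivAt
  have hinj : Function.Injective (L : V (k + 2 + 3) →ₗ[ℝ] V (k + 2 + 3)) := by
    rw [injective_iff_map_eq_zero]
    intro h hh
    have l0 : ln q h 0 = q := by unfold ln; simp
    have h2 : HasFDerivAt (FF ⌊2 * q 2⌋ : V (k + 2 + 3) → V (k + 2 + 3)) L (ln q h 0) := by
      rw [l0]; exact hLd
    have h3 := h2.comp_hasDerivAt 0 (ln_hasDerivAt q h 0)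
    have h4 : L h = 0 := hh
    rw [h4] at h3
    exact FF_imm_aux hq h3
  let e := LinearEquiv.ofInjectiveEndo (L : V (k + 2 + 3) →ₗ[ℝ] V (k + 2 + 3)) hinj
  refine ⟨e.toContinuousLinearEquiv, ?_⟩
  ext v
  rfl

theorem Psi_SolEmb : SolEmb mu0 Gam (Psi : V (k + 2 + 3) → V (k + 2 + 3)) where
  smooth := Psi_smooth
  inv := fun l _ ha q => Psi_act l ha q
  inj := fun _ _ hq hq' h => Psi_inj hq hq' h
  imm := fun _ hq => Psi_imm hq

theorem main_explicit (n : ℕ) (hn : 6 ≤ n) : ∃ f : En n → ℝ, (∀ z, z ≠ 0 → 0 < f z) ∧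
    ContDiffOn ℝ ∞ f {0}ᶜ ∧ CompletelyIntegrable f ∧
    ∃ φ : ℝ → Metric.sphere (0 : En n) 1 → Metric.sphere (0 : En n) 1,
      IsReebFlow f φ ∧ 0 < Dynamics.coverEntropy (φ 1) Set.univ := by
  obtain ⟨k, rfl⟩ := Nat.exists_eq_add_of_le hn
  have := main_abstract (k := k + 2) mu0_pos Gam_inv Gam_cocompact Gam_disc (Psi_SolEmb (k := k))
  have e : 6 + k = k + 2 + 3 + 1 := by ring
  rw [e]
  exact this

end Pool.Agent.H73
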