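import Mathlib
import Pool.Agent.H73.WMTheory

/-!
Main proofs for MP_d037d4_ag.
-/

namespace Pool.H73.WM

open Module Module.End TensorProduct

namespace Theory

variable {q : ℕ} {Ω : Type} [Field Ω] [CharZero Ω] {T : Theory q Ω}

/-- There is a variety of dimension `δ` with a nonzero Frobenius eigenvector of weight `w` in its
`j`-th cohomology which is killed by `N`. -/
def Bad (T : Theory q Ω) (δ j : ℕ) (w : ℤ) : Prop :=
  ∃ Z : T.Var, T.dim Z = δ ∧ ∃ x : T.H Z j, x ≠ 0 ∧ T.N Z j x = 0 ∧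
    ∃ α : Ω, IsWeil q α w ∧ T.F Z j x = α • x

/-- `(3)`: `N` is injective on the part of weight `δ + 1` of the middle cohomology of all varieties
of dimension `δ ∈ I`. -/
def SingleStep (T : Theory q Ω) (I : Set ℕ) : Prop :=
  ∀ Z : T.Var, T.dim Z ∈ I → ∀ x ∈ T.W Z (T.dim Z) (T.dim Z + 1), T.n x = 0 → x = 0

omit [CharZero Ω] in
theorem tmul_ne {V : Type} [AddCommGroup V] [Module Ω V] {U : Type} [AddCommGroup U]
    [Module Ω U] {u : V} {w : U} (hu : u ≠ 0) (hw : w ≠ 0) :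
    u ⊗ₜ[Ω] w ≠ 0 := by
  intro h
  obtain ⟨f, hf⟩ : ∃ f : V →ₗ[Ω] Ω, f u ≠ 0 := by
    by_contra hc
    push Not at hc
    exact hu ((Module.forall_dual_apply_eq_zero_iff Ω u).1 hc)
  obtain ⟨g, hg⟩ : ∃ g : U →ₗ[Ω] Ω, g w ≠ 0 := by
    by_contra hc
    push Not at hc
    exact hw ((Module.forall_dual_apply_eq_zero_iff Ω w).1 hc)
  have h2 : LinearMap.mul' Ω Ω (TensorProduct.map f g (u ⊗ₜ[Ω] w)) = 0 := by
    rw [h, map_zero, map_zero]
  rw [TensorProduct.map_tmul, LinearMap.mul'_apply] at h2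
  exact mul_ne_zero hf hg h2

theorem cross_ne (Y Z : T.Var) (i j : ℕ) {x : T.H Y i} {y : T.H Z j} (hx : x ≠ 0) (hy : y ≠ 0) :
    T.cross Y Z i j x y ≠ 0 := by
  intro h
  have h2 : TensorProduct.lift (T.cross Y Z i j) (x ⊗ₜ[Ω] y) = 0 := by
    rw [TensorProduct.lift.tmul]; exact h
  have h3 := T.kunneth Y Z i j (h2.trans (map_zero _).symm)
  exact tmul_ne hx hy h3

/-- Multiplying by a class killed by `N` on a curve. -/
theorem Bad.mul (hq : 1 < q) {δ j : ℕ} {w : ℤ} (h : Bad T δ j w) (C : T.Var) (hC : T.dim C = 1)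
    (s : ℕ) {β : Ω} {v : ℤ} (hβ : IsWeil q β v)
    (hc : ∃ y : T.H C s, y ≠ 0 ∧ T.F C s y = β • y ∧ T.N C s y = 0) :
    Bad T (δ + 1) (j + s) (w + v) := by
  obtain ⟨Z, hZ, x, hx0, hxN, α, hα, hxF⟩ := h
  obtain ⟨y, hy0, hyF, hyN⟩ := hc
  refine ⟨T.prod Z C, by rw [T.dim_prod, hZ, hC], T.cross Z C j s x y, cross_ne Z C j s hx0 hy0,
    ?_, α * β, hα.mul hq hβ, ?_⟩
  · rw [T.cross_N, hxN, hyN]
    simp
  · rw [T.cross_F, hxF, hyF]
    simp only [map_smul, LinearMap.smul_apply, smul_smul]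
    congr 1
    ring

theorem Bad.mulE (hq : 1 < q) {δ j : ℕ} {w : ℤ} (h : Bad T δ j w) : Bad T (δ + 1) (j + 1) w := by
  have := h.mul hq T.E T.dim_E 1 (β := 1) (v := 0) isWeil_one T.E_H1
  simpa using this

theorem Bad.mulOne (hq : 1 < q) {δ j : ℕ} {w : ℤ} (h : Bad T δ j w) : Bad T (δ + 1) j w := by
  have := h.mul hq T.P1 T.dim_P1 0 (β := 1) (v := 0) isWeil_one T.P1_H0
  simpa using this

theorem Bad.mulTwo (hq : 1 < q) {δ j : ℕ} {w : ℤ} (h : Bad T δ j w) :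
    Bad T (δ + 1) (j + 2) (w + 2) :=
  h.mul hq T.P1 T.dim_P1 2 (β := q) (v := 2) isWeil_q T.P1_H2

theorem Bad.iterE (hq : 1 < q) {δ j : ℕ} {w : ℤ} (h : Bad T δ j w) (n : ℕ) :
    Bad T (δ + n) (j + n) w := by
  induction n with
  | zero => simpa using h
  | succ n ih => exact ih.mulE hq

theorem Bad.iterOne (hq : 1 < q) {δ j : ℕ} {w : ℤ} (h : Bad T δ j w) (n : ℕ) :
    Bad T (δ + n) j w := by
  induction n with
  | zero => simpa using h
  | succ n ih => exact ih.mulOne hq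

theorem Bad.iterTwo (hq : 1 < q) {δ j : ℕ} {w : ℤ} (h : Bad T δ j w) (n : ℕ) :
    Bad T (δ + n) (j + 2 * n) (w + 2 * n) := by
  induction n with
  | zero => simpa using h
  | succ n ih =>
    have := ih.mulTwo hq
    have e : w + 2 * (n : ℤ) + 2 = w + 2 * ((n + 1 : ℕ) : ℤ) := by push_cast; ring
    rw [e] at this
    exact this

/-- From any bad class of the right parity we get one of excess `1` in the middle cohomology of
some variety, for all large dimensions of the right parity. -/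
theorem Bad.middle (hq : 1 < q) {d i e : ℕ} (he : 0 < e)
    (h : Bad T (2 * d) (2 * i) (2 * i + 2 * e)) (δ : ℕ) (hδ : Odd δ)
    (hbig : 4 * d + 2 * i + 2 * e ≤ δ) : Bad T δ δ (δ + 1) := by
  -- multiply by E `2e - 1` times
  have h1 := h.iterE hq (2 * e - 1)
  -- now dimension 2d+2e-1, degree 2i+2e-1, weight 2i+2e
  obtain ⟨r, hr⟩ := hδ
  -- use `a` factors h and `b` factors 1 :
  -- dimension 2d+2e-1+a+b = δ, degree 2i+2e-1+2a = δ
  have h2 := h1.iterTwo hq (r - (i + e - 1))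
  have h3 := h2.iterOne hq (δ - (2 * d + (2 * e - 1) + (r - (i + e - 1))))
  have e1 : 2 * d + (2 * e - 1) + (r - (i + e - 1))
      + (δ - (2 * d + (2 * e - 1) + (r - (i + e - 1)))) = δ := by omega
  have e2 : 2 * i + (2 * e - 1) + 2 * (r - (i + e - 1)) = δ := by omega
  have e3 : 2 * (i : ℤ) + 2 * e + 2 * ((r - (i + e - 1) : ℕ) : ℤ) = δ + 1 := by omega
  rw [e1, e2, e3] at h3
  exact h3

section sums
variable {Y : T.Var} {i : ℕ}

/-- The telescoping tensor. -/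
def zt (Y : T.Var) (i : ℕ) (x : T.H Y i) (l : ℕ) : T.H Y i ⊗[Ω] T.H Y i :=
  ∑ a ∈ Finset.range (l + 1),
    (-1 : Ω) ^ a • (((T.N Y i ^ a) x) ⊗ₜ[Ω] ((T.N Y i ^ (l - a)) x))

theorem zt_ne {x : T.H Y i} {l : ℕ} (h0 : (T.N Y i ^ l) x ≠ 0)
    (h1 : (T.N Y i ^ (l + 1)) x = 0) : zt Y i x l ≠ 0 := by
  intro h
  have h2 : (TensorProduct.map (T.N Y i ^ l) LinearMap.id) (zt Y i x l) = 0 := by
    rw [h, map_zero]
  have hz : ∀ a, 0 < a → (T.N Y i ^ l) ((T.N Y i ^ a) x) = 0 := by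
    intro a ha
    obtain ⟨b, rfl⟩ : ∃ b, a = b + 1 := ⟨a - 1, by omega⟩
    have e : (T.N Y i ^ l) ((T.N Y i ^ (b + 1)) x) = (T.N Y i ^ b) ((T.N Y i ^ (l + 1)) x) := by
      rw [← Module.End.mul_apply, ← Module.End.mul_apply, ← pow_add, ← pow_add]
      congr 2
      omega
    rw [e, h1, map_zero]
  unfold zt at h2
  rw [map_sum, Finset.sum_eq_single 0] at h2
  · simp only [pow_zero, one_smul, Nat.sub_zero, TensorProduct.map_tmul, Module.End.one_apply,
      LinearMap.id_coe, id_eq] at h2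
    exact tmul_ne h0 h0 h2
  · intro a _ ha
    rw [map_smul, TensorProduct.map_tmul, hz a (Nat.pos_of_ne_zero ha)]
    simp
  · intro hh
    simp at hh

/-- The class in the cohomology of `Y × Y`. -/
def zc (Y : T.Var) (i : ℕ) (x : T.H Y i) (l : ℕ) : T.H (T.prod Y Y) (i + i) :=
  TensorProduct.lift (T.cross Y Y i i) (zt Y i x l)

theorem zc_eq (x : T.H Y i) (l : ℕ) : zc Y i x l = ∑ a ∈ Finset.range (l + 1),
    (-1 : Ω) ^ a • T.cross Y Y i i ((T.N Y i ^ a) x) ((T.N Y i ^ (l - a)) x) := by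
  unfold zc zt
  rw [map_sum]
  apply Finset.sum_congr rfl
  intro a _
  rw [map_smul, TensorProduct.lift.tmul]

theorem zc_ne {x : T.H Y i} {l : ℕ} (h0 : (T.N Y i ^ l) x ≠ 0)
    (h1 : (T.N Y i ^ (l + 1)) x = 0) : zc Y i x l ≠ 0 := by
  intro h
  exact zt_ne h0 h1 (T.kunneth Y Y i i (h.trans (map_zero _).symm))

theorem N_zc {x : T.H Y i} {l : ℕ} (h1 : (T.N Y i ^ (l + 1)) x = 0) :
    T.N (T.prod Y Y) (i + i) (zc Y i x l) = 0 := by
  have key : ∀ m : ℕ, m ≤ l + 1 → T.N (T.prod Y Y) (i + i) (∑ a ∈ Finset.range m,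
      (-1 : Ω) ^ a • T.cross Y Y i i ((T.N Y i ^ a) x) ((T.N Y i ^ (l - a)) x))
      = - (-1 : Ω) ^ m • T.cross Y Y i i ((T.N Y i ^ m) x) ((T.N Y i ^ (l + 1 - m)) x) := by
    intro m
    induction m with
    | zero =>
      intro _
      simp [h1]
    | succ m ih =>
      intro hm
      rw [Finset.sum_range_succ, map_add, ih (by omega), map_smul, T.cross_N]
      have e1 : T.N Y i ((T.N Y i ^ m) x) = (T.N Y i ^ (m + 1)) x := by
        rw [pow_succ' (T.N Y i) m]; rfl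
      have e2 : T.N Y i ((T.N Y i ^ (l - m)) x) = (T.N Y i ^ (l + 1 - m)) x := by
        have : l + 1 - m = (l - m) + 1 := by omega
        rw [this, pow_succ' (T.N Y i) (l - m)]; rfl
      have e3 : l + 1 - (m + 1) = l - m := by omega
      rw [e1, e2, e3, smul_add, pow_succ (-1 : Ω) m]
      simp only [neg_smul, mul_neg, mul_one, neg_neg]
      abel
  rw [zc_eq, key (l + 1) le_rfl, h1]
  simp

theorem F_zc (hq : 1 < q) {x : T.H Y i} {α : Ω} (hx : T.F Y i x = α • x) (l : ℕ) :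
    T.F (T.prod Y Y) (i + i) (zc Y i x l) = (α * α * ((q : Ω)⁻¹) ^ l) • zc Y i x l := by
  rw [zc_eq, map_sum, Finset.smul_sum]
  apply Finset.sum_congr rfl
  intro a ha
  have hal : a ≤ l := by
    have := Finset.mem_range.1 ha
    omega
  rw [map_smul, T.cross_F, F_Npow hq, F_Npow hq, hx]
  simp only [map_smul, LinearMap.smul_apply, smul_smul]
  congr 1
  have : ((q : Ω)⁻¹) ^ l = ((q : Ω)⁻¹) ^ a * ((q : Ω)⁻¹) ^ (l - a) := by
    rw [← pow_add]; congr 1; omega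
  rw [this]
  ring

end sums

variable [IsAlgClosed Ω]

/-- `(3)` implies the injectivity of all `N ^ k` on the part of weight `i + k`. -/
theorem inj_of_single (hq : 1 < q) {I : Set ℕ} (hodd : ∀ δ ∈ I, Odd δ)
    (hunb : ∀ n : ℕ, ∃ δ ∈ I, n ≤ δ) (h3 : SingleStep T I) (Y : T.Var) (i k : ℕ) :
    ∀ x ∈ T.W Y i (i + k), (T.N Y i ^ k) x = 0 → x = 0 := by
  intro x hx hNx
  by_contra hx0
  -- an eigenvector
  let P : Submodule Ω (T.H Y i) := T.W Y i (i + k) ⊓ LinearMap.ker (T.N Y i ^ k)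
  have hP : ∀ y ∈ P, T.F Y i y ∈ P := by
    rintro y ⟨hy1, hy2⟩
    refine ⟨GS_mapsTo_F _ _ y hy1, ?_⟩
    rw [SetLike.mem_coe, LinearMap.mem_ker] at hy2 ⊢
    have h := F_Npow hq Y i k y
    rw [hy2, map_zero] at h
    have hq0 : ((q : Ω)⁻¹) ^ k ≠ 0 := pow_ne_zero _ (inv_ne_zero (q_ne hq))
    exact (smul_eq_zero.1 h.symm).resolve_left hq0
  obtain ⟨y, hyP, hy0, α, hyF⟩ := exists_eigenvector (T.F Y i) P hP (x := x) ⟨hx, hNx⟩ hx0
  have hα : IsWeil q α (i + k) := eig_mem (T.F Y i) _ hyP.1 hy0 hyF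
  have hyN : (T.N Y i ^ k) y = 0 := hyP.2
  classical
  have hex : ∃ m, (T.N Y i ^ m) y = 0 := ⟨k, hyN⟩
  let m := Nat.find hex
  have hm : (T.N Y i ^ m) y = 0 := Nat.find_spec hex
  have hmk : m ≤ k := Nat.find_min' hex hyN
  have hm0 : m ≠ 0 := by
    intro h0
    rw [h0] at hm
    exact hy0 (by simpa using hm)
  obtain ⟨l, hl⟩ := Nat.exists_eq_succ_of_ne_zero hm0
  have hl0 : (T.N Y i ^ l) y ≠ 0 := Nat.find_min hex (by omega)
  have hl1 : (T.N Y i ^ (l + 1)) y = 0 := by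
    rw [hl] at hm; exact hm
  have hbad : Bad T (2 * T.dim Y) (2 * i) (2 * i + 2 * ((k - l : ℕ) : ℤ)) := by
    refine ⟨T.prod Y Y, by rw [T.dim_prod]; ring, ?_⟩
    have e : 2 * i = i + i := by ring
    rw [e]
    refine ⟨zc Y i y l, zc_ne hl0 hl1, N_zc hl1, _, ?_, F_zc hq hyF l⟩
    have h1 := (hα.mul hq hα).mul hq (isWeil_qinv_pow (Ω := Ω) hq l)
    have e2 : (i : ℤ) + k + (i + k) + -(2 * l) = 2 * i + 2 * ((k - l : ℕ) : ℤ) := by omega
    rw [e2] at h1
    exact h1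
  obtain ⟨δ, hδI, hδ⟩ := hunb (4 * T.dim Y + 2 * i + 2 * (k - l))
  obtain ⟨Z, hZ, v, hv0, hvN, β, hβ, hvF⟩ := hbad.middle hq (by omega) δ (hodd δ hδI) hδ
  subst hZ
  apply hv0
  apply h3 Z hδI v ?_ hvN
  apply le_GS (T.F Z (T.dim Z)) (S := {α : Ω | IsWeil q α (T.dim Z + 1)}) hβ
  rw [mem_maxGenEigenspace]
  exact ⟨1, by simp [hvF]⟩

/-- Injectivity of all `N ^ k` implies surjectivity, by duality. -/
theorem surj_of_inj (hq : 1 < q)
    (hinj : ∀ (Y : T.Var) (i k : ℕ), ∀ x ∈ T.W Y i (i + k), (T.N Y i ^ k) x = 0 → x = 0)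
    (Y : T.Var) (i k : ℕ) :
    ∀ y ∈ T.W Y i (i - k), ∃ x ∈ T.W Y i (i + k), (T.N Y i ^ k) x = y := by
  intro y hy
  by_cases hi : 2 * T.dim Y < i
  · exact ⟨0, Submodule.zero_mem _, (T.vanish Y i hi _).trans (T.vanish Y i hi _).symm⟩
  have hij : i + (2 * T.dim Y - i) = 2 * T.dim Y := by omega
  generalize hj : 2 * T.dim Y - i = j at hij
  by_contra hne
  push Not at hne
  let S : Submodule Ω (T.H Y i) := (T.W Y i (i + k)).map (T.N Y i ^ k)
  have hyS : y ∉ S := by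
    rintro ⟨x, hx, hxy⟩
    exact hne x hx hxy
  obtain ⟨f, hf, hfS⟩ := Submodule.exists_dual_map_eq_bot_of_notMem hyS inferInstance
  have hfS' : ∀ s ∈ S, f s = 0 := by
    intro s hs
    have : f s ∈ S.map f := ⟨s, hs, rfl⟩
    rw [hfS] at this
    simpa using this
  obtain ⟨u, hu⟩ := (T.pair_right Y i j hij).2 f
  have hu' : ∀ x, T.pair Y i j hij x u = f x := by
    intro x
    rw [← hu]; rfl
  obtain ⟨a, ha, b, hb, hab⟩ := exists_decomp Y j (j + k) u
  -- on weight `i - k`, `f` is the pairing with `a`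
  have hfa : ∀ x ∈ T.W Y i (i - k), f x = T.pair Y i j hij x a := by
    intro x hx
    rw [← hu', hab, map_add]
    have : T.pair Y i j hij x b = 0 := by
      apply pair_W hq Y i j hij (i - k) x hx b
      have e : 2 * (T.dim Y : ℤ) - (i - k) = j + k := by omega
      rw [e]
      exact hb
    rw [this, add_zero]
  -- `N^k a = 0`
  have hNa : (T.N Y j ^ k) a = 0 := by
    apply (T.pair_right Y i j hij).1
    rw [map_zero]
    ext x
    rw [LinearMap.flip_apply, LinearMap.zero_apply]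
    obtain ⟨c, hc, d, hd, hcd⟩ := exists_decomp Y i (i + k) x
    have hNaW := Npow_W hq Y j (j + k) k a ha
    have e1 : T.pair Y i j hij d ((T.N Y j ^ k) a) = 0 := by
      have e2 : (j : ℤ) + k - 2 * k = j - k := by ring
      rw [e2] at hNaW
      apply pair_W' hq Y i j hij (j - k) d ?_ _ hNaW
      have e : 2 * (T.dim Y : ℤ) - (j - k) = i + k := by omega
      rw [e]
      exact hd
    have e3 : T.pair Y i j hij c ((T.N Y j ^ k) a) = 0 := by
      have h4 := pair_Npow Y i j hij k c a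
      have h5 : T.pair Y i j hij ((T.N Y i ^ k) c) a = 0 := by
        have h6 := Npow_W hq Y i (i + k) k c hc
        have e2 : (i : ℤ) + k - 2 * k = i - k := by ring
        rw [e2] at h6
        rw [← hfa _ h6]
        exact hfS' _ ⟨c, hc, rfl⟩
      rw [h5] at h4
      have h7 : ((-1 : Ω) ^ k) ≠ 0 := pow_ne_zero _ (by norm_num)
      exact (mul_eq_zero.1 h4.symm).resolve_left h7
    rw [hcd, map_add, LinearMap.add_apply, e1, e3, add_zero]
  have ha0 : a = 0 := hinj Y j k a ha hNa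
  apply hf
  rw [hfa y hy, ha0, map_zero]

theorem exists_Wle_bot (hq : 1 < q) (Y : T.Var) (i : ℕ) : ∃ w : ℤ, T.Wle Y i w = ⊥ := by
  let f : ℕ →o (Submodule Ω (T.H Y i))ᵒᵈ :=
    ⟨fun n => OrderDual.toDual (T.Wle Y i (-(n : ℤ))), fun a b hab => by
      change T.Wle Y i (-(b : ℤ)) ≤ T.Wle Y i (-(a : ℤ))
      exact Wle_mono Y i (by omega)⟩
  obtain ⟨n, hn⟩ := IsArtinian.monotone_stabilizes f
  refine ⟨-(n : ℤ), ?_⟩
  by_contra hne
  obtain ⟨x, hx, hx0⟩ := (Submodule.ne_bot_iff _).1 hne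
  obtain ⟨y, hyP, hy0, α, hyF⟩ :=
    exists_eigenvector (T.F Y i) (T.Wle Y i (-(n : ℤ))) (fun y hy => GS_mapsTo_F _ _ y hy) hx hx0
  obtain ⟨v, hv, hα⟩ := eig_mem (T.F Y i) _ hyP hy0 hyF
  have h1 : T.Wle Y i (-(n : ℤ)) = T.Wle Y i (-(((1 - v).toNat : ℕ) : ℤ)) :=
    hn (1 - v).toNat (by omega)
  rw [h1] at hyP
  obtain ⟨u, hu, hα'⟩ := eig_mem (T.F Y i) _ hyP hy0 hyF
  have := IsWeil.unique hq hα hα'
  omega

theorem exists_Wle_top (Y : T.Var) (i : ℕ) : ∃ w : ℤ, T.Wle Y i w = ⊤ := by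
  let f : ℕ →o (Submodule Ω (T.H Y i)) :=
    ⟨fun n => T.Wle Y i (n : ℤ), fun a b hab => by
      change T.Wle Y i (a : ℤ) ≤ T.Wle Y i (b : ℤ)
      exact Wle_mono Y i (by omega)⟩
  obtain ⟨n, hn⟩ := monotone_stabilizes_iff_noetherian.2 inferInstance f
  refine ⟨(n : ℤ), ?_⟩
  rw [eq_top_iff, ← mixed_top Y i]
  apply GS_le
  rintro α ⟨v, hv⟩
  have h1 : T.Wle Y i (n : ℤ) = T.Wle Y i ((max n v.toNat : ℕ) : ℤ) := hn _ (le_max_left _ _)
  rw [h1]
  exact le_GS _ ⟨v, by omega, hv⟩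

/-- Injectivity and surjectivity of all `N ^ k` give the weight-monodromy property. -/
theorem wm_of_bij (hq : 1 < q)
    (hinj : ∀ (Y : T.Var) (i k : ℕ), ∀ x ∈ T.W Y i (i + k), (T.N Y i ^ k) x = 0 → x = 0)
    (Y : T.Var) (i : ℕ) : T.WeightMonodromy Y i := by
  have hsurj := surj_of_inj hq hinj Y i
  refine ⟨fun j => T.Wle Y i (i + j), ?_, ?_, ?_⟩
  · refine ⟨?_, ?_, ?_, ?_, ?_, ?_⟩
    · intro a b hab
      exact Wle_mono Y i (by omega)
    · obtain ⟨w, hw⟩ := exists_Wle_bot hq Y i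
      refine ⟨w - i, ?_⟩
      change T.Wle Y i (i + (w - i)) = ⊥
      rw [← hw]
      congr 1
      ring
    · obtain ⟨w, hw⟩ := exists_Wle_top Y i
      refine ⟨w - i, ?_⟩
      change T.Wle Y i (i + (w - i)) = ⊤
      rw [← hw]
      congr 1
      ring
    · intro j x hx
      have := N_Wle hq Y i _ x hx
      have e : (i : ℤ) + j - 2 = i + (j - 2) := by ring
      rw [e] at this
      exact this
    · intro k x hx hNx
      change x ∈ T.Wle Y i (i + k) at hx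
      rw [Wle_eq] at hx
      obtain ⟨a, ha, b, hb, hab⟩ := Submodule.mem_sup.1 hx
      have hNb := Npow_Wle hq Y i _ k b hb
      have e1 : (i : ℤ) + k - 1 - 2 * k = i + (-k - 1) := by ring
      rw [e1] at hNb
      have hNa : (T.N Y i ^ k) a = 0 := by
        have h1 : (T.N Y i ^ k) a ∈ T.Wle Y i (i + (-k - 1)) := by
          have : (T.N Y i ^ k) a = (T.N Y i ^ k) x - (T.N Y i ^ k) b := by
            rw [← hab, map_add]; abel
          rw [this]
          exact Submodule.sub_mem _ hNx hNb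
        have h2 := Npow_W hq Y i _ k a ha
        exact Submodule.disjoint_def.1 (W_disj hq Y i _ (by omega)) _ h2 h1
      have ha0 := hinj Y i k a ha hNa
      rw [← hab, ha0, zero_add]
      have e2 : (i : ℤ) + k - 1 = i + (k - 1) := by ring
      rw [e2] at hb
      exact hb
    · intro k y hy
      change y ∈ T.Wle Y i (i + -k) at hy
      rw [Wle_eq] at hy
      obtain ⟨a, ha, b, hb, hab⟩ := Submodule.mem_sup.1 hy
      obtain ⟨x, hx, hxa⟩ := hsurj k a ha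
      refine ⟨x, ?_, ?_⟩
      · change x ∈ T.Wle Y i (i + k)
        rw [Wle_eq]
        exact Submodule.mem_sup_left hx
      · rw [hxa, ← hab]
        have e2 : (i : ℤ) + -k - 1 = i + (-k - 1) := by ring
        rw [e2] at hb
        simpa using hb
  · intro j x hx
    exact GS_mapsTo_F _ _ x hx
  · intro j x hx hx' α hα
    change x ∈ T.Wle Y i (i + j) at hx
    rw [Wle_eq] at hx
    obtain ⟨a, ha, b, hb, hab⟩ := Submodule.mem_sup.1 hx
    have e2 : (i : ℤ) + j - 1 = i + (j - 1) := by ring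
    rw [e2] at hb
    have ha0 : a ≠ 0 := by
      rintro rfl
      apply hx'
      rw [← hab, zero_add]
      exact hb
    have hFa : T.F Y i a - α • a = 0 := by
      have h1 : T.F Y i a - α • a ∈ T.Wle Y i (i + (j - 1)) := by
        have : T.F Y i a - α • a = (T.F Y i x - α • x) - (T.F Y i b - α • b) := by
          rw [← hab, map_add, smul_add]; abel
        rw [this]
        refine Submodule.sub_mem _ hα (Submodule.sub_mem _ (GS_mapsTo_F _ _ b hb) ?_)
        exact Submodule.smul_mem _ _ hb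
      have h2 : T.F Y i a - α • a ∈ T.W Y i (i + j) :=
        Submodule.sub_mem _ (GS_mapsTo_F _ _ a ha) (Submodule.smul_mem _ _ ha)
      exact Submodule.disjoint_def.1 (W_disj hq Y i _ (by omega)) _ h2 h1
    exact eig_mem (T.F Y i) _ ha ha0 (sub_eq_zero.1 hFa)

omit [IsAlgClosed Ω] in
/-- The weight-monodromy property implies that `ker N` has weights at most `i`. -/
theorem ker_of_wm {Y : T.Var} {i : ℕ} (h : T.WeightMonodromy Y i) (α : Ω) (x : T.H Y i)
    (hx0 : x ≠ 0) (hN : T.N Y i x = 0) (hF : T.F Y i x = α • x) :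
    ∃ w : ℤ, w ≤ i ∧ IsWeil q α w := by
  obtain ⟨M, hM, -, hpure⟩ := h
  obtain ⟨b, hb⟩ := hM.bot
  obtain ⟨t, ht⟩ := hM.top
  -- the last index `j` with `x ∉ M (j - 1)`
  have hxb : x ∉ M b := by rw [hb]; exact hx0
  have hxt : x ∈ M t := by rw [ht]; trivial
  have hbt : b ≤ t := by
    by_contra hc
    exact hxb (hM.mono (by omega : t ≤ b) hxt)
  classical
  have hex : ∃ n : ℕ, x ∈ M (b + n) := ⟨(t - b).toNat, by
    have : b + ((t - b).toNat : ℤ) = t := by omega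
    rw [this]; exact hxt⟩
  let n := Nat.find hex
  have hn : x ∈ M (b + n) := Nat.find_spec hex
  have hn0 : n ≠ 0 := by
    intro h0
    rw [h0] at hn
    exact hxb (by simpa using hn)
  have hn1 : x ∉ M (b + n - 1) := by
    have := Nat.find_min hex (m := n - 1) (by omega)
    have e : b + ((n - 1 : ℕ) : ℤ) = b + n - 1 := by omega
    rw [e] at this
    exact this
  have hw := hpure (b + n) x hn hn1 α (by
    change T.F Y i x - α • x ∈ M (b + n - 1)
    rw [hF, sub_self]; exact Submodule.zero_mem _)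
  refine ⟨_, ?_, hw⟩
  by_contra hpos
  obtain ⟨k, hk⟩ : ∃ k : ℕ, b + n = k + 1 := ⟨(b + n - 1).toNat, by omega⟩
  apply hn1
  have h2 := hM.inj (k + 1) x (by rw [hk] at hn; exact_mod_cast hn) (by
    rw [pow_succ]
    have : ((T.N Y i ^ k) * T.N Y i) x = 0 := by
      rw [Module.End.mul_apply, hN, map_zero]
    rw [this]
    exact Submodule.zero_mem _)
  rw [hk]
  have e : (((k + 1 : ℕ) : ℤ)) - 1 = (k : ℤ) + 1 - 1 := by push_cast; ring
  rw [e] at h2
  exact h2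

/-- `(2)` implies `(3)`. -/
theorem single_of_ker (hq : 1 < q)
    (h : ∀ (Y : T.Var) (i : ℕ) (α : Ω) (x : T.H Y i), x ≠ 0 → T.N Y i x = 0 →
      T.F Y i x = α • x → ∃ w : ℤ, w ≤ i ∧ IsWeil q α w) (I : Set ℕ) : SingleStep T I := by
  intro Z _ x hx hNx
  by_contra hx0
  let P : Submodule Ω (T.H Z (T.dim Z)) :=
    T.W Z (T.dim Z) (T.dim Z + 1) ⊓ LinearMap.ker (T.N Z (T.dim Z))
  have hP : ∀ y ∈ P, T.F Z (T.dim Z) y ∈ P := by
    rintro y ⟨hy1, hy2⟩
    refine ⟨GS_mapsTo_F _ _ y hy1, ?_⟩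
    rw [SetLike.mem_coe, LinearMap.mem_ker] at hy2 ⊢
    rw [T.NF, hy2, map_zero, smul_zero]
  obtain ⟨y, hyP, hy0, α, hyF⟩ :=
    exists_eigenvector (T.F Z (T.dim Z)) P hP (x := x) ⟨hx, hNx⟩ hx0
  have hα : IsWeil q α (T.dim Z + 1) := eig_mem (T.F Z (T.dim Z)) _ hyP.1 hy0 hyF
  obtain ⟨w, hw, hα'⟩ := h Z (T.dim Z) α y hy0 hyP.2 hyF
  have := IsWeil.unique hq hα hα'
  omega

end Theory

end Pool.H73.WM
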