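import Mathlib
import Pool.Agent.H73.WMTheory

/-!
The monodromy filtration is unique and functorial.
-/

namespace Pool.H73.WM

variable {Ω : Type} [Field Ω] {V V' : Type} [AddCommGroup V] [Module Ω V]
  [AddCommGroup V'] [Module Ω V'] {N : V →ₗ[Ω] V} {N' : V' →ₗ[Ω] V'}
  {M : ℤ → Submodule Ω V} {M' : ℤ → Submodule Ω V'}

theorem IsMonodromyFiltration.shift_pow (h : IsMonodromyFiltration N M) (k : ℕ) (j : ℤ) :
    ∀ x ∈ M j, (N ^ k) x ∈ M (j - 2 * k) := by
  induction k with
  | zero => intro x hx; simpa using hx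
  | succ k ih =>
    intro x hx
    have h1 := h.shift _ _ (ih x hx)
    have e : j - 2 * (k : ℤ) - 2 = j - 2 * ((k + 1 : ℕ) : ℤ) := by push_cast; ring
    rw [e] at h1
    rw [pow_succ']
    exact h1

/-- One improvement step. -/
theorem step (h : IsMonodromyFiltration N M) (h' : IsMonodromyFiltration N' M')
    (f : V →ₗ[Ω] V') (hf : ∀ x, f (N x) = N' (f x)) (t : ℕ)
    (ht : ∀ j, ∀ x ∈ M j, f x ∈ M' (j + (t + 1))) : ∀ j, ∀ x ∈ M j, f x ∈ M' (j + t) := by
  have hfp : ∀ (k : ℕ) x, f ((N ^ k) x) = (N' ^ k) (f x) := by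
    intro k
    induction k with
    | zero => intro x; simp
    | succ k ih =>
      intro x
      have e1 : (N ^ (k + 1)) x = (N ^ k) (N x) := by rw [pow_succ]; rfl
      have e2 : (N' ^ (k + 1)) (f x) = (N' ^ k) (N' (f x)) := by rw [pow_succ]; rfl
      rw [e1, e2, ih, hf]
  obtain ⟨b, hb⟩ := h.top
  -- nonnegative indices, by downward induction
  have pos : ∀ s : ℕ, ∀ j : ℕ, b + 1 ≤ j + 2 * s → ∀ x ∈ M j, f x ∈ M' (j + t) := by
    intro s
    induction s with
    | zero =>
      intro j hj x _
      have h1 : x ∈ M b := by rw [hb]; trivial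
      exact h'.mono (by omega : b + ((t : ℤ) + 1) ≤ j + t) (ht b x h1)
    | succ s ih =>
      intro j hj x hx
      -- a correction making `x` primitive
      have h1 : (N ^ (j + 1)) x ∈ M (-((j + 2 : ℕ) : ℤ)) := by
        have := h.shift_pow (j + 1) j x hx
        have e : (j : ℤ) - 2 * ((j + 1 : ℕ) : ℤ) = -((j + 2 : ℕ) : ℤ) := by push_cast; ring
        rw [e] at this
        exact this
      obtain ⟨u, hu, hux⟩ := h.surj (j + 2) _ h1
      have hfu : f u ∈ M' (((j + 2 : ℕ) : ℤ) + t) := ih (j + 2) (by push_cast; omega) u hu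
      have hNu : N' (f u) ∈ M' (j + t) := by
        have := h'.shift _ _ hfu
        have e : ((j + 2 : ℕ) : ℤ) + t - 2 = j + t := by push_cast; ring
        rw [e] at this
        exact this
      have hNuM : N u ∈ M j := by
        have := h.shift _ _ hu
        have e : ((j + 2 : ℕ) : ℤ) - 2 = j := by push_cast; ring
        rw [e] at this
        exact this
      have hv : x - N u ∈ M j := Submodule.sub_mem _ hx hNuM
      have hNv : (N ^ (j + 1)) (x - N u) ∈ M (-((j + 2 : ℕ) : ℤ) - 1) := by
        have e : (N ^ (j + 1)) (x - N u) = (N ^ (j + 1)) x - (N ^ (j + 2)) u := by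
          rw [map_sub]
          have : (N ^ (j + 2)) u = (N ^ (j + 1)) (N u) := by
            rw [pow_succ N (j + 1)]; rfl
          rw [this]
        rw [e]
        exact hux
      have hfv1 : (N' ^ (j + 1)) (f (x - N u)) ∈ M' (-((j + 2 : ℕ) : ℤ) - 1 + (t + 1)) := by
        rw [← hfp]
        exact ht _ _ hNv
      have hfv2 : (N' ^ (j + t + 1)) (f (x - N u)) ∈ M' (-((j + t + 1 : ℕ) : ℤ) - 1) := by
        have h2 := h'.shift_pow t _ _ hfv1
        have e : (N' ^ t) ((N' ^ (j + 1)) (f (x - N u))) = (N' ^ (j + t + 1)) (f (x - N u)) := by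
          rw [← Module.End.mul_apply, ← pow_add]
          congr 2
          omega
        rw [e] at h2
        exact h'.mono (by push_cast; omega) h2
      have hfv3 : f (x - N u) ∈ M' ((j + t + 1 : ℕ) : ℤ) := by
        have := ht _ _ hv
        exact h'.mono (by push_cast; omega) this
      have hfv4 := h'.inj (j + t + 1) _ hfv3 hfv2
      have e : ((j + t + 1 : ℕ) : ℤ) - 1 = j + t := by push_cast; ring
      rw [e] at hfv4
      have e2 : f x = f (x - N u) + N' (f u) := by
        rw [map_sub, hf]; abel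
      rw [e2]
      exact Submodule.add_mem _ hfv4 hNu
  have pos' : ∀ j : ℕ, ∀ x ∈ M j, f x ∈ M' (j + t) := fun j =>
    pos (b + 1).toNat j (by omega)
  obtain ⟨c, hc⟩ := h.bot
  have neg : ∀ s : ℕ, ∀ x ∈ M (c + s), f x ∈ M' (c + s + t) := by
    intro s
    induction s with
    | zero =>
      intro x hx
      have hx' : x ∈ M c := by simpa using hx
      rw [hc] at hx'
      have : x = 0 := hx'
      rw [this, map_zero]
      exact Submodule.zero_mem _
    | succ s ih =>
      intro x hx
      rcases le_total 0 (c + ((s + 1 : ℕ) : ℤ)) with h0 | h0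
      · obtain ⟨j, hj⟩ := Int.eq_ofNat_of_zero_le h0
        rw [hj] at hx ⊢
        exact pos' j x hx
      · obtain ⟨k, hk⟩ : ∃ k : ℕ, c + ((s + 1 : ℕ) : ℤ) = -k := ⟨(-(c + (s + 1))).toNat, by
          push_cast at h0 ⊢; omega⟩
        rw [hk] at hx ⊢
        obtain ⟨u, hu, hux⟩ := h.surj k x hx
        have h1 := h'.shift_pow k _ _ (pos' k u hu)
        have h2 : x - (N ^ k) u ∈ M (c + s) := by
          have e : -(k : ℤ) - 1 = c + s := by rw [← hk]; push_cast; ring
          rw [e] at hux
          exact hux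
        have h3 := ih _ h2
        have e2 : f x = f (x - (N ^ k) u) + (N' ^ k) (f u) := by
          rw [map_sub, hfp]; abel
        rw [e2]
        refine Submodule.add_mem _ (h'.mono ?_ h3) (h'.mono ?_ h1)
        · rw [← hk]; push_cast; omega
        · omega
  intro j x hx
  rcases le_total c j with hj | hj
  · have e : j = c + ((j - c).toNat : ℤ) := by omega
    rw [e] at hx ⊢
    exact neg _ x hx
  · have hx' : x ∈ M c := h.mono hj hx
    rw [hc] at hx'
    have : x = 0 := hx'
    rw [this, map_zero]
    exact Submodule.zero_mem _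

/-- A linear map which commutes with the nilpotent operators preserves the monodromy
filtrations. -/
theorem IsMonodromyFiltration.map (h : IsMonodromyFiltration N M)
    (h' : IsMonodromyFiltration N' M') (f : V →ₗ[Ω] V') (hf : ∀ x, f (N x) = N' (f x)) :
    ∀ j, ∀ x ∈ M j, f x ∈ M' j := by
  obtain ⟨c, hc⟩ := h.bot
  obtain ⟨b, hb⟩ := h'.top
  have start : ∃ t : ℕ, ∀ j, ∀ x ∈ M j, f x ∈ M' (j + t) := by
    refine ⟨(b - c).toNat, ?_⟩
    intro j x hx
    rcases le_total c j with hj | hj
    · have : f x ∈ M' b := by rw [hb]; trivial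
      exact h'.mono (by omega) this
    · have hx' : x ∈ M c := h.mono hj hx
      rw [hc] at hx'
      have : x = 0 := hx'
      rw [this, map_zero]
      exact Submodule.zero_mem _
  obtain ⟨t, ht⟩ := start
  induction t with
  | zero => intro j x hx; simpa using ht j x hx
  | succ t ih =>
    exact ih (step h h' f hf t (by
      intro j x hx
      have := ht j x hx
      have e : j + ((t + 1 : ℕ) : ℤ) = j + (t + 1) := by push_cast; ring
      rw [e] at this
      exact this))

/-- The monodromy filtration is unique. -/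
theorem IsMonodromyFiltration.unique {M₁ M₂ : ℤ → Submodule Ω V}
    (h₁ : IsMonodromyFiltration N M₁) (h₂ : IsMonodromyFiltration N M₂) : M₁ = M₂ := by
  funext j
  apply le_antisymm
  · exact fun x hx => h₁.map h₂ LinearMap.id (fun _ => rfl) j x hx
  · exact fun x hx => h₂.map h₁ LinearMap.id (fun _ => rfl) j x hx

end Pool.H73.WM
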