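import Mathlib

/-!
Zeta functions of families of point counts: basic analytic operations.
-/

namespace Pool.Agent.H73.Zeta

open Complex Filter Topology

/-- A family of numbers `N p k`, for instance the numbers of points of a scheme of finite type
over `ℤ` with values in the fields with `p ^ k` elements. -/
abbrev Counts := Nat.Primes → ℕ → ℤ

/-- The term of index `(p, k)` of the logarithm of the zeta function:
`N p (k + 1) * p ^ (- (k + 1) s) / (k + 1)`. -/
noncomputable def term (N : Counts) (s : ℂ) (x : Nat.Primes × ℕ) : ℂ :=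
  (N x.1 (x.2 + 1) : ℂ) / ((x.2 : ℂ) + 1) * ((x.1 : ℕ) : ℂ) ^ (-(((x.2 : ℂ) + 1) * s))

/-- The zeta function of a family of counts, as a function on a half plane of convergence:
the exponential of the sum of `N p k * p ^ (- k s) / k` over all primes `p` and all `k ≥ 1`. -/
noncomputable def zeta (N : Counts) (s : ℂ) : ℂ := exp (∑' x, term N s x)

/-- The zeta function of `N` extends to a meromorphic function on `ℂ`, all of whose zeros and
poles have their real parts in `E`. -/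
def Good (E : Set ℝ) (N : Counts) : Prop :=
  ∃ g : ℂ → ℂ, Meromorphic g ∧ (∀ s, meromorphicOrderAt g s ≠ 0 → s.re ∈ E) ∧
    ∃ c : ℝ, ∀ s : ℂ, c < s.re → g s = zeta N s

/-- Polynomially bounded counts. -/
def Bdd (N : Counts) : Prop :=
  ∃ C d : ℕ, ∀ (p : Nat.Primes) (k : ℕ), k ≠ 0 → |(N p k : ℝ)| ≤ C * (p : ℝ) ^ (k * d)

theorem Bdd.add {N M : Counts} (hN : Bdd N) (hM : Bdd M) : Bdd (fun p k => N p k + M p k) := by
  obtain ⟨C, d, h⟩ := hN
  obtain ⟨C', d', h'⟩ := hM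
  refine ⟨C + C', max d d', fun p k hk => ?_⟩
  have hp : (1 : ℝ) ≤ p := by exact_mod_cast p.2.one_lt.le
  have h1 : (p : ℝ) ^ (k * d) ≤ (p : ℝ) ^ (k * max d d') :=
    pow_le_pow_right₀ hp (Nat.mul_le_mul_left _ (le_max_left _ _))
  have h2 : (p : ℝ) ^ (k * d') ≤ (p : ℝ) ^ (k * max d d') :=
    pow_le_pow_right₀ hp (Nat.mul_le_mul_left _ (le_max_right _ _))
  push_cast
  calc |(N p k : ℝ) + M p k| ≤ |(N p k : ℝ)| + |(M p k : ℝ)| := abs_add_le _ _
    _ ≤ C * (p : ℝ) ^ (k * d) + C' * (p : ℝ) ^ (k * d') := add_le_add (h p k hk) (h' p k hk)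
    _ ≤ C * (p : ℝ) ^ (k * max d d') + C' * (p : ℝ) ^ (k * max d d') := by gcongr
    _ = _ := by ring

theorem Bdd.neg {N : Counts} (hN : Bdd N) : Bdd (fun p k => - N p k) := by
  obtain ⟨C, d, h⟩ := hN
  refine ⟨C, d, fun p k hk => ?_⟩
  push_cast
  rw [abs_neg]
  exact h p k hk

theorem Bdd.shift {N : Counts} (hN : Bdd N) (j : ℕ) :
    Bdd (fun p k => (p : ℤ) ^ (k * j) * N p k) := by
  obtain ⟨C, d, h⟩ := hN
  refine ⟨C, d + j, fun p k hk => ?_⟩
  push_cast
  rw [abs_mul, abs_of_nonneg (by positivity), mul_add, pow_add]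
  calc (p : ℝ) ^ (k * j) * |(N p k : ℝ)| ≤ (p : ℝ) ^ (k * j) * (C * (p : ℝ) ^ (k * d)) := by
        gcongr
        exact h p k hk
    _ = _ := by ring

/-- The dominating series. -/
theorem dominate {N : Counts} {C d : ℕ}
    (h : ∀ (p : Nat.Primes) (k : ℕ), k ≠ 0 → |(N p k : ℝ)| ≤ C * (p : ℝ) ^ (k * d)) {τ : ℝ}
    (hτ : 1 < τ) :
    Summable (fun x : Nat.Primes × ℕ => (C : ℝ) * ((x.1 : ℝ) ^ (-τ) * ((2 : ℝ) ^ (-τ)) ^ x.2)) ∧
    ∀ s : ℂ, (d : ℝ) + τ < s.re → ∀ x : Nat.Primes × ℕ,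
      ‖term N s x‖ ≤ (C : ℝ) * ((x.1 : ℝ) ^ (-τ) * ((2 : ℝ) ^ (-τ)) ^ x.2) := by
  constructor
  · apply Summable.mul_left
    have h1 : Summable (fun p : Nat.Primes => (p : ℝ) ^ (-τ)) :=
      Nat.Primes.summable_rpow.2 (by linarith)
    have h2 : Summable (fun k : ℕ => ((2 : ℝ) ^ (-τ)) ^ k) := by
      apply summable_geometric_of_lt_one (by positivity)
      exact Real.rpow_lt_one_of_one_lt_of_neg (by norm_num) (by linarith)
    exact h1.mul_of_nonneg h2 (fun p => by positivity) (fun k => by positivity)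
  · intro s hs x
    obtain ⟨p, k⟩ := x
    have hp2 : (2 : ℝ) ≤ p := by exact_mod_cast p.2.two_le
    have hp : (1 : ℝ) ≤ p := by linarith
    have hp0 : (0 : ℝ) < p := by linarith
    have hN := h p (k + 1) (Nat.succ_ne_zero k)
    unfold term
    simp only
    rw [norm_mul, norm_div, Complex.norm_natCast_cpow_of_pos p.2.pos]
    have e1 : ‖((N p (k + 1) : ℤ) : ℂ)‖ = |(N p (k + 1) : ℝ)| := by
      rw [Complex.norm_intCast]
    have e2 : ‖((k : ℂ) + 1)‖ = (k : ℝ) + 1 := by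
      have : ((k : ℂ) + 1) = ((k + 1 : ℕ) : ℂ) := by push_cast; ring
      rw [this, Complex.norm_natCast]
      push_cast; ring
    have e3 : (-(((k : ℂ) + 1) * s)).re = -(((k : ℝ) + 1) * s.re) := by
      simp
    rw [e1, e2, e3]
    have h1 : |(N p (k + 1) : ℝ)| / ((k : ℝ) + 1) ≤ C * (p : ℝ) ^ ((k + 1) * d) := by
      refine le_trans (div_le_self (abs_nonneg _) ?_) hN
      have : (0 : ℝ) ≤ k := Nat.cast_nonneg _
      linarith
    have h2 : (p : ℝ) ^ (-(((k : ℝ) + 1) * s.re)) ≤ (p : ℝ) ^ (-(((k : ℝ) + 1) * (d + τ))) := by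
      apply Real.rpow_le_rpow_of_exponent_le hp
      have : (0 : ℝ) ≤ k := Nat.cast_nonneg _
      have : ((k : ℝ) + 1) * (d + τ) ≤ ((k : ℝ) + 1) * s.re :=
        mul_le_mul_of_nonneg_left hs.le (by linarith)
      linarith
    have e4 : (p : ℝ) ^ ((k + 1) * d) = (p : ℝ) ^ ((((k + 1) * d : ℕ)) : ℝ) :=
      (Real.rpow_natCast _ _).symm
    calc |(N p (k + 1) : ℝ)| / ((k : ℝ) + 1) * (p : ℝ) ^ (-(((k : ℝ) + 1) * s.re))
        ≤ (C * (p : ℝ) ^ ((k + 1) * d)) * (p : ℝ) ^ (-(((k : ℝ) + 1) * (d + τ))) :=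
          mul_le_mul h1 h2 (by positivity) (by positivity)
      _ = C * (p : ℝ) ^ (-τ + -(k * τ)) := by
          rw [e4, mul_assoc, ← Real.rpow_add hp0]
          congr 2
          push_cast
          ring
      _ = C * ((p : ℝ) ^ (-τ) * ((p : ℝ) ^ (-τ)) ^ k) := by
          rw [Real.rpow_add hp0, ← Real.rpow_natCast ((p : ℝ) ^ (-τ)) k, ← Real.rpow_mul hp0.le]
          congr 3
          ring
      _ ≤ C * ((p : ℝ) ^ (-τ) * ((2 : ℝ) ^ (-τ)) ^ k) := by
          have h5 : (p : ℝ) ^ (-τ) ≤ (2 : ℝ) ^ (-τ) :=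
            Real.rpow_le_rpow_of_nonpos (by norm_num) hp2 (by linarith)
          gcongr

theorem Bdd.summable {N : Counts} (hN : Bdd N) :
    ∃ c : ℝ, ∀ s : ℂ, c < s.re → Summable (term N s) := by
  obtain ⟨C, d, h⟩ := hN
  refine ⟨d + 2, fun s hs => ?_⟩
  obtain ⟨h1, h2⟩ := dominate h (τ := 2) (by norm_num)
  exact Summable.of_norm_bounded h1 (h2 s hs)

theorem Bdd.analytic {N : Counts} (hN : Bdd N) :
    ∃ c : ℝ, ∀ s : ℂ, c < s.re → AnalyticAt ℂ (zeta N) s := by
  obtain ⟨C, d, h⟩ := hN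
  refine ⟨d + 2, fun s hs => ?_⟩
  obtain ⟨h1, h2⟩ := dominate h (τ := 2) (by norm_num)
  have hU : IsOpen {s : ℂ | (d : ℝ) + 2 < s.re} := isOpen_lt continuous_const Complex.continuous_re
  have hd : DifferentiableOn ℂ (fun s => ∑' x, term N s x) {s : ℂ | (d : ℝ) + 2 < s.re} := by
    refine differentiableOn_tsum_of_summable_norm h1 (fun x => ?_) hU (fun x w hw => h2 w hw x)
    unfold term
    apply Differentiable.differentiableOn
    have hp : ((x.1 : ℕ) : ℂ) ≠ 0 := by exact_mod_cast x.1.2.ne_zero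
    intro w
    apply DifferentiableAt.const_mul
    apply DifferentiableAt.const_cpow _ (Or.inl hp)
    fun_prop
  exact (hd.analyticAt (hU.mem_nhds hs)).cexp

theorem zeta_ne_zero (N : Counts) (s : ℂ) : zeta N s ≠ 0 := exp_ne_zero _

theorem Bdd.zeta_add {N M : Counts} (hN : Bdd N) (hM : Bdd M) :
    ∃ c : ℝ, ∀ s : ℂ, c < s.re →
      zeta (fun p k => N p k + M p k) s = zeta N s * zeta M s := by
  obtain ⟨c, hc⟩ := hN.summable
  obtain ⟨c', hc'⟩ := hM.summable
  refine ⟨max c c', fun s hs => ?_⟩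
  unfold zeta
  rw [← exp_add, ← (hc s (lt_of_le_of_lt (le_max_left _ _) hs)).tsum_add
    (hc' s (lt_of_le_of_lt (le_max_right _ _) hs))]
  congr 1
  apply tsum_congr
  intro x
  unfold term
  push_cast
  ring

theorem zeta_neg (N : Counts) (s : ℂ) : zeta (fun p k => - N p k) s = (zeta N s)⁻¹ := by
  unfold zeta
  rw [← exp_neg, ← tsum_neg]
  congr 1
  apply tsum_congr
  intro x
  unfold term
  push_cast
  ring

theorem zeta_shift (N : Counts) (j : ℕ) (s : ℂ) :
    zeta (fun p k => (p : ℤ) ^ (k * j) * N p k) s = zeta N (s - j) := by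
  unfold zeta
  congr 1
  apply tsum_congr
  intro x
  obtain ⟨p, k⟩ := x
  unfold term
  simp only
  have hp : ((p : ℕ) : ℂ) ≠ 0 := by exact_mod_cast p.2.ne_zero
  have e1 : -(((k : ℂ) + 1) * (s - j)) = (((k + 1) * j : ℕ) : ℂ) + -(((k : ℂ) + 1) * s) := by
    push_cast; ring
  rw [e1, cpow_add _ _ hp, cpow_natCast]
  push_cast
  ring

theorem zeta_congr {N M : Counts} (h : ∀ p k, k ≠ 0 → N p k = M p k) : zeta N = zeta M := by
  funext s
  unfold zeta
  congr 1
  apply tsum_congr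
  intro x
  unfold term
  rw [h x.1 (x.2 + 1) (Nat.succ_ne_zero _)]

variable {E : Set ℝ}

theorem Good.congr {N M : Counts} (h : ∀ p k, k ≠ 0 → N p k = M p k) (hN : Good E N) :
    Good E M := by
  unfold Good at *
  rwa [← zeta_congr h]

theorem Bdd.congr {N M : Counts} (h : ∀ p k, k ≠ 0 → N p k = M p k) (hN : Bdd N) : Bdd M := by
  obtain ⟨C, d, hC⟩ := hN
  exact ⟨C, d, fun p k hk => by rw [← h p k hk]; exact hC p k hk⟩

theorem Good.add {N M : Counts} (hN : Good E N) (hM : Good E M) (bN : Bdd N) (bM : Bdd M) :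
    Good E (fun p k => N p k + M p k) := by
  obtain ⟨g, g1, g2, c, g3⟩ := hN
  obtain ⟨g', g1', g2', c', g3'⟩ := hM
  obtain ⟨c'', hc⟩ := bN.zeta_add bM
  refine ⟨g * g', fun s => (g1 s).mul (g1' s), fun s hs => ?_, max (max c c') c'', fun s hs => ?_⟩
  · rw [meromorphicOrderAt_mul (g1 s) (g1' s)] at hs
    by_cases h0 : meromorphicOrderAt g s = 0
    · rw [h0, zero_add] at hs
      exact g2' s hs
    · exact g2 s h0
  · simp only [max_lt_iff] at hs
    rw [hc s hs.2, Pi.mul_apply, g3 s hs.1.1, g3' s hs.1.2]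

theorem Good.neg {N : Counts} (hN : Good E N) : Good E (fun p k => - N p k) := by
  obtain ⟨g, g1, g2, c, g3⟩ := hN
  refine ⟨g⁻¹, fun s => (g1 s).inv, fun s hs => g2 s ?_, c, fun s hs => ?_⟩
  · intro h0
    rw [meromorphicOrderAt_inv, h0, neg_zero] at hs
    exact hs rfl
  · rw [zeta_neg, Pi.inv_apply, g3 s hs]

theorem Good.sub {N M : Counts} (hN : Good E N) (hM : Good E M) (bN : Bdd N) (bM : Bdd M) :
    Good E (fun p k => N p k - M p k) := by
  have := hN.add hM.neg bN bM.neg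
  simpa only [sub_eq_add_neg] using this

theorem Good.translate {N M : Counts} {a : ℂ} (ha : ∀ s : ℂ, (s + a).re ∈ E → s.re ∈ E)
    (h : ∀ s, zeta M s = zeta N (s + a)) (hN : Good E N) : Good E M := by
  obtain ⟨g, g1, g2, c, g3⟩ := hN
  refine ⟨fun s => g (s + a), fun s => ?_, fun s hs => ?_, c - a.re, fun s hs => ?_⟩
  · exact (g1 (s + a)).comp_analyticAt (f := g) (g := fun s => s + a) (by fun_prop)
  · rw [meromorphicOrderAt_fun_comp_add_const_eq_meromorphicOrderAt] at hs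
    exact ha s (g2 _ hs)
  · rw [h]
    apply g3
    simp only [add_re]
    linarith

theorem mem_add_nat (hE : ∀ x : ℝ, x + 1 ∈ E ↔ x ∈ E) (x : ℝ) (j : ℕ) : x + j ∈ E ↔ x ∈ E := by
  induction j with
  | zero => simp
  | succ j ih =>
    rw [← ih, ← hE (x + j)]
    push_cast
    rw [add_assoc]

theorem Good.shift (hE : ∀ x : ℝ, x + 1 ∈ E ↔ x ∈ E) {N : Counts} (hN : Good E N) (j : ℕ) :
    Good E (fun p k => (p : ℤ) ^ (k * j) * N p k) := by
  refine hN.translate (a := -(j : ℂ)) (fun s hs => ?_) (fun s => ?_)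
  · have := (mem_add_nat hE (s + -(j : ℂ)).re j).2 hs
    simpa using this
  · rw [zeta_shift, sub_eq_add_neg]

theorem Good.unshift (hE : ∀ x : ℝ, x + 1 ∈ E ↔ x ∈ E) {N : Counts} {j : ℕ}
    (hN : Good E (fun p k => (p : ℤ) ^ (k * j) * N p k)) : Good E N := by
  refine hN.translate (a := (j : ℂ)) (fun s hs => ?_) (fun s => ?_)
  · have := (mem_add_nat hE s.re j).1 (by simpa using hs)
    exact this
  · rw [zeta_shift, add_sub_cancel_right]

/-- Division by `q - 1`. -/
theorem Good.div_sub_one (hE : ∀ x : ℝ, x + 1 ∈ E ↔ x ∈ E) {N : Counts} (bN : Bdd N)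
    (hN : Good E (fun p k => ((p : ℤ) ^ k - 1) * N p k)) : Good E N := by
  obtain ⟨F, F1, F2, c, F3⟩ := hN
  obtain ⟨c1, hc1⟩ := bN.analytic
  -- the functional equation of `F`
  obtain ⟨c2, hc2⟩ := (bN.shift 1).zeta_add bN.neg
  have hF : ∀ s : ℂ, max c c2 < s.re → F s = zeta N (s - 1) * (zeta N s)⁻¹ := by
    intro s hs
    rw [max_lt_iff] at hs
    rw [F3 s hs.1]
    have h1 := hc2 s hs.2
    rw [zeta_shift, zeta_neg, Nat.cast_one] at h1
    rw [← h1]
    congr 1
    funext p k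
    rw [mul_one]
    ring
  set c0 : ℝ := max (max c c2) c1 with hc0
  have hF' : ∀ s : ℂ, c0 < s.re + 1 → zeta N (s + 1) * F (s + 1) = zeta N s := by
    intro s hs
    have hs' : max (max c c2) c1 < (s + 1).re := by
      rw [add_re, one_re]
      exact hs
    rw [hF (s + 1) (lt_of_le_of_lt (le_max_left _ _) hs'), add_sub_cancel_right]
    rw [mul_comm (zeta N s), ← mul_assoc, mul_inv_cancel₀ (zeta_ne_zero _ _), one_mul]
  -- the truncated products
  let G : ℕ → ℂ → ℂ := fun m s => zeta N (s + m) * ∏ j ∈ Finset.range m, F (s + (j + 1 : ℕ))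
  have hG1 : ∀ (m : ℕ) (s : ℂ), c0 < s.re + m + 1 → G (m + 1) s = G m s := by
    intro m s hs
    simp only [G]
    rw [Finset.prod_range_succ, mul_comm (∏ j ∈ Finset.range m, F (s + (j + 1 : ℕ))), ← mul_assoc]
    congr 1
    have := hF' (s + m) (by simpa using hs)
    rw [add_assoc] at this
    push_cast
    exact this
  have hG2 : ∀ (m n : ℕ) (s : ℂ), m ≤ n → c0 < s.re + m + 1 → G n s = G m s := by
    intro m n s hmn hs
    induction n, hmn using Nat.le_induction with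
    | base => rfl
    | succ n hn ih =>
      rw [hG1 n s, ih]
      have : (m : ℝ) ≤ n := by exact_mod_cast hn
      linarith
  let M : ℂ → ℕ := fun s => ⌈c0 - s.re⌉₊
  have hM : ∀ s, c0 ≤ s.re + M s := by
    intro s
    have := Nat.le_ceil (c0 - s.re)
    simp only [M]
    linarith
  -- near every point the function is a truncated product
  have hloc : ∀ s₀ : ℂ, (fun s => G (M s) s) =ᶠ[𝓝 s₀] G (M s₀ + 1) := by
    intro s₀
    have h1 : c0 < s₀.re + ((M s₀ + 1 : ℕ) : ℝ) := by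
      have := hM s₀
      push_cast
      linarith
    have hU : IsOpen {s : ℂ | c0 < s.re + ((M s₀ + 1 : ℕ) : ℝ)} :=
      isOpen_lt continuous_const (Complex.continuous_re.add continuous_const)
    filter_upwards [hU.mem_nhds h1] with s hs
    have hs' : c0 < s.re + ((M s₀ + 1 : ℕ) : ℝ) := hs
    rcases le_total (M s) (M s₀ + 1) with h | h
    · exact (hG2 _ _ s h (by have := hM s; linarith)).symm
    · exact hG2 _ _ s h (by linarith)
  have han : ∀ s₀ : ℂ, AnalyticAt ℂ (fun s => zeta N (s + ((M s₀ + 1 : ℕ) : ℂ))) s₀ := by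
    intro s₀
    have h1 : c1 < (s₀ + ((M s₀ + 1 : ℕ) : ℂ)).re := by
      have := hM s₀
      have h2 : c1 ≤ c0 := le_max_right _ _
      rw [add_re, natCast_re]
      push_cast
      linarith
    exact (hc1 _ h1).comp_of_eq (g := zeta N) (f := fun s => s + ((M s₀ + 1 : ℕ) : ℂ))
      (by fun_prop) rfl
  have hFm : ∀ (s₀ : ℂ) (j : ℕ), MeromorphicAt (fun s => F (s + (j + 1 : ℕ))) s₀ := fun s₀ j =>
    (F1 (s₀ + (j + 1 : ℕ))).comp_analyticAt (f := F) (g := fun s => s + (j + 1 : ℕ)) (by fun_prop)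
  have hGm : ∀ s₀ : ℂ, G (M s₀ + 1) = (fun s => zeta N (s + ((M s₀ + 1 : ℕ) : ℂ))) *
      ∏ j ∈ Finset.range (M s₀ + 1), (fun s => F (s + (j + 1 : ℕ))) := by
    intro s₀
    funext s
    simp only [G, Pi.mul_apply, Finset.prod_apply]
  have hGmer : ∀ s₀ : ℂ, MeromorphicAt (G (M s₀ + 1)) s₀ := by
    intro s₀
    rw [hGm]
    exact (han s₀).meromorphicAt.mul (MeromorphicAt.prod (fun j _ => hFm s₀ j))
  refine ⟨fun s => G (M s) s, fun s₀ => ?_, fun s₀ h₀ => ?_, c0, fun s hs => ?_⟩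
  · exact (hGmer s₀).congr ((hloc s₀).symm.filter_mono nhdsWithin_le_nhds)
  · rw [meromorphicOrderAt_congr ((hloc s₀).filter_mono nhdsWithin_le_nhds), hGm,
      meromorphicOrderAt_mul (han s₀).meromorphicAt (MeromorphicAt.prod (fun j _ => hFm s₀ j)),
      (han s₀).meromorphicNFAt.meromorphicOrderAt_eq_zero_iff.2 (zeta_ne_zero _ _), zero_add,
      meromorphicOrderAt_prod (fun j _ => hFm s₀ j)] at h₀
    obtain ⟨j, -, hj⟩ := Finset.exists_ne_zero_of_sum_ne_zero h₀
    rw [meromorphicOrderAt_fun_comp_add_const_eq_meromorphicOrderAt] at hj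
    have h1 := F2 _ hj
    rw [add_re, natCast_re] at h1
    exact (mem_add_nat hE _ _).1 h1
  · have h0 : M s = 0 := by
      simp only [M]
      rw [Nat.ceil_eq_zero]
      linarith
    simp only [h0, G]
    simp

end Pool.Agent.H73.Zeta
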