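import Mathlib

/-!
Counting points over finite fields: the lemmas behind the reduction to trilinear forms.
-/

namespace Pool.Agent.H73.Zeta

open Finset

section cnt

/-- The number of elements with a property. -/
noncomputable def cnt {α : Type*} (P : α → Prop) : ℤ := (Nat.card {x // P x} : ℤ)

theorem cnt_sum {α : Type*} [Fintype α] (P : α → Prop) [DecidablePred P] :
    cnt P = ∑ x, if P x then (1 : ℤ) else 0 := by
  unfold cnt
  rw [Nat.card_eq_fintype_card, Fintype.card_subtype, Finset.card_filter]
  push_cast
  rfl

theorem cnt_congr {α : Type*} {P Q : α → Prop} (h : ∀ x, P x ↔ Q x) :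
    cnt P = cnt Q := by
  have : P = Q := funext fun x => propext (h x)
  rw [this]

theorem cnt_equiv {α β : Type*} (e : α ≃ β) (P : β → Prop) :
    cnt (fun x => P (e x)) = cnt P := by
  unfold cnt
  rw [Nat.card_congr (e.subtypeEquiv (fun x => Iff.rfl))]

theorem cnt_prod {α β : Type*} [Fintype α] [Finite β] (P : α × β → Prop) :
    cnt P = ∑ a, cnt (fun b => P (a, b)) := by
  classical
  have := Fintype.ofFinite β
  simp only [cnt_sum]
  rw [Fintype.sum_prod_type]

theorem cnt_prod' {α β : Type*} [Finite α] [Fintype β] (P : α × β → Prop) :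
    cnt P = ∑ b, cnt (fun a => P (a, b)) := by
  classical
  have := Fintype.ofFinite α
  simp only [cnt_sum]
  rw [Fintype.sum_prod_type_right]

theorem cnt_true {α : Type*} : cnt (fun _ : α => True) = Nat.card α := by
  unfold cnt
  rw [Nat.card_congr (Equiv.subtypeUnivEquiv (fun _ => trivial))]

theorem card_fun {ι α : Type*} [Fintype ι] :
    (Nat.card (ι → α) : ℤ) = (Nat.card α : ℤ) ^ Fintype.card ι := by
  rw [Nat.card_fun, Nat.card_eq_fintype_card (α := ι)]
  push_cast
  rfl

theorem cnt_eq {α : Type*} (a : α) : cnt (fun x : α => x = a) = 1 := by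
  unfold cnt
  simp

theorem cnt_le {α : Type*} [Finite α] (P : α → Prop) : cnt P ≤ Nat.card α := by
  unfold cnt
  exact_mod_cast Nat.card_le_card_of_injective (Subtype.val : {x // P x} → α)
    Subtype.val_injective

theorem cnt_nonneg {α : Type*} (P : α → Prop) : 0 ≤ cnt P := by
  unfold cnt
  exact Int.natCast_nonneg _

end cnt

section field

variable {K : Type*} [Field K]

/-- Zeros of a linear form. -/
theorem cnt_linear [Finite K] {ι : Type*} [Fintype ι] (c : ι → K) [Decidable (∀ i, c i = 0)] :
    (Nat.card K : ℤ) * cnt (fun l : ι → K => ∑ i, l i * c i = 0) =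
      (Nat.card K : ℤ) ^ Fintype.card ι * (if ∀ i, c i = 0 then (Nat.card K : ℤ) else 1)
      := by
  classical
  by_cases h : ∀ i, c i = 0
  · rw [if_pos h]
    have : cnt (fun l : ι → K => ∑ i, l i * c i = 0) = cnt (fun _ : ι → K => True) := by
      apply cnt_congr
      intro l
      simp [h]
    rw [this, cnt_true, card_fun]
    ring
  · rw [if_neg h, mul_one]
    obtain ⟨i₀, h₀⟩ := not_forall.1 h
    let e : (ι → K) ≃ {l : ι → K // ∑ i, l i * c i = 0} × K :=
      { toFun := fun l => (⟨fun i => l i - if i = i₀ then (∑ i, l i * c i) / c i₀ else 0, by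
            simp only [sub_mul, ite_mul, zero_mul, Finset.sum_sub_distrib, Finset.sum_ite_eq',
              Finset.mem_univ, if_true]
            rw [div_mul_cancel₀ _ h₀, sub_self]⟩, ∑ i, l i * c i)
        invFun := fun x => fun i => x.1.1 i + if i = i₀ then x.2 / c i₀ else 0
        left_inv := by
          intro l
          funext i
          simp
        right_inv := by
          rintro ⟨⟨l, hl⟩, a⟩
          have h1 : ∑ i, (l i + if i = i₀ then a / c i₀ else 0) * c i = a := by
            simp only [add_mul, ite_mul, zero_mul, Finset.sum_add_distrib, Finset.sum_ite_eq',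
              Finset.mem_univ, if_true]
            rw [div_mul_cancel₀ _ h₀, hl, zero_add]
          simp only [Prod.mk.injEq, Subtype.mk.injEq]
          refine ⟨?_, h1⟩
          funext i
          rw [h1]
          ring }
    have h1 := Nat.card_congr e
    rw [Nat.card_prod] at h1
    have h2 : (Nat.card (ι → K) : ℤ) =
        cnt (fun l : ι → K => ∑ i, l i * c i = 0) * Nat.card K := by
      unfold cnt
      exact_mod_cast h1
    rw [mul_comm, ← h2, card_fun]

/-- From a system to one equation with multipliers. -/
theorem cnt_mult [Finite K] {ι W : Type*} [Fintype ι] [Finite W] (h : ι → W → K) :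
    (Nat.card K : ℤ) * cnt (fun z : (ι → K) × W => ∑ i, z.1 i * h i z.2 = 0) =
      (Nat.card K : ℤ) ^ Fintype.card ι * Nat.card W +
      ((Nat.card K : ℤ) - 1) * ((Nat.card K : ℤ) ^ Fintype.card ι *
        cnt (fun w => ∀ i, h i w = 0)) := by
  classical
  have := Fintype.ofFinite W
  rw [cnt_prod', Finset.mul_sum]
  have h1 : ∀ w : W, (Nat.card K : ℤ) * cnt (fun l : ι → K => ∑ i, l i * h i w = 0) =
      (Nat.card K : ℤ) ^ Fintype.card ι + ((Nat.card K : ℤ) - 1) *
        ((Nat.card K : ℤ) ^ Fintype.card ι * if ∀ i, h i w = 0 then 1 else 0) := by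
    intro w
    rw [cnt_linear]
    split_ifs <;> ring
  rw [Finset.sum_congr rfl (fun w _ => h1 w), Finset.sum_add_distrib, Finset.sum_const,
    ← Finset.mul_sum, ← Finset.mul_sum, cnt_sum]
  simp only [Finset.card_univ, nsmul_eq_mul, Nat.card_eq_fintype_card (α := W)]
  ring

/-- A bilinear form with integral coefficients. -/
def bil {τ : Type*} [Fintype τ] (Q : τ → τ → ℤ) (u v : τ → K) : K :=
  ∑ a, ∑ b, (Q a b : K) * u a * v b

theorem bil_smul_right {τ : Type*} [Fintype τ] (Q : τ → τ → ℤ) (u v : τ → K) (c : K) :
    bil Q u (c • v) = c * bil Q u v := by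
  unfold bil
  rw [Finset.mul_sum]
  apply Finset.sum_congr rfl
  intro a _
  rw [Finset.mul_sum]
  apply Finset.sum_congr rfl
  intro b _
  simp only [Pi.smul_apply, smul_eq_mul]
  ring

theorem bil_smul_left {τ : Type*} [Fintype τ] (Q : τ → τ → ℤ) (u v : τ → K) (c : K) :
    bil Q (c • u) v = c * bil Q u v := by
  unfold bil
  rw [Finset.mul_sum]
  apply Finset.sum_congr rfl
  intro a _
  rw [Finset.mul_sum]
  apply Finset.sum_congr rfl
  intro b _
  simp only [Pi.smul_apply, smul_eq_mul]
  ring

/-- Pairs of proportional vectors on which bilinear forms vanish. -/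
theorem cnt_pairs [Finite K] {τ ε : Type*} [Fintype τ] (Q : ε → τ → τ → ℤ) :
    cnt (fun z : (τ → K) × (τ → K) =>
        (∀ a b, z.1 a * z.2 b = z.1 b * z.2 a) ∧ ∀ e, bil (Q e) z.1 z.2 = 0) + 1 =
      2 * (Nat.card K : ℤ) ^ Fintype.card τ + ((Nat.card K : ℤ) - 1) *
        cnt (fun u : τ → K => u ≠ 0 ∧ ∀ e, bil (Q e) u u = 0) := by
  classical
  have := Fintype.ofFinite K
  rw [cnt_prod]
  have h0 : ∀ u : τ → K, cnt (fun v : τ → K =>
      (∀ a b, u a * v b = u b * v a) ∧ ∀ e, bil (Q e) u v = 0) =
      (if u = 0 then (Nat.card K : ℤ) ^ Fintype.card τ - 1 else 0) + 1 +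
        ((Nat.card K : ℤ) - 1) * (if u ≠ 0 ∧ ∀ e, bil (Q e) u u = 0 then 1 else 0) := by
    intro u
    by_cases hu : u = 0
    · rw [if_pos hu, if_neg (fun h => h.1 hu)]
      have : cnt (fun v : τ → K => (∀ a b, u a * v b = u b * v a) ∧ ∀ e, bil (Q e) u v = 0) =
          cnt (fun _ : τ → K => True) := by
        apply cnt_congr
        intro v
        subst hu
        simp [bil]
      rw [this, cnt_true, card_fun]
      ring
    · rw [if_neg hu]
      obtain ⟨i, hi⟩ : ∃ i, u i ≠ 0 := by
        by_contra hcon
        exact hu (funext fun i => not_not.1 (not_exists.1 hcon i))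
      -- proportional vectors
      have hprop : ∀ v : τ → K, (∀ a b, u a * v b = u b * v a) ↔ ∃ c : K, v = c • u := by
        intro v
        constructor
        · intro h
          refine ⟨v i / u i, funext fun a => ?_⟩
          simp only [Pi.smul_apply, smul_eq_mul]
          rw [div_mul_eq_mul_div, eq_div_iff hi, mul_comm, h i a, mul_comm]
        · rintro ⟨c, rfl⟩ a b
          simp only [Pi.smul_apply, smul_eq_mul]
          ring
      have hinj : Function.Injective (fun c : K => c • u) := by
        intro c c' h
        have := congrFun h i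
        simp only [Pi.smul_apply, smul_eq_mul] at this
        exact mul_right_cancel₀ hi this
      have h1 : cnt (fun v : τ → K =>
          (∀ a b, u a * v b = u b * v a) ∧ ∀ e, bil (Q e) u v = 0) =
          cnt (fun c : K => c = 0 ∨ ∀ e, bil (Q e) u u = 0) := by
        rw [cnt_sum, cnt_sum, ← Finset.sum_filter, ← Finset.sum_filter]
        symm
        apply Finset.sum_bij (fun (c : K) _ => c • u)
        · intro c hc
          simp only [Finset.mem_filter, Finset.mem_univ, true_and] at hc ⊢
          refine ⟨(hprop _).2 ⟨c, rfl⟩, fun e => ?_⟩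
          rw [bil_smul_right]
          rcases hc with hc | hc
          · rw [hc, zero_mul]
          · rw [hc e, mul_zero]
        · intro c _ c' _ h
          exact hinj h
        · intro v hv
          simp only [Finset.mem_filter, Finset.mem_univ, true_and] at hv
          obtain ⟨c, rfl⟩ := (hprop v).1 hv.1
          refine ⟨c, ?_, rfl⟩
          simp only [Finset.mem_filter, Finset.mem_univ, true_and]
          by_cases hc : c = 0
          · exact Or.inl hc
          · right
            intro e
            have := hv.2 e
            rw [bil_smul_right] at this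
            exact (mul_eq_zero.1 this).resolve_left hc
        · intro c _
          rfl
      rw [h1]
      by_cases hQ : ∀ e, bil (Q e) u u = 0
      · rw [if_pos ⟨hu, hQ⟩]
        have : cnt (fun c : K => c = 0 ∨ ∀ e, bil (Q e) u u = 0) = cnt (fun _ : K => True) :=
          cnt_congr fun c => by simp [hQ]
        rw [this, cnt_true]
        ring
      · rw [if_neg (fun h => hQ h.2)]
        have : cnt (fun c : K => c = 0 ∨ ∀ e, bil (Q e) u u = 0) = cnt (fun c : K => c = 0) :=
          cnt_congr fun c => by simp [hQ]
        rw [this, cnt_eq]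
        ring
  rw [Finset.sum_congr rfl (fun u _ => h0 u), Finset.sum_add_distrib, Finset.sum_add_distrib,
    ← Finset.mul_sum, Finset.sum_ite_eq', ← cnt_sum]
  simp only [Finset.mem_univ, if_true, Finset.sum_const, Finset.card_univ,
    nsmul_eq_mul, mul_one, ← Nat.card_eq_fintype_card, card_fun]
  ring

theorem bil_option {V : Type*} [Fintype V] (Q : Option V → Option V → ℤ) (u : Option V → K)
    (h : u none = 0) :
    bil Q u u = bil (fun a b => Q (some a) (some b)) (fun a => u (some a)) (fun a => u (some a))
    := by
  unfold bil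
  simp [Fintype.sum_option, h]

/-- Dehomogenisation. -/
theorem cnt_dehom [Finite K] {V ε : Type*} [Fintype V] (Q : ε → Option V → Option V → ℤ) :
    cnt (fun u : Option V → K => u ≠ 0 ∧ ∀ e, bil (Q e) u u = 0) =
      ((Nat.card K : ℤ) - 1) * cnt (fun x : V → K =>
        ∀ e, bil (Q e) (fun a => Option.elim a 1 x) (fun a => Option.elim a 1 x) = 0) +
      cnt (fun x : V → K => x ≠ 0 ∧ ∀ e, bil (fun a b => Q e (some a) (some b)) x x = 0) := by
  classical
  have := Fintype.ofFinite K
  let E : K × (V → K) ≃ (Option V → K) :=
    { toFun := fun z a => Option.elim a z.1 z.2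
      invFun := fun u => (u none, fun a => u (some a))
      left_inv := fun z => rfl
      right_inv := fun u => by
        funext a
        cases a <;> rfl }
  rw [← cnt_equiv E, cnt_prod]
  have h0 : ∀ c : K, cnt (fun x : V → K => E (c, x) ≠ 0 ∧ ∀ e, bil (Q e) (E (c, x)) (E (c, x)) = 0)
      = if c = 0 then
          cnt (fun x : V → K => x ≠ 0 ∧ ∀ e, bil (fun a b => Q e (some a) (some b)) x x = 0)
        else cnt (fun x : V → K =>
          ∀ e, bil (Q e) (fun a => Option.elim a 1 x) (fun a => Option.elim a 1 x) = 0) := by
    intro c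
    split_ifs with hc
    · apply cnt_congr
      intro x
      subst hc
      apply and_congr
      · constructor
        · rintro h rfl
          apply h
          funext a
          cases a <;> rfl
        · intro h h'
          apply h
          funext a
          exact congrFun h' (some a)
      · apply forall_congr'
        intro e
        rw [bil_option _ _ rfl]
        rfl
    · rw [← cnt_equiv (MulAction.toPerm (Units.mk0 c hc) : (V → K) ≃ (V → K))]
      apply cnt_congr
      intro x
      have h1 : E (c, (MulAction.toPerm (Units.mk0 c hc) : (V → K) ≃ (V → K)) x) =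
          c • (fun a => Option.elim a 1 x) := by
        funext a
        cases a
        · simp [E]
        · simp [E, Units.smul_def]
      rw [h1]
      constructor
      · rintro ⟨-, h2⟩ e
        have := h2 e
        rw [bil_smul_right, bil_smul_left] at this
        exact (mul_eq_zero.1 ((mul_eq_zero.1 this).resolve_left hc)).resolve_left hc
      · intro h2
        refine ⟨fun h3 => ?_, fun e => ?_⟩
        · have := congrFun h3 none
          simp [hc] at this
        · rw [bil_smul_right, bil_smul_left, h2 e, mul_zero, mul_zero]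
  rw [Finset.sum_congr rfl (fun c _ => h0 c), ← Finset.add_sum_erase _ _ (Finset.mem_univ (0 : K)),
    if_pos rfl, add_comm]
  congr 1
  rw [Finset.sum_congr rfl (g := fun _ => cnt (fun x : V → K =>
    ∀ e, bil (Q e) (fun a => Option.elim a 1 x) (fun a => Option.elim a 1 x) = 0))
    (fun c hc => if_neg (Finset.ne_of_mem_erase hc)), Finset.sum_const,
    Finset.card_erase_of_mem (Finset.mem_univ _), nsmul_eq_mul, Finset.card_univ,
    Nat.cast_sub Fintype.card_pos, Nat.card_eq_fintype_card]
  simp

end field

end Pool.Agent.H73.Zeta
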