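import Pool.Agent.H73.ZetaCount

/-!
Every polynomial equation over `ℤ` is equivalent to a system of elementary equations
`c = a + b`, `c = a * b`, `c = -1`, `c = 0`, hence to a system of bilinear equations with
coefficients `0, 1, -1`.
-/

namespace Pool.Agent.H73.Zeta

open Finset

/-- Elementary equations between variables. -/
inductive Eqn (V : Type) : Type where
  | add (a b c : V) : Eqn V
  | mul (a b c : V) : Eqn V
  | neg (c : V) : Eqn V
  | zero (c : V) : Eqn V

namespace Eqn

variable {V W : Type}

/-- Validity of an elementary equation. -/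
def holds {K : Type} [Field K] : Eqn V → (V → K) → Prop
  | add a b c, y => y c = y a + y b
  | mul a b c, y => y c = y a * y b
  | neg c, y => y c = -1
  | zero c, y => y c = 0

/-- Renaming of the variables. -/
def map (f : V → W) : Eqn V → Eqn W
  | add a b c => add (f a) (f b) (f c)
  | mul a b c => mul (f a) (f b) (f c)
  | neg c => neg (f c)
  | zero c => zero (f c)

theorem holds_map {K : Type} [Field K] (f : V → W) (e : Eqn V) (y : W → K) :
    (e.map f).holds y ↔ e.holds (fun v => y (f v)) := by
  cases e <;> rfl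

variable [DecidableEq V]

/-- The bilinear form of an elementary equation. -/
def mat : Eqn V → Option V → Option V → ℤ
  | add a _ c, none, some d => (if d = c then 1 else 0) - (if d = a then 1 else 0)
  | add _ b _, some d, none => - (if d = b then 1 else 0)
  | add _ _ _, none, none => 0
  | add _ _ _, some _, some _ => 0
  | mul _ _ c, none, some d => if d = c then 1 else 0
  | mul a b _, some d, some e => if d = a then - (if e = b then 1 else 0) else 0
  | mul _ _ _, none, none => 0
  | mul _ _ _, some _, none => 0
  | neg c, none, some d => if d = c then 1 else 0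
  | neg _, none, none => 1
  | neg _, some _, none => 0
  | neg _, some _, some _ => 0
  | zero c, none, some d => if d = c then 1 else 0
  | zero _, none, none => 0
  | zero _, some _, none => 0
  | zero _, some _, some _ => 0

theorem mat_mem (e : Eqn V) (a b : Option V) : e.mat a b = -1 ∨ e.mat a b = 0 ∨ e.mat a b = 1 := by
  cases e <;> cases a <;> cases b <;> simp only [mat] <;> (try split_ifs) <;> simp

theorem bil_mat [Fintype V] {K : Type} [Field K] (e : Eqn V) (x : V → K) :
    bil e.mat (fun a => Option.elim a 1 x) (fun a => Option.elim a 1 x) = 0 ↔ e.holds x := by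
  unfold bil
  cases e with
  | add a b c =>
    simp only [Fintype.sum_option, mat, holds, Option.elim]
    push_cast
    simp only [sub_mul, ite_mul, one_mul, zero_mul, Finset.sum_sub_distrib, Finset.sum_ite_eq',
      Finset.mem_univ, if_true, neg_mul, mul_one, zero_add, add_zero, Finset.sum_neg_distrib,
      Finset.sum_const_zero]
    constructor
    · intro h
      linear_combination h
    · intro h
      linear_combination h
  | mul a b c =>
    simp only [Fintype.sum_option, mat, holds, Option.elim]
    push_cast
    simp only [ite_mul, one_mul, zero_mul, Finset.sum_ite_eq',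
      Finset.mem_univ, if_true, neg_mul, mul_one, zero_add]
    have h1 : ∑ d, ∑ e, (if d = a then -if e = b then (1 : K) else 0 else 0) * x d * x e =
        - (x a * x b) := by
      rw [Finset.sum_eq_single a, Finset.sum_eq_single b]
      · simp
      · intro e _ he
        simp [he]
      · simp
      · intro d _ hd
        simp [hd]
      · simp
    constructor
    · intro h
      rw [Finset.sum_congr rfl (g := fun d => ∑ e,
        (if d = a then -if e = b then (1 : K) else 0 else 0) * x d * x e)] at h
      · rw [h1] at h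
        linear_combination h
      · intro d _
        apply Finset.sum_congr rfl
        intro e _
        split_ifs <;> simp
    · intro h
      rw [Finset.sum_congr rfl (g := fun d => ∑ e,
        (if d = a then -if e = b then (1 : K) else 0 else 0) * x d * x e)]
      · rw [h1]
        linear_combination h
      · intro d _
        apply Finset.sum_congr rfl
        intro e _
        split_ifs <;> simp
  | neg c =>
    simp only [Fintype.sum_option, mat, holds, Option.elim]
    push_cast
    simp only [ite_mul, one_mul, zero_mul, Finset.sum_ite_eq',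
      Finset.mem_univ, if_true, mul_one, add_zero,
      Finset.sum_const_zero]
    constructor
    · intro h
      linear_combination h
    · intro h
      linear_combination h
  | zero c =>
    simp only [Fintype.sum_option, mat, holds, Option.elim]
    push_cast
    simp only [ite_mul, one_mul, zero_mul, Finset.sum_ite_eq',
      Finset.mem_univ, if_true, zero_add, add_zero,
      Finset.sum_const_zero]

end Eqn

variable {σ : Type}

/-- The value of `F` is computed by elementary equations in auxiliary variables, which are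
determined by them. -/
def Comp (F : MvPolynomial σ ℤ) : Prop :=
  ∃ (W ε : Type) (_ : Fintype W) (_ : Fintype ε) (L : ε → Eqn (σ ⊕ W)) (out : σ ⊕ W),
    ∀ (K : Type) [Field K], ∃ ev : (σ → K) → (W → K),
      (∀ x y, (∀ i, (L i).holds (Sum.elim x y)) ↔ y = ev x) ∧
      ∀ x, Sum.elim x (ev x) out = MvPolynomial.aeval x F

theorem comp_X (i : σ) : Comp (MvPolynomial.X i : MvPolynomial σ ℤ) := by
  refine ⟨Empty, Empty, inferInstance, inferInstance, fun e => e.elim, Sum.inl i,
    fun K _ => ⟨fun _ e => e.elim, fun x y => ?_, fun x => ?_⟩⟩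
  · constructor
    · intro _
      funext e
      exact e.elim
    · intro _ e
      exact e.elim
  · simp

theorem comp_neg_one : Comp (MvPolynomial.C (-1) : MvPolynomial σ ℤ) := by
  refine ⟨Unit, Unit, inferInstance, inferInstance, fun _ => Eqn.neg (Sum.inr ()), Sum.inr (),
    fun K _ => ⟨fun _ _ => -1, fun x y => ?_, fun x => ?_⟩⟩
  · constructor
    · intro h
      funext u
      exact h ()
    · rintro rfl _
      rfl
  · simp

theorem Comp.binop {F G H : MvPolynomial σ ℤ} (mk : ∀ {V : Type}, V → V → V → Eqn V)
    (op : ∀ {K : Type} [Field K], K → K → K)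
    (h1 : ∀ {V K : Type} [Field K] (a b c : V) (y : V → K),
      (mk a b c).holds y ↔ y c = op (y a) (y b))
    (h2 : ∀ {K : Type} [Field K] (x : σ → K),
      MvPolynomial.aeval x H = op (MvPolynomial.aeval x F) (MvPolynomial.aeval x G))
    (hF : Comp F) (hG : Comp G) : Comp H := by
  obtain ⟨W₁, ε₁, _, _, L₁, out₁, c₁⟩ := hF
  obtain ⟨W₂, ε₂, _, _, L₂, out₂, c₂⟩ := hG
  let f₁ : σ ⊕ W₁ → σ ⊕ ((W₁ ⊕ W₂) ⊕ Unit) := Sum.map id (fun w => Sum.inl (Sum.inl w))
  let f₂ : σ ⊕ W₂ → σ ⊕ ((W₁ ⊕ W₂) ⊕ Unit) := Sum.map id (fun w => Sum.inl (Sum.inr w))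
  refine ⟨(W₁ ⊕ W₂) ⊕ Unit, (ε₁ ⊕ ε₂) ⊕ Unit, inferInstance, inferInstance,
    Sum.elim (Sum.elim (fun i => (L₁ i).map f₁) (fun i => (L₂ i).map f₂))
      (fun _ => mk (f₁ out₁) (f₂ out₂) (Sum.inr (Sum.inr ()))), Sum.inr (Sum.inr ()),
    fun K _ => ?_⟩
  obtain ⟨ev₁, e₁, o₁⟩ := c₁ K
  obtain ⟨ev₂, e₂, o₂⟩ := c₂ K
  refine ⟨fun x => Sum.elim (Sum.elim (ev₁ x) (ev₂ x))
    (fun _ => op (Sum.elim x (ev₁ x) out₁) (Sum.elim x (ev₂ x) out₂)), fun x y => ?_, fun x => ?_⟩
  · have g₁ : ∀ y : (W₁ ⊕ W₂) ⊕ Unit → K, (fun v => Sum.elim x y (f₁ v)) =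
        Sum.elim x (fun w => y (Sum.inl (Sum.inl w))) := by
      intro y
      funext v
      cases v <;> rfl
    have g₂ : ∀ y : (W₁ ⊕ W₂) ⊕ Unit → K, (fun v => Sum.elim x y (f₂ v)) =
        Sum.elim x (fun w => y (Sum.inl (Sum.inr w))) := by
      intro y
      funext v
      cases v <;> rfl
    constructor
    · intro h
      have k₁ : (fun w => y (Sum.inl (Sum.inl w))) = ev₁ x := by
        rw [← e₁]
        intro i
        have := h (Sum.inl (Sum.inl i))
        simp only [Sum.elim_inl] at this
        rw [Eqn.holds_map, g₁] at this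
        exact this
      have k₂ : (fun w => y (Sum.inl (Sum.inr w))) = ev₂ x := by
        rw [← e₂]
        intro i
        have := h (Sum.inl (Sum.inr i))
        simp only [Sum.elim_inl, Sum.elim_inr] at this
        rw [Eqn.holds_map, g₂] at this
        exact this
      have k₃ : y (Sum.inr ()) = op (Sum.elim x (ev₁ x) out₁) (Sum.elim x (ev₂ x) out₂) := by
        have := h (Sum.inr ())
        simp only [Sum.elim_inr] at this
        rw [h1] at this
        have a₁ : Sum.elim x y (f₁ out₁) = Sum.elim x (ev₁ x) out₁ := by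
          rw [← k₁]
          exact congrFun (g₁ y) out₁
        have a₂ : Sum.elim x y (f₂ out₂) = Sum.elim x (ev₂ x) out₂ := by
          rw [← k₂]
          exact congrFun (g₂ y) out₂
        rw [a₁, a₂] at this
        exact this
      funext w
      rcases w with (w | w) | w
      · exact congrFun k₁ w
      · exact congrFun k₂ w
      · exact k₃
    · rintro rfl i
      rcases i with (i | i) | i
      · simp only [Sum.elim_inl]
        rw [Eqn.holds_map, g₁]
        exact (e₁ x (ev₁ x)).2 rfl i
      · simp only [Sum.elim_inl, Sum.elim_inr]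
        rw [Eqn.holds_map, g₂]
        exact (e₂ x (ev₂ x)).2 rfl i
      · simp only [Sum.elim_inr]
        rw [h1]
        have a₁ := congrFun (g₁ (Sum.elim (Sum.elim (ev₁ x) (ev₂ x))
          (fun _ => op (Sum.elim x (ev₁ x) out₁) (Sum.elim x (ev₂ x) out₂)))) out₁
        have a₂ := congrFun (g₂ (Sum.elim (Sum.elim (ev₁ x) (ev₂ x))
          (fun _ => op (Sum.elim x (ev₁ x) out₁) (Sum.elim x (ev₂ x) out₂)))) out₂
        exact (congrArg₂ op a₁ a₂).symm
  · simp only [Sum.elim_inr]
    rw [o₁, o₂, h2]

theorem Comp.add {F G : MvPolynomial σ ℤ} (hF : Comp F) (hG : Comp G) : Comp (F + G) :=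
  Comp.binop (fun a b c => Eqn.add a b c) (fun a b => a + b) (fun _ _ _ _ => Iff.rfl)
    (fun _ => map_add _ _ _) hF hG

theorem Comp.mul {F G : MvPolynomial σ ℤ} (hF : Comp F) (hG : Comp G) : Comp (F * G) :=
  Comp.binop (fun a b c => Eqn.mul a b c) (fun a b => a * b) (fun _ _ _ _ => Iff.rfl)
    (fun _ => map_mul _ _ _) hF hG

theorem comp_C (n : ℤ) : Comp (MvPolynomial.C n : MvPolynomial σ ℤ) := by
  have h1 : Comp (MvPolynomial.C 1 : MvPolynomial σ ℤ) := by
    have := (comp_neg_one (σ := σ)).mul comp_neg_one
    rwa [← MvPolynomial.C_mul, show (-1 : ℤ) * (-1) = 1 by norm_num] at this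
  induction n using Int.induction_on with
  | zero =>
    have := h1.add comp_neg_one
    rwa [← MvPolynomial.C_add, show (1 : ℤ) + (-1) = 0 by norm_num] at this
  | succ n ih =>
    have := ih.add h1
    rwa [← MvPolynomial.C_add] at this
  | pred n ih =>
    have := ih.add comp_neg_one
    rwa [← MvPolynomial.C_add, ← sub_eq_add_neg] at this

theorem comp (F : MvPolynomial σ ℤ) : Comp F := by
  induction F using MvPolynomial.induction_on with
  | C n => exact comp_C n
  | add F G hF hG => exact hF.add hG
  | mul_X F i hF => exact hF.mul (comp_X i)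

/-- Every polynomial equation is equivalent to a system of bilinear equations with coefficients
`0, 1, -1` in homogeneous coordinates `(1, x)`. -/
theorem quadratic [Finite σ] (F : MvPolynomial σ ℤ) :
    ∃ (V ε : Type) (_ : Fintype V) (_ : Fintype ε) (Q : ε → Option V → Option V → ℤ),
      (∀ e a b, Q e a b = -1 ∨ Q e a b = 0 ∨ Q e a b = 1) ∧
      ∀ (K : Type) [Field K], cnt (fun x : V → K =>
        ∀ e, bil (Q e) (fun a => Option.elim a 1 x) (fun a => Option.elim a 1 x) = 0) =
        cnt (fun x : σ → K => MvPolynomial.aeval x F = 0) := by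
  classical
  have := Fintype.ofFinite σ
  obtain ⟨W, ε, _, _, L, out, c⟩ := comp F
  refine ⟨σ ⊕ W, ε ⊕ Unit, inferInstance, inferInstance,
    fun e => (Sum.elim L (fun _ => Eqn.zero out) e).mat, fun e a b => Eqn.mat_mem _ a b,
    fun K _ => ?_⟩
  obtain ⟨ev, h1, h2⟩ := c K
  have h3 : ∀ x : σ ⊕ W → K, (∀ e : ε ⊕ Unit,
      bil (Sum.elim L (fun _ => Eqn.zero out) e).mat (fun a => Option.elim a 1 x)
        (fun a => Option.elim a 1 x) = 0) ↔
      ((fun w => x (Sum.inr w)) = ev (fun s => x (Sum.inl s)) ∧ x out = 0) := by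
    intro x
    have hx : Sum.elim (fun s => x (Sum.inl s)) (fun w => x (Sum.inr w)) = x := by
      funext v
      cases v <;> rfl
    rw [← h1, hx]
    simp only [Eqn.bil_mat]
    constructor
    · intro h
      exact ⟨fun i => h (Sum.inl i), h (Sum.inr ())⟩
    · rintro ⟨h, h'⟩ (i | i)
      · exact h i
      · exact h'
  rw [cnt_congr h3]
  unfold cnt
  congr 1
  apply Nat.card_congr
  refine
    { toFun := fun x => ⟨fun s => x.1 (Sum.inl s), ?_⟩
      invFun := fun x => ⟨Sum.elim x.1 (ev x.1), rfl, ?_⟩
      left_inv := ?_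
      right_inv := ?_ }
  · have hx : Sum.elim (fun s => x.1 (Sum.inl s)) (ev (fun s => x.1 (Sum.inl s))) = x.1 := by
      rw [← x.2.1]
      funext v
      cases v <;> rfl
    show MvPolynomial.aeval (fun s => x.1 (Sum.inl s)) F = 0
    rw [← h2, hx]
    exact x.2.2
  · show Sum.elim x.1 (ev x.1) out = 0
    rw [h2]
    exact x.2
  · rintro ⟨x, hx⟩
    apply Subtype.ext
    simp only
    rw [← hx.1]
    funext v
    cases v <;> rfl
  · rintro ⟨x, hx⟩
    rfl

end Pool.Agent.H73.Zeta
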