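import Pool.Agent.H73.ZetaAnal
import Pool.Agent.H73.ZetaPoly

/-!
The two families of zeta functions: projective schemes over `ℤ[1/N]` and trilinear forms.
-/

namespace Pool.Agent.H73.Zeta

open scoped LinearAlgebra.Projectivization

/-- The field with `p ^ k` elements. -/
abbrev FF (p : Nat.Primes) (k : ℕ) : Type :=
  @GaloisField (p : ℕ) ⟨p.2⟩ k

/-- The numbers of points of the closed subscheme `X` of the projective space over `ℤ[1/N]` with
homogeneous coordinates indexed by `σ`, defined by a finite set `F` of homogeneous polynomials: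
for `p` not dividing `N` and `k ≥ 1`, the number of points of `X` over the field with `p ^ k`
elements, and `0` for `p` dividing `N`. -/
noncomputable def projCount {σ : Type} (F : Finset (MvPolynomial σ ℤ)) (N : ℕ) : Counts :=
  fun p k => if (p : ℕ) ∣ N then 0 else
    (Nat.card {x : ℙ (FF p k) (σ → FF p k) // ∀ f ∈ F, MvPolynomial.aeval x.rep f = 0} : ℤ)

/-- The numbers of points of the affine hypersurface `T (x, y, z) = 0`, where `T` is the trilinear
form with coefficients `T i j l`. -/
noncomputable def triCount {a b c : ℕ} (T : Fin a → Fin b → Fin c → ℤ) : Counts :=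
  fun p k => (Nat.card {z : (Fin a → FF p k) × (Fin b → FF p k) × (Fin c → FF p k) //
    ∑ i, ∑ j, ∑ l, (T i j l : FF p k) * z.1 i * z.2.1 j * z.2.2 l = 0} : ℤ)

end Pool.Agent.H73.Zeta
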