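import Pool.Agent.H73.ZetaDefs

/-!
The reduction to trilinear forms.
-/

namespace Pool.Agent.H73.Zeta

open scoped LinearAlgebra.Projectivization
open Finset

theorem card_FF (p : Nat.Primes) {k : ℕ} (hk : k ≠ 0) : (Nat.card (FF p k) : ℤ) = (p : ℤ) ^ k := by
  have : Fact (p : ℕ).Prime := ⟨p.2⟩
  have := GaloisField.card (p : ℕ) k hk
  exact_mod_cast this

instance finite_FF (p : Nat.Primes) (k : ℕ) : Finite (FF p k) := by
  have : Fact (p : ℕ).Prime := ⟨p.2⟩
  infer_instance

/-- Good and polynomially bounded. -/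
def GB (E : Set ℝ) (N : Counts) : Prop := Good E N ∧ Bdd N

variable {E : Set ℝ}

theorem GB.congr {N M : Counts} (h : ∀ p k, k ≠ 0 → N p k = M p k) (hN : GB E N) : GB E M :=
  ⟨hN.1.congr h, hN.2.congr h⟩

theorem GB.add {N M : Counts} (hN : GB E N) (hM : GB E M) : GB E (fun p k => N p k + M p k) :=
  ⟨hN.1.add hM.1 hN.2 hM.2, hN.2.add hM.2⟩

theorem GB.neg {N : Counts} (hN : GB E N) : GB E (fun p k => - N p k) := ⟨hN.1.neg, hN.2.neg⟩

theorem GB.sub {N M : Counts} (hN : GB E N) (hM : GB E M) : GB E (fun p k => N p k - M p k) := by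
  have := hN.add hM.neg
  simpa only [sub_eq_add_neg] using this

theorem GB.shift (hE : ∀ x : ℝ, x + 1 ∈ E ↔ x ∈ E) {N : Counts} (hN : GB E N) (j : ℕ) :
    GB E (fun p k => ((p : ℤ) ^ k) ^ j * N p k) := by
  have h : GB E (fun p k => (p : ℤ) ^ (k * j) * N p k) := ⟨hN.1.shift hE j, hN.2.shift j⟩
  simpa only [pow_mul] using h

theorem Bdd.of_mul {N c : Counts} (hc : ∀ (p : Nat.Primes) (k : ℕ), k ≠ 0 → 1 ≤ c p k)
    (h : Bdd (fun p k => c p k * N p k)) : Bdd N := by
  obtain ⟨C, d, hC⟩ := h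
  refine ⟨C, d, fun p k hk => le_trans ?_ (hC p k hk)⟩
  have h1 : (1 : ℝ) ≤ (c p k : ℝ) := by exact_mod_cast hc p k hk
  push_cast
  rw [abs_mul, abs_of_nonneg (by linarith : (0 : ℝ) ≤ c p k)]
  nlinarith [abs_nonneg (N p k : ℝ)]

theorem GB.unshift (hE : ∀ x : ℝ, x + 1 ∈ E ↔ x ∈ E) {N : Counts} {j : ℕ}
    (hN : GB E (fun p k => ((p : ℤ) ^ k) ^ j * N p k)) : GB E N := by
  have h : GB E (fun p k => (p : ℤ) ^ (k * j) * N p k) := by simpa only [pow_mul] using hN
  refine ⟨h.1.unshift hE, Bdd.of_mul (fun p k _ => ?_) h.2⟩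
  have : (1 : ℤ) ≤ p := by exact_mod_cast p.2.one_lt.le
  exact one_le_pow₀ this

theorem GB.div (hE : ∀ x : ℝ, x + 1 ∈ E ↔ x ∈ E) {N : Counts}
    (hN : GB E (fun p k => ((p : ℤ) ^ k - 1) * N p k)) : GB E N := by
  have hb : Bdd N := by
    refine Bdd.of_mul (fun p k hk => ?_) hN.2
    have h2 : (2 : ℤ) ≤ p := by exact_mod_cast p.2.two_le
    have : (2 : ℤ) ≤ (p : ℤ) ^ k := by
      calc (2 : ℤ) = 2 ^ 1 := by norm_num
        _ ≤ 2 ^ k := pow_le_pow_right₀ (by norm_num) (Nat.one_le_iff_ne_zero.2 hk)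
        _ ≤ (p : ℤ) ^ k := pow_le_pow_left₀ (by norm_num) h2 k
    linarith
  exact ⟨hN.1.div_sub_one hE hb, hb⟩

theorem bdd_cnt {α : Nat.Primes → ℕ → Type} [∀ p k, Finite (α p k)]
    (d : ℕ) (hα : ∀ p k, k ≠ 0 → (Nat.card (α p k) : ℤ) = ((p : ℤ) ^ k) ^ d)
    (P : ∀ p k, α p k → Prop) : Bdd (fun p k => cnt (P p k)) := by
  refine ⟨1, d, fun p k hk => ?_⟩
  have h1 := cnt_le (P p k)
  rw [hα p k hk] at h1
  have h2 := cnt_nonneg (P p k)
  rw [abs_of_nonneg (by exact_mod_cast h2), Nat.cast_one, one_mul, pow_mul]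
  exact_mod_cast h1

/-- The hypothesis on trilinear forms. -/
def Tri (E : Set ℝ) : Prop := ∀ (a b c : ℕ) (T : Fin a → Fin b → Fin c → ℤ),
  (∀ i j l, T i j l = -1 ∨ T i j l = 0 ∨ T i j l = 1) → Good E (triCount T)

section tri

variable (hT : Tri E)
include hT

theorem gb_tri {α β γ : Type} [Fintype α] [Fintype β] [Fintype γ] (T : α → β → γ → ℤ)
    (h : ∀ i j l, T i j l = -1 ∨ T i j l = 0 ∨ T i j l = 1) :
    GB E (fun p k => cnt (fun z : (α → FF p k) × (β → FF p k) × (γ → FF p k) =>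
      ∑ i, ∑ j, ∑ l, (T i j l : FF p k) * z.1 i * z.2.1 j * z.2.2 l = 0)) := by
  classical
  constructor
  · let ea := Fintype.equivFin α
    let eb := Fintype.equivFin β
    let ec := Fintype.equivFin γ
    have h1 := hT _ _ _ (fun i j l => T (ea.symm i) (eb.symm j) (ec.symm l))
      (fun i j l => h _ _ _)
    refine h1.congr (fun p k _ => ?_)
    let e : (α → FF p k) × (β → FF p k) × (γ → FF p k) ≃
        (Fin (Fintype.card α) → FF p k) × (Fin (Fintype.card β) → FF p k) ×
          (Fin (Fintype.card γ) → FF p k) :=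
      (Equiv.arrowCongr ea (Equiv.refl _)).prodCongr
        ((Equiv.arrowCongr eb (Equiv.refl _)).prodCongr (Equiv.arrowCongr ec (Equiv.refl _)))
    have key : ∀ z : (α → FF p k) × (β → FF p k) × (γ → FF p k),
        ∑ i, ∑ j, ∑ l, (T (ea.symm i) (eb.symm j) (ec.symm l) : FF p k) * (e z).1 i *
          (e z).2.1 j * (e z).2.2 l =
        ∑ i, ∑ j, ∑ l, (T i j l : FF p k) * z.1 i * z.2.1 j * z.2.2 l := by
      intro z
      rw [← Equiv.sum_comp ea]
      apply Finset.sum_congr rfl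
      intro i _
      rw [← Equiv.sum_comp eb]
      apply Finset.sum_congr rfl
      intro j _
      rw [← Equiv.sum_comp ec]
      apply Finset.sum_congr rfl
      intro l _
      simp [e, Equiv.arrowCongr]
    have h2 := cnt_equiv e (fun z : (Fin (Fintype.card α) → FF p k) ×
      (Fin (Fintype.card β) → FF p k) × (Fin (Fintype.card γ) → FF p k) =>
      ∑ i, ∑ j, ∑ l, (T (ea.symm i) (eb.symm j) (ec.symm l) : FF p k) * z.1 i * z.2.1 j * z.2.2 l
        = 0)
    have h3 : triCount (fun i j l => T (ea.symm i) (eb.symm j) (ec.symm l)) p k =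
        cnt (fun z : (Fin (Fintype.card α) → FF p k) ×
          (Fin (Fintype.card β) → FF p k) × (Fin (Fintype.card γ) → FF p k) =>
          ∑ i, ∑ j, ∑ l, (T (ea.symm i) (eb.symm j) (ec.symm l) : FF p k) * z.1 i * z.2.1 j *
            z.2.2 l = 0) := rfl
    rw [h3, ← h2]
    exact cnt_congr (fun z => by rw [key z])
  · apply bdd_cnt (Fintype.card α + (Fintype.card β + Fintype.card γ))
    intro p k hk
    rw [Nat.card_prod, Nat.card_prod]
    push_cast
    rw [card_fun, card_fun, card_fun, card_FF p hk]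
    ring

theorem gb_one : GB E (fun _ _ => 1) := by
  have h := gb_tri hT (α := Empty) (β := Empty) (γ := Empty) (fun i => i.elim) (fun i => i.elim)
  refine h.congr (fun p k _ => ?_)
  have : cnt (fun z : (Empty → FF p k) × (Empty → FF p k) × (Empty → FF p k) =>
      ∑ i, ∑ j, ∑ l, (((fun i : Empty => i.elim : Empty → Empty → Empty → ℤ) i j l : ℤ) : FF p k) *
        z.1 i * z.2.1 j * z.2.2 l = 0) =
      cnt (fun _ : (Empty → FF p k) × (Empty → FF p k) × (Empty → FF p k) => True) := by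
    apply cnt_congr
    intro z
    simp
  rw [this, cnt_true]
  simp

variable (hE : ∀ x : ℝ, x + 1 ∈ E ↔ x ∈ E)
include hE

theorem gb_pow (j : ℕ) : GB E (fun p k => ((p : ℤ) ^ k) ^ j) := by
  have := (gb_one hT).shift hE j
  simpa only [mul_one] using this

/-- From one equation with multipliers back to the system. -/
theorem gb_unmult {ι : Type} [Fintype ι] (W : Nat.Primes → ℕ → Type) [∀ p k, Finite (W p k)]
    (w : ℕ) (hW : ∀ p k, k ≠ 0 → (Nat.card (W p k) : ℤ) = ((p : ℤ) ^ k) ^ w)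
    (h : ∀ p k, ι → W p k → FF p k)
    (H : GB E (fun p k => cnt (fun z : (ι → FF p k) × W p k => ∑ i, z.1 i * h p k i z.2 = 0))) :
    GB E (fun p k => cnt (fun x : W p k => ∀ i, h p k i x = 0)) := by
  apply GB.unshift hE (j := Fintype.card ι)
  apply GB.div hE
  have h1 := (H.shift hE 1).sub (gb_pow hT hE (Fintype.card ι + w))
  refine h1.congr (fun p k hk => ?_)
  have h2 := cnt_mult (h p k)
  rw [card_FF p hk, hW p k hk] at h2
  linear_combination h2

/-- Bilinear equations on pairs of proportional vectors. -/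
theorem gb_pairs {τ ε : Type} [Fintype τ] [Fintype ε] (Q : ε → τ → τ → ℤ)
    (hQ : ∀ e a b, Q e a b = -1 ∨ Q e a b = 0 ∨ Q e a b = 1) :
    GB E (fun p k => cnt (fun z : (τ → FF p k) × (τ → FF p k) =>
      (∀ a b, z.1 a * z.2 b = z.1 b * z.2 a) ∧ ∀ e, bil (Q e) z.1 z.2 = 0)) := by
  classical
  let B : ε ⊕ τ × τ → τ → τ → ℤ := Sum.elim Q (fun ab a b =>
    (if a = ab.1 ∧ b = ab.2 then 1 else 0) - (if a = ab.2 ∧ b = ab.1 then 1 else 0))
  have hB : ∀ i a b, B i a b = -1 ∨ B i a b = 0 ∨ B i a b = 1 := by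
    rintro (e | ⟨a', b'⟩) a b
    · exact hQ e a b
    · simp only [B, Sum.elim_inr]
      split_ifs <;> simp
  have hBil : ∀ (p : Nat.Primes) (k : ℕ) (a b : τ) (u v : τ → FF p k),
      bil (B (Sum.inr (a, b))) u v = u a * v b - u b * v a := by
    intro p k a b u v
    unfold bil
    simp only [B, Sum.elim_inr]
    push_cast
    simp only [sub_mul, Finset.sum_sub_distrib]
    congr 1
    · rw [Finset.sum_eq_single a, Finset.sum_eq_single b]
      · simp
      · intro c _ hc
        simp [hc]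
      · simp
      · intro c _ hc
        simp [hc]
      · simp
    · rw [Finset.sum_eq_single b, Finset.sum_eq_single a]
      · simp
      · intro c _ hc
        simp [hc]
      · simp
      · intro c _ hc
        simp [hc]
      · simp
  have h1 := gb_unmult hT hE (ι := ε ⊕ τ × τ) (fun p k => (τ → FF p k) × (τ → FF p k))
    (2 * Fintype.card τ) (fun p k hk => by
      rw [Nat.card_prod]
      push_cast
      rw [card_fun, card_FF p hk]
      ring)
    (fun p k i w => bil (B i) w.1 w.2) ((gb_tri hT B hB).congr (fun p k _ => by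
      apply cnt_congr
      intro z
      unfold bil
      simp only [Finset.mul_sum]
      have : ∑ i, ∑ j, ∑ l, (B i j l : FF p k) * z.1 i * z.2.1 j * z.2.2 l =
          ∑ i, ∑ j, ∑ l, z.1 i * ((B i j l : FF p k) * z.2.1 j * z.2.2 l) := by
        apply Finset.sum_congr rfl
        intro i _
        apply Finset.sum_congr rfl
        intro j _
        apply Finset.sum_congr rfl
        intro l _
        ring
      rw [this]))
  refine h1.congr (fun p k _ => cnt_congr fun w => ?_)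
  constructor
  · intro h
    refine ⟨fun a b => ?_, fun e => h (Sum.inl e)⟩
    have := h (Sum.inr (a, b))
    rw [hBil] at this
    exact sub_eq_zero.1 this
  · rintro ⟨h, h'⟩ (e | ⟨a, b⟩)
    · exact h' e
    · rw [hBil]
      exact sub_eq_zero.2 (h a b)

theorem gb_hom {τ ε : Type} [Fintype τ] [Fintype ε] (Q : ε → τ → τ → ℤ)
    (hQ : ∀ e a b, Q e a b = -1 ∨ Q e a b = 0 ∨ Q e a b = 1) :
    GB E (fun p k => cnt (fun u : τ → FF p k => u ≠ 0 ∧ ∀ e, bil (Q e) u u = 0)) := by
  apply GB.div hE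
  have h1 := (((gb_pairs hT hE Q hQ).add (gb_one hT)).sub
    (gb_pow hT hE (Fintype.card τ))).sub (gb_pow hT hE (Fintype.card τ))
  refine h1.congr (fun p k hk => ?_)
  have h2 := cnt_pairs (K := FF p k) Q
  rw [card_FF p hk] at h2
  linear_combination h2

theorem gb_quad {V ε : Type} [Fintype V] [Fintype ε] (Q : ε → Option V → Option V → ℤ)
    (hQ : ∀ e a b, Q e a b = -1 ∨ Q e a b = 0 ∨ Q e a b = 1) :
    GB E (fun p k => cnt (fun x : V → FF p k =>
      ∀ e, bil (Q e) (fun a => Option.elim a 1 x) (fun a => Option.elim a 1 x) = 0)) := by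
  apply GB.div hE
  have h1 := (gb_hom hT hE Q hQ).sub
    (gb_hom hT hE (fun e a b => Q e (some a) (some b)) (fun e a b => hQ e _ _))
  refine h1.congr (fun p k hk => ?_)
  have h2 := cnt_dehom (K := FF p k) Q
  rw [card_FF p hk] at h2
  linear_combination h2

theorem gb_poly {σ : Type} [Finite σ] (F : MvPolynomial σ ℤ) :
    GB E (fun p k => cnt (fun x : σ → FF p k => MvPolynomial.aeval x F = 0)) := by
  obtain ⟨V, ε, _, _, Q, hQ, h⟩ := quadratic F
  exact (gb_quad hT hE Q hQ).congr (fun p k _ => h (FF p k))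

/-- Systems of polynomial equations. -/
theorem gb_system {σ ι : Type} [Fintype σ] [Fintype ι] (F : ι → MvPolynomial σ ℤ) :
    GB E (fun p k => cnt (fun x : σ → FF p k => ∀ i, MvPolynomial.aeval x (F i) = 0)) := by
  classical
  refine gb_unmult hT hE (fun p k => σ → FF p k) (Fintype.card σ) (fun p k hk => by
    rw [card_fun, card_FF p hk]) (fun p k i x => MvPolynomial.aeval x (F i)) ?_
  have h1 := gb_poly hT hE (σ := ι ⊕ σ)
    (∑ i, MvPolynomial.X (Sum.inl i) * MvPolynomial.rename Sum.inr (F i))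
  refine h1.congr (fun p k _ => ?_)
  rw [← cnt_equiv (Equiv.sumArrowEquivProdArrow ι σ (FF p k)).symm]
  apply cnt_congr
  rintro ⟨l, x⟩
  rw [map_sum]
  have : ∀ i, MvPolynomial.aeval ((Equiv.sumArrowEquivProdArrow ι σ (FF p k)).symm (l, x))
      (MvPolynomial.X (Sum.inl i) * MvPolynomial.rename Sum.inr (F i)) =
      l i * MvPolynomial.aeval x (F i) := by
    intro i
    rw [map_mul, MvPolynomial.aeval_X, MvPolynomial.aeval_rename]
    rfl
  simp only [this]

end tri

end Pool.Agent.H73.Zeta
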